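import Mathlib

open Polynomial

namespace Pool.Agent.H68

section defs
variable (K : Type*) [CommRing K] [Algebra ℂ K]

/-- `O` is a valuation ring of `K` containing `ℂ` (a place of `K / ℂ`, possibly trivial). -/
def IsPlace (O : Subalgebra ℂ K) : Prop := ∀ x : K, x ∈ O ∨ ∃ y ∈ O, x * y = 1

/-- Differentials regular at `O`. -/
noncomputable def regularAt (O : Subalgebra ℂ K) : Submodule ℂ (Ω[K⁄ℂ]) :=
  (Submodule.span O (Set.range fun a : O => KaehlerDifferential.D ℂ K a)).restrictScalars ℂ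

/-- Everywhere regular differentials. -/
noncomputable def regularDifferentials : Submodule ℂ (Ω[K⁄ℂ]) :=
  ⨅ (O : Subalgebra ℂ K) (_ : IsPlace K O), regularAt K O

/-- The genus of the function field `K / ℂ`. -/
noncomputable def genus : ℕ := Module.finrank ℂ (regularDifferentials K)

end defs

section field

variable {K : Type*} [Field K] [Algebra ℂ K]

theorem mem_or_inv_mem {O : Subalgebra ℂ K} (hO : IsPlace K O) (x : K) : x ∈ O ∨ x⁻¹ ∈ O := by
  rcases hO x with h | ⟨y, hy, hxy⟩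
  · exact Or.inl h
  · right
    have : x⁻¹ = y := inv_eq_of_mul_eq_one_right hxy
    rwa [this]

theorem mem_regularAt_iff {O : Subalgebra ℂ K} {ω : Ω[K⁄ℂ]} :
    ω ∈ regularAt K O ↔
      ω ∈ Submodule.span O (Set.range fun a : O => KaehlerDifferential.D ℂ K a) := Iff.rfl

theorem D_mem_regularAt {O : Subalgebra ℂ K} {x : K} (hx : x ∈ O) :
    KaehlerDifferential.D ℂ K x ∈ regularAt K O :=
  Submodule.subset_span ⟨⟨x, hx⟩, rfl⟩

theorem smul_mem_regularAt {O : Subalgebra ℂ K} {ω : Ω[K⁄ℂ]} {c : K} (hc : c ∈ O)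
    (h : ω ∈ regularAt K O) : c • ω ∈ regularAt K O := by
  have := Submodule.smul_mem (Submodule.span O (Set.range fun a : O => KaehlerDifferential.D ℂ K a))
    (⟨c, hc⟩ : O) h
  exact this

/-- If `ℓ : Ω → K` is `K`-linear, and `ℓ (D a) ∈ O` for each `a ∈ O`, then `ℓ ω ∈ O` for each `ω`
regular at `O`. -/
theorem map_mem_of_mem_regularAt {O : Subalgebra ℂ K} {ω : Ω[K⁄ℂ]} (ℓ : Ω[K⁄ℂ] →ₗ[K] K)
    (hℓ : ∀ a ∈ O, ℓ (KaehlerDifferential.D ℂ K a) ∈ O) (h : ω ∈ regularAt K O) : ℓ ω ∈ O := by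
  rw [mem_regularAt_iff] at h
  induction h using Submodule.span_induction with
  | mem x hx =>
    obtain ⟨a, rfl⟩ := hx
    exact hℓ a a.2
  | zero => simp
  | add x y _ _ hx hy => rw [map_add]; exact O.add_mem hx hy
  | smul a x _ hx =>
    have : (a • x : Ω[K⁄ℂ]) = (a : K) • x := rfl
    rw [this, map_smul]
    exact O.mul_mem a.2 hx

/-! ### Local rings of points -/

section loc

variable {R : Type*} [CommRing R] [Algebra ℂ R]

/-- The local ring of a point: all `φ p / φ q` with `ψ q ≠ 0`. -/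
def locO (φ : R →ₐ[ℂ] K) (ψ : R →ₐ[ℂ] ℂ) : Subalgebra ℂ K where
  carrier := {h | ∃ p q, ψ q ≠ 0 ∧ h * φ q = φ p}
  mul_mem' := by
    rintro a b ⟨p, q, hq, h⟩ ⟨p', q', hq', h'⟩
    refine ⟨p * p', q * q', ?_, ?_⟩
    · rw [map_mul]; exact mul_ne_zero hq hq'
    · rw [map_mul, map_mul, ← h, ← h']; ring
  add_mem' := by
    rintro a b ⟨p, q, hq, h⟩ ⟨p', q', hq', h'⟩
    refine ⟨p * q' + p' * q, q * q', ?_, ?_⟩
    · rw [map_mul]; exact mul_ne_zero hq hq'
    · rw [map_mul, map_add, map_mul, map_mul, ← h, ← h']; ring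
  algebraMap_mem' c := ⟨algebraMap ℂ R c, 1, by simp, by simp⟩

variable {φ : R →ₐ[ℂ] K} {ψ : R →ₐ[ℂ] ℂ}

theorem mem_locO {h : K} : h ∈ locO φ ψ ↔ ∃ p q, ψ q ≠ 0 ∧ h * φ q = φ p := Iff.rfl

theorem φ_mem_locO (r : R) : φ r ∈ locO φ ψ := ⟨r, 1, by simp, by simp⟩

theorem inv_mem_locO (hker : ∀ r, φ r = 0 → ψ r = 0) {r : R} (hr : ψ r ≠ 0) :
    (φ r)⁻¹ ∈ locO φ ψ := by
  have : φ r ≠ 0 := fun h => hr (hker r h)
  exact ⟨1, r, hr, by simp [this]⟩

theorem ℓD_mem_locO (hker : ∀ r, φ r = 0 → ψ r = 0) (ℓ : Ω[K⁄ℂ] →ₗ[K] K)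
    (hℓ : ∀ r, ℓ (KaehlerDifferential.D ℂ K (φ r)) ∈ locO φ ψ) (h : K) (hh : h ∈ locO φ ψ) :
    ℓ (KaehlerDifferential.D ℂ K h) ∈ locO φ ψ := by
  obtain ⟨p, q, hq, e⟩ := id hh
  have hq0 : φ q ≠ 0 := fun h => hq (hker q h)
  have e2 := congrArg (fun y => ℓ (KaehlerDifferential.D ℂ K y)) e
  simp only [Derivation.leibniz, map_add, map_smul, smul_eq_mul] at e2
  have e3 : ℓ (KaehlerDifferential.D ℂ K h) = (φ q)⁻¹ *
      (ℓ (KaehlerDifferential.D ℂ K (φ p)) - h * ℓ (KaehlerDifferential.D ℂ K (φ q))) := by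
    rw [← e2]; field_simp; ring
  rw [e3]
  exact (locO φ ψ).mul_mem (inv_mem_locO hker hq)
    ((locO φ ψ).sub_mem (hℓ p) ((locO φ ψ).mul_mem hh (hℓ q)))

/-- Value of an element at the point is determined. -/
theorem value_unique (hker : ∀ r, φ r = 0 → ψ r = 0) {h : K} {p q p' q' : R} (hq : ψ q ≠ 0)
    (hq' : ψ q' ≠ 0) (e : h * φ q = φ p) (e' : h * φ q' = φ p') : ψ p / ψ q = ψ p' / ψ q' := by
  have h1 : φ (p * q' - p' * q) = 0 := by
    rw [map_sub, map_mul, map_mul, ← e, ← e']; ring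
  have h2 := hker _ h1
  rw [map_sub, map_mul, map_mul, sub_eq_zero] at h2
  field_simp
  linear_combination h2

/-- The local ring of a point with uniformizer `π` is a place. -/
theorem isPlace_locO (hker : ∀ r, φ r = 0 → ψ r = 0) (π : R)
    (hπ : ∀ h : K, h ≠ 0 → ∃ n : ℤ, ∃ p q : R, ψ p ≠ 0 ∧ ψ q ≠ 0 ∧ h * φ q = φ π ^ n * φ p) :
    IsPlace K (locO φ ψ) := by
  intro x
  by_cases hx : x = 0
  · left; rw [hx]; exact (locO φ ψ).zero_mem
  obtain ⟨n, p, q, hp, hq, e⟩ := hπ x hx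
  rcases le_total 0 n with hn | hn
  · left
    obtain ⟨k, rfl⟩ := Int.eq_ofNat_of_zero_le hn
    refine ⟨π ^ k * p, q, hq, ?_⟩
    rw [e, map_mul, map_pow, zpow_natCast]
  · right
    refine ⟨x⁻¹, ?_, mul_inv_cancel₀ hx⟩
    obtain ⟨k, hk⟩ := Int.eq_ofNat_of_zero_le (neg_nonneg.mpr hn)
    have hn' : n = -(k : ℤ) := by omega
    have hp0 : φ p ≠ 0 := fun h => hp (hker p h)
    have hq0 : φ q ≠ 0 := fun h => hq (hker q h)
    have hπ0 : φ π ^ k ≠ 0 := by
      intro h0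
      rw [hn', zpow_neg, zpow_natCast, h0, inv_zero, zero_mul] at e
      exact mul_ne_zero hx hq0 e
    refine ⟨π ^ k * q, p, hp, ?_⟩
    rw [hn', zpow_neg, zpow_natCast] at e
    rw [map_mul, map_pow]
    have : x = (φ π ^ k)⁻¹ * φ p / φ q := by
      rw [← e]; field_simp
    rw [this]
    field_simp

end loc

/-! ### Quadratic presentations -/

/-- `K` is the quadratic function field `ℂ(x, z)`, `z² = Q(x)`. -/
structure Quad (x z : K) (Q : ℂ[X]) : Prop where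
  sq : z ^ 2 = aeval x Q
  gen : ∀ h : K, ∃ a b q : ℂ[X], q ≠ 0 ∧ h * aeval x q = aeval x a + aeval x b * z
  ind : ∀ a b : ℂ[X], aeval x a + aeval x b * z = 0 → a = 0 ∧ b = 0

namespace Quad

variable {x z : K} {Q : ℂ[X]}

theorem inj (H : Quad x z Q) {a : ℂ[X]} (h : aeval x a = 0) : a = 0 :=
  (H.ind a 0 (by simpa using h)).1

theorem aeval_ne_zero (H : Quad x z Q) {a : ℂ[X]} (h : a ≠ 0) : aeval x a ≠ 0 :=
  fun h' => h (H.inj h')

theorem z_ne_zero (H : Quad x z Q) : z ≠ 0 := by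
  intro h
  have := (H.ind 0 1 (by simp [h])).2
  exact one_ne_zero this

theorem Q_ne_zero (H : Quad x z Q) : Q ≠ 0 := by
  intro h
  have := H.sq
  rw [h, map_zero] at this
  exact H.z_ne_zero (pow_eq_zero_iff (two_ne_zero) |>.mp this)

/-- The coordinate ring. -/
abbrev CR (Q : ℂ[X]) := AdjoinRoot (X ^ 2 - C Q : ℂ[X][X])

theorem cr_repr (Q : ℂ[X]) (r : CR Q) : ∃ a b : ℂ[X],
    r = algebraMap ℂ[X] (CR Q) a + algebraMap ℂ[X] (CR Q) b * AdjoinRoot.root (X ^ 2 - C Q) := by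
  obtain ⟨g, rfl⟩ := AdjoinRoot.mk_surjective r
  have hm : (X ^ 2 - C Q : ℂ[X][X]).Monic := monic_X_pow_sub_C Q two_ne_zero
  have h1 : AdjoinRoot.mk (X ^ 2 - C Q) g = AdjoinRoot.mk (X ^ 2 - C Q) (g %ₘ (X ^ 2 - C Q)) := by
    rw [AdjoinRoot.mk_eq_mk]
    refine ⟨g /ₘ (X ^ 2 - C Q), ?_⟩
    have := modByMonic_add_div g (X ^ 2 - C Q)
    linear_combination -this
  have h2 : (g %ₘ (X ^ 2 - C Q)).degree ≤ 1 := by
    have h3 := degree_modByMonic_lt g hm
    rw [degree_X_pow_sub_C (by norm_num : 0 < 2)] at h3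
    by_cases h0 : (g %ₘ (X ^ 2 - C Q)) = 0
    · rw [h0]; simp
    · rw [degree_eq_natDegree h0] at h3 ⊢
      have : (g %ₘ (X ^ 2 - C Q)).natDegree < 2 := by exact_mod_cast h3
      exact_mod_cast Nat.le_of_lt_succ this
  have h4 := eq_X_add_C_of_degree_le_one h2
  refine ⟨(g %ₘ (X ^ 2 - C Q)).coeff 0, (g %ₘ (X ^ 2 - C Q)).coeff 1, ?_⟩
  rw [h1]
  conv_lhs => rw [h4]
  rw [map_add, map_mul, AdjoinRoot.mk_X, AdjoinRoot.mk_C, AdjoinRoot.mk_C]
  rw [AdjoinRoot.algebraMap_eq]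
  ring

/-- evaluation at a solution of `z² = Q(x)`. -/
noncomputable def ev {A : Type*} [CommRing A] [Algebra ℂ A] (Q : ℂ[X]) (x z : A) (h : z ^ 2 = aeval x Q) :
    CR Q →ₐ[ℂ] A :=
  AdjoinRoot.liftAlgHom _ (aeval x) z (by simp [h])

theorem ev_repr {A : Type*} [CommRing A] [Algebra ℂ A] (Q : ℂ[X]) (x z : A)
    (h : z ^ 2 = aeval x Q) (a b : ℂ[X]) :
    ev Q x z h (algebraMap ℂ[X] (CR Q) a + algebraMap ℂ[X] (CR Q) b *
      AdjoinRoot.root (X ^ 2 - C Q)) = aeval x a + aeval x b * z := by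
  unfold ev
  rw [map_add, map_mul, AdjoinRoot.liftAlgHom_root, AdjoinRoot.algebraMap_eq,
    AdjoinRoot.liftAlgHom_of, AdjoinRoot.liftAlgHom_of]

theorem ev_alg {A : Type*} [CommRing A] [Algebra ℂ A] (Q : ℂ[X]) (x z : A)
    (h : z ^ 2 = aeval x Q) (a : ℂ[X]) :
    ev Q x z h (algebraMap ℂ[X] (CR Q) a) = aeval x a := by
  simpa using ev_repr Q x z h a 0

theorem ev_root {A : Type*} [CommRing A] [Algebra ℂ A] (Q : ℂ[X]) (x z : A)
    (h : z ^ 2 = aeval x Q) :
    ev Q x z h (AdjoinRoot.root (X ^ 2 - C Q)) = z := by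
  simpa using ev_repr Q x z h 0 1

theorem ev_ker (H : Quad x z Q) {a b : ℂ} (hab : b ^ 2 = aeval a Q) (r : CR Q)
    (hr : ev Q x z H.sq r = 0) : ev Q a b hab r = 0 := by
  obtain ⟨p₀, p₁, rfl⟩ := cr_repr Q r
  rw [ev_repr] at hr
  obtain ⟨rfl, rfl⟩ := H.ind _ _ hr
  simp

theorem ind_div (a : ℂ) (P : ℂ[X] → ℂ[X] → Prop)
    (hbase : ∀ p q, (eval a p ≠ 0 ∨ eval a q ≠ 0) → P p q)
    (hstep : ∀ p q, P p q → P ((X - C a) * p) ((X - C a) * q)) :
    ∀ p q, (p ≠ 0 ∨ q ≠ 0) → P p q := by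
  have key : ∀ n : ℕ, ∀ p q : ℂ[X], p.natDegree + q.natDegree ≤ n → (p ≠ 0 ∨ q ≠ 0) → P p q := by
    intro n
    induction n with
    | zero =>
      intro p q hn hpq
      apply hbase
      have hp : p.natDegree = 0 := by omega
      have hq : q.natDegree = 0 := by omega
      rw [eq_C_of_natDegree_eq_zero hp, eq_C_of_natDegree_eq_zero hq] at hpq
      rw [eq_C_of_natDegree_eq_zero hp, eq_C_of_natDegree_eq_zero hq]
      simpa using hpq
    | succ n ih =>
      intro p q hn hpq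
      by_cases h : eval a p ≠ 0 ∨ eval a q ≠ 0
      · exact hbase p q h
      · push Not at h
        obtain ⟨p', hp'⟩ := dvd_iff_isRoot.mpr h.1
        obtain ⟨q', hq'⟩ := dvd_iff_isRoot.mpr h.2
        rw [hp', hq']
        apply hstep
        have hpq' : p' ≠ 0 ∨ q' ≠ 0 := by
          rcases hpq with h | h
          · left; rintro rfl; exact h (by rw [hp', mul_zero])
          · right; rintro rfl; exact h (by rw [hq', mul_zero])
        apply ih _ _ _ hpq'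
        have d1 : p' ≠ 0 → p.natDegree = p'.natDegree + 1 := fun h => by
          rw [hp', natDegree_mul (X_sub_C_ne_zero a) h, natDegree_X_sub_C, add_comm]
        have d2 : q' ≠ 0 → q.natDegree = q'.natDegree + 1 := fun h => by
          rw [hq', natDegree_mul (X_sub_C_ne_zero a) h, natDegree_X_sub_C, add_comm]
        by_cases h1 : p' = 0
        · have h2 : q' ≠ 0 := by tauto
          have := d2 h2
          rw [h1] at hp' ⊢
          simp at hp' ⊢
          omega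
        · have := d1 h1
          by_cases h2 : q' = 0
          · rw [h2]; simp; omega
          · have := d2 h2; omega
  intro p q h
  exact key _ p q le_rfl h

/-- Uniformizer property, from the property for elements of the coordinate ring. -/
theorem unif_of (H : Quad x z Q) {a b : ℂ} (hab : b ^ 2 = aeval a Q) (π : CR Q)
    (hπ0 : ev Q x z H.sq π ≠ 0)
    (hπ : ∀ p₀ p₁ : ℂ[X], (p₀ ≠ 0 ∨ p₁ ≠ 0) → ∃ n : ℕ, ∃ p q : CR Q,
      ev Q a b hab p ≠ 0 ∧ ev Q a b hab q ≠ 0 ∧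
      (aeval x p₀ + aeval x p₁ * z) * ev Q x z H.sq q = ev Q x z H.sq π ^ n * ev Q x z H.sq p)
    (h : K) (hh : h ≠ 0) : ∃ n : ℤ, ∃ p q : CR Q,
      ev Q a b hab p ≠ 0 ∧ ev Q a b hab q ≠ 0 ∧
      h * ev Q x z H.sq q = ev Q x z H.sq π ^ n * ev Q x z H.sq p := by
  obtain ⟨c₀, c₁, q, hq, e⟩ := H.gen h
  have hc : c₀ ≠ 0 ∨ c₁ ≠ 0 := by
    by_contra hcon
    push Not at hcon
    rw [hcon.1, hcon.2] at e
    simp only [map_zero, zero_mul, add_zero, mul_eq_zero] at e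
    exact e.elim hh (H.aeval_ne_zero hq)
  obtain ⟨n, p₁, q₁, hp₁, hq₁, e₁⟩ := hπ q 0 (Or.inl hq)
  obtain ⟨m, p₂, q₂, hp₂, hq₂, e₂⟩ := hπ c₀ c₁ hc
  refine ⟨(m : ℤ) - n, p₂ * q₁, p₁ * q₂, ?_, ?_, ?_⟩
  · rw [map_mul]; exact mul_ne_zero hp₂ hq₁
  · rw [map_mul]; exact mul_ne_zero hp₁ hq₂
  · rw [map_mul, map_mul, zpow_sub₀ hπ0, zpow_natCast, zpow_natCast]
    simp only [map_zero, zero_mul, add_zero] at e₁
    rw [← e] at e₂
    have hn : ev Q x z H.sq π ^ n ≠ 0 := pow_ne_zero _ hπ0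
    field_simp
    linear_combination (ev Q x z H.sq q₁) * e₂ - h * (ev Q x z H.sq q₂) * e₁

/-- unramified points -/
theorem isPlace_unramified (H : Quad x z Q) {a b : ℂ} (hab : b ^ 2 = aeval a Q) (hb : b ≠ 0) :
    IsPlace K (locO (ev Q x z H.sq) (ev Q a b hab)) := by
  have hx : ev Q x z H.sq (algebraMap ℂ[X] (CR Q) (X - C a)) ≠ 0 := by
    rw [ev_alg]; exact H.aeval_ne_zero (X_sub_C_ne_zero a)
  apply isPlace_locO (H.ev_ker hab) (algebraMap ℂ[X] (CR Q) (X - C a))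
  apply H.unif_of hab _ hx
  apply ind_div a
  · intro p₀ p₁ h
    by_cases hv : eval a p₀ + eval a p₁ * b = 0
    · have hv' : eval a p₀ - eval a p₁ * b ≠ 0 := by
        intro hv'
        have h1 : eval a p₀ = 0 := by linear_combination (hv + hv') / 2
        have h2 : eval a p₁ * b = 0 := by linear_combination (hv - hv') / 2
        rcases h with h | h
        · exact h h1
        · exact (mul_ne_zero h hb) h2
      have hN : p₀ ^ 2 - p₁ ^ 2 * Q ≠ 0 := by
        intro hN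
        have h3 : (aeval x p₀ + aeval x p₁ * z) * (aeval x p₀ + aeval x (-p₁) * z) = 0 := by
          have := congrArg (aeval x) hN
          simp only [map_sub, map_mul, map_pow, map_zero] at this
          rw [← H.sq] at this
          rw [map_neg]
          linear_combination this
        rcases mul_eq_zero.mp h3 with h3 | h3
        · obtain ⟨rfl, rfl⟩ := H.ind _ _ h3
          simp at h
        · obtain ⟨rfl, h4⟩ := H.ind _ _ h3
          rw [neg_eq_zero] at h4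
          subst h4
          simp at h
      obtain ⟨N', hN', hN''⟩ := exists_eq_pow_rootMultiplicity_mul_and_not_dvd _ hN a
      rw [dvd_iff_isRoot, IsRoot.def] at hN''
      refine ⟨rootMultiplicity a (p₀ ^ 2 - p₁ ^ 2 * Q), algebraMap ℂ[X] (CR Q) N',
        algebraMap ℂ[X] (CR Q) p₀ + algebraMap ℂ[X] (CR Q) (-p₁)
        * AdjoinRoot.root (X ^ 2 - C Q), ?_, ?_, ?_⟩
      · rw [ev_alg]; simpa [aeval_def] using hN''
      · rw [ev_repr]
        simp only [map_neg, coe_aeval_eq_eval]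
        intro h5; apply hv'; linear_combination h5
      · rw [ev_repr, ev_alg, ev_alg, map_neg]
        have := congrArg (aeval x) hN'
        simp only [map_sub, map_mul, map_pow] at this
        rw [← H.sq] at this
        rw [map_sub, ← this]
        ring
    · refine ⟨0, algebraMap ℂ[X] (CR Q) p₀ + algebraMap ℂ[X] (CR Q) (p₁)
        * AdjoinRoot.root (X ^ 2 - C Q), 1, ?_, ?_, ?_⟩
      · rw [ev_repr]; simpa [coe_aeval_eq_eval] using hv
      · simp
      · rw [ev_repr]; simp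
  · rintro p₀ p₁ ⟨n, p, q, hp, hq, e⟩
    refine ⟨n + 1, p, q, hp, hq, ?_⟩
    rw [ev_alg] at e ⊢
    simp only [map_mul]
    have hp' := pow_succ (aeval x (X - C a)) n
    rw [hp']
    linear_combination (aeval x (X - C a)) * e

/-- ramified points -/
theorem isPlace_ramified (H : Quad x z Q) {a : ℂ} (hab : (0:ℂ) ^ 2 = aeval a Q) {Q₁ : ℂ[X]}
    (hQ₁ : Q = (X - C a) * Q₁) (hQ₁a : eval a Q₁ ≠ 0) :
    IsPlace K (locO (ev Q x z H.sq) (ev Q a 0 hab)) := by
  have hz : ev Q x z H.sq (AdjoinRoot.root (X ^ 2 - C Q)) ≠ 0 := by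
    rw [ev_root]; exact H.z_ne_zero
  have hsq : z ^ 2 = (x - algebraMap ℂ K a) * aeval x Q₁ := by
    rw [H.sq]
    conv_lhs => rw [hQ₁]
    simp
  apply isPlace_locO (H.ev_ker hab) (AdjoinRoot.root (X ^ 2 - C Q))
  apply H.unif_of hab _ hz
  apply ind_div a
  · intro p₀ p₁ h
    by_cases hv : eval a p₀ = 0
    · have hv' : eval a p₁ ≠ 0 := by tauto
      obtain ⟨p₃, hp₃⟩ := dvd_iff_isRoot.mpr hv
      refine ⟨1, algebraMap ℂ[X] (CR Q) (p₁ * Q₁) + algebraMap ℂ[X] (CR Q) p₃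
        * AdjoinRoot.root (X ^ 2 - C Q), algebraMap ℂ[X] (CR Q) Q₁, ?_, ?_, ?_⟩
      · rw [ev_repr]
        simp only [coe_aeval_eq_eval, eval_mul, mul_zero, add_zero]
        exact mul_ne_zero hv' hQ₁a
      · rw [ev_alg]; simpa [coe_aeval_eq_eval] using hQ₁a
      · rw [ev_repr, ev_alg, ev_root, hp₃]
        simp only [map_mul, map_sub, aeval_X, aeval_C]
        linear_combination (- aeval x p₃) * hsq
    · refine ⟨0, algebraMap ℂ[X] (CR Q) p₀ + algebraMap ℂ[X] (CR Q) (p₁)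
        * AdjoinRoot.root (X ^ 2 - C Q), 1, ?_, ?_, ?_⟩
      · rw [ev_repr]; simpa [coe_aeval_eq_eval] using hv
      · simp
      · rw [ev_repr]; simp
  · rintro p₀ p₁ ⟨n, p, q, hp, hq, e⟩
    refine ⟨n + 2, p, q * algebraMap ℂ[X] (CR Q) Q₁, hp, ?_, ?_⟩
    · rw [map_mul, ev_alg]
      exact mul_ne_zero hq (by simpa [coe_aeval_eq_eval] using hQ₁a)
    · rw [ev_root] at e ⊢
      simp only [map_mul, map_sub, aeval_X, aeval_C, ev_alg]
      have hp' := pow_add z n 2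
      rw [hp', hsq]
      linear_combination (x - algebraMap ℂ K a) * aeval x Q₁ * e

theorem D_aeval (x : K) (p : ℂ[X]) : KaehlerDifferential.D ℂ K (aeval x p) =
    aeval x (derivative p) • KaehlerDifferential.D ℂ K x :=
  Derivation.map_aeval (KaehlerDifferential.D ℂ K) p x

theorem two_eq : (2 : K) = algebraMap ℂ K 2 := (map_ofNat (algebraMap ℂ K) 2).symm

theorem half_eq : algebraMap ℂ K (1 / 2) = (2 : K)⁻¹ := by
  rw [one_div, map_inv₀, ← two_eq (K := K)]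

theorem two_z_D (H : Quad x z Q) : (2 * z) • KaehlerDifferential.D ℂ K z =
    aeval x (derivative Q) • KaehlerDifferential.D ℂ K x := by
  have h := congrArg (KaehlerDifferential.D ℂ K) H.sq
  rw [D_aeval, pow_two, Derivation.leibniz, ← add_smul] at h
  rw [← h, two_mul]

theorem ℓD_CR (H : Quad x z Q) {a b : ℂ} (hab : b ^ 2 = aeval a Q) (ℓ : Ω[K⁄ℂ] →ₗ[K] K)
    (hx : ℓ (KaehlerDifferential.D ℂ K x) ∈ locO (ev Q x z H.sq) (ev Q a b hab))
    (hz : ℓ (KaehlerDifferential.D ℂ K z) ∈ locO (ev Q x z H.sq) (ev Q a b hab)) (r : CR Q) :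
    ℓ (KaehlerDifferential.D ℂ K (ev Q x z H.sq r)) ∈ locO (ev Q x z H.sq) (ev Q a b hab) := by
  obtain ⟨p₀, p₁, rfl⟩ := cr_repr Q r
  have hp : ∀ p : ℂ[X], aeval x p ∈ locO (ev Q x z H.sq) (ev Q a b hab) := fun p => by
    rw [← ev_alg Q x z H.sq]; exact φ_mem_locO _
  have hz' : z ∈ locO (ev Q x z H.sq) (ev Q a b hab) := by
    have := φ_mem_locO (φ := ev Q x z H.sq) (ψ := ev Q a b hab) (AdjoinRoot.root (X ^ 2 - C Q))
    rwa [ev_root] at this
  rw [ev_repr, map_add, Derivation.leibniz, D_aeval, D_aeval, map_add, map_add, map_smul, map_smul,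
    map_smul, map_smul]
  simp only [smul_eq_mul]
  refine add_mem (mul_mem (hp _) hx) (add_mem (mul_mem (hp _) hz) (mul_mem hz' (mul_mem (hp _) hx)))

theorem mem_regularAt_of_mem {ω : Ω[K⁄ℂ]} (h : ω ∈ regularDifferentials K) {O : Subalgebra ℂ K}
    (hO : IsPlace K O) : ω ∈ regularAt K O := by
  unfold regularDifferentials at h
  rw [Submodule.mem_iInf] at h
  have := h O
  rw [Submodule.mem_iInf] at this
  exact this hO

theorem mem_of_regular_unramified (H : Quad x z Q) {a b : ℂ} (hab : b ^ 2 = aeval a Q)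
    (hb : b ≠ 0) (ℓ : Ω[K⁄ℂ] →ₗ[K] K) (hℓ : ℓ (KaehlerDifferential.D ℂ K x) = 1) {f : K}
    (hf : f • KaehlerDifferential.D ℂ K x ∈ regularDifferentials K) :
    f ∈ locO (ev Q x z H.sq) (ev Q a b hab) := by
  have h1 := mem_regularAt_of_mem hf (H.isPlace_unramified hab hb)
  have hz : ℓ (KaehlerDifferential.D ℂ K z) ∈ locO (ev Q x z H.sq) (ev Q a b hab) := by
    have h2 := congrArg ℓ H.two_z_D
    rw [map_smul, map_smul, hℓ, smul_eq_mul, smul_eq_mul, mul_one] at h2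
    have h3 : ℓ (KaehlerDifferential.D ℂ K z) = algebraMap ℂ K (1/2) * z⁻¹ *
        aeval x (derivative Q) := by
      rw [← h2, half_eq]
      have := H.z_ne_zero
      have h20 : (2 : K) ≠ 0 := by rw [two_eq]; simp
      field_simp
    rw [h3]
    refine mul_mem (mul_mem (Subalgebra.algebraMap_mem _ _) ?_) ?_
    · have := inv_mem_locO (φ := ev Q x z H.sq) (ψ := ev Q a b hab) (H.ev_ker hab)
        (r := AdjoinRoot.root (X ^ 2 - C Q)) (by rw [ev_root]; exact hb)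
      rwa [ev_root] at this
    · rw [← ev_alg Q x z H.sq]; exact φ_mem_locO _
  have h2 := map_mem_of_mem_regularAt ℓ (ℓD_mem_locO (H.ev_ker hab) ℓ
    (H.ℓD_CR hab ℓ (by rw [hℓ]; exact one_mem _) hz)) h1
  rwa [map_smul, hℓ, smul_eq_mul, mul_one] at h2

theorem mul_mem_of_regular_ramified (H : Quad x z Q) {a : ℂ} (hab : (0:ℂ) ^ 2 = aeval a Q)
    {Q₁ : ℂ[X]} (hQ₁ : Q = (X - C a) * Q₁) (hQ₁a : eval a Q₁ ≠ 0) (ℓ : Ω[K⁄ℂ] →ₗ[K] K)
    (hℓ : ℓ (KaehlerDifferential.D ℂ K x) = 1) {f : K}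
    (hf : f • KaehlerDifferential.D ℂ K x ∈ regularDifferentials K) :
    f * z ∈ locO (ev Q x z H.sq) (ev Q a 0 hab) := by
  have h1 := mem_regularAt_of_mem hf (H.isPlace_ramified hab hQ₁ hQ₁a)
  have hQ' : eval a (derivative Q) ≠ 0 := by
    rw [hQ₁]; simpa using hQ₁a
  have hQ'0 : derivative Q ≠ 0 := by intro h; rw [h] at hQ'; simp at hQ'
  have hQ'' : aeval x (derivative Q) ≠ 0 := H.aeval_ne_zero hQ'0
  have hinv : (aeval x (derivative Q))⁻¹ ∈ locO (ev Q x z H.sq) (ev Q a 0 hab) := by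
    have := inv_mem_locO (φ := ev Q x z H.sq) (ψ := ev Q a 0 hab) (H.ev_ker hab)
        (r := algebraMap ℂ[X] (CR Q) (derivative Q)) (by rw [ev_alg]; simpa [coe_aeval_eq_eval] using hQ')
    rwa [ev_alg] at this
  have hz' : z ∈ locO (ev Q x z H.sq) (ev Q a 0 hab) := by
    have := φ_mem_locO (φ := ev Q x z H.sq) (ψ := ev Q a 0 hab) (AdjoinRoot.root (X ^ 2 - C Q))
    rwa [ev_root] at this
  have h20 : (2 : K) ≠ 0 := by rw [two_eq]; simp
  set ℓ' : Ω[K⁄ℂ] →ₗ[K] K := (2 * z * (aeval x (derivative Q))⁻¹) • ℓ with hℓ'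
  have hx' : ℓ' (KaehlerDifferential.D ℂ K x) = 2 * z * (aeval x (derivative Q))⁻¹ := by
    rw [hℓ', LinearMap.smul_apply, hℓ, smul_eq_mul, mul_one]
  have hz1 : ℓ' (KaehlerDifferential.D ℂ K z) = 1 := by
    have h2 := congrArg ℓ H.two_z_D
    rw [map_smul, map_smul, hℓ, smul_eq_mul, smul_eq_mul, mul_one] at h2
    rw [hℓ', LinearMap.smul_apply, smul_eq_mul, mul_right_comm, h2, mul_inv_cancel₀ hQ'']
  have h2mem : (2 : K) ∈ locO (ev Q x z H.sq) (ev Q a 0 hab) := by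
    rw [two_eq]; exact Subalgebra.algebraMap_mem _ _
  have h2 := map_mem_of_mem_regularAt ℓ' (ℓD_mem_locO (H.ev_ker hab) ℓ'
    (H.ℓD_CR hab ℓ' (by rw [hx']; exact mul_mem (mul_mem h2mem hz') hinv)
      (by rw [hz1]; exact one_mem _))) h1
  rw [map_smul, hx', smul_eq_mul] at h2
  have h3 : f * z = algebraMap ℂ K (1/2) * (aeval x (derivative Q)) *
      (f * (2 * z * (aeval x (derivative Q))⁻¹)) := by
    rw [half_eq]
    field_simp
  rw [h3]
  refine mul_mem (mul_mem (Subalgebra.algebraMap_mem _ _) ?_) h2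
  rw [← ev_alg Q x z H.sq]; exact φ_mem_locO _

theorem transcendental (H : Quad x z Q) : Transcendental ℂ x := by
  rw [transcendental_iff]
  exact fun p hp => H.inj hp

theorem D_x_ne_zero (H : Quad x z Q) : KaehlerDifferential.D ℂ K x ≠ 0 := by
  intro h0
  have h20 : (2 : K) ≠ 0 := by rw [two_eq]; simp
  have hz : KaehlerDifferential.D ℂ K z = 0 := by
    have h := H.two_z_D
    rw [h0, smul_zero, smul_eq_zero] at h
    exact h.resolve_left (mul_ne_zero h20 H.z_ne_zero)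
  have hall : ∀ h : K, KaehlerDifferential.D ℂ K h = 0 := by
    intro h
    obtain ⟨a, b, q, hq, e⟩ := H.gen h
    have e2 := congrArg (KaehlerDifferential.D ℂ K) e
    simp only [map_add, Derivation.leibniz, D_aeval, h0, hz, smul_zero, add_zero, zero_add,
      smul_eq_zero] at e2
    exact e2.resolve_left (H.aeval_ne_zero hq)
  have hsub : Subsingleton (Ω[K⁄ℂ]) := by
    constructor
    intro u v
    have hbot : (⊤ : Submodule K (Ω[K⁄ℂ])) ≤ ⊥ := by
      rw [← KaehlerDifferential.span_range_derivation, Submodule.span_le]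
      rintro _ ⟨h, rfl⟩
      simp [hall h]
    have hu := hbot (Submodule.mem_top (x := u))
    have hv := hbot (Submodule.mem_top (x := v))
    rw [Submodule.mem_bot] at hu hv
    rw [hu, hv]
  have : Algebra.FormallyUnramified ℂ K := ⟨hsub⟩
  have : Algebra.EssFiniteType ℂ K := by
    classical
    rw [Algebra.essFiniteType_iff]
    refine ⟨{x, z}, fun h => ?_⟩
    obtain ⟨a, b, q, hq, e⟩ := H.gen h
    have hx : x ∈ Algebra.adjoin ℂ ((({x, z} : Finset K)) : Set K) :=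
      Algebra.subset_adjoin (by simp)
    have hz : z ∈ Algebra.adjoin ℂ ((({x, z} : Finset K)) : Set K) :=
      Algebra.subset_adjoin (by simp)
    have hp : ∀ p : ℂ[X], aeval x p ∈ Algebra.adjoin ℂ ((({x, z} : Finset K)) : Set K) := by
      intro p
      have h1 : aeval x p ∈ Algebra.adjoin ℂ {x} := aeval_mem_adjoin_singleton ℂ x
      exact Algebra.adjoin_mono (by simp) h1
    refine ⟨aeval x q, hp q, (H.aeval_ne_zero hq).isUnit, ?_⟩
    rw [e]
    exact add_mem (hp a) (mul_mem (hp b) hz)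
  have : Algebra.IsSeparable ℂ K := Algebra.FormallyUnramified.isSeparable ℂ K
  have halg : IsAlgebraic ℂ x := (Algebra.IsSeparable.isIntegral ℂ x).isAlgebraic
  exact H.transcendental halg

/-- functional normalised at `dx` -/
theorem exists_ℓ (H : Quad x z Q) :
    ∃ ℓ : Ω[K⁄ℂ] →ₗ[K] K, ℓ (KaehlerDifferential.D ℂ K x) = 1 :=
  Module.Projective.exists_dual_eq_one K H.D_x_ne_zero

end Quad

end field

end Pool.Agent.H68
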