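import Mathlib
import Pool.Agent.H68.Genus

open Polynomial

namespace Pool.Agent.H68

variable {K : Type*} [Field K] [Algebra ℂ K]

/-! ### The chart at infinity -/

theorem aeval_inv_reflect {x : K} (hx : x ≠ 0) {n : ℕ} {p : ℂ[X]} (hp : p.natDegree ≤ n) :
    aeval x⁻¹ (reflect n p) * x ^ n = aeval x p := by
  let _ : Invertible x := invertibleOfNonzero hx
  have := eval₂_reflect_mul_pow (algebraMap ℂ K) x n p hp
  rw [invOf_eq_inv] at this
  exact this

theorem aeval_reflect_mul {x : K} (hx : x ≠ 0) {n : ℕ} {p : ℂ[X]} (hp : p.natDegree ≤ n) :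
    aeval x p * (x⁻¹) ^ n = aeval x⁻¹ (reflect n p) := by
  rw [← aeval_inv_reflect hx hp, mul_assoc, ← mul_pow, mul_inv_cancel₀ hx, one_pow, mul_one]

namespace Quad

variable {t w : K} {N : ℂ[X]}

theorem x_ne_zero (H : Quad t w N) : t ≠ 0 := by
  have := H.aeval_ne_zero (X_ne_zero (R := ℂ))
  simpa using this

theorem infinity (H : Quad t w N) {g : ℕ} (hN : N.natDegree = 2 * g + 2) :
    Quad t⁻¹ (w * (t⁻¹) ^ (g + 1)) N.reverse := by
  have ht := H.x_ne_zero
  refine ⟨?_, ?_, ?_⟩
  · have h1 := aeval_reflect_mul ht (le_refl N.natDegree)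
    have h2 : aeval t⁻¹ N.reverse = aeval t⁻¹ (reflect N.natDegree N) := rfl
    rw [h2, ← h1, hN, mul_pow, H.sq, ← pow_mul]
    congr 2
    ring
  · intro h
    obtain ⟨a, b, q, hq, e⟩ := H.gen h
    set n := max (max q.natDegree a.natDegree) (b.natDegree + g + 1) with hn
    have h1 : q.natDegree ≤ n := le_trans (le_max_left _ _) (le_max_left _ _)
    have h2 : a.natDegree ≤ n := le_trans (le_max_right _ _) (le_max_left _ _)
    have h3 : b.natDegree + g + 1 ≤ n := le_max_right _ _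
    refine ⟨reflect n a, reflect (n - (g + 1)) b, reflect n q, by simpa using hq, ?_⟩
    rw [← aeval_reflect_mul ht h1, ← aeval_reflect_mul ht h2,
      ← aeval_reflect_mul ht (by omega : b.natDegree ≤ n - (g + 1)), ← mul_assoc, e]
    have : (t⁻¹) ^ n = (t⁻¹) ^ (n - (g + 1)) * (t⁻¹) ^ (g + 1) := by
      rw [← pow_add]; congr 1; omega
    rw [this]; ring
  · intro a b e
    set n := max a.natDegree (b.natDegree) + (g + 1) with hn
    have h2 : a.natDegree ≤ n := by have := le_max_left a.natDegree b.natDegree; omega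
    have h3 : b.natDegree ≤ n - (g + 1) := by
      have := le_max_right a.natDegree b.natDegree; omega
    have ht' : t⁻¹ ≠ 0 := inv_ne_zero ht
    have e2 := congrArg (fun y => y * t ^ n) e
    simp only [zero_mul, add_mul] at e2
    have h4 := aeval_reflect_mul ht' h2
    have h5 := aeval_reflect_mul ht' h3
    rw [inv_inv] at h4 h5
    have h6 : t ^ n = t ^ (n - (g + 1)) * t ^ (g + 1) := by
      rw [← pow_add]; congr 1; omega
    have h7 : (t⁻¹) ^ (g + 1) * t ^ (g + 1) = 1 := by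
      rw [← mul_pow, inv_mul_cancel₀ ht, one_pow]
    have e3 : aeval t (reflect n a) + aeval t (reflect (n - (g + 1)) b) * w = 0 := by
      rw [← h4, ← h5]
      calc aeval t⁻¹ a * t ^ n + aeval t⁻¹ b * t ^ (n - (g + 1)) * w
          = aeval t⁻¹ a * t ^ n + aeval t⁻¹ b * (w * (t⁻¹) ^ (g + 1)) *
            (t ^ (n - (g + 1)) * t ^ (g + 1)) := by
            linear_combination - (aeval t⁻¹ b * t ^ (n - (g + 1)) * w) * h7
        _ = 0 := by rw [← h6, e2]
    have := H.ind _ _ e3
    simpa using this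

/-! ### Regular differentials are of the expected form -/

/-- If `h = (a + b w) / q` and `h` is `O_P`-integral then `a(P) + b(P) w(P) = 0` at a root of `q`. -/
theorem value_zero (H : Quad t w N) {a₀ b₀ : ℂ} (hab : b₀ ^ 2 = aeval a₀ N) {h : K}
    (hh : h ∈ locO (ev N t w H.sq) (ev N a₀ b₀ hab)) {a b q : ℂ[X]}
    (e : h * aeval t q = aeval t a + aeval t b * w) (hq : eval a₀ q = 0) :
    eval a₀ a + eval a₀ b * b₀ = 0 := by
  obtain ⟨p, s, hs, e'⟩ := hh
  set r : CR N := algebraMap ℂ[X] (CR N) a + algebraMap ℂ[X] (CR N) b * AdjoinRoot.root (X ^ 2 - C N)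
    with hr
  have h1 : ev N t w H.sq (s * r - p * algebraMap ℂ[X] (CR N) q) = 0 := by
    rw [map_sub, map_mul, map_mul, hr, ev_repr, ev_alg, ← e, ← e']
    ring
  have h2 := H.ev_ker hab _ h1
  rw [map_sub, map_mul, map_mul, hr, ev_repr, ev_alg] at h2
  simp only [coe_aeval_eq_eval, hq, mul_zero, sub_zero, mul_eq_zero] at h2
  exact h2.resolve_left hs

theorem w_mem (H : Quad t w N) {a₀ b₀ : ℂ} (hab : b₀ ^ 2 = aeval a₀ N) :
    w ∈ locO (ev N t w H.sq) (ev N a₀ b₀ hab) := by
  have := φ_mem_locO (φ := ev N t w H.sq) (ψ := ev N a₀ b₀ hab) (AdjoinRoot.root (X ^ 2 - C N))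
  rwa [ev_root] at this

theorem aeval_mem (H : Quad t w N) {a₀ b₀ : ℂ} (hab : b₀ ^ 2 = aeval a₀ N) (p : ℂ[X]) :
    aeval t p ∈ locO (ev N t w H.sq) (ev N a₀ b₀ hab) := by
  have := φ_mem_locO (φ := ev N t w H.sq) (ψ := ev N a₀ b₀ hab) (algebraMap ℂ[X] (CR N) p)
  rwa [ev_alg] at this

theorem root_simple (hsf : Squarefree N) {a₀ : ℂ} (h : eval a₀ N = 0) :
    ∃ N₁ : ℂ[X], N = (X - C a₀) * N₁ ∧ eval a₀ N₁ ≠ 0 := by
  obtain ⟨N₁, hN₁⟩ := dvd_iff_isRoot.mpr h
  refine ⟨N₁, hN₁, fun h1 => ?_⟩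
  obtain ⟨N₂, hN₂⟩ := dvd_iff_isRoot.mpr h1
  have : (X - C a₀) * (X - C a₀) ∣ N := ⟨N₂, by rw [hN₁, mul_assoc, ← hN₂]⟩
  exact not_isUnit_X_sub_C a₀ (hsf _ this)

/-- `f w` is integral over `ℂ[t]`, hence in `ℂ[t, w]`. -/
theorem finite_part (H : Quad t w N) (hsf : Squarefree N) {f : K}
    (hf : f • KaehlerDifferential.D ℂ K t ∈ regularDifferentials K) :
    ∃ c d : ℂ[X], f * w = aeval t c + aeval t d * w := by
  obtain ⟨ℓ, hℓ⟩ := H.exists_ℓ
  have key : ∀ n : ℕ, ∀ a b q : ℂ[X], q ≠ 0 → q.natDegree = n →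
      f * w * aeval t q = aeval t a + aeval t b * w →
      ∃ c d : ℂ[X], f * w = aeval t c + aeval t d * w := by
    intro n
    induction n with
    | zero =>
      intro a b q hq hn e
      rw [eq_C_of_natDegree_eq_zero hn] at e hq
      have hu : q.coeff 0 ≠ 0 := by simpa using hq
      have hu' : algebraMap ℂ K (q.coeff 0) ≠ 0 := by simpa using hu
      refine ⟨C (q.coeff 0)⁻¹ * a, C (q.coeff 0)⁻¹ * b, ?_⟩
      simp only [map_mul, aeval_C, map_inv₀] at e ⊢
      field_simp
      linear_combination e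
    | succ n ih =>
      intro a b q hq hn e
      have hdeg : q.degree ≠ 0 := by
        rw [degree_eq_natDegree hq, hn]; norm_cast
      obtain ⟨a₀, ha₀⟩ := IsAlgClosed.exists_root q hdeg
      obtain ⟨q', hq'⟩ := dvd_iff_isRoot.mpr ha₀
      have hq'0 : q' ≠ 0 := by rintro rfl; exact hq (by rw [hq', mul_zero])
      have hq'n : q'.natDegree = n := by
        have := natDegree_mul (X_sub_C_ne_zero a₀) hq'0
        rw [← hq', hn, natDegree_X_sub_C] at this
        omega
      have hab : eval a₀ a = 0 ∧ eval a₀ b = 0 := by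
        by_cases hN0 : eval a₀ N = 0
        · obtain ⟨N₁, hN₁, hN₁a⟩ := root_simple hsf hN0
          have hab : (0 : ℂ) ^ 2 = aeval a₀ N := by rw [coe_aeval_eq_eval, hN0]; norm_num
          have hmem := H.mul_mem_of_regular_ramified hab hN₁ hN₁a ℓ hℓ hf
          have h1 := H.value_zero hab hmem e ha₀
          rw [mul_zero, add_zero] at h1
          refine ⟨h1, ?_⟩
          obtain ⟨a', ha'⟩ := dvd_iff_isRoot.mpr h1
          have hx0 : aeval t (X - C a₀) ≠ 0 := H.aeval_ne_zero (X_sub_C_ne_zero a₀)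
          have e2 : (f * w * w) * aeval t q' = aeval t (b * N₁) + aeval t a' * w := by
            apply mul_left_cancel₀ hx0
            rw [hq', ha'] at e
            have hs := H.sq
            rw [hN₁] at hs
            simp only [map_mul] at e hs ⊢
            linear_combination w * e + (aeval t b) * hs
          -- evaluate at `P`
          obtain ⟨p, s, hs, e'⟩ := hmem
          have h2 : ev N t w H.sq (s * algebraMap ℂ[X] (CR N) (b * N₁) +
              s * algebraMap ℂ[X] (CR N) a' * AdjoinRoot.root (X ^ 2 - C N) -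
              p * AdjoinRoot.root (X ^ 2 - C N) * algebraMap ℂ[X] (CR N) q') = 0 := by
            simp only [map_sub, map_add, map_mul, ev_alg, ev_root] at e2 ⊢
            rw [← e']
            linear_combination - (ev N t w H.sq s) * e2
          have h3 := H.ev_ker hab _ h2
          simp only [map_sub, map_add, map_mul, ev_alg, ev_root] at h3
          simp only [mul_zero, zero_mul, add_zero, sub_zero, coe_aeval_eq_eval, mul_eq_zero] at h3
          rcases h3 with h3 | h3 | h3
          · exact absurd h3 hs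
          · exact h3
          · exact absurd h3 hN₁a
        · obtain ⟨b₀, hb₀⟩ := IsAlgClosed.exists_pow_nat_eq (eval a₀ N) (by norm_num : 0 < 2)
          have hb0 : b₀ ≠ 0 := by
            rintro rfl
            apply hN0; rw [← hb₀]; norm_num
          have hab1 : b₀ ^ 2 = aeval a₀ N := by rw [coe_aeval_eq_eval, hb₀]
          have hab2 : (-b₀) ^ 2 = aeval a₀ N := by rw [coe_aeval_eq_eval, ← hb₀]; ring
          have h1 := H.value_zero hab1 (mul_mem (H.mem_of_regular_unramified hab1 hb0 ℓ hℓ hf)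
            (H.w_mem hab1)) e ha₀
          have h2 := H.value_zero hab2 (mul_mem (H.mem_of_regular_unramified hab2
            (neg_ne_zero.mpr hb0) ℓ hℓ hf) (H.w_mem hab2)) e ha₀
          refine ⟨by linear_combination (h1 + h2) / 2, ?_⟩
          have : eval a₀ b * b₀ = 0 := by linear_combination (h1 - h2) / 2
          exact (mul_eq_zero.mp this).resolve_right hb0
      obtain ⟨a', ha'⟩ := dvd_iff_isRoot.mpr hab.1
      obtain ⟨b', hb'⟩ := dvd_iff_isRoot.mpr hab.2
      apply ih a' b' q' hq'0 hq'n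
      have hx0 : aeval t (X - C a₀) ≠ 0 := H.aeval_ne_zero (X_sub_C_ne_zero a₀)
      apply mul_left_cancel₀ hx0
      rw [hq', ha', hb'] at e
      simp only [map_mul] at e ⊢
      linear_combination e
  obtain ⟨a, b, q, hq, e⟩ := H.gen (f * w)
  exact key _ a b q hq rfl e

/-- Change of differential to the chart at infinity. -/
theorem D_inv (H : Quad t w N) : KaehlerDifferential.D ℂ K t =
    (-(t ^ 2)) • KaehlerDifferential.D ℂ K t⁻¹ := by
  have ht := H.x_ne_zero
  have h := congrArg (KaehlerDifferential.D ℂ K) (mul_inv_cancel₀ ht)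
  rw [Derivation.leibniz, Derivation.map_one_eq_zero] at h
  have h2 := congrArg (fun ω => t • ω) h
  simp only [smul_add, smul_smul, mul_inv_cancel₀ ht, one_smul, smul_zero] at h2
  rw [neg_smul, eq_neg_iff_add_eq_zero, add_comm, pow_two]
  exact h2

/-- The full determination of the regular differentials. -/
theorem form (H : Quad t w N) (hsf : Squarefree N) {g : ℕ} (hN : N.natDegree = 2 * g + 2) {f : K}
    (hf : f • KaehlerDifferential.D ℂ K t ∈ regularDifferentials K) :
    ∃ c ∈ degreeLT ℂ g, f * w = aeval t c := by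
  obtain ⟨c, d, hcd⟩ := H.finite_part hsf hf
  obtain ⟨ℓ, hℓ⟩ := H.exists_ℓ
  have ht := H.x_ne_zero
  have hw := H.z_ne_zero
  have HI := H.infinity hN
  have hℓ' : ((-(t ^ 2)) • ℓ) (KaehlerDifferential.D ℂ K t⁻¹) = 1 := by
    rw [LinearMap.smul_apply, ← map_smul, ← H.D_inv, hℓ]
  have hf' : (f * (-(t ^ 2))) • KaehlerDifferential.D ℂ K t⁻¹ ∈ regularDifferentials K := by
    rw [mul_smul, ← H.D_inv]; exact hf
  have hlead : N.leadingCoeff ≠ 0 := by rw [Ne, leadingCoeff_eq_zero]; exact H.Q_ne_zero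
  obtain ⟨β, hβ⟩ := IsAlgClosed.exists_pow_nat_eq (N.leadingCoeff) (by norm_num : 0 < 2)
  have hβ0 : β ≠ 0 := by
    rintro rfl
    apply hlead; rw [← hβ]; norm_num
  have hr0 : eval 0 N.reverse = N.leadingCoeff := by
    rw [← coeff_zero_eq_eval_zero, coeff_zero_reverse]
  have hev : ∀ (n : ℕ) (p : ℂ[X]), eval 0 (reflect n p) = p.coeff n := by
    intro n p
    rw [← coeff_zero_eq_eval_zero, coeff_reflect, revAt_zero]
  have hval : ∀ b₀ : ℂ, b₀ ≠ 0 → (hab : b₀ ^ 2 = aeval (0 : ℂ) N.reverse) →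
      ∀ (m : ℕ) (a b : ℂ[X]), m ≠ 0 → f * w * t ^ 2 * (t⁻¹) ^ (g + 1) * (t⁻¹) ^ m =
        aeval t⁻¹ a + aeval t⁻¹ b * (w * t⁻¹ ^ (g + 1)) → eval 0 a + eval 0 b * b₀ = 0 := by
    intro b₀ hb₀ hab m a b hm e
    have h1 := HI.mem_of_regular_unramified hab hb₀ _ hℓ' hf'
    have h2 := HI.w_mem hab
    have h3 := neg_mem (mul_mem h1 h2)
    refine HI.value_zero hab h3 (a := a) (b := b) (q := X ^ m) ?_ ?_
    · rw [← e, map_pow, aeval_X]; ring
    · simp [hm]
  have hval2 : ∀ (m : ℕ) (a b : ℂ[X]), m ≠ 0 → f * w * t ^ 2 * (t⁻¹) ^ (g + 1) * (t⁻¹) ^ m =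
        aeval t⁻¹ a + aeval t⁻¹ b * (w * t⁻¹ ^ (g + 1)) → eval 0 a = 0 ∧ eval 0 b = 0 := by
    intro m a b hm e
    have h1 := hval β hβ0 (by rw [coe_aeval_eq_eval, hr0, hβ]) m a b hm e
    have h2 := hval (-β) (neg_ne_zero.mpr hβ0) (by rw [coe_aeval_eq_eval, hr0, ← hβ]; ring)
      m a b hm e
    refine ⟨by linear_combination (h1 + h2) / 2, ?_⟩
    have : eval 0 b * β = 0 := by linear_combination (h1 - h2) / 2
    exact (mul_eq_zero.mp this).resolve_right hβ0
  have h7 : t ^ 2 * (t⁻¹) ^ 2 = 1 := by rw [← mul_pow, mul_inv_cancel₀ ht, one_pow]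
  have hd : d = 0 := by
    by_contra hd
    set n := max c.natDegree (d.natDegree + (g + 1)) with hn
    have hcn : c.natDegree ≤ n := le_max_left _ _
    have hdn' : d.natDegree + (g + 1) ≤ n := le_max_right _ _
    have hdn : d.natDegree ≤ n - (g + 1) := by omega
    have e := hval2 (n - (g + 1) + 2) (reflect n c) (reflect (n - (g + 1)) d) (by omega) (by
      rw [← aeval_reflect_mul ht hcn, ← aeval_reflect_mul ht hdn]
      have h6 : (t⁻¹) ^ n = (t⁻¹) ^ (n - (g + 1)) * (t⁻¹) ^ (g + 1) := by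
        rw [← pow_add]; congr 1; omega
      have h8 := pow_add t⁻¹ (n - (g + 1)) 2
      rw [h6, h8]
      linear_combination ((t⁻¹) ^ (n - (g + 1)) * (t⁻¹) ^ (g + 1)) * hcd +
        (f * w * (t⁻¹) ^ (n - (g + 1)) * (t⁻¹) ^ (g + 1)) * h7)
    rw [hev, hev] at e
    rcases max_choice c.natDegree (d.natDegree + (g + 1)) with hm | hm
    · rw [← hn] at hm
      rw [hm, coeff_natDegree, leadingCoeff_eq_zero] at e
      rw [e.1, natDegree_zero] at hm
      omega
    · rw [← hn] at hm
      have : n - (g + 1) = d.natDegree := by omega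
      rw [this, coeff_natDegree, leadingCoeff_eq_zero] at e
      exact hd e.2
  refine ⟨c, ?_, by rw [hcd, hd]; simp⟩
  rw [mem_degreeLT]
  by_contra hcon
  push Not at hcon
  have hc0 : c ≠ 0 := by
    rintro rfl
    simp at hcon
  rw [degree_eq_natDegree hc0] at hcon
  have hgn : g ≤ c.natDegree := by exact_mod_cast hcon
  have e := hval2 (c.natDegree + 1 - g) (reflect c.natDegree c) 0 (by omega) (by
    rw [← aeval_reflect_mul ht le_rfl, hcd, hd]
    have h6 : (t⁻¹) ^ (g + 1) * (t⁻¹) ^ (c.natDegree + 1 - g) = (t⁻¹) ^ c.natDegree * (t⁻¹) ^ 2 := by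
      rw [← pow_add, ← pow_add]; congr 1; omega
    simp only [map_zero, zero_mul, add_zero]
    linear_combination (aeval t c * t ^ 2) * h6 + (aeval t c * (t⁻¹) ^ c.natDegree) * h7)
  rw [hev, coeff_natDegree, leadingCoeff_eq_zero] at e
  exact hc0 e.1

end Quad

/-! ### The expected differentials are regular -/

theorem aeval_mem_of_mem {O : Subalgebra ℂ K} {x : K} (hx : x ∈ O) (p : ℂ[X]) : aeval x p ∈ O :=
  Algebra.adjoin_le (by simpa using hx) (aeval_mem_adjoin_singleton ℂ x)

/-- the valuation ring attached to a place -/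
def toVal {O : Subalgebra ℂ K} (hO : IsPlace K O) : ValuationSubring K :=
  { O.toSubring with mem_or_inv_mem' := mem_or_inv_mem hO }

theorem mem_toVal {O : Subalgebra ℂ K} (hO : IsPlace K O) {x : K} : x ∈ toVal hO ↔ x ∈ O := Iff.rfl

theorem inv_aeval_mem {O : Subalgebra ℂ K} (hO : IsPlace K O) {x : K} (hx : x ∈ O) {a : ℂ}
    (ha : (x - algebraMap ℂ K a)⁻¹ ∉ O) {p : ℂ[X]} (hp : eval a p ≠ 0) : (aeval x p)⁻¹ ∈ O := by
  set v := (toVal hO).valuation with hv
  have hvle : ∀ y : K, v y ≤ 1 ↔ y ∈ O := fun y => (toVal hO).valuation_le_one_iff y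
  have h1 : v (x - algebraMap ℂ K a) < 1 := by
    have h2 : ¬ v (x - algebraMap ℂ K a)⁻¹ ≤ 1 := fun h => ha ((hvle _).mp h)
    rw [map_inv₀, not_le] at h2
    by_cases h0 : v (x - algebraMap ℂ K a) = 0
    · rw [h0]; exact zero_lt_one
    · exact (one_lt_inv₀ (zero_lt_iff.mpr h0)).mp h2
  have h3 : ∀ c : ℂ, c ≠ 0 → v (algebraMap ℂ K c) = 1 := by
    intro c hc
    apply le_antisymm
    · exact (hvle _).mpr (Subalgebra.algebraMap_mem _ _)
    · have h4 : v (algebraMap ℂ K c⁻¹) ≤ 1 := (hvle _).mpr (Subalgebra.algebraMap_mem _ _)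
      rw [map_inv₀, map_inv₀] at h4
      have h5 : v (algebraMap ℂ K c) ≠ 0 := by simp [hc]
      exact (inv_le_one₀ (zero_lt_iff.mpr h5)).mp h4
  obtain ⟨r, hr⟩ : (X - C a) ∣ p - C (eval a p) := by
    rw [dvd_iff_isRoot]; simp
  have h4 : aeval x p = algebraMap ℂ K (eval a p) + (x - algebraMap ℂ K a) * aeval x r := by
    have := congrArg (aeval x) hr
    simp only [map_sub, map_mul, aeval_X, aeval_C] at this
    linear_combination this
  have h5 : v ((x - algebraMap ℂ K a) * aeval x r) < 1 := by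
    rw [map_mul]
    have h6 : v (aeval x r) ≤ 1 := by
      rw [hvle]
      exact aeval_mem_of_mem hx _
    calc v (x - algebraMap ℂ K a) * v (aeval x r) ≤ v (x - algebraMap ℂ K a) * 1 := by gcongr
      _ < 1 := by rw [mul_one]; exact h1
  have h6 : v (aeval x p) = 1 := by
    rw [h4, v.map_add_eq_of_lt_left]
    · exact h3 _ hp
    · rw [h3 _ hp]; exact h5
  rw [← hvle, map_inv₀, h6, inv_one]

namespace Quad

variable {t w : K} {N : ℂ[X]}

theorem aeval_mem' {O : Subalgebra ℂ K} {x : K} (hx : x ∈ O) (p : ℂ[X]) : aeval x p ∈ O :=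
  aeval_mem_of_mem hx _

theorem exists_smul (H : Quad t w N) (ω : Ω[K⁄ℂ]) :
    ∃ f : K, ω = f • KaehlerDifferential.D ℂ K t := by
  have h20 : (2 : K) ≠ 0 := by rw [two_eq]; simp
  have hw0 := H.z_ne_zero
  have htop : (⊤ : Submodule K (Ω[K⁄ℂ])) ≤ Submodule.span K {KaehlerDifferential.D ℂ K t} := by
    rw [← KaehlerDifferential.span_range_derivation, Submodule.span_le]
    rintro _ ⟨h, rfl⟩
    rw [SetLike.mem_coe, Submodule.mem_span_singleton]
    have hw : ∃ u : K, KaehlerDifferential.D ℂ K w = u • KaehlerDifferential.D ℂ K t := by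
      refine ⟨(2 * w)⁻¹ * aeval t (derivative N), ?_⟩
      rw [mul_smul, ← H.two_z_D, smul_smul, inv_mul_cancel₀ (mul_ne_zero h20 hw0), one_smul]
    obtain ⟨u, hu⟩ := hw
    obtain ⟨a, b, q, hq, e⟩ := H.gen h
    have e2 := congrArg (KaehlerDifferential.D ℂ K) e
    simp only [map_add, Derivation.leibniz, D_aeval, hu, smul_smul, ← add_smul] at e2
    have hq0 := H.aeval_ne_zero hq
    have e3 : KaehlerDifferential.D ℂ K h = (aeval t q)⁻¹ •
        (aeval t q • KaehlerDifferential.D ℂ K h) := by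
      rw [smul_smul, inv_mul_cancel₀ hq0, one_smul]
    have e4 := eq_sub_of_add_eq' e2
    rw [← sub_smul] at e4
    rw [e3, e4, smul_smul]
    exact ⟨_, rfl⟩
  obtain ⟨f, hf⟩ := Submodule.mem_span_singleton.mp (htop (Submodule.mem_top (x := ω)))
  exact ⟨f, hf.symm⟩

theorem mem_of_sq_mem {O : Subalgebra ℂ K} (hO : IsPlace K O) {y : K} (hy : y ^ 2 ∈ O) : y ∈ O := by
  rcases mem_or_inv_mem hO y with h | h
  · exact h
  · by_cases h0 : y = 0
    · rw [h0]; exact O.zero_mem
    · have : y = y ^ 2 * y⁻¹ := by field_simp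
      rw [this]; exact O.mul_mem hy h

/-- `dt / w` is regular at finite places. -/
theorem dt_div_w (H : Quad t w N) (hsf : Squarefree N) {O : Subalgebra ℂ K} (hO : IsPlace K O)
    (ht : t ∈ O) : w⁻¹ • KaehlerDifferential.D ℂ K t ∈ regularAt K O := by
  have hw0 := H.z_ne_zero
  have hwinv : (aeval t N)⁻¹ ∈ O → w⁻¹ • KaehlerDifferential.D ℂ K t ∈ regularAt K O := by
    intro h
    refine smul_mem_regularAt (mem_of_sq_mem hO ?_) (D_mem_regularAt ht)
    rw [inv_pow, H.sq]; exact h
  by_cases hex : ∃ a : ℂ, (t - algebraMap ℂ K a)⁻¹ ∉ O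
  · obtain ⟨a, ha⟩ := hex
    by_cases hNa : eval a N = 0
    · obtain ⟨N₁, hN₁, hN₁a⟩ := root_simple hsf hNa
      have hN' : eval a (derivative N) ≠ 0 := by
        rw [hN₁]; simpa using hN₁a
      have hN'0 : derivative N ≠ 0 := by intro h; rw [h] at hN'; simp at hN'
      have hN'' := H.aeval_ne_zero hN'0
      have h1 := inv_aeval_mem hO ht ha hN'
      have hwO : w ∈ O := mem_of_sq_mem hO (by rw [H.sq]; exact aeval_mem' ht N)
      have h2 : w⁻¹ • KaehlerDifferential.D ℂ K t =
          (algebraMap ℂ K 2 * (aeval t (derivative N))⁻¹) • KaehlerDifferential.D ℂ K w := by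
        have h3 := H.two_z_D
        have h4 : KaehlerDifferential.D ℂ K t =
            (aeval t (derivative N))⁻¹ • ((2 * w) • KaehlerDifferential.D ℂ K w) := by
          rw [h3, smul_smul, inv_mul_cancel₀ hN'', one_smul]
        rw [h4, smul_smul, smul_smul, ← two_eq]
        congr 1
        field_simp
      rw [h2]
      exact smul_mem_regularAt (O.mul_mem (Subalgebra.algebraMap_mem _ _) h1) (D_mem_regularAt hwO)
    · exact hwinv (inv_aeval_mem hO ht ha hNa)
  · push Not at hex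
    apply hwinv
    have hall : ∀ p : ℂ[X], p ≠ 0 → (aeval t p)⁻¹ ∈ O := by
      intro p hp
      have h1 := (IsAlgClosed.splits p).eq_prod_roots
      rw [h1, map_mul, map_multiset_prod, Multiset.map_map, mul_inv, aeval_C, ← map_inv₀]
      refine O.mul_mem (Subalgebra.algebraMap_mem _ _) ?_
      rw [← Multiset.prod_map_inv]
      apply Subalgebra.multiset_prod_mem
      intro y hy
      rw [Multiset.mem_map] at hy
      obtain ⟨a, _, rfl⟩ := hy
      simpa using hex a
    exact hall N H.Q_ne_zero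

theorem regular_of_form (H : Quad t w N) (hsf : Squarefree N) {g : ℕ} (hN : N.natDegree = 2 * g + 2)
    {c : ℂ[X]} (hc : c ∈ degreeLT ℂ g) {f : K} (hf : f * w = aeval t c) :
    f • KaehlerDifferential.D ℂ K t ∈ regularDifferentials K := by
  have hw0 := H.z_ne_zero
  have ht0 := H.x_ne_zero
  have hf' : f = aeval t c * w⁻¹ := by rw [← hf]; field_simp
  unfold regularDifferentials
  rw [Submodule.mem_iInf]
  intro O
  rw [Submodule.mem_iInf]
  intro hO
  by_cases ht : t ∈ O
  · rw [hf', mul_smul]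
    exact smul_mem_regularAt (aeval_mem' ht c) (H.dt_div_w hsf hO ht)
  · by_cases hc0 : c = 0
    · rw [hf', hc0]; simp
    have hx : t⁻¹ ∈ O := (mem_or_inv_mem hO t).resolve_left ht
    have HI := H.infinity hN
    have hg : c.natDegree < g := by
      rw [mem_degreeLT, degree_eq_natDegree hc0] at hc
      exact_mod_cast hc
    have hlead : N.leadingCoeff ≠ 0 := by rw [Ne, leadingCoeff_eq_zero]; exact H.Q_ne_zero
    have hr0 : eval 0 N.reverse ≠ 0 := by
      rw [← coeff_zero_eq_eval_zero, coeff_zero_reverse]; exact hlead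
    have h1 : (aeval t⁻¹ N.reverse)⁻¹ ∈ O :=
      inv_aeval_mem hO hx (a := 0) (by simpa using ht) hr0
    have h2 : (w * t⁻¹ ^ (g + 1))⁻¹ ∈ O := by
      apply mem_of_sq_mem hO
      rw [inv_pow, HI.sq]; exact h1
    have h3 : f * (-(t ^ 2)) = - (aeval t⁻¹ (reflect (g - 1) c) * (w * t⁻¹ ^ (g + 1))⁻¹) := by
      rw [hf', ← aeval_reflect_mul ht0 (by omega : c.natDegree ≤ g - 1)]
      have h4 : (t⁻¹) ^ (g + 1) = (t⁻¹) ^ (g - 1) * (t⁻¹) ^ 2 := by
        rw [← pow_add]; congr 1; omega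
      rw [h4]
      field_simp
    rw [H.D_inv, smul_smul, h3]
    exact smul_mem_regularAt (O.neg_mem (O.mul_mem (aeval_mem' hx _) h2)) (D_mem_regularAt hx)

/-- The regular differentials of a hyperelliptic function field are the `c(t) dt / w`,
`deg c < g`. -/
theorem equiv_degreeLT (H : Quad t w N) (hsf : Squarefree N) {g : ℕ} (hN : N.natDegree = 2 * g + 2) :
    Nonempty (degreeLT ℂ g ≃ₗ[ℂ] regularDifferentials K) := by
  have hw0 := H.z_ne_zero
  let Φ : degreeLT ℂ g →ₗ[ℂ] Ω[K⁄ℂ] :=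
    { toFun := fun c => (aeval t (c : ℂ[X]) * w⁻¹) • KaehlerDifferential.D ℂ K t
      map_add' := fun a b => by simp [add_mul, add_smul]
      map_smul' := fun r a => by
        simp only [Submodule.coe_smul, map_smul, RingHom.id_apply]
        rw [smul_mul_assoc, smul_assoc] }
  have hinj : Function.Injective Φ := by
    rw [← LinearMap.ker_eq_bot, LinearMap.ker_eq_bot']
    intro c hc
    have h1 : (aeval t (c : ℂ[X]) * w⁻¹) • KaehlerDifferential.D ℂ K t = 0 := hc
    rw [smul_eq_zero, mul_eq_zero] at h1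
    rcases h1 with (h1 | h1) | h1
    · exact Subtype.ext (H.inj h1)
    · exact absurd h1 (inv_ne_zero hw0)
    · exact absurd h1 H.D_x_ne_zero
  have hrange : LinearMap.range Φ = regularDifferentials K := by
    apply le_antisymm
    · rintro _ ⟨c, rfl⟩
      apply H.regular_of_form hsf hN c.2 (f := aeval t (c : ℂ[X]) * w⁻¹)
      field_simp
    · intro ω hω
      obtain ⟨f, rfl⟩ := H.exists_smul ω
      obtain ⟨c, hc, hfc⟩ := H.form hsf hN hω
      refine ⟨⟨c, hc⟩, ?_⟩
      change (aeval t c * w⁻¹) • KaehlerDifferential.D ℂ K t = f • KaehlerDifferential.D ℂ K t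
      rw [← hfc]
      congr 1
      field_simp
  rw [← hrange]
  exact ⟨LinearEquiv.ofInjective Φ hinj⟩

/-- **Genus of a hyperelliptic function field.** -/
theorem genus_eq (H : Quad t w N) (hsf : Squarefree N) {g : ℕ} (hN : N.natDegree = 2 * g + 2) :
    genus K = g := by
  obtain ⟨e⟩ := H.equiv_degreeLT hsf hN
  unfold genus
  rw [← e.finrank_eq, (degreeLTEquiv ℂ g).finrank_eq]
  simp

theorem finite (H : Quad t w N) (hsf : Squarefree N) {g : ℕ} (hN : N.natDegree = 2 * g + 2) :
    Module.Finite ℂ (regularDifferentials K) := by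
  obtain ⟨e⟩ := H.equiv_degreeLT hsf hN
  have := Module.Finite.equiv (degreeLTEquiv ℂ g).symm
  exact Module.Finite.equiv e

end Quad

end Pool.Agent.H68
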