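import Mathlib

open Polynomial

namespace Pool.Agent.H68

section general

variable (R : Type*) [CommRing R]

/-- `f n (u + 1/u) = (u^n - u^{-n}) / (u - 1/u)`. -/
noncomputable def f (n : ℤ) : R[X] := Chebyshev.S R (n - 1)

theorem f_zero : f R 0 = 0 := by simp [f]

theorem f_one : f R 1 = 1 := by simp [f]

theorem f_add_one (n : ℤ) : f R (n + 1) = X * f R n - f R (n - 1) := by
  unfold f
  have := Chebyshev.S_add_one R (n - 1)
  rw [← this]; congr 1; ring

theorem f_neg (n : ℤ) : f R (-n) = - f R n := by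
  unfold f
  exact Chebyshev.S_neg_sub_one R n

theorem f_sq (n : ℤ) : f R n ^ 2 + f R (n - 1) ^ 2 - X * f R (n - 1) * f R n = 1 := by
  unfold f
  have := Chebyshev.S_sq_add_S_sq R (n - 1 - 1)
  rw [sub_add_cancel] at this
  rw [← this]; ring

theorem map_f {S : Type*} [CommRing S] (φ : R →+* S) (n : ℤ) : map φ (f R n) = f S n := by
  unfold f; exact Chebyshev.map_S _ _

theorem f_eval_two (n : ℤ) : eval 2 (f R n) = n := by
  unfold f; rw [Chebyshev.S_eval_two]; push_cast; ring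

theorem f_monic (n : ℕ) [Nontrivial R] :
    (f R (n + 1)).Monic ∧ (f R (n + 1)).natDegree = n := by
  induction n using Nat.strong_induction_on with
  | _ n ih =>
    match n with
    | 0 => simp [f_one]
    | 1 =>
      have : f R ((1 : ℕ) + 1) = X := by
        have := f_add_one R 1
        rw [f_one, sub_self, f_zero] at this
        simpa using this
      rw [this]; simp [monic_X]
    | (n + 2) =>
      obtain ⟨m1, d1⟩ := ih (n + 1) (by omega)
      obtain ⟨m0, d0⟩ := ih n (by omega)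
      have h := f_add_one R (n + 2)
      have e1 : ((n + 2 : ℕ) : ℤ) + 1 = (n : ℤ) + 2 + 1 := by push_cast; ring
      have e2 : ((n + 1 : ℕ) : ℤ) + 1 = (n : ℤ) + 2 := by push_cast; ring
      have e3 : (n : ℤ) + 2 - 1 = (n : ℤ) + 1 := by ring
      rw [e3] at h
      rw [e2] at m1 d1
      rw [e1, h]
      have hm : (X * f R ((n : ℤ) + 2)).Monic := monic_X.mul m1
      have hd : (X * f R ((n : ℤ) + 2)).natDegree = n + 2 := by
        rw [monic_X.natDegree_mul m1, natDegree_X, d1]; ring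
      have hlt : (f R ((n : ℤ) + 1)).natDegree < (X * f R ((n : ℤ) + 2)).natDegree := by
        rw [hd, d0]; omega
      refine ⟨hm.sub_of_left (degree_lt_degree hlt), ?_⟩
      rw [natDegree_sub_eq_left_of_natDegree_lt hlt, hd]

/-- `D = f_n (f_n - f_{n-1})` -/
noncomputable def DD (n : ℤ) : R[X] := f R n * (f R n - f R (n - 1))

noncomputable def Qp (n : ℤ) : R[X] := (X + 2) * DD R n - 1
noncomputable def Qm (n : ℤ) : R[X] := (X - 2) * DD R n - 1

theorem map_DD {S : Type*} [CommRing S] (φ : R →+* S) (n : ℤ) : map φ (DD R n) = DD S n := by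
  unfold DD; simp [map_f]

theorem map_Qp {S : Type*} [CommRing S] (φ : R →+* S) (n : ℤ) : map φ (Qp R n) = Qp S n := by
  unfold Qp; simp [map_DD]

theorem map_Qm {S : Type*} [CommRing S] (φ : R →+* S) (n : ℤ) : map φ (Qm R n) = Qm S n := by
  unfold Qm; simp [map_DD]

theorem DD_eval_two (n : ℤ) : eval 2 (DD R n) = n := by
  unfold DD; rw [eval_mul, eval_sub, f_eval_two, f_eval_two]; push_cast; ring

/-- degree of `D` -/
def degD (n : ℤ) : ℕ := if 0 < n then (2 * n - 2).toNat else (2 * (-n) - 1).toNat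

theorem DD_monic [Nontrivial R] {n : ℤ} (hn : n ≠ 0) :
    ∃ ε : ℤ, (ε = 1 ∨ ε = -1) ∧ ∃ E : R[X], E.Monic ∧ E.natDegree = degD n ∧ DD R n = C (ε : R) * E := by
  have key : ∀ q : ℕ, (f R (q + 2) - f R (q + 1)).Monic ∧
      (f R (q + 2) - f R (q + 1)).natDegree = q + 1 := by
    intro q
    obtain ⟨m1, d1⟩ := f_monic R (q + 1)
    obtain ⟨m0, d0⟩ := f_monic R q
    have e2 : ((q + 1 : ℕ) : ℤ) + 1 = (q : ℤ) + 2 := by push_cast; ring
    rw [e2] at m1 d1
    have hlt : (f R ((q : ℤ) + 1)).natDegree < (f R ((q : ℤ) + 2)).natDegree := by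
      rw [d1, d0]; omega
    refine ⟨m1.sub_of_left (degree_lt_degree hlt), ?_⟩
    rw [natDegree_sub_eq_left_of_natDegree_lt hlt, d1]
  rcases lt_or_gt_of_ne hn with h | h
  · -- n < 0
    obtain ⟨q, rfl⟩ : ∃ q : ℕ, n = -(q + 1 : ℤ) := ⟨(-n - 1).toNat, by omega⟩
    obtain ⟨m0, d0⟩ := f_monic R q
    obtain ⟨m1, d1⟩ := key q
    refine ⟨-1, Or.inr rfl, f R (q + 1) * (f R (q + 2) - f R (q + 1)), m0.mul m1, ?_, ?_⟩
    · rw [m0.natDegree_mul m1, d0, d1]
      unfold degD
      rw [if_neg (by omega)]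
      omega
    · unfold DD
      have e1 : -((q : ℤ) + 1) - 1 = -((q : ℤ) + 2) := by ring
      rw [e1, f_neg, f_neg]
      simp only [Int.cast_neg, Int.cast_one, C_neg, C_1]
      ring
  · obtain ⟨q, rfl⟩ : ∃ q : ℕ, n = (q + 1 : ℤ) := ⟨(n - 1).toNat, by omega⟩
    obtain ⟨m0, d0⟩ := f_monic R q
    refine ⟨1, Or.inl rfl, DD R (q + 1), ?_, ?_, by simp⟩
    · unfold DD
      match q with
      | 0 => simp [f_one, f_zero]
      | (q + 1) =>
        obtain ⟨m1, d1⟩ := key q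
        have e1 : ((q + 1 : ℕ) : ℤ) + 1 = (q : ℤ) + 2 := by push_cast; ring
        have e2 : ((q + 1 : ℕ) : ℤ) + 1 - 1 = (q : ℤ) + 1 := by push_cast; ring
        rw [e2]
        rw [e1] at m0 ⊢
        exact m0.mul m1
    · unfold DD degD
      rw [if_pos (by omega)]
      match q with
      | 0 => simp [f_one, f_zero]
      | (q + 1) =>
        obtain ⟨m1, d1⟩ := key q
        have e1 : ((q + 1 : ℕ) : ℤ) + 1 = (q : ℤ) + 2 := by push_cast; ring
        have e2 : ((q + 1 : ℕ) : ℤ) + 1 - 1 = (q : ℤ) + 1 := by push_cast; ring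
        rw [e2]
        rw [e1] at m0 d0 ⊢
        rw [m0.natDegree_mul m1, d0, d1]
        omega

/-- the Laurent identity -/
theorem f_unit (u : Rˣ) (n : ℤ) : ((u : R) - ((u⁻¹ : Rˣ) : R)) * eval ((u : R) + ((u⁻¹ : Rˣ) : R)) (f R n)
    = ((u ^ n : Rˣ) : R) - ((u ^ (-n) : Rˣ) : R) := by
  have hu : (u : R) * ((u⁻¹ : Rˣ) : R) = 1 := Units.mul_inv u
  have step : ∀ k : ℤ, ((u ^ (k + 1) : Rˣ) : R) = ((u ^ k : Rˣ) : R) * u := fun k => by
    rw [zpow_add_one]; simp
  have step' : ∀ k : ℤ, ((u ^ (k - 1) : Rˣ) : R) = ((u ^ k : Rˣ) : R) * ((u⁻¹ : Rˣ) : R) :=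
    fun k => by rw [zpow_sub_one]; simp
  have key : ∀ n : ℕ, (((u : R) - ((u⁻¹ : Rˣ) : R)) * eval ((u : R) + ((u⁻¹ : Rˣ) : R)) (f R n)
    = ((u ^ (n : ℤ) : Rˣ) : R) - ((u ^ (-(n : ℤ)) : Rˣ) : R)) ∧
    (((u : R) - ((u⁻¹ : Rˣ) : R)) * eval ((u : R) + ((u⁻¹ : Rˣ) : R)) (f R (n + 1))
    = ((u ^ ((n : ℤ) + 1) : Rˣ) : R) - ((u ^ (-((n : ℤ) + 1)) : Rˣ) : R)) := by
    intro n
    induction n with
    | zero => simp [f_zero, f_one]
    | succ n ih =>
      obtain ⟨h0, h1⟩ := ih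
      refine ⟨by push_cast; exact h1, ?_⟩
      have e := f_add_one R (n + 1)
      have e3 : (n : ℤ) + 1 - 1 = (n : ℤ) := by ring
      rw [e3] at e
      push_cast
      rw [e, eval_sub, eval_mul, eval_X, mul_sub, h0]
      have s1 := step (n + 1)
      have s2 : ((u ^ (-((n : ℤ) + 1 + 1)) : Rˣ) : R) =
        ((u ^ (-((n : ℤ) + 1)) : Rˣ) : R) * ((u⁻¹ : Rˣ) : R) := by
        rw [← step', show -((n : ℤ) + 1) - 1 = -((n : ℤ) + 1 + 1) by ring]
      have s3 : ((u ^ ((n : ℤ) + 1) : Rˣ) : R) = ((u ^ (n : ℤ) : Rˣ) : R) * u := step n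
      have s4 : ((u ^ (-(n : ℤ)) : Rˣ) : R) = ((u ^ (-((n : ℤ) + 1)) : Rˣ) : R) * u := by
        rw [← step, show -((n : ℤ) + 1) + 1 = -(n : ℤ) by ring]
      rw [s1, s2]
      have h1' := h1
      rw [s4]
      linear_combination ((u : R) + ((u⁻¹ : Rˣ) : R)) * h1' + ((u⁻¹ : Rˣ) : R) * s3 +
        ((u ^ (n : ℤ) : Rˣ) : R) * hu
  rcases Int.eq_nat_or_neg n with ⟨k, rfl | rfl⟩
  · exact (key k).1
  · rw [f_neg, eval_neg, neg_neg, mul_neg, (key k).1]; ring

/-- The key identity `(u - 1) u^{2n-1} Qp(u + 1/u) = u^{4n-1} - 1`. -/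
theorem Qp_unit (u : Rˣ) (n : ℤ) (hu : IsUnit ((u : R) - ((u⁻¹ : Rˣ) : R))) :
    ((u : R) - 1) * ((u ^ (2 * n - 1) : Rˣ) : R) * eval ((u : R) + ((u⁻¹ : Rˣ) : R)) (Qp R n) =
      ((u ^ (4 * n - 1) : Rˣ) : R) - 1 := by
  set v : R := ((u⁻¹ : Rˣ) : R) with hv
  set a : R := ((u ^ n : Rˣ) : R) with ha
  set b : R := ((u ^ (-n) : Rˣ) : R) with hb
  have huv : (u : R) * v = 1 := Units.mul_inv u
  have hab : a * b = 1 := by
    rw [ha, hb, zpow_neg]; exact Units.mul_inv _
  have h1 := f_unit R u n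
  have h2 := f_unit R u (n - 1)
  have e1 : ((u ^ (n - 1) : Rˣ) : R) = a * v := by rw [zpow_sub_one]; simp [ha, hv]
  have e2 : ((u ^ (-(n - 1)) : Rˣ) : R) = b * u := by
    rw [neg_sub, sub_eq_add_neg, add_comm, zpow_add_one]; simp [hb]
  rw [e1, e2] at h2
  have e3 : ((u ^ (2 * n - 1) : Rˣ) : R) = a * a * v := by
    rw [zpow_sub_one, two_mul, zpow_add]; simp [ha, hv]
  have e4 : ((u ^ (4 * n - 1) : Rˣ) : R) = a * a * a * a * v := by
    rw [zpow_sub_one, show 4 * n = n + n + n + n by ring, zpow_add, zpow_add, zpow_add]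
    simp [ha, hv]
  rw [e3, e4]
  have hsq : IsUnit (((u : R) - v) ^ 2) := hu.pow 2
  apply hsq.mul_left_cancel
  unfold Qp DD
  simp only [eval_sub, eval_mul, eval_add, eval_X, eval_one, eval_ofNat]
  set F := eval ((u : R) + v) (f R n) with hF
  set G := eval ((u : R) + v) (f R (n - 1)) with hG
  have hD : ((u : R) - v) ^ 2 * (F * (F - G)) = (a - b) * ((a - b) - (a * v - b * u)) := by
    rw [← h1, ← h2]; ring
  have hE : (a - b) * ((a - b) - (a * v - b * u)) = a ^ 2 + b ^ 2 - a ^ 2 * v - b ^ 2 * u + u + v - 2 := by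
    linear_combination ((u : R) + v - 2) * hab
  have hE2 : a ^ 2 * (a ^ 2 + b ^ 2 - a ^ 2 * v - b ^ 2 * u + u + v - 2) =
      a ^ 4 * (1 - v) + (1 - u) + a ^ 2 * (u + v - 2) := by
    linear_combination (a * b + 1) * (1 - (u : R)) * hab
  have hE3 : ((u : R) + v + 2) * (u + v - 2) - (u - v) ^ 2 = 0 := by
    linear_combination 4 * huv
  have hE4 : (1 - v) ^ 2 * ((u : R) + v + 2) = (u - v) ^ 2 * v := by
    linear_combination (-2 + 3 * v - (u : R)) * huv
  have hE5 : (1 - v) * ((u : R) + v + 2) * (1 - u) = - (u - v) ^ 2 := by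
    linear_combination ((u : R) + v - 2) * huv
  linear_combination (((u : R) - 1) * a ^ 2 * v * (u + v + 2)) * hD +
    (((u : R) - 1) * a ^ 2 * v * (u + v + 2)) * hE + (((u : R) - 1) * v * (u + v + 2)) * hE2 +
    (((u : R) - 1) * v * a ^ 2) * hE3 + (((u : R) + v + 2) * (a ^ 4 * (1 - v) + (1 - u))) * huv +
    a ^ 4 * hE4 + hE5

end general

section fields

theorem dual_aux {K : Type*} [Field K] {u : K} (hu0 : u ≠ 0) : ∃ U : (TrivSqZeroExt K K)ˣ,
    (U : TrivSqZeroExt K K).fst = u ∧ (U : TrivSqZeroExt K K).snd = 1 ∧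
    ((U⁻¹ : (TrivSqZeroExt K K)ˣ) : TrivSqZeroExt K K).fst = u⁻¹ ∧
    ((U⁻¹ : (TrivSqZeroExt K K)ˣ) : TrivSqZeroExt K K).snd = -(u⁻¹ * u⁻¹) := by
  have hxy : ((TrivSqZeroExt.inl u + TrivSqZeroExt.inr 1 : TrivSqZeroExt K K)) *
      (TrivSqZeroExt.inl u⁻¹ + TrivSqZeroExt.inr (-(u⁻¹ * u⁻¹))) = 1 := by
    apply TrivSqZeroExt.ext
    · simp only [TrivSqZeroExt.fst_mul, TrivSqZeroExt.fst_add, TrivSqZeroExt.fst_inl,
        TrivSqZeroExt.fst_inr, add_zero, TrivSqZeroExt.fst_one]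
      exact mul_inv_cancel₀ hu0
    · simp only [TrivSqZeroExt.snd_mul, TrivSqZeroExt.snd_add, TrivSqZeroExt.snd_inl,
        TrivSqZeroExt.snd_inr, zero_add, TrivSqZeroExt.snd_one, TrivSqZeroExt.fst_add,
        TrivSqZeroExt.fst_inl, TrivSqZeroExt.fst_inr, add_zero, smul_eq_mul,
        MulOpposite.smul_eq_mul_unop, MulOpposite.unop_op]
      field_simp
      ring
  refine ⟨⟨_, _, hxy, by rw [mul_comm]; exact hxy⟩, ?_, ?_, ?_, ?_⟩
  · simp only [TrivSqZeroExt.fst_add, TrivSqZeroExt.fst_inl, TrivSqZeroExt.fst_inr, add_zero]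
  · simp only [TrivSqZeroExt.snd_add, TrivSqZeroExt.snd_inl, TrivSqZeroExt.snd_inr, zero_add]
  · simp only [Units.inv_mk, TrivSqZeroExt.fst_add, TrivSqZeroExt.fst_inl, TrivSqZeroExt.fst_inr,
      add_zero]
  · simp only [Units.inv_mk, TrivSqZeroExt.snd_add, TrivSqZeroExt.snd_inl, TrivSqZeroExt.snd_inr,
      zero_add]

theorem Qp_no_double_root {K : Type*} [Field K] [IsAlgClosed K] (n : ℤ) (hn : (4 * n - 1 : K) ≠ 0)
    (t : K) (h0 : eval t (Qp K n) = 0) (h1 : eval t (derivative (Qp K n)) = 0) : False := by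
  obtain ⟨u, hu⟩ : ∃ u : K, u ^ 2 - t * u + 1 = 0 := by
    have hdeg : (X ^ 2 - C t * X + C 1 : K[X]).degree ≠ 0 := by
      have : (X ^ 2 - C t * X + C 1 : K[X]) = C 1 * X ^ 2 + C (-t) * X + C 1 := by
        simp only [map_neg, map_one]; ring
      rw [this, degree_quadratic one_ne_zero]; norm_num
    obtain ⟨u, hu⟩ := IsAlgClosed.exists_root _ hdeg
    refine ⟨u, ?_⟩
    simpa using hu
  have hu0 : u ≠ 0 := by
    rintro rfl
    simp at hu
  have ht : t = u + u⁻¹ := by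
    field_simp
    linear_combination -hu
  by_cases hc : u - u⁻¹ = 0
  · have husq : (u - 1) * (u + 1) = 0 := by
      field_simp at hc
      linear_combination hc
    rcases mul_eq_zero.mp husq with h | h
    · have : u = 1 := by linear_combination h
      subst this
      have ht2 : t = 2 := by rw [ht]; norm_num
      subst ht2
      unfold Qp at h0
      rw [eval_sub, eval_mul, DD_eval_two] at h0
      simp only [eval_add, eval_X, eval_ofNat, eval_one] at h0
      apply hn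
      linear_combination h0
    · have : u = -1 := by linear_combination h
      subst this
      have ht2 : t = -2 := by rw [ht]; field_simp; norm_num
      subst ht2
      unfold Qp at h0
      simp at h0
  · -- dual numbers
    obtain ⟨U, hxf, hxs, hyf, hys⟩ := dual_aux hu0
    have hunit : IsUnit ((U : TrivSqZeroExt K K) - ((U⁻¹ : (TrivSqZeroExt K K)ˣ) :
        TrivSqZeroExt K K)) := by
      rw [TrivSqZeroExt.isUnit_iff_isUnit_fst, TrivSqZeroExt.fst_sub, hxf, hyf]
      exact isUnit_iff_ne_zero.mpr hc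
    have key := Qp_unit (TrivSqZeroExt K K) U n hunit
    have hsum : (U : TrivSqZeroExt K K) + ((U⁻¹ : (TrivSqZeroExt K K)ˣ) : TrivSqZeroExt K K) =
        algebraMap K (TrivSqZeroExt K K) t + TrivSqZeroExt.inr (1 - u⁻¹ * u⁻¹) := by
      rw [TrivSqZeroExt.algebraMap_eq_inl]
      apply TrivSqZeroExt.ext
      · rw [TrivSqZeroExt.fst_add, TrivSqZeroExt.fst_add, hxf, hyf, TrivSqZeroExt.fst_inl,
          TrivSqZeroExt.fst_inr, add_zero, ht]
      · rw [TrivSqZeroExt.snd_add, TrivSqZeroExt.snd_add, hxs, hys, TrivSqZeroExt.snd_inl,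
          TrivSqZeroExt.snd_inr]
        ring
    have heval : eval ((U : TrivSqZeroExt K K) + ((U⁻¹ : (TrivSqZeroExt K K)ˣ) :
        TrivSqZeroExt K K)) (Qp (TrivSqZeroExt K K) n) = 0 := by
      rw [hsum, ← map_Qp K (algebraMap K (TrivSqZeroExt K K)), eval_map_algebraMap,
        aeval_add_of_sq_eq_zero, aeval_algebraMap_apply_eq_algebraMap_eval,
        aeval_algebraMap_apply_eq_algebraMap_eval, h0, h1]
      · simp
      · rw [pow_two, TrivSqZeroExt.inr_mul_inr]
    rw [heval, mul_zero] at key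
    have hN : U ^ (4 * n - 1) = 1 := by
      apply Units.ext
      rw [Units.val_one]
      linear_combination -key
    have hN' : U ^ ((4 * n - 1).natAbs) = 1 := by
      rcases Int.natAbs_eq (4 * n - 1) with h | h
      · rw [h, zpow_natCast] at hN
        exact hN
      · rw [h, zpow_neg, zpow_natCast, inv_eq_one] at hN
        exact hN
    have hx : (U : TrivSqZeroExt K K) ^ ((4 * n - 1).natAbs) = 1 := by
      have := congrArg (fun z : (TrivSqZeroExt K K)ˣ => (z : TrivSqZeroExt K K)) hN'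
      simpa using this
    have hs := congrArg TrivSqZeroExt.snd hx
    rw [TrivSqZeroExt.snd_pow] at hs
    have hk : (((4 * n - 1).natAbs : ℕ) : K) = 0 := by
      have h2 : u ^ ((4 * n - 1).natAbs - 1) ≠ 0 := pow_ne_zero _ hu0
      have h3 : (((4 * n - 1).natAbs : ℕ) : K) * u ^ ((4 * n - 1).natAbs - 1) = 0 := by
        rw [hxf, hxs, TrivSqZeroExt.snd_one] at hs
        simpa only [nsmul_eq_mul, smul_eq_mul, mul_one, Nat.pred_eq_sub_one] using hs
      exact (mul_eq_zero.mp h3).resolve_right h2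
    apply hn
    rcases Int.natAbs_eq (4 * n - 1) with h | h
    · have h5 := congrArg (fun z : ℤ => (z : K)) h
      simp only [Int.cast_sub, Int.cast_mul, Int.cast_ofNat, Int.cast_one, Int.cast_natCast] at h5
      rw [h5, hk]
    · have h5 := congrArg (fun z : ℤ => (z : K)) h
      simp only [Int.cast_sub, Int.cast_mul, Int.cast_ofNat, Int.cast_one, Int.cast_natCast,
        Int.cast_neg] at h5
      rw [h5, hk, neg_zero]

theorem isIntegral_of_Qm {n : ℤ} (hn : n ≠ 0) {t : ℂ} (h0 : eval t (Qm ℂ n) = 0) :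
    IsIntegral ℤ t := by
  obtain ⟨ε, hε, E, hE, -, hD⟩ := DD_monic ℤ hn
  have hX : (X - 2 : ℤ[X]).Monic := by
    have : (X - 2 : ℤ[X]) = X - C 2 := by simp
    rw [this]; exact monic_X_sub_C 2
  have hXd : (X - 2 : ℤ[X]).natDegree = 1 := by
    have : (X - 2 : ℤ[X]) = X - C 2 := by simp
    rw [this]; exact natDegree_X_sub_C 2
  have hm : ((X - 2) * E - C ε).Monic := by
    apply (hX.mul hE).sub_of_left
    refine lt_of_le_of_lt degree_C_le ?_
    rw [degree_eq_natDegree (hX.mul hE).ne_zero, hX.natDegree_mul hE, hXd]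
    have : 0 < 1 + E.natDegree := by omega
    exact_mod_cast this
  refine ⟨(X - 2) * E - C ε, hm, ?_⟩
  have hεε : ε * ε = 1 := by rcases hε with rfl | rfl <;> norm_num
  have h2 : (X - 2) * E - C ε = C ε * Qm ℤ n := by
    unfold Qm
    rw [hD]
    have : (C ε * C ε : ℤ[X]) = 1 := by rw [← C_mul, hεε, C_1]
    simp only [Int.cast_id]
    linear_combination (-(X - 2) * E) * this
  rw [h2, eval₂_mul]
  have h3 : eval₂ (algebraMap ℤ ℂ) t (Qm ℤ n) = eval t (Qm ℂ n) := by
    rw [← map_Qm ℤ (algebraMap ℤ ℂ), eval_map]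
  rw [h3, h0, mul_zero]

theorem Qm_eq_Qp_char_two {K : Type*} [Field K] (h2 : (2 : K) = 0) (n : ℤ) : Qm K n = Qp K n := by
  unfold Qm Qp
  have : (2 : K[X]) = 0 := by
    have : (2 : K[X]) = C 2 := (map_ofNat C 2).symm
    rw [this, h2, C_0]
  rw [this]; ring

theorem Qm_no_double_root {n : ℤ} (hn : n ≠ 0) (t : ℂ) (h0 : eval t (Qm ℂ n) = 0)
    (h1 : eval t (derivative (Qm ℂ n)) = 0) : False := by
  have hint := isIntegral_of_Qm hn h0
  set O := integralClosure ℤ ℂ with hO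
  have hnu : ¬ IsUnit (2 : O) := by
    intro h
    obtain ⟨y, hy⟩ := h.exists_right_inv
    have hy2 : (2 : ℂ) * (y : ℂ) = 1 := by
      have := congrArg (fun z : O => (z : ℂ)) hy
      exact this
    have hy3 : (y : ℂ) = algebraMap ℚ ℂ (1 / 2) := by
      have : (y : ℂ) = 1 / 2 := by linear_combination hy2 / 2
      rw [this]; simp
    have hyint : IsIntegral ℤ (y : ℂ) := y.2
    rw [hy3] at hyint
    have h4 : IsIntegral ℤ (1 / 2 : ℚ) :=
      (isIntegral_algebraMap_iff (algebraMap ℚ ℂ).injective).mp hyint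
    obtain ⟨z, hz⟩ := IsIntegrallyClosed.isIntegral_iff.mp h4
    have h5 : (2 * z : ℚ) = 1 := by
      rw [eq_intCast] at hz
      rw [hz]; norm_num
    have h6 : 2 * z = 1 := by exact_mod_cast h5
    omega
  obtain ⟨m, hm, h2m⟩ := exists_max_ideal_of_mem_nonunits hnu
  let _ : Field (O ⧸ m) := Ideal.Quotient.field m
  let ψ : O →+* AlgebraicClosure (O ⧸ m) :=
    (algebraMap (O ⧸ m) (AlgebraicClosure (O ⧸ m))).comp (Ideal.Quotient.mk m)
  have hψ2 : ψ 2 = 0 := by
    change algebraMap (O ⧸ m) (AlgebraicClosure (O ⧸ m)) (Ideal.Quotient.mk m 2) = 0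
    rw [Ideal.Quotient.eq_zero_iff_mem.mpr h2m, map_zero]
  have h2k : (2 : AlgebraicClosure (O ⧸ m)) = 0 := by
    rw [← hψ2, map_ofNat]
  have hk : (4 * (n : AlgebraicClosure (O ⧸ m)) - 1) ≠ 0 := by
    have : (4 : AlgebraicClosure (O ⧸ m)) = 2 * 2 := by norm_num
    rw [this, h2k]; simp
  let t' : O := ⟨t, hint⟩
  have e0 : eval t' (Qm O n) = 0 := by
    apply Subtype.ext
    have : algebraMap O ℂ (eval t' (Qm O n)) = eval (algebraMap O ℂ t') (Qm ℂ n) := by
      rw [← map_Qm O (algebraMap O ℂ), eval_map_apply]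
    exact this.trans h0
  have e1 : eval t' (derivative (Qm O n)) = 0 := by
    apply Subtype.ext
    have : algebraMap O ℂ (eval t' (derivative (Qm O n))) =
        eval (algebraMap O ℂ t') (derivative (Qm ℂ n)) := by
      rw [← map_Qm O (algebraMap O ℂ), derivative_map, eval_map_apply]
    exact this.trans h1
  refine Qp_no_double_root n hk (ψ t') ?_ ?_
  · rw [← Qm_eq_Qp_char_two h2k, ← map_Qm O ψ, eval_map_apply, e0, map_zero]
  · rw [← Qm_eq_Qp_char_two h2k, ← map_Qm O ψ, derivative_map, eval_map_apply, e1, map_zero]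

/-- The hyperelliptic polynomial. -/
noncomputable def NN (n : ℤ) : ℂ[X] := Qp ℂ n * Qm ℂ n

theorem NN_natDegree {n : ℤ} (hn : n ≠ 0) : (NN n).natDegree = 2 * degD n + 2 := by
  obtain ⟨ε, hε, E, hE, hEd, hD⟩ := DD_monic ℂ hn
  have hε0 : ((ε : ℤ) : ℂ) ≠ 0 := by rcases hε with rfl | rfl <;> norm_num
  have hDd : (DD ℂ n).natDegree = degD n := by
    rw [hD, natDegree_C_mul hε0, hEd]
  have hD0 : DD ℂ n ≠ 0 := by
    rw [hD]; exact mul_ne_zero (by simpa using hε0) hE.ne_zero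
  have h1 : ∀ c : ℂ, ((X - C c) * DD ℂ n - 1).natDegree = degD n + 1 := by
    intro c
    have h2 : ((X - C c) * DD ℂ n).natDegree = degD n + 1 := by
      rw [natDegree_mul (X_sub_C_ne_zero c) hD0, natDegree_X_sub_C, hDd, add_comm]
    rw [natDegree_sub_eq_left_of_natDegree_lt, h2]
    rw [h2, natDegree_one]; omega
  have hp : (Qp ℂ n).natDegree = degD n + 1 := by
    have := h1 (-2)
    unfold Qp
    have h3 : (X - C (-2) : ℂ[X]) = X + 2 := by
      rw [map_neg, sub_neg_eq_add, (map_ofNat C 2)]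
    rwa [h3] at this
  have hm : (Qm ℂ n).natDegree = degD n + 1 := by
    have := h1 2
    unfold Qm
    have h3 : (X - C 2 : ℂ[X]) = X - 2 := by rw [(map_ofNat C 2)]
    rwa [h3] at this
  unfold NN
  rw [natDegree_mul, hp, hm]
  · ring
  · intro h; rw [h, natDegree_zero] at hp; omega
  · intro h; rw [h, natDegree_zero] at hm; omega

theorem NN_squarefree {n : ℤ} (hn : n ≠ 0) : Squarefree (NN n) := by
  intro x hx
  by_contra hu
  have hN0 : NN n ≠ 0 := by
    intro h
    have h1 := NN_natDegree hn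
    rw [h, natDegree_zero] at h1
    omega
  have hx0 : x ≠ 0 := by
    rintro rfl
    rw [zero_mul, zero_dvd_iff] at hx
    exact hN0 hx
  have hdeg : x.degree ≠ 0 := by
    intro h
    exact hu (isUnit_iff_degree_eq_zero.mpr h)
  obtain ⟨t, ht⟩ := IsAlgClosed.exists_root x hdeg
  obtain ⟨y, hy⟩ := hx
  have e0 : eval t (NN n) = 0 := by rw [hy]; simp [IsRoot.def.mp ht]
  have e1 : eval t (derivative (NN n)) = 0 := by
    rw [hy]; simp [IsRoot.def.mp ht]
  unfold NN at e0 e1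
  rw [eval_mul] at e0
  rw [derivative_mul, eval_add, eval_mul, eval_mul] at e1
  have hne : eval t (Qp ℂ n) = 0 → eval t (Qm ℂ n) = 0 → False := by
    intro h1 h2
    unfold Qp Qm at *
    simp only [eval_sub, eval_mul, eval_add, eval_X, eval_ofNat, eval_one] at h1 h2
    have h3 : eval t (DD ℂ n) = 0 := by linear_combination (h1 - h2) / 4
    rw [h3] at h1
    simp at h1
  rcases mul_eq_zero.mp e0 with h | h
  · have hm : eval t (Qm ℂ n) ≠ 0 := fun h' => hne h h'
    rw [h, zero_mul, add_zero, mul_eq_zero] at e1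
    have hd := e1.resolve_right hm
    refine Qp_no_double_root n ?_ t h hd
    have : ((4 * n - 1 : ℤ) : ℂ) ≠ 0 := by
      rw [Int.cast_ne_zero]; omega
    push_cast at this
    exact this
  · have hp : eval t (Qp ℂ n) ≠ 0 := fun h' => hne h' h
    rw [h, mul_zero, zero_add, mul_eq_zero] at e1
    have hd := e1.resolve_left hp
    exact Qm_no_double_root hn t h hd

end fields

end Pool.Agent.H68
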