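import Mathlib
import Pool.Agent.H68.Cheb

open Polynomial Matrix

namespace Pool.Agent.H68

/-! ### Matrix identities -/

section mat

variable {R : Type*} [CommRing R]

theorem mat_ABA (A B : Matrix (Fin 2) (Fin 2) R) :
    A * B * A = (A * B).trace • A - A.det • (B.trace • (1 : Matrix (Fin 2) (Fin 2) R) - B) := by
  ext i j
  fin_cases i <;> fin_cases j <;>
    simp [Matrix.mul_apply, Matrix.trace, Fin.sum_univ_two, Matrix.det_fin_two] <;> ring

theorem mat_sq (A : Matrix (Fin 2) (Fin 2) R) :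
    A * A = A.trace • A - A.det • (1 : Matrix (Fin 2) (Fin 2) R) := by
  ext i j
  fin_cases i <;> fin_cases j <;>
    simp [Matrix.mul_apply, Matrix.trace, Fin.sum_univ_two, Matrix.det_fin_two] <;> ring

theorem mat_adj (A : Matrix (Fin 2) (Fin 2) R) :
    A.adjugate = A.trace • (1 : Matrix (Fin 2) (Fin 2) R) - A := by
  ext i j
  fin_cases i <;> fin_cases j <;>
    simp [Matrix.trace, Fin.sum_univ_two, Matrix.adjugate_fin_two] 

theorem mat_anticomm (A B : Matrix (Fin 2) (Fin 2) R) :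
    B * A = A.trace • B + B.trace • A + ((A * B).trace - A.trace * B.trace) •
      (1 : Matrix (Fin 2) (Fin 2) R) - A * B := by
  ext i j
  fin_cases i <;> fin_cases j <;>
    simp [Matrix.mul_apply, Matrix.trace, Fin.sum_univ_two] <;> ring

end mat

/-- Cayley–Hamilton for powers in `SL₂`. -/
theorem sl_zpow {R : Type*} [CommRing R] (g : Matrix.SpecialLinearGroup (Fin 2) R) (n : ℤ) :
    ((g ^ n : Matrix.SpecialLinearGroup (Fin 2) R) : Matrix (Fin 2) (Fin 2) R) =
      eval (g : Matrix (Fin 2) (Fin 2) R).trace (f R n) • (g : Matrix (Fin 2) (Fin 2) R) -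
      eval (g : Matrix (Fin 2) (Fin 2) R).trace (f R (n - 1)) • (1 : Matrix (Fin 2) (Fin 2) R) := by
  set G : Matrix (Fin 2) (Fin 2) R := (g : Matrix (Fin 2) (Fin 2) R) with hG
  set t := G.trace with ht
  have hsq : G * G = t • G - (1 : Matrix (Fin 2) (Fin 2) R) := by
    have := mat_sq G
    rw [hG, g.det_coe, one_smul] at this
    exact this
  have hinv : ((g⁻¹ : Matrix.SpecialLinearGroup (Fin 2) R) : Matrix (Fin 2) (Fin 2) R) =
      t • (1 : Matrix (Fin 2) (Fin 2) R) - G := by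
    rw [Matrix.SpecialLinearGroup.coe_inv, mat_adj]
  have hGinv : G * (t • (1 : Matrix (Fin 2) (Fin 2) R) - G) = 1 := by
    rw [mul_sub, hsq, mul_smul_comm, mul_one]; abel
  have hrec : ∀ k : ℤ, eval t (f R (k + 1)) = t * eval t (f R k) - eval t (f R (k - 1)) := by
    intro k; rw [f_add_one, eval_sub, eval_mul, eval_X]
  induction n using Int.induction_on with
  | zero =>
    have h1 : f R (0 - 1) = -1 := by
      have := f_neg R 1
      rw [f_one] at this
      simpa using this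
    rw [h1, f_zero]; simp
  | succ n ih =>
    rw [_root_.zpow_add_one, Matrix.SpecialLinearGroup.coe_mul, ih, sub_mul, smul_mul_assoc, smul_mul_assoc,
      one_mul, hsq, add_sub_cancel_right, hrec]
    module
  | pred n ih =>
    rw [_root_.zpow_sub_one, Matrix.SpecialLinearGroup.coe_mul, ih, hinv, sub_mul, smul_mul_assoc,
      smul_mul_assoc, one_mul, hGinv]
    have h2 := hrec (-n - 1)
    rw [sub_add_cancel] at h2
    rw [h2]
    module

/-! ### The words `v`, `v_*` -/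

abbrev SL := Matrix.SpecialLinearGroup (Fin 2) ℂ

def vword (a b : SL) : SL := a⁻¹ * b * a * b⁻¹
def vrev (a b : SL) : SL := b⁻¹ * a * b * a⁻¹

section words

variable {A B : Matrix (Fin 2) (Fin 2) ℂ} {x z : ℂ}

/-- Basic relations for a pair in `SL₂` with equal traces. -/
structure Pair (A B : Matrix (Fin 2) (Fin 2) ℂ) (x z : ℂ) : Prop where
  detA : A.det = 1
  detB : B.det = 1
  trA : A.trace = x
  trB : B.trace = x
  trAB : (A * B).trace = z

namespace Pair

theorem trBA (H : Pair A B x z) : (B * A).trace = z := by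
  rw [Matrix.trace_mul_comm, H.trAB]

theorem symm (H : Pair A B x z) : Pair B A x z := ⟨H.detB, H.detA, H.trB, H.trA, H.trBA⟩

theorem AA (H : Pair A B x z) : A * A = x • A - (1 : Matrix (Fin 2) (Fin 2) ℂ) := by
  have := mat_sq A
  rw [H.detA, H.trA, one_smul] at this
  exact this

theorem ABA (H : Pair A B x z) : A * B * A = z • A + B - x • (1 : Matrix (Fin 2) (Fin 2) ℂ) := by
  have := mat_ABA A B
  rw [H.detA, H.trAB, H.trB, one_smul] at this
  rw [this]; abel

theorem adjA (H : Pair A B x z) : A.adjugate = x • (1 : Matrix (Fin 2) (Fin 2) ℂ) - A := by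
  rw [mat_adj, H.trA]

theorem BA (H : Pair A B x z) : B * A = x • A + x • B + (z - x ^ 2) •
    (1 : Matrix (Fin 2) (Fin 2) ℂ) - A * B := by
  have := mat_anticomm A B
  rw [H.trA, H.trB, H.trAB] at this
  rw [this, pow_two]; abel

/-- `A⁻¹ B A B⁻¹` -/
theorem vA (H : Pair A B x z) : A.adjugate * B * A * B.adjugate =
    (x ^ 2 - z) • (B * A) - x • (A + B) + (z ^ 2 - z * x ^ 2 + 2 * x ^ 2 - 1) •
      (1 : Matrix (Fin 2) (Fin 2) ℂ) := by
  have h1 := H.ABA
  have h2 := H.symm.ABA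
  have h3 := H.AA
  have h4 := H.symm.AA
  have h5 := H.BA
  have h6 : A * B * A * B = z • (A * B) - (1 : Matrix (Fin 2) (Fin 2) ℂ) := by
    rw [h1, sub_mul, add_mul, h4, smul_mul_assoc, smul_mul_assoc, one_mul]; abel
  rw [H.adjA, H.symm.adjA]
  have h7 : (x • (1 : Matrix (Fin 2) (Fin 2) ℂ) - A) * B * A * (x • (1 : Matrix (Fin 2) (Fin 2) ℂ) - B) =
      (x ^ 2) • (B * A) - x • (B * A * B) - x • (A * B * A) + A * B * A * B := by
    simp only [sub_mul, mul_sub, smul_mul_assoc, mul_smul_comm, one_mul, mul_one]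
    module
  rw [h7, h6, h2, h1]
  have h8 : A * B = x • A + x • B + (z - x ^ 2) • (1 : Matrix (Fin 2) (Fin 2) ℂ) - B * A := by
    rw [h5]; abel
  rw [h8]
  module

/-- `v_*` -/
theorem vrA (H : Pair A B x z) : B.adjugate * A * B * A.adjugate =
    (x ^ 2 - z) • (A * B) - x • (A + B) + (z ^ 2 - z * x ^ 2 + 2 * x ^ 2 - 1) •
      (1 : Matrix (Fin 2) (Fin 2) ℂ) := by
  rw [H.symm.vA, add_comm B A]

/-- `α` and `β`: `(v - s)(v_* - s) = α + β A`, with `s = tr(AB) - 1`. -/
def al (x z : ℂ) : ℂ := 2 * z ^ 2 - z ^ 3 - 2 * x ^ 2 - 7 * x ^ 2 * z + 2 * x ^ 2 * z ^ 2 +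
  x ^ 2 * z ^ 3 + 6 * x ^ 4 + x ^ 4 * z - 2 * x ^ 4 * z ^ 2 - 2 * x ^ 6 + x ^ 6 * z

def be (x z : ℂ) : ℂ := 4 * x * z - x * z ^ 3 - 4 * x ^ 3 - 2 * x ^ 3 * z + 2 * x ^ 3 * z ^ 2 +
  2 * x ^ 5 - x ^ 5 * z

theorem prod (H : Pair A B x z) :
    (A.adjugate * B * A * B.adjugate - (z - 1) • (1 : Matrix (Fin 2) (Fin 2) ℂ)) *
    (B.adjugate * A * B * A.adjugate - (z - 1) • (1 : Matrix (Fin 2) (Fin 2) ℂ)) =
    al x z • (1 : Matrix (Fin 2) (Fin 2) ℂ) + be x z • A := by
  rw [H.vA, H.vrA]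
  have h1 := H.ABA
  have h2 := H.symm.ABA
  have h3 := H.AA
  have h4 := H.symm.AA
  have h5 := H.BA
  have T1 : (B * A) * (A * B) = (x * (z - 1)) • B + x • A + (1 - x ^ 2) •
      (1 : Matrix (Fin 2) (Fin 2) ℂ) := by
    calc (B * A) * (A * B) = B * (A * A) * B := by simp only [mul_assoc]
      _ = x • (B * A * B) - B * B := by
        rw [h3]; simp only [sub_mul, mul_sub, smul_mul_assoc, mul_smul_comm, mul_one]
      _ = _ := by rw [h2, h4]; module
  have T2 : (B * A) * (A + B) = x • (B * A) + (z - 1) • B + A - x • (1 : Matrix (Fin 2) (Fin 2) ℂ) := by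
    calc (B * A) * (A + B) = B * (A * A) + B * A * B := by
          simp only [mul_add, mul_assoc]
      _ = _ := by
        rw [h3, h2]; simp only [mul_sub, mul_smul_comm, mul_one]; module
  have T3 : (A + B) * (A * B) = x • (A * B) + (z - 1) • B + A - x • (1 : Matrix (Fin 2) (Fin 2) ℂ) := by
    calc (A + B) * (A * B) = (A * A) * B + B * A * B := by
          simp only [add_mul, mul_assoc]
      _ = _ := by
        rw [h3, h2]; simp only [sub_mul, smul_mul_assoc, one_mul]; module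
  have T4 : (A + B) * (A + B) = (2 * x) • (A + B) + (z - x ^ 2 - 2) •
      (1 : Matrix (Fin 2) (Fin 2) ℂ) := by
    calc (A + B) * (A + B) = A * A + B * B + A * B + B * A := by
          simp only [mul_add, add_mul]; abel
      _ = _ := by rw [h3, h4, h5]; module
  have expand : ((x ^ 2 - z) • (B * A) - x • (A + B) + (z ^ 2 - z * x ^ 2 + 2 * x ^ 2 - 1) •
      (1 : Matrix (Fin 2) (Fin 2) ℂ) - (z - 1) • (1 : Matrix (Fin 2) (Fin 2) ℂ)) *
      ((x ^ 2 - z) • (A * B) - x • (A + B) + (z ^ 2 - z * x ^ 2 + 2 * x ^ 2 - 1) •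
      (1 : Matrix (Fin 2) (Fin 2) ℂ) - (z - 1) • (1 : Matrix (Fin 2) (Fin 2) ℂ)) =
      ((x ^ 2 - z) ^ 2) • ((B * A) * (A * B)) - (x * (x ^ 2 - z)) • ((B * A) * (A + B))
      - (x * (x ^ 2 - z)) • ((A + B) * (A * B)) + (x ^ 2) • ((A + B) * (A + B))
      + (z ^ 2 - z * x ^ 2 + 2 * x ^ 2 - z) • ((x ^ 2 - z) • (B * A + A * B) - (2 * x) • (A + B))
      + ((z ^ 2 - z * x ^ 2 + 2 * x ^ 2 - z) ^ 2) • (1 : Matrix (Fin 2) (Fin 2) ℂ) := by
    generalize hP : B * A = P
    generalize hQ : A * B = Q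
    generalize hS : A + B = S
    simp only [sub_mul, mul_sub, add_mul, mul_add, smul_mul_assoc, mul_smul_comm, one_mul, mul_one]
    module
  rw [expand, T1, T2, T3, T4, h5]
  unfold al be
  module

end Pair

end words

end Pool.Agent.H68
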