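import Mathlib
import Pool.Agent.H68.Rep

open Polynomial Matrix

namespace Pool.Agent.H68

variable {A B : Matrix (Fin 2) (Fin 2) ℂ} {x z : ℂ}

namespace Pair

theorem rel (H : Pair A B x z) : B * A * B.adjugate - A.adjugate * B * A = (z - 1) • (A - B) := by
  rw [H.adjA, H.symm.adjA]
  have h1 := H.ABA
  have h2 := H.symm.ABA
  have h3 : B * A * (x • (1 : Matrix (Fin 2) (Fin 2) ℂ) - B) - (x • (1 : Matrix (Fin 2) (Fin 2) ℂ) - A) * B * A
      = A * B * A - B * A * B := by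
    simp only [sub_mul, mul_sub, smul_mul_assoc, mul_smul_comm, one_mul, mul_one]
    module
  rw [h3, h1, h2]
  module

theorem trV (H : Pair A B x z) : (A.adjugate * B * A * B.adjugate).trace =
    (2 - z) * x ^ 2 + z ^ 2 - 2 := by
  rw [H.vA]
  simp only [Matrix.trace_add, Matrix.trace_sub, Matrix.trace_smul, H.trBA, H.trA, H.trB,
    Matrix.trace_one, Fintype.card_fin, smul_eq_mul]
  push_cast
  ring

end Pair

/-- The longitude `(v^p v_*^p)⁻¹`. -/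
def longitude (p : ℤ) (a b : SL) : SL := vrev a b ^ (-p) * vword a b ^ (-p)

theorem pair_of (a b : SL) (htr : (a : Matrix (Fin 2) (Fin 2) ℂ).trace = (b : Matrix (Fin 2) (Fin 2) ℂ).trace) :
    Pair (a : Matrix (Fin 2) (Fin 2) ℂ) (b : Matrix (Fin 2) (Fin 2) ℂ)
      (a : Matrix (Fin 2) (Fin 2) ℂ).trace
      ((a : Matrix (Fin 2) (Fin 2) ℂ) * (b : Matrix (Fin 2) (Fin 2) ℂ)).trace :=
  ⟨a.det_coe, b.det_coe, rfl, htr.symm, rfl⟩

theorem vword_coe (a b : SL) : ((vword a b : SL) : Matrix (Fin 2) (Fin 2) ℂ) =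
    (a : Matrix (Fin 2) (Fin 2) ℂ).adjugate * (b : Matrix (Fin 2) (Fin 2) ℂ) *
    (a : Matrix (Fin 2) (Fin 2) ℂ) * (b : Matrix (Fin 2) (Fin 2) ℂ).adjugate := by
  simp only [vword, Matrix.SpecialLinearGroup.coe_mul, Matrix.SpecialLinearGroup.coe_inv]

theorem vrev_coe (a b : SL) : ((vrev a b : SL) : Matrix (Fin 2) (Fin 2) ℂ) =
    (b : Matrix (Fin 2) (Fin 2) ℂ).adjugate * (a : Matrix (Fin 2) (Fin 2) ℂ) *
    (b : Matrix (Fin 2) (Fin 2) ℂ) * (a : Matrix (Fin 2) (Fin 2) ℂ).adjugate := by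
  simp only [vrev, Matrix.SpecialLinearGroup.coe_mul, Matrix.SpecialLinearGroup.coe_inv]

/-- The relation in terms of Chebyshev polynomials. -/
theorem relation_iff (p : ℤ) (a b : SL)
    (htr : (a : Matrix (Fin 2) (Fin 2) ℂ).trace = (b : Matrix (Fin 2) (Fin 2) ℂ).trace) :
    ((a * vword a b ^ p : SL) : Matrix (Fin 2) (Fin 2) ℂ) -
      ((vword a b ^ p * b : SL) : Matrix (Fin 2) (Fin 2) ℂ) =
    (((a : Matrix (Fin 2) (Fin 2) ℂ) * (b : Matrix (Fin 2) (Fin 2) ℂ)).trace - 1) •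
     (eval ((vword a b : SL) : Matrix (Fin 2) (Fin 2) ℂ).trace (f ℂ p)) •
      ((a : Matrix (Fin 2) (Fin 2) ℂ) - (b : Matrix (Fin 2) (Fin 2) ℂ)) -
     (eval ((vword a b : SL) : Matrix (Fin 2) (Fin 2) ℂ).trace (f ℂ (p - 1))) •
      ((a : Matrix (Fin 2) (Fin 2) ℂ) - (b : Matrix (Fin 2) (Fin 2) ℂ)) := by
  have H := pair_of a b htr
  have h1 := H.rel
  have hav : (a : Matrix (Fin 2) (Fin 2) ℂ) * ((vword a b : SL) : Matrix (Fin 2) (Fin 2) ℂ) =
      (b : Matrix (Fin 2) (Fin 2) ℂ) * (a : Matrix (Fin 2) (Fin 2) ℂ) *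
      (b : Matrix (Fin 2) (Fin 2) ℂ).adjugate := by
    have : a * vword a b = b * a * b⁻¹ := by simp [vword, mul_assoc]
    have h2 := congrArg (fun g : SL => (g : Matrix (Fin 2) (Fin 2) ℂ)) this
    simpa only [Matrix.SpecialLinearGroup.coe_mul, Matrix.SpecialLinearGroup.coe_inv] using h2
  have hvb : ((vword a b : SL) : Matrix (Fin 2) (Fin 2) ℂ) * (b : Matrix (Fin 2) (Fin 2) ℂ) =
      (a : Matrix (Fin 2) (Fin 2) ℂ).adjugate * (b : Matrix (Fin 2) (Fin 2) ℂ) *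
      (a : Matrix (Fin 2) (Fin 2) ℂ) := by
    have : vword a b * b = a⁻¹ * b * a := by simp [vword, mul_assoc]
    have h2 := congrArg (fun g : SL => (g : Matrix (Fin 2) (Fin 2) ℂ)) this
    simpa only [Matrix.SpecialLinearGroup.coe_mul, Matrix.SpecialLinearGroup.coe_inv] using h2
  rw [Matrix.SpecialLinearGroup.coe_mul, Matrix.SpecialLinearGroup.coe_mul, sl_zpow]
  set t := ((vword a b : SL) : Matrix (Fin 2) (Fin 2) ℂ).trace with ht
  rw [mul_sub, sub_mul, mul_smul_comm, smul_mul_assoc, mul_smul_comm, smul_mul_assoc, mul_one,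
    one_mul, hav, hvb]
  rw [smul_comm, ← h1]
  module

/-- the product `v^p v_*^p` -/
theorem vv_coe (p : ℤ) (a b : SL)
    (htr : (a : Matrix (Fin 2) (Fin 2) ℂ).trace = (b : Matrix (Fin 2) (Fin 2) ℂ).trace)
    {s t x : ℂ} (hs : s = ((a : Matrix (Fin 2) (Fin 2) ℂ) * (b : Matrix (Fin 2) (Fin 2) ℂ)).trace - 1)
    (ht : t = ((vword a b : SL) : Matrix (Fin 2) (Fin 2) ℂ).trace)
    (hx : x = (a : Matrix (Fin 2) (Fin 2) ℂ).trace)
    (hst : s * eval t (f ℂ p) = eval t (f ℂ (p - 1))) :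
    ((vword a b ^ p * vrev a b ^ p : SL) : Matrix (Fin 2) (Fin 2) ℂ) =
      (eval t (f ℂ p)) ^ 2 • (Pair.al x (s + 1) • (1 : Matrix (Fin 2) (Fin 2) ℂ) +
        Pair.be x (s + 1) • (a : Matrix (Fin 2) (Fin 2) ℂ)) := by
  have H := pair_of a b htr
  rw [← hx] at H
  have hz : ((a : Matrix (Fin 2) (Fin 2) ℂ) * (b : Matrix (Fin 2) (Fin 2) ℂ)).trace = s + 1 := by
    rw [hs]; ring
  rw [hz] at H
  have hp := H.prod
  have ht2 : ((vrev a b : SL) : Matrix (Fin 2) (Fin 2) ℂ).trace = t := by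
    rw [ht, vword_coe, vrev_coe, H.trV, H.symm.trV]
  rw [Matrix.SpecialLinearGroup.coe_mul, sl_zpow, sl_zpow, ht2, ← ht, ← hst, vword_coe, vrev_coe,
    ← hp]
  have : s + 1 - 1 = s := by ring
  rw [this]
  simp only [sub_mul, mul_sub, smul_mul_assoc, mul_smul_comm, one_mul, mul_one]
  module

end Pool.Agent.H68
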