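import Mathlib
import Pool.Agent.H68.Rep2

open Polynomial Matrix

namespace Pool.Agent.H68

section generic

variable {R S : Type*} [CommRing R] [CommRing S]

/-- Homogenised Chebyshev polynomials. -/
def GG (τ δ : R) : ℕ → R
  | 0 => 0
  | 1 => 1
  | (k + 2) => τ * GG τ δ (k + 1) - δ ^ 2 * GG τ δ k

/-- The Hoste–Shanahan polynomial `x`, in `L` and `m = M²`. -/
def tau (L m : R) : R := -L + L ^ 2 + 2 * L * m + m ^ 2 + 2 * L * m ^ 2 + L ^ 2 * m ^ 2 +
  2 * L * m ^ 3 + m ^ 4 - L * m ^ 4

def del (L m : R) : R := m * (L + m) ^ 2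

/-- The A-polynomial of the twist knot `K_p` at `(L, m = M²)`. -/
def Apg (L m : R) : ℤ → R
  | Int.ofNat 0 => 1
  | Int.ofNat (k + 1) => (L + m ^ 3) * GG (tau L m) (del L m) (k + 1) -
      m ^ 2 * (L + m) ^ 3 * GG (tau L m) (del L m) k
  | Int.negSucc k => GG (tau L m) (del L m) (k + 2) -
      (L + m) * (L + m ^ 3) * GG (tau L m) (del L m) (k + 1)

theorem Apg_ofNat (L m : R) (k : ℕ) : Apg L m (Int.ofNat (k + 1)) =
    (L + m ^ 3) * GG (tau L m) (del L m) (k + 1) -
      m ^ 2 * (L + m) ^ 3 * GG (tau L m) (del L m) k := rfl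

theorem Apg_negSucc (L m : R) (k : ℕ) : Apg L m (Int.negSucc k) =
    GG (tau L m) (del L m) (k + 2) -
      (L + m) * (L + m ^ 3) * GG (tau L m) (del L m) (k + 1) := rfl

theorem map_GG (φ : R →+* S) (τ δ : R) (k : ℕ) : φ (GG τ δ k) = GG (φ τ) (φ δ) k := by
  induction k using Nat.strong_induction_on with
  | _ k ih =>
    match k with
    | 0 => simp [GG]
    | 1 => simp [GG]
    | (k + 2) =>
      rw [GG, GG, map_sub, map_mul, map_mul, map_pow, ih (k + 1) (by omega), ih k (by omega)]

theorem map_tau (φ : R →+* S) (L m : R) : φ (tau L m) = tau (φ L) (φ m) := by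
  simp only [tau, map_add, map_sub, map_mul, map_pow, map_neg, map_ofNat]

theorem map_del (φ : R →+* S) (L m : R) : φ (del L m) = del (φ L) (φ m) := by
  simp [del]

theorem map_Apg (φ : R →+* S) (L m : R) (p : ℤ) : φ (Apg L m p) = Apg (φ L) (φ m) p := by
  match p with
  | Int.ofNat 0 => simp [Apg]
  | Int.ofNat (k + 1) => simp [Apg, map_GG, map_tau, map_del]
  | Int.negSucc k => simp [Apg, map_GG, map_tau, map_del]

theorem del_GG (t δ : R) (k : ℕ) : δ * GG (t * δ) δ k = δ ^ k * eval t (f R k) := by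
  induction k using Nat.strong_induction_on with
  | _ k ih =>
    match k with
    | 0 => simp [GG, f_zero]
    | 1 => simp [GG, f_one]
    | (k + 2) =>
      have h1 := ih (k + 1) (by omega)
      have h0 := ih k (by omega)
      have h := f_add_one R (k + 1)
      rw [show ((k + 2 : ℕ) : ℤ) = (k : ℤ) + 1 + 1 by push_cast; ring, h, GG, eval_sub, eval_mul,
        eval_X, show (k : ℤ) + 1 - 1 = (k : ℤ) by ring]
      push_cast at h1
      linear_combination (t * δ) * h1 - δ ^ 2 * h0

theorem GG_del_zero (τ : R) (k : ℕ) : GG τ 0 (k + 1) = τ ^ k := by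
  induction k with
  | zero => simp [GG]
  | succ k ih => rw [GG, ih]; ring

/-- The key relations. -/
structure Rel (L m s t : R) : Prop where
  h1 : s * (m * (L + m)) = L + m ^ 3
  h2 : m * t = (1 - s) * (m + 1) ^ 2 + m * (s ^ 2 + 2 * s - 1)

theorem tau_eq [IsDomain R] {L m s t : R} (hm : m ≠ 0) (H : Rel L m s t) :
    tau L m = t * del L m := by
  have hm2 : m ^ 2 ≠ 0 := pow_ne_zero _ hm
  apply mul_left_cancel₀ hm2
  have h1 := H.h1
  have h2 := H.h2
  have e : m ^ 2 * tau L m = (m + 1) ^ 2 * (m * (L + m)) * (m * (L + m) - (L + m ^ 3)) +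
      m * ((L + m ^ 3) ^ 2 + 2 * (L + m ^ 3) * (m * (L + m)) - (m * (L + m)) ^ 2) := by
    unfold tau; ring
  rw [e, ← h1]
  unfold del
  linear_combination (-(m ^ 2 * (L + m) ^ 2)) * h2

theorem Apg_eq_zero [IsDomain R] {L m s t : R} (hm : m ≠ 0) (H : Rel L m s t) {p : ℤ} (hp : p ≠ 0)
    (hst : s * eval t (f R p) = eval t (f R (p - 1))) : Apg L m p = 0 := by
  have hτ := tau_eq hm H
  have h1 := H.h1
  match p, hp with
  | Int.ofNat (k + 1), _ =>
    rw [Apg_ofNat, hτ]
    by_cases hd : del L m = 0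
    · have hLm : L + m = 0 := by
        unfold del at hd
        rcases mul_eq_zero.mp hd with h | h
        · exact absurd h hm
        · exact pow_eq_zero_iff (two_ne_zero) |>.mp h
      have : L + m ^ 3 = 0 := by rw [← h1, hLm]; ring
      rw [this, hLm]; ring
    · apply mul_left_cancel₀ hd
      have g1 := del_GG t (del L m) (k + 1)
      have g0 := del_GG t (del L m) k
      have e1 : (Int.ofNat (k + 1) : ℤ) - 1 = (k : ℤ) := by simp
      rw [e1] at hst
      have e2 : (Int.ofNat (k + 1) : ℤ) = ((k + 1 : ℕ) : ℤ) := rfl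
      rw [e2] at hst
      have e3 : m ^ 2 * (L + m) ^ 3 = (m * (L + m)) * del L m := by unfold del; ring
      rw [e3, mul_zero]
      linear_combination (L + m ^ 3) * g1 - (m * (L + m)) * del L m * g0 -
        (del L m) ^ (k + 1) * eval t (f R ((k + 1 : ℕ) : ℤ)) * h1 +
        (m * (L + m)) * (del L m) ^ (k + 1) * hst
  | Int.negSucc k, _ =>
    rw [Apg_negSucc, hτ]
    by_cases hd : del L m = 0
    · have hLm : L + m = 0 := by
        unfold del at hd
        rcases mul_eq_zero.mp hd with h | h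
        · exact absurd h hm
        · exact pow_eq_zero_iff (two_ne_zero) |>.mp h
      rw [hd, hLm, mul_zero, GG_del_zero]
      ring
    · apply mul_left_cancel₀ hd
      have g1 := del_GG t (del L m) (k + 2)
      have g0 := del_GG t (del L m) (k + 1)
      have e1 : (Int.negSucc k : ℤ) - 1 = -((k + 2 : ℕ) : ℤ) := by
        rw [Int.negSucc_eq]; push_cast; ring
      have e2 : (Int.negSucc k : ℤ) = -((k + 1 : ℕ) : ℤ) := by
        rw [Int.negSucc_eq]; push_cast; ring
      rw [e1, e2, f_neg, f_neg, eval_neg, eval_neg] at hst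
      have e3 : (L + m) * (L + m ^ 3) = s * del L m := by
        rw [← h1]; unfold del; ring
      rw [e3, mul_zero]
      linear_combination g1 - s * del L m * g0 + (del L m) ^ (k + 2) * hst

end generic

end Pool.Agent.H68
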