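import Mathlib
import Pool.Agent.H68.Apoly

open Polynomial

namespace Pool.Agent.H68

section degrees

variable {R : Type*} [CommRing R] (m : R)

/-- the A-polynomial as a polynomial in `L = X` over a ring containing `m`. -/
noncomputable def BB (m : R) (p : ℤ) : R[X] := Apg X (C m) p

theorem X_add_C_le (c : R) : (X + C c : R[X]).natDegree ≤ 1 :=
  (natDegree_add_le _ _).trans (by simpa using natDegree_X_le)

theorem X_add_C_coeff (c : R) : (X + C c : R[X]).coeff 1 = 1 := by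
  rw [coeff_add, coeff_X_one, coeff_C_of_ne_zero one_ne_zero, add_zero]

theorem tau_deg : (tau (X : R[X]) (C m)).natDegree ≤ 2 ∧ (tau (X : R[X]) (C m)).coeff 2 = 1 + m ^ 2 := by
  have h : tau (X : R[X]) (C m) = C (1 + m ^ 2) * X ^ 2 +
      C (-1 + 2 * m + 2 * m ^ 2 + 2 * m ^ 3 - m ^ 4) * X + C (m ^ 2 + m ^ 4) := by
    unfold tau
    simp only [C_add, C_sub, C_mul, C_pow, C_neg, C_1, C_ofNat]
    ring
  rw [h]
  refine ⟨natDegree_quadratic_le, ?_⟩
  simp only [coeff_add, coeff_C_mul, coeff_X_pow, coeff_X, coeff_C]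
  norm_num

theorem X_add_C_pow_deg (c : R) (k : ℕ) : ((X + C c) ^ k).natDegree ≤ k ∧ ((X + C c) ^ k).coeff k = 1 := by
  nontriviality R
  have hm := (monic_X_add_C c).pow k
  have hd : ((X + C c) ^ k).natDegree = k := by
    rw [(monic_X_add_C c).natDegree_pow, natDegree_X_add_C, mul_one]
  refine ⟨hd.le, ?_⟩
  have := hm.coeff_natDegree
  rwa [hd] at this

theorem del_sq_deg : ((del (X : R[X]) (C m)) ^ 2).natDegree ≤ 4 ∧
    ((del (X : R[X]) (C m)) ^ 2).coeff 4 = m ^ 2 := by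
  have h : (del (X : R[X]) (C m)) ^ 2 = C (m ^ 2) * (X + C m) ^ 4 := by
    unfold del; rw [C_pow]; ring
  obtain ⟨h1, h2⟩ := X_add_C_pow_deg m 4
  rw [h]
  refine ⟨(natDegree_C_mul_le _ _).trans h1, ?_⟩
  rw [coeff_C_mul, h2, mul_one]

theorem GG_deg (k : ℕ) : (GG (tau (X : R[X]) (C m)) (del (X : R[X]) (C m)) (k + 1)).natDegree ≤ 2 * k ∧
    (GG (tau (X : R[X]) (C m)) (del (X : R[X]) (C m)) (k + 1)).coeff (2 * k) =
      GG (1 + m ^ 2) m (k + 1) := by
  induction k using Nat.strong_induction_on with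
  | _ k ih =>
    match k with
    | 0 => simp [GG]
    | 1 =>
      obtain ⟨h1, h2⟩ := tau_deg m
      simp only [GG, mul_one, mul_zero, sub_zero]
      exact ⟨h1, h2⟩
    | (k + 2) =>
      obtain ⟨d1, c1⟩ := ih (k + 1) (by omega)
      obtain ⟨d0, c0⟩ := ih k (by omega)
      obtain ⟨t1, t2⟩ := tau_deg m
      obtain ⟨e1, e2⟩ := del_sq_deg m
      have a1 : (tau (X : R[X]) (C m) * GG (tau (X : R[X]) (C m)) (del (X : R[X]) (C m)) (k + 1 + 1)).natDegree
          ≤ 2 * (k + 2) := (natDegree_mul_le_of_le t1 d1).trans (by omega)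
      have a2 : ((del (X : R[X]) (C m)) ^ 2 *
          GG (tau (X : R[X]) (C m)) (del (X : R[X]) (C m)) (k + 1)).natDegree
          ≤ 2 * (k + 2) := (natDegree_mul_le_of_le e1 d0).trans (by omega)
      have b1 := coeff_mul_add_eq_of_natDegree_le t1 d1
      have b2 := coeff_mul_add_eq_of_natDegree_le e1 d0
      rw [t2, c1, show 2 + 2 * (k + 1) = 2 * (k + 2) by ring] at b1
      rw [e2, c0, show 4 + 2 * k = 2 * (k + 2) by ring] at b2
      have hG : GG (tau (X : R[X]) (C m)) (del (X : R[X]) (C m)) (k + 2 + 1) =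
        tau (X : R[X]) (C m) * GG (tau (X : R[X]) (C m)) (del (X : R[X]) (C m)) (k + 1 + 1) -
        (del (X : R[X]) (C m)) ^ 2 * GG (tau (X : R[X]) (C m)) (del (X : R[X]) (C m)) (k + 1) := rfl
      rw [hG]
      refine ⟨(natDegree_sub_le _ _).trans (max_le a1 a2), ?_⟩
      rw [coeff_sub, b1, b2]
      rfl

theorem Phi_rel (k : ℕ) : GG (1 + m ^ 2) m (k + 1) - m ^ 2 * GG (1 + m ^ 2) m k = 1 ∧
    GG (1 + m ^ 2) m (k + 1) - GG (1 + m ^ 2) m k = m ^ (2 * k) := by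
  induction k with
  | zero => simp [GG]
  | succ k ih =>
    obtain ⟨h1, h2⟩ := ih
    have hG : GG (1 + m ^ 2) m (k + 1 + 1) = (1 + m ^ 2) * GG (1 + m ^ 2) m (k + 1) -
      m ^ 2 * GG (1 + m ^ 2) m k := rfl
    rw [hG]
    constructor
    · linear_combination h1
    · rw [show 2 * (k + 1) = 2 * k + 2 by ring, pow_add]
      linear_combination m ^ 2 * h2

theorem BB_deg_pos_aux (P Q : R[X]) (n : ℕ) (hP : P.natDegree ≤ n) (hQ : Q.natDegree ≤ n)
    {a b : R} (ha : P.coeff n = a) (hb : Q.coeff n = b) :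
    (P - Q).natDegree ≤ n ∧ (P - Q).coeff n = a - b :=
  ⟨(natDegree_sub_le _ _).trans (max_le hP hQ), by rw [coeff_sub, ha, hb]⟩

theorem BB_deg_pos (k : ℕ) : (BB m (Int.ofNat (k + 1))).natDegree ≤ 2 * k + 1 ∧
    (BB m (Int.ofNat (k + 1))).coeff (2 * k + 1) = 1 := by
  have hB : BB m (Int.ofNat (k + 1)) = (X + C (m ^ 3)) *
      GG (tau (X : R[X]) (C m)) (del (X : R[X]) (C m)) (k + 1) -
      (C (m ^ 2) * (X + C m) ^ 3) * GG (tau (X : R[X]) (C m)) (del (X : R[X]) (C m)) k := by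
    unfold BB
    rw [Apg_ofNat, C_pow, C_pow]
  obtain ⟨d1, c1⟩ := GG_deg m k
  have l1 : (X + C (m ^ 3) : R[X]).natDegree ≤ 1 := X_add_C_le _
  have l2 : (X + C (m ^ 3) : R[X]).coeff 1 = 1 := X_add_C_coeff _
  have a1 := natDegree_mul_le_of_le l1 d1
  have b1 := coeff_mul_add_eq_of_natDegree_le l1 d1
  rw [l2, c1, one_mul, add_comm 1 (2 * k)] at b1
  rw [add_comm 1 (2 * k)] at a1
  have hQ : ((C (m ^ 2) * (X + C m) ^ 3) * GG (tau (X : R[X]) (C m)) (del (X : R[X]) (C m)) k).natDegree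
      ≤ 2 * k + 1 ∧ ((C (m ^ 2) * (X + C m) ^ 3) *
      GG (tau (X : R[X]) (C m)) (del (X : R[X]) (C m)) k).coeff (2 * k + 1) =
      m ^ 2 * GG (1 + m ^ 2) m k := by
    obtain ⟨x1, x2⟩ := X_add_C_pow_deg m 3
    have l3 : (C (m ^ 2) * (X + C m) ^ 3 : R[X]).natDegree ≤ 3 :=
      (natDegree_C_mul_le _ _).trans x1
    have l4 : (C (m ^ 2) * (X + C m) ^ 3 : R[X]).coeff 3 = m ^ 2 := by
      rw [coeff_C_mul, x2, mul_one]
    rcases Nat.eq_zero_or_pos k with h0 | h0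
    · subst h0
      have : GG (tau (X : R[X]) (C m)) (del (X : R[X]) (C m)) 0 = 0 := rfl
      rw [this, mul_zero]
      have h2 : GG (1 + m ^ 2) m 0 = 0 := rfl
      rw [h2]; simp
    · obtain ⟨j, rfl⟩ : ∃ j, k = j + 1 := ⟨k - 1, by omega⟩
      obtain ⟨d0, c0⟩ := GG_deg m j
      have a2 := natDegree_mul_le_of_le l3 d0
      have b2 := coeff_mul_add_eq_of_natDegree_le l3 d0
      have e : 3 + 2 * j = 2 * (j + 1) + 1 := by ring
      rw [l4, c0, e] at b2
      rw [e] at a2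
      exact ⟨a2, b2⟩
  have h := BB_deg_pos_aux _ _ _ a1 hQ.1 b1 hQ.2
  rw [hB, ← (Phi_rel m k).1]
  exact h

theorem BB_deg_neg (k : ℕ) : (BB m (Int.negSucc k)).natDegree ≤ 2 * (k + 1) ∧
    (BB m (Int.negSucc k)).coeff (2 * (k + 1)) = m ^ (2 * (k + 1)) := by
  have hB : BB m (Int.negSucc k) = GG (tau (X : R[X]) (C m)) (del (X : R[X]) (C m)) (k + 1 + 1) -
      ((X + C m) * (X + C (m ^ 3))) * GG (tau (X : R[X]) (C m)) (del (X : R[X]) (C m)) (k + 1) := by
    unfold BB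
    rw [Apg_negSucc, C_pow]
  obtain ⟨d1, c1⟩ := GG_deg m (k + 1)
  obtain ⟨d0, c0⟩ := GG_deg m k
  have l1 : (X + C m : R[X]).natDegree ≤ 1 := X_add_C_le _
  have l2 : (X + C m : R[X]).coeff 1 = 1 := X_add_C_coeff _
  have l1' : (X + C (m ^ 3) : R[X]).natDegree ≤ 1 := X_add_C_le _
  have l2' : (X + C (m ^ 3) : R[X]).coeff 1 = 1 := X_add_C_coeff _
  have l3 := natDegree_mul_le_of_le l1 l1'
  have l4 := coeff_mul_add_eq_of_natDegree_le l1 l1'
  rw [l2, l2', one_mul] at l4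
  have a2 := natDegree_mul_le_of_le l3 d0
  have b2 := coeff_mul_add_eq_of_natDegree_le l3 d0
  rw [l4, c0, one_mul, show 1 + 1 + 2 * k = 2 * (k + 1) by ring] at b2
  rw [show 1 + 1 + 2 * k = 2 * (k + 1) by ring] at a2
  rw [hB]
  refine ⟨(natDegree_sub_le _ _).trans (max_le d1 a2), ?_⟩
  rw [coeff_sub, b2, c1]
  exact (Phi_rel m (k + 1)).2

theorem degD_ofNat (k : ℕ) : degD (Int.ofNat (k + 1)) + 1 = 2 * k + 1 := by
  unfold degD
  rw [if_pos (by simp)]
  have : (2 * Int.ofNat (k + 1) - 2).toNat = 2 * k := by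
    have : (Int.ofNat (k + 1) : ℤ) = (k : ℤ) + 1 := by simp
    rw [this]; omega
  rw [this]

theorem degD_negSucc (k : ℕ) : degD (Int.negSucc k) + 1 = 2 * (k + 1) := by
  unfold degD
  rw [if_neg (by simp)]
  have : (2 * (-Int.negSucc k) - 1).toNat = 2 * k + 1 := by
    rw [Int.neg_negSucc]; push_cast; omega
  rw [this]; ring

/-- `A_p` has `L`-degree `degD p + 1`, with leading coefficient `1` or `m^{2|p|}`. -/
theorem BB_deg {p : ℤ} (hp : p ≠ 0) : (BB m p).natDegree ≤ degD p + 1 ∧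
    ∃ j, (BB m p).coeff (degD p + 1) = m ^ j ∧ (0 < p → j = 0) := by
  match p, hp with
  | Int.ofNat (k + 1), _ =>
    rw [degD_ofNat]
    exact ⟨(BB_deg_pos m k).1, 0, by rw [(BB_deg_pos m k).2, pow_zero], fun _ => rfl⟩
  | Int.negSucc k, _ =>
    rw [degD_negSucc]
    refine ⟨(BB_deg_neg m k).1, 2 * (k + 1), (BB_deg_neg m k).2, fun h => ?_⟩
    simp at h

theorem BB_natDegree [IsDomain R] {p : ℤ} (hp : p ≠ 0) (hm : m ≠ 0) :
    (BB m p).natDegree = degD p + 1 := by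
  obtain ⟨h1, j, h2, -⟩ := BB_deg m hp
  apply le_antisymm h1
  apply le_natDegree_of_ne_zero
  rw [h2]
  exact pow_ne_zero _ hm

theorem map_BB {S : Type*} [CommRing S] (φ : R →+* S) (p : ℤ) : (BB m p).map φ = BB (φ m) p := by
  unfold BB
  have := map_Apg (Polynomial.mapRingHom φ) (X : R[X]) (C m) p
  simpa using this

/-- At `m = 0`. -/
theorem BB_zero_ne (k : ℕ) [Nontrivial R] : BB (0 : R) (Int.negSucc k) ≠ 0 := by
  unfold BB
  rw [Apg_negSucc]
  have h1 : del (X : R[X]) (C 0) = 0 := by simp [del]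
  have h2 : tau (X : R[X]) (C 0) = X * (X - 1) := by
    simp only [tau, C_0]; ring
  rw [h1, h2, show k + 2 = (k + 1) + 1 by ring, GG_del_zero, GG_del_zero, C_0]
  have h3 : ((X : R[X]) * (X - 1)) ^ (k + 1) - (X + 0) * (X + 0 ^ 3) * (X * (X - 1)) ^ k =
      - (X * (X * (X - 1)) ^ k) := by ring
  rw [h3, neg_ne_zero]
  have h4 : (X - 1 : R[X]).Monic := by
    have : (X - 1 : R[X]) = X - C 1 := by simp
    rw [this]; exact monic_X_sub_C 1
  exact (monic_X.mul ((monic_X.mul h4).pow k)).ne_zero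

end degrees

end Pool.Agent.H68
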