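import Mathlib
import Pool.Agent.H68.Deg

open Polynomial
open scoped Polynomial.Bivariate

namespace Pool.Agent.H68

theorem NN_eq (p : ℤ) : NN p = (X * DD ℂ p - 1) ^ 2 - 4 * (DD ℂ p) ^ 2 := by
  unfold NN Qp Qm; ring

theorem NN_not_square {p : ℤ} (hp : p ≠ 0) (ρ : RatFunc ℂ) : ρ ^ 2 ≠ algebraMap ℂ[X] (RatFunc ℂ) (NN p) := by
  intro h
  have hint : IsIntegral ℂ[X] (ρ ^ 2) := by rw [h]; exact isIntegral_algebraMap
  obtain ⟨y, hy⟩ := IsIntegrallyClosed.exists_algebraMap_eq_of_isIntegral_pow (by norm_num) hint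
  rw [← hy, ← map_pow] at h
  have h2 := IsFractionRing.injective ℂ[X] (RatFunc ℂ) h
  have h3 := NN_squarefree hp y ⟨1, by rw [← h2]; ring⟩
  have h4 := NN_natDegree hp
  rw [← h2, natDegree_pow, natDegree_eq_zero_of_isUnit h3] at h4
  omega

theorem DD_ne_zero {p : ℤ} (hp : p ≠ 0) : DD ℂ p ≠ 0 := by
  obtain ⟨ε, hε, E, hE, -, hD⟩ := DD_monic ℂ hp
  have hε0 : ((ε : ℤ) : ℂ) ≠ 0 := by rcases hε with rfl | rfl <;> norm_num
  rw [hD]; exact mul_ne_zero (by simpa using hε0) hE.ne_zero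

theorem DD_natDegree {p : ℤ} (hp : p ≠ 0) : (DD ℂ p).natDegree = degD p := by
  obtain ⟨ε, hε, E, hE, hEd, hD⟩ := DD_monic ℂ hp
  have hε0 : ((ε : ℤ) : ℂ) ≠ 0 := by rcases hε with rfl | rfl <;> norm_num
  rw [hD, natDegree_C_mul hε0, hEd]

/-- The curve `D(t) m² - (t D(t) - 1) m + D(t) = 0`, as a polynomial in `m` over `ℂ[t]`. -/
noncomputable def qd (p : ℤ) : ℂ[X][Y] :=
  C (DD ℂ p) * Y ^ 2 + C (-(X * DD ℂ p - 1)) * Y + C (DD ℂ p)

theorem qd_natDegree {p : ℤ} (hp : p ≠ 0) : (qd p).natDegree = 2 :=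
  natDegree_quadratic (DD_ne_zero hp)

theorem qd_primitive (p : ℤ) : (qd p).IsPrimitive := by
  intro r hr
  rw [C_dvd_iff_dvd_coeff] at hr
  have h0 := hr 0
  have h1 := hr 1
  have e0 : (qd p).coeff 0 = DD ℂ p := by simp [qd]
  have e1 : (qd p).coeff 1 = -(X * DD ℂ p - 1) := by
    unfold qd
    simp only [coeff_add, coeff_C_mul, coeff_X_pow, coeff_X, coeff_C]
    norm_num
  rw [e0] at h0
  rw [e1] at h1
  have h2 : r ∣ 1 := by
    have : (1 : ℂ[X]) = X * DD ℂ p + -(X * DD ℂ p - 1) := by ring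
    rw [this]
    exact dvd_add (h0.mul_left X) h1
  exact isUnit_of_dvd_one h2

theorem qd_irreducible {p : ℤ} (hp : p ≠ 0) : Irreducible (qd p) := by
  rw [(qd_primitive p).irreducible_iff_irreducible_map_fraction_map (K := RatFunc ℂ)]
  apply irreducible_of_degree_le_three_of_not_isRoot
  · rw [natDegree_map_eq_of_injective (IsFractionRing.injective ℂ[X] (RatFunc ℂ)), qd_natDegree hp]
    simp
  · intro μ hμ
    rw [IsRoot.def, eval_map] at hμ
    unfold qd at hμ
    simp only [eval₂_add, eval₂_mul, eval₂_C, eval₂_pow, eval₂_X] at hμ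
    apply NN_not_square hp (2 * algebraMap ℂ[X] (RatFunc ℂ) (DD ℂ p) * μ -
      algebraMap ℂ[X] (RatFunc ℂ) (X * DD ℂ p - 1))
    rw [NN_eq]
    simp only [map_sub, map_mul, map_pow, map_one, map_neg, map_ofNat] at hμ ⊢
    linear_combination (4 * algebraMap ℂ[X] (RatFunc ℂ) (DD ℂ p)) * hμ

/-- The same curve as a polynomial in `t` over `ℂ[m]`. -/
noncomputable def qt (p : ℤ) : ℂ[X][Y] := Bivariate.swap (qd p)

theorem qt_eq (p : ℤ) : qt p = (DD ℂ p).map C * C X ^ 2 - (Y * (DD ℂ p).map C - 1) * C X +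
    (DD ℂ p).map C := by
  unfold qt qd
  rw [map_add, map_add, map_mul, map_mul, map_pow, Bivariate.swap_C, Bivariate.swap_C,
    Bivariate.swap_Y]
  simp only [Polynomial.map_neg, Polynomial.map_sub, Polynomial.map_mul, Polynomial.map_X,
    Polynomial.map_one]
  ring

theorem qt_irreducible {p : ℤ} (hp : p ≠ 0) : Irreducible (qt p) :=
  (MulEquiv.irreducible_iff (Bivariate.swap (R := ℂ)).toMulEquiv).mpr (qd_irreducible hp)

theorem qt_natDegree {p : ℤ} (hp : p ≠ 0) : (qt p).natDegree = degD p + 1 := by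
  have hD0 : (DD ℂ p).map (C : ℂ →+* ℂ[X]) ≠ 0 := by
    rw [Polynomial.map_ne_zero_iff C_injective]; exact DD_ne_zero hp
  have hDd : ((DD ℂ p).map (C : ℂ →+* ℂ[X])).natDegree = degD p := by
    rw [natDegree_map_eq_of_injective C_injective, DD_natDegree hp]
  have h1 : (-(C X * (Y * (DD ℂ p).map C)) : ℂ[X][Y]).natDegree = degD p + 1 := by
    rw [natDegree_neg, natDegree_C_mul X_ne_zero, natDegree_X_mul hD0, hDd]
  have h2 : (C (X ^ 2 + 1) * (DD ℂ p).map C + C X : ℂ[X][Y]).natDegree ≤ degD p := by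
    refine (natDegree_add_le _ _).trans (max_le ?_ ?_)
    · exact (natDegree_C_mul_le _ _).trans hDd.le
    · rw [natDegree_C]; omega
  have h3 : qt p = -(C X * (Y * (DD ℂ p).map C)) + (C (X ^ 2 + 1) * (DD ℂ p).map C + C X) := by
    rw [qt_eq]; simp only [C_add, C_pow, C_1]; ring
  rw [h3, natDegree_add_eq_left_of_natDegree_lt]
  · exact h1
  · rw [h1]; omega

theorem qt_irreducible_ratFunc {p : ℤ} (hp : p ≠ 0) :
    Irreducible ((qt p).map (algebraMap ℂ[X] (RatFunc ℂ))) := by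
  have hprim : (qt p).IsPrimitive :=
    (qt_irreducible hp).isPrimitive (by rw [qt_natDegree hp]; omega)
  rw [← hprim.irreducible_iff_irreducible_map_fraction_map (K := RatFunc ℂ)]
  exact qt_irreducible hp

/-- The A-polynomial in `ℂ[m][L]`. -/
noncomputable def BC (p : ℤ) : ℂ[X][Y] := BB (X : ℂ[X]) p

theorem BC_natDegree {p : ℤ} (hp : p ≠ 0) : (BC p).natDegree = degD p + 1 :=
  BB_natDegree X hp X_ne_zero

theorem BC_ne_zero {p : ℤ} (hp : p ≠ 0) : BC p ≠ 0 := by
  intro h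
  have := BC_natDegree hp
  rw [h, natDegree_zero] at this
  omega

theorem BC_primitive {p : ℤ} (hp : p ≠ 0) : (BC p).IsPrimitive := by
  intro r hr
  rw [C_dvd_iff_dvd_coeff] at hr
  match p, hp with
  | Int.ofNat (k + 1), _ =>
    have := hr (2 * k + 1)
    unfold BC at this
    rw [(BB_deg_pos X k).2] at this
    exact isUnit_of_dvd_one this
  | Int.negSucc k, _ =>
    have h1 := hr (2 * (k + 1))
    unfold BC at h1
    rw [(BB_deg_neg X k).2] at h1
    obtain ⟨i, hi, hass⟩ := (dvd_prime_pow prime_X _).mp h1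
    rcases Nat.eq_zero_or_pos i with h0 | h0
    · rw [h0, pow_zero] at hass
      exact hass.symm.isUnit isUnit_one
    · exfalso
      have hX : (X : ℂ[X]) ∣ r := (dvd_pow_self X (by omega)).trans hass.symm.dvd
      apply BB_zero_ne (R := ℂ) k
      have h2 : BB (0 : ℂ) (Int.negSucc k) = (BC (Int.negSucc k)).map (evalRingHom 0) := by
        unfold BC
        rw [map_BB]; simp
      rw [h2]
      ext j
      rw [coeff_map]
      obtain ⟨c, hc⟩ := hX.trans (hr j)
      rw [hc]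
      simp

end Pool.Agent.H68
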