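import Mathlib
import Pool.Agent.H68.Irr

open Polynomial
open scoped Polynomial.Bivariate

namespace Pool.Agent.H68

/-- The eigenvalue of the longitude as a function of a point `(t, m)` of the curve
`(t - m - 1/m) D(t) = 1`, over an arbitrary field. -/
theorem curve_point {F : Type*} [Field F] {p : ℤ} {m t : F} (hm : m ≠ 0)
    (hD : (t - (m + m⁻¹)) * eval t (DD F p) = 1) :
    ∃ s L : F, s * eval t (f F p) = eval t (f F (p - 1)) ∧ Rel L m s t ∧
      (L + m) * (s * m - 1) = m * (m ^ 2 - 1) := by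
  have hD0 : eval t (DD F p) ≠ 0 := right_ne_zero_of_mul_eq_one hD
  have hDe : eval t (DD F p) = eval t (f F p) * (eval t (f F p) - eval t (f F (p - 1))) := by
    unfold DD; rw [eval_mul, eval_sub]
  set G := eval t (f F p) with hG
  set G' := eval t (f F (p - 1)) with hG'
  have hG0 : G ≠ 0 := by
    intro h; apply hD0; rw [hDe, h, zero_mul]
  set s : F := G' / G with hsdef
  have hsG : s * G = G' := by rw [hsdef]; field_simp
  have hG1 : G ^ 2 * (1 - t * s + s ^ 2) = 1 := by
    have := congrArg (eval t) (f_sq F p)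
    simp only [eval_sub, eval_add, eval_mul, eval_pow, eval_X, eval_one] at this
    rw [← hG, ← hG', ← hsG] at this
    linear_combination this
  have hD1 : (t - (m + m⁻¹)) * (G ^ 2 * (1 - s)) = 1 := by
    rw [hDe, ← hsG] at hD
    linear_combination hD
  have hs1 : (1 - s) * (m + m⁻¹) = (1 - s) * t - (1 - t * s + s ^ 2) := by
    have h1 : G ^ 2 ≠ 0 := pow_ne_zero _ hG0
    apply mul_left_cancel₀ h1
    linear_combination hG1 - hD1
  have hmi : m * m⁻¹ = 1 := mul_inv_cancel₀ hm
  have h2 : m * t = (1 - s) * (m + 1) ^ 2 + m * (s ^ 2 + 2 * s - 1) := by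
    linear_combination (-m) * hs1 + (1 - s) * hmi
  have hsm : s * m - 1 ≠ 0 := by
    intro h
    have hs : s = m⁻¹ := by
      apply eq_inv_of_mul_eq_one_left
      linear_combination h
    have h3 : m * (t - (m + m⁻¹)) = 0 := by
      rw [mul_sub, h2, hs]
      field_simp
      ring
    have h4 := (mul_eq_zero.mp h3).resolve_left hm
    rw [h4, zero_mul] at hD
    exact zero_ne_one hD
  have hL : m ^ 2 * (m - s) / (s * m - 1) * (s * m - 1) = m ^ 2 * (m - s) := div_mul_cancel₀ _ hsm
  refine ⟨s, m ^ 2 * (m - s) / (s * m - 1), hsG, ⟨?_, h2⟩, ?_⟩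
  · linear_combination hL
  · linear_combination hL

theorem qt_aeval {F : Type*} [Field F] [Algebra ℂ[X] F] (p : ℤ) (t : F) :
    aeval t (qt p) = eval t (DD F p) * (algebraMap ℂ[X] F X) ^ 2 -
      (t * eval t (DD F p) - 1) * algebraMap ℂ[X] F X + eval t (DD F p) := by
  have h : aeval t ((DD ℂ p).map (C : ℂ →+* ℂ[X])) = eval t (DD F p) := by
    rw [aeval_def, eval₂_map, ← eval_map, map_DD]
  rw [qt_eq]
  simp only [map_add, map_sub, map_mul, map_pow, map_one, aeval_X, aeval_C, h]

theorem BC_irreducible_ratFunc {p : ℤ} (hp : p ≠ 0) :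
    Irreducible ((BC p).map (algebraMap ℂ[X] (RatFunc ℂ))) := by
  set qk : (RatFunc ℂ)[X] := (qt p).map (algebraMap ℂ[X] (RatFunc ℂ)) with hqk
  have hirr : Irreducible qk := qt_irreducible_ratFunc hp
  have : Fact (Irreducible qk) := ⟨hirr⟩
  have hqd : qk.natDegree = degD p + 1 := by
    rw [hqk, natDegree_map_eq_of_injective (IsFractionRing.injective ℂ[X] (RatFunc ℂ)), qt_natDegree hp]
  let F := AdjoinRoot qk
  let t : F := AdjoinRoot.root qk
  let mk : RatFunc ℂ := algebraMap ℂ[X] (RatFunc ℂ) X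
  let m : F := algebraMap (RatFunc ℂ) F mk
  have hmk0 : mk ≠ 0 := by
    intro h
    have := (map_eq_zero_iff _ (IsFractionRing.injective ℂ[X] (RatFunc ℂ))).mp h
    exact X_ne_zero this
  have hm0 : m ≠ 0 := by
    intro h; exact hmk0 ((map_eq_zero_iff _ (algebraMap (RatFunc ℂ) F).injective).mp h)
  have hmsq : m ^ 2 - 1 ≠ 0 := by
    intro h
    have h1 : algebraMap (RatFunc ℂ) F (algebraMap ℂ[X] (RatFunc ℂ) (X ^ 2 - 1)) = 0 := by
      simpa [m, mk] using h
    have h2 := (map_eq_zero_iff _ (algebraMap (RatFunc ℂ) F).injective).mp h1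
    have h3 := (map_eq_zero_iff _ (IsFractionRing.injective ℂ[X] (RatFunc ℂ))).mp h2
    have h4 := congrArg (eval 0) h3
    simp at h4
  have ht : aeval t qk = 0 := by
    have := AdjoinRoot.eval₂_root qk
    rwa [aeval_def]
  have hcomp : (algebraMap (RatFunc ℂ) F).comp (algebraMap ℂ[X] (RatFunc ℂ)) =
      algebraMap ℂ[X] F := (IsScalarTower.algebraMap_eq ℂ[X] (RatFunc ℂ) F).symm
  have hmX : algebraMap ℂ[X] F X = m := by rw [← hcomp]; rfl
  have hq0 : aeval t (qt p) = 0 := by
    have h1 : aeval t ((qt p).map (algebraMap ℂ[X] (RatFunc ℂ))) = aeval t (qt p) := by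
      rw [aeval_def, eval₂_map, hcomp, aeval_def]
    rw [← h1]; exact ht
  rw [qt_aeval, hmX] at hq0
  have hD : (t - (m + m⁻¹)) * eval t (DD F p) = 1 := by
    apply mul_left_cancel₀ hm0
    have hmi : m * m⁻¹ = 1 := mul_inv_cancel₀ hm0
    linear_combination (-1 : F) * hq0 - eval t (DD F p) * hmi
  obtain ⟨s, L, hst, hR, hLm⟩ := curve_point hm0 hD
  have hA : Apg L m p = 0 := Apg_eq_zero hm0 hR hp hst
  have hLm0 : L + m ≠ 0 := by
    intro h
    rw [h, zero_mul] at hLm
    exact mul_ne_zero hm0 hmsq hLm.symm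
  -- `F = k(L)`
  have : FiniteDimensional (RatFunc ℂ) F := (AdjoinRoot.powerBasis hirr.ne_zero).finite
  have hfin : Module.finrank (RatFunc ℂ) F = degD p + 1 := by
    rw [(AdjoinRoot.powerBasis hirr.ne_zero).finrank, AdjoinRoot.powerBasis_dim, hqd]
  have htop : IntermediateField.adjoin (RatFunc ℂ) {L} = (⊤ : IntermediateField (RatFunc ℂ) F) := by
    have hmem : t ∈ IntermediateField.adjoin (RatFunc ℂ) {L} := by
      set E := IntermediateField.adjoin (RatFunc ℂ) ({L} : Set F) with hE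
      have hLE : L ∈ E := IntermediateField.subset_adjoin _ _ rfl
      have hmE : m ∈ E := E.algebraMap_mem mk
      have hsE : s ∈ E := by
        have hs : s = (L + m ^ 3) / (m * (L + m)) := by
          rw [eq_div_iff (mul_ne_zero hm0 hLm0)]
          exact hR.h1
        rw [hs]
        exact E.div_mem (E.add_mem hLE (pow_mem hmE 3)) (E.mul_mem hmE (E.add_mem hLE hmE))
      have htE : t = ((1 - s) * (m + 1) ^ 2 + m * (s ^ 2 + 2 * s - 1)) / m := by
        rw [eq_div_iff hm0, mul_comm]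
        exact hR.h2
      rw [htE]
      have h1E : (1 : F) ∈ E := E.one_mem
      have h2E : (2 : F) ∈ E := by
        rw [← one_add_one_eq_two]; exact E.add_mem h1E h1E
      exact E.div_mem (E.add_mem (E.mul_mem (E.sub_mem h1E hsE) (pow_mem (E.add_mem hmE h1E) 2))
        (E.mul_mem hmE (E.sub_mem (E.add_mem (pow_mem hsE 2) (E.mul_mem h2E hsE)) h1E))) hmE
    have hat : IntermediateField.adjoin (RatFunc ℂ) {t} = (⊤ : IntermediateField (RatFunc ℂ) F) :=
      IntermediateField.adjoin_eq_top_of_algebra _ _ AdjoinRoot.adjoinRoot_eq_top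
    rw [eq_top_iff, ← hat, IntermediateField.adjoin_simple_le_iff]
    exact hmem
  have hmin := (Field.primitive_element_iff_minpoly_natDegree_eq (RatFunc ℂ) L).mp htop
  rw [hfin] at hmin
  have hL0 : aeval L ((BC p).map (algebraMap ℂ[X] (RatFunc ℂ))) = 0 := by
    unfold BC
    rw [map_BB, BB]
    have h1 := map_Apg (aeval L : (RatFunc ℂ)[X] →ₐ[RatFunc ℂ] F).toRingHom (X : (RatFunc ℂ)[X])
      (C ((algebraMap ℂ[X] (RatFunc ℂ)) X)) p
    have h2 : (aeval L : (RatFunc ℂ)[X] →ₐ[RatFunc ℂ] F).toRingHom (X : (RatFunc ℂ)[X]) = L := aeval_X L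
    have h3 : (aeval L : (RatFunc ℂ)[X] →ₐ[RatFunc ℂ] F).toRingHom
      (C ((algebraMap ℂ[X] (RatFunc ℂ)) X)) = m := aeval_C L _
    rw [h2, h3, hA] at h1
    exact h1
  have hdvd := minpoly.dvd (RatFunc ℂ) L hL0
  have hne : (BC p).map (algebraMap ℂ[X] (RatFunc ℂ)) ≠ 0 := by
    rw [Polynomial.map_ne_zero_iff (IsFractionRing.injective ℂ[X] (RatFunc ℂ))]
    exact BC_ne_zero hp
  have hass := associated_of_dvd_of_natDegree_le hdvd hne (by
    rw [hmin, natDegree_map_eq_of_injective (IsFractionRing.injective ℂ[X] (RatFunc ℂ)),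
      BC_natDegree hp])
  exact hass.irreducible_iff.mp (minpoly.irreducible (Algebra.IsIntegral.isIntegral L))

theorem BC_irreducible {p : ℤ} (hp : p ≠ 0) : Irreducible (BC p) := by
  rw [(BC_primitive hp).irreducible_iff_irreducible_map_fraction_map (K := RatFunc ℂ)]
  exact BC_irreducible_ratFunc hp

end Pool.Agent.H68
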