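import Mathlib
import Pool.Agent.H68.Irr2
import Pool.Agent.H68.Genus2

open Polynomial
open scoped Polynomial.Bivariate

namespace Pool.Agent.H68

theorem Apg_neg_self {K : Type*} [Field K] {m : K} (hm : m ≠ 0) (hm2 : m ^ 2 ≠ 1) {p : ℤ}
    (hp : p ≠ 0) : Apg (-m) m p ≠ 0 := by
  have h1 : m ^ 2 - 1 ≠ 0 := sub_ne_zero.mpr hm2
  have hτ : tau (-m) m = m * (m ^ 2 - 1) ^ 2 := by unfold tau; ring
  have hδ : del (-m) m = 0 := by unfold del; ring
  have hτ0 : tau (-m) m ≠ 0 := by rw [hτ]; exact mul_ne_zero hm (pow_ne_zero _ h1)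
  match p, hp with
  | Int.ofNat (k + 1), _ =>
    rw [Apg_ofNat, hδ, GG_del_zero]
    have : (-m + m ^ 3) * tau (-m) m ^ k - m ^ 2 * (-m + m) ^ 3 * GG (tau (-m) m) 0 k =
      m * (m ^ 2 - 1) * tau (-m) m ^ k := by ring
    rw [this]
    exact mul_ne_zero (mul_ne_zero hm h1) (pow_ne_zero _ hτ0)
  | Int.negSucc k, _ =>
    rw [Apg_negSucc, hδ, show k + 2 = (k + 1) + 1 by ring, GG_del_zero, GG_del_zero]
    have : tau (-m) m ^ (k + 1) - (-m + m) * (-m + m ^ 3) * tau (-m) m ^ k = tau (-m) m ^ (k + 1) := by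
      ring
    rw [this]
    exact pow_ne_zero _ hτ0

/-- Converse of `Apg_eq_zero`. -/
theorem st_of_Apg {K : Type*} [Field K] {L m s t : K} (hm : m ≠ 0) (hLm : L + m ≠ 0)
    (H : Rel L m s t) {p : ℤ} (hp : p ≠ 0) (hA : Apg L m p = 0) :
    s * eval t (f K p) = eval t (f K (p - 1)) := by
  have hτ := tau_eq hm H
  have h1 := H.h1
  have hd : del L m ≠ 0 := by unfold del; exact mul_ne_zero hm (pow_ne_zero _ hLm)
  match p, hp with
  | Int.ofNat (k + 1), _ =>
    rw [Apg_ofNat, hτ] at hA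
    have g1 := del_GG t (del L m) (k + 1)
    have g0 := del_GG t (del L m) k
    have e1 : (Int.ofNat (k + 1) : ℤ) - 1 = (k : ℤ) := by simp
    have e2 : (Int.ofNat (k + 1) : ℤ) = ((k + 1 : ℕ) : ℤ) := rfl
    rw [e1, e2]
    have e3 : m ^ 2 * (L + m) ^ 3 = (m * (L + m)) * del L m := by unfold del; ring
    rw [e3] at hA
    have hne : (m * (L + m)) * (del L m) ^ (k + 1) ≠ 0 :=
      mul_ne_zero (mul_ne_zero hm hLm) (pow_ne_zero _ hd)
    apply mul_left_cancel₀ hne
    linear_combination (del L m) * hA - (L + m ^ 3) * g1 + (m * (L + m)) * del L m * g0 +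
        (del L m) ^ (k + 1) * eval t (f K ((k + 1 : ℕ) : ℤ)) * h1
  | Int.negSucc k, _ =>
    rw [Apg_negSucc, hτ] at hA
    have g1 := del_GG t (del L m) (k + 2)
    have g0 := del_GG t (del L m) (k + 1)
    have e1 : (Int.negSucc k : ℤ) - 1 = -((k + 2 : ℕ) : ℤ) := by
      rw [Int.negSucc_eq]; push_cast; ring
    have e2 : (Int.negSucc k : ℤ) = -((k + 1 : ℕ) : ℤ) := by
      rw [Int.negSucc_eq]; push_cast; ring
    rw [e1, e2, f_neg, f_neg, eval_neg, eval_neg]
    have e3 : (L + m) * (L + m ^ 3) = s * del L m := by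
      rw [← h1]; unfold del; ring
    rw [e3] at hA
    apply mul_left_cancel₀ (pow_ne_zero (k + 2) hd)
    linear_combination (del L m) * hA - g1 + s * del L m * g0

theorem exists_const {K : Type*} [Field K] [Algebra ℂ K] {t : K} (ht : IsAlgebraic ℂ t) :
    ∃ c : ℂ, algebraMap ℂ K c = t := by
  have hint := ht.isIntegral
  have h1 := IsAlgClosed.degree_eq_one_of_irreducible ℂ (minpoly.irreducible hint)
  exact minpoly.mem_range_of_degree_eq_one ℂ t h1

theorem aeval_f {K : Type*} [Field K] [Algebra ℂ K] (t : K) (n : ℤ) :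
    aeval t (f ℂ n) = eval t (f K n) := by
  rw [aeval_def, ← eval_map, map_f]

theorem aeval_DD {K : Type*} [Field K] [Algebra ℂ K] (t : K) (n : ℤ) :
    aeval t (DD ℂ n) = eval t (DD K n) := by
  rw [aeval_def, ← eval_map, map_DD]

section gen

variable {K : Type*} [Field K] [Algebra ℂ K]

/-- The field `ℂ(t, w)`, `w² = N(t)`, inside `K`. -/
def quadField (t w : K) (N : ℂ[X]) (hw : w ^ 2 = aeval t N)
    (hind : ∀ a b : ℂ[X], aeval t a + aeval t b * w = 0 → a = 0 ∧ b = 0) :
    IntermediateField ℂ K where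
  carrier := {h | ∃ a b q : ℂ[X], q ≠ 0 ∧ h * aeval t q = aeval t a + aeval t b * w}
  mul_mem' := by
    rintro x y ⟨a, b, q, hq, hx⟩ ⟨a', b', q', hq', hy⟩
    refine ⟨a * a' + b * b' * N, a * b' + b * a', q * q', mul_ne_zero hq hq', ?_⟩
    simp only [map_mul, map_add]
    linear_combination (y * aeval t q') * hx + (aeval t a + aeval t b * w) * hy +
      aeval t b * aeval t b' * hw
  one_mem' := ⟨1, 0, 1, one_ne_zero, by simp⟩
  add_mem' := by
    rintro x y ⟨a, b, q, hq, hx⟩ ⟨a', b', q', hq', hy⟩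
    refine ⟨a * q' + a' * q, b * q' + b' * q, q * q', mul_ne_zero hq hq', ?_⟩
    simp only [map_mul, map_add]
    linear_combination (aeval t q') * hx + (aeval t q) * hy
  zero_mem' := ⟨0, 0, 1, one_ne_zero, by simp⟩
  algebraMap_mem' := fun c => ⟨C c, 0, 1, one_ne_zero, by simp⟩
  inv_mem' := by
    rintro x ⟨a, b, q, hq, hx⟩
    by_cases hx0 : x = 0
    · rw [hx0, inv_zero]; exact ⟨0, 0, 1, one_ne_zero, by simp⟩
    have hq0 : aeval t q ≠ 0 := fun h => hq (hind q 0 (by simpa using h)).1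
    have h1 : aeval t a + aeval t b * w ≠ 0 := by rw [← hx]; exact mul_ne_zero hx0 hq0
    have hnorm : a * a - b * b * N ≠ 0 := by
      intro h
      have h2 : (aeval t a + aeval t b * w) * (aeval t a - aeval t b * w) = 0 := by
        have h3 := congrArg (aeval t) h
        simp only [map_mul, map_sub, map_zero] at h3
        linear_combination h3 - aeval t b ^ 2 * hw
      have h4 := (mul_eq_zero.mp h2).resolve_left h1
      have h5 := hind a (-b) (by rw [map_neg]; linear_combination h4)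
      apply h1
      rw [h5.1, neg_eq_zero.mp h5.2]; simp
    refine ⟨q * a, -(q * b), a * a - b * b * N, hnorm, ?_⟩
    simp only [map_mul, map_sub, map_neg]
    field_simp
    linear_combination (-(aeval t a - aeval t b * w)) * hx + aeval t b ^ 2 * hw

theorem mem_quadField {t w : K} {N : ℂ[X]} {hw : w ^ 2 = aeval t N}
    {hind : ∀ a b : ℂ[X], aeval t a + aeval t b * w = 0 → a = 0 ∧ b = 0} {h : K} :
    h ∈ quadField t w N hw hind ↔
      ∃ a b q : ℂ[X], q ≠ 0 ∧ h * aeval t q = aeval t a + aeval t b * w := Iff.rfl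

/-- The function field of the curve `A_p = 0` is the hyperelliptic field `w² = N_p(t)`. -/
theorem quad_of_point {p : ℤ} (hp : p ≠ 0) {L m : K} (hA : Apg L m p = 0)
    (hmtr : Transcendental ℂ m)
    (hgen : ∀ E : IntermediateField ℂ K, L ∈ E → m ∈ E → E = ⊤) :
    ∃ t w : K, Quad t w (NN p) := by
  have hm : m ≠ 0 := by
    rintro rfl; exact hmtr isAlgebraic_zero
  have hm2 : m ^ 2 ≠ 1 := by
    intro h
    apply hmtr
    refine ⟨X ^ 2 - 1, ?_, by simp [h]⟩
    intro h3
    have h4 := congrArg (eval 0) h3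
    simp at h4
  have hLm : L + m ≠ 0 := by
    intro h
    have : L = -m := by linear_combination h
    rw [this] at hA
    exact Apg_neg_self hm hm2 hp hA
  set s : K := (L + m ^ 3) / (m * (L + m)) with hs
  set t : K := ((1 - s) * (m + 1) ^ 2 + m * (s ^ 2 + 2 * s - 1)) / m with ht
  have hR : Rel L m s t := by
    refine ⟨?_, ?_⟩
    · rw [hs, div_mul_cancel₀ _ (mul_ne_zero hm hLm)]
    · rw [ht, mul_div_cancel₀ _ hm]
  have hst := st_of_Apg hm hLm hR hp hA
  have hf := congrArg (eval t) (f_sq K p)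
  simp only [eval_sub, eval_add, eval_mul, eval_pow, eval_X, eval_one] at hf
  rw [← hst] at hf
  have hf0 : eval t (f K p) ≠ 0 := by
    intro h
    rw [h] at hf
    simp at hf
  have hDe : eval t (DD K p) = (eval t (f K p)) ^ 2 * (1 - s) := by
    unfold DD; rw [eval_mul, eval_sub, ← hst]; ring
  have hmi : m * m⁻¹ = 1 := mul_inv_cancel₀ hm
  have h2 : (1 - s) * (t - (m + m⁻¹)) = 1 - t * s + s ^ 2 := by
    apply mul_left_cancel₀ hm
    linear_combination hR.h2 - (1 - s) * hmi
  have hD : (t - (m + m⁻¹)) * eval t (DD K p) = 1 := by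
    rw [hDe]
    linear_combination (eval t (f K p)) ^ 2 * h2 + hf
  have hD0 : eval t (DD K p) ≠ 0 := right_ne_zero_of_mul_eq_one hD
  set w : K := eval t (DD K p) * (m - m⁻¹) with hw
  have hsum : eval t (DD K p) * (m + m⁻¹) = t * eval t (DD K p) - 1 := by
    linear_combination -hD
  have hsq : w ^ 2 = aeval t (NN p) := by
    rw [NN_eq]
    simp only [map_sub, map_mul, map_pow, map_one, aeval_X, map_ofNat, aeval_DD]
    rw [hw]
    linear_combination (eval t (DD K p) * (m + m⁻¹) + t * eval t (DD K p) - 1) * hsum -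
      4 * eval t (DD K p) ^ 2 * hmi
  have httr : Transcendental ℂ t := by
    intro halg
    obtain ⟨c, hc⟩ := exists_const halg
    have h3 : eval t (DD K p) = algebraMap ℂ K (eval c (DD ℂ p)) := by
      rw [← hc, ← aeval_DD, aeval_algebraMap_apply, coe_aeval_eq_eval]
    have h4 : eval c (DD ℂ p) ≠ 0 := by
      intro h; apply hD0; rw [h3, h, map_zero]
    apply hmtr
    refine ⟨C (eval c (DD ℂ p)) * X ^ 2 + C (-(c * eval c (DD ℂ p) - 1)) * X +
      C (eval c (DD ℂ p)), ?_, ?_⟩
    · intro h0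
      have := congrArg (eval 0) h0
      simp at this
      exact h4 this
    · simp only [map_add, map_mul, map_pow, aeval_C, aeval_X, map_neg, map_sub, map_one]
      rw [← h3, hc]
      linear_combination m * hsum - eval t (DD K p) * hmi
  have hinj : ∀ a : ℂ[X], aeval t a = 0 → a = 0 := fun a ha =>
    (transcendental_iff.mp httr) a ha
  have hind : ∀ a b : ℂ[X], aeval t a + aeval t b * w = 0 → a = 0 ∧ b = 0 := by
    intro a b hab
    have h1 : a ^ 2 = b ^ 2 * NN p := by
      rw [← sub_eq_zero]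
      apply hinj
      simp only [map_sub, map_mul, map_pow]
      rw [← hsq]
      linear_combination (aeval t a - aeval t b * w) * hab
    have hb : b = 0 := by
      by_contra hb
      have hb' : algebraMap ℂ[X] (RatFunc ℂ) b ≠ 0 := by
        intro h; exact hb ((map_eq_zero_iff _ (IsFractionRing.injective ℂ[X] (RatFunc ℂ))).mp h)
      apply NN_not_square hp (algebraMap ℂ[X] (RatFunc ℂ) a / algebraMap ℂ[X] (RatFunc ℂ) b)
      rw [div_pow, div_eq_iff (pow_ne_zero _ hb'), ← map_pow, ← map_pow, h1, map_mul]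
      ring
    refine ⟨?_, hb⟩
    rw [hb] at h1
    simpa using h1
  refine ⟨t, w, hsq, ?_, hind⟩
  have htop : quadField t w (NN p) hsq hind = ⊤ := by
    set E := quadField t w (NN p) hsq hind with hE
    have htE : t ∈ E := ⟨X, 0, 1, one_ne_zero, by simp⟩
    have hwE : w ∈ E := ⟨0, 1, 1, one_ne_zero, by simp⟩
    have haE : ∀ a : ℂ[X], aeval t a ∈ E := fun a => ⟨a, 0, 1, one_ne_zero, by simp⟩
    have h1E : (1 : K) ∈ E := E.one_mem
    have h2E : (2 : K) ∈ E := by rw [← one_add_one_eq_two]; exact E.add_mem h1E h1E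
    have h20 : (2 : K) ≠ 0 := by
      rw [Quad.two_eq]
      intro h
      have := (map_eq_zero_iff _ (algebraMap ℂ K).injective).mp h
      norm_num at this
    have hDE : eval t (DD K p) ∈ E := by rw [← aeval_DD]; exact haE _
    have hsE : s ∈ E := by
      have : s = eval t (f K (p - 1)) / eval t (f K p) := by rw [eq_div_iff hf0, hst]
      rw [this, ← aeval_f, ← aeval_f]
      exact E.div_mem (haE _) (haE _)
    have hmE : m ∈ E := by
      have : m = (t * eval t (DD K p) - 1 + w) / (2 * eval t (DD K p)) := by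
        rw [eq_div_iff (mul_ne_zero h20 hD0), hw]
        linear_combination hsum
      rw [this]
      exact E.div_mem (E.add_mem (E.sub_mem (E.mul_mem htE hDE) h1E) hwE) (E.mul_mem h2E hDE)
    apply hgen E _ hmE
    have hLE : (L + m) * (s * m - 1) = m * (m ^ 2 - 1) := by linear_combination hR.h1
    have hsm : s * m - 1 ≠ 0 := by
      intro h
      rw [h, mul_zero] at hLE
      exact mul_ne_zero hm (sub_ne_zero.mpr hm2) hLE.symm
    have : L = m * (m ^ 2 - 1) / (s * m - 1) - m := by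
      rw [eq_sub_iff_add_eq, eq_div_iff hsm, hLE]
    rw [this]
    exact E.sub_mem (E.div_mem (E.mul_mem hmE (E.sub_mem (pow_mem hmE 2) h1E))
      (E.sub_mem (E.mul_mem hsE hmE) h1E)) hmE
  intro h
  have : h ∈ quadField t w (NN p) hsq hind := by rw [htop]; trivial
  exact this

theorem genus_of_point {p : ℤ} (hp : p ≠ 0) {L m : K} (hA : Apg L m p = 0)
    (hmtr : Transcendental ℂ m)
    (hgen : ∀ E : IntermediateField ℂ K, L ∈ E → m ∈ E → E = ⊤) :
    Module.Finite ℂ (regularDifferentials K) ∧ genus K = degD p := by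
  obtain ⟨t, w, H⟩ := quad_of_point hp hA hmtr hgen
  exact ⟨H.finite (NN_squarefree hp) (NN_natDegree hp),
    H.genus_eq (NN_squarefree hp) (NN_natDegree hp)⟩

end gen

end Pool.Agent.H68
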