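import Mathlib
import Pool.Agent.H68.Field

open Polynomial
open scoped Polynomial.Bivariate

namespace Pool.Agent.H68

theorem BC_root {p : ℤ} {A : ℂ[X][Y]} (hA : A ∣ BC p) :
    Apg (AdjoinRoot.root A) (AdjoinRoot.of A X) p = 0 := by
  have h1 := map_Apg (AdjoinRoot.mk A) (Y : ℂ[X][Y]) (C X) p
  rw [AdjoinRoot.mk_X, AdjoinRoot.mk_C] at h1
  rw [← h1]
  exact AdjoinRoot.mk_eq_zero.mpr hA

theorem genus_fractionRing {p : ℤ} (hp : p ≠ 0) {A : ℂ[X][Y]} (hA : Associated A (BC p)) :
    Module.Finite ℂ (regularDifferentials (FractionRing (AdjoinRoot A))) ∧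
      genus (FractionRing (AdjoinRoot A)) = degD p := by
  have hirr : Irreducible A := hA.irreducible_iff.mpr (BC_irreducible hp)
  have hprime : Prime A := hirr.prime
  have hdom : IsDomain (AdjoinRoot A) := AdjoinRoot.isDomain_of_prime hprime
  have hdeg : A.natDegree = degD p + 1 := by
    rw [← BC_natDegree hp]
    exact natDegree_eq_of_degree_eq (degree_eq_degree_of_associated hA)
  let K := FractionRing (AdjoinRoot A)
  let L : K := algebraMap (AdjoinRoot A) K (AdjoinRoot.root A)
  let m : K := algebraMap (AdjoinRoot A) K (AdjoinRoot.of A X)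
  have hinj : Function.Injective (algebraMap (AdjoinRoot A) K) := IsFractionRing.injective _ _
  have h0 : Apg L m p = 0 := by
    rw [← map_Apg, BC_root hA.dvd, map_zero]
  have haev : ∀ a : ℂ[X], algebraMap (AdjoinRoot A) K (AdjoinRoot.of A a) = aeval m a := by
    intro a
    have h1 : (algebraMap (AdjoinRoot A) K).comp (AdjoinRoot.of A) = (aeval m : ℂ[X] →ₐ[ℂ] K).toRingHom := by
      apply Polynomial.ringHom_ext
      · intro c
        simp only [RingHom.comp_apply, AlgHom.toRingHom_eq_coe, RingHom.coe_coe, aeval_C]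
        rfl
      · simp [m]
    have h2 := congrArg (fun φ : ℂ[X] →+* K => φ a) h1
    exact h2
  have htr : Transcendental ℂ m := by
    rw [transcendental_iff]
    intro a ha
    rw [← haev] at ha
    have h1 : AdjoinRoot.of A a = 0 := hinj (by rw [ha, map_zero])
    rw [← AdjoinRoot.mk_C, AdjoinRoot.mk_eq_zero] at h1
    by_contra hne
    have h2 := natDegree_le_of_dvd h1 (C_ne_zero.mpr hne)
    rw [natDegree_C, hdeg] at h2
    omega
  apply genus_of_point hp h0 htr
  intro E hL hm
  have haE : ∀ a : ℂ[X], aeval m a ∈ E := by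
    intro a
    rw [aeval_eq_sum_range]
    exact sum_mem fun i _ => E.smul_mem (pow_mem hm i)
  have hmk : ∀ P : ℂ[X][Y], algebraMap (AdjoinRoot A) K (AdjoinRoot.mk A P) ∈ E := by
    intro P
    induction P using Polynomial.induction_on' with
    | add P Q hP hQ => rw [map_add, map_add]; exact E.add_mem hP hQ
    | monomial n a =>
      rw [← C_mul_X_pow_eq_monomial, map_mul, map_mul, map_pow, map_pow, AdjoinRoot.mk_C,
        AdjoinRoot.mk_X, haev]
      exact E.mul_mem (haE a) (pow_mem hL n)
  rw [eq_top_iff]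
  intro x _
  obtain ⟨a, b, -, rfl⟩ := IsFractionRing.div_surjective (A := AdjoinRoot A) x
  obtain ⟨P, rfl⟩ := AdjoinRoot.mk_surjective a
  obtain ⟨Q, rfl⟩ := AdjoinRoot.mk_surjective b
  exact E.div_mem (hmk P) (hmk Q)

end Pool.Agent.H68
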