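import Mathlib
import Pool.Agent.H68.Apoly

open Polynomial Matrix

namespace Pool.Agent.H68

/-- Scalar identity behind the eigenvalue formula. -/
theorem scalar_id {M s : ℂ} (hM : M ≠ 0) :
    (Pair.al (M + M⁻¹) (s + 1) + Pair.be (M + M⁻¹) (s + 1) * M) * (M ^ 4 * (M ^ 2 - s)) =
    (1 - ((2 - (s + 1)) * (M + M⁻¹) ^ 2 + (s + 1) ^ 2 - 2) * s + s ^ 2) * (s * M ^ 2 - 1) := by
  unfold Pair.al Pair.be
  field_simp
  ring

/-- `(L, M)` is an eigenvalue pair of the (longitude, meridian) of the twist knot `K_p`. -/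
def EigenPair (p : ℤ) (L M : ℂ) : Prop :=
  ∃ a b : SL, a * vword a b ^ p = vword a b ^ p * b ∧
    (a : Matrix (Fin 2) (Fin 2) ℂ) 1 0 = 0 ∧
    ((longitude p a b : SL) : Matrix (Fin 2) (Fin 2) ℂ) 1 0 = 0 ∧
    L = ((longitude p a b : SL) : Matrix (Fin 2) (Fin 2) ℂ) 0 0 ∧
    M = (a : Matrix (Fin 2) (Fin 2) ℂ) 0 0

theorem longitude_mul (p : ℤ) (a b : SL) : longitude p a b * (vword a b ^ p * vrev a b ^ p) = 1 := by
  unfold longitude
  rw [_root_.zpow_neg, _root_.zpow_neg]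
  group

theorem trace_upper {a : SL} (ha : (a : Matrix (Fin 2) (Fin 2) ℂ) 1 0 = 0) :
    (a : Matrix (Fin 2) (Fin 2) ℂ) 0 0 ≠ 0 ∧ (a : Matrix (Fin 2) (Fin 2) ℂ).trace =
      (a : Matrix (Fin 2) (Fin 2) ℂ) 0 0 + ((a : Matrix (Fin 2) (Fin 2) ℂ) 0 0)⁻¹ ∧
      (a : Matrix (Fin 2) (Fin 2) ℂ) 1 1 = ((a : Matrix (Fin 2) (Fin 2) ℂ) 0 0)⁻¹ := by
  have hdet := a.det_coe
  rw [Matrix.det_fin_two, ha, mul_zero, sub_zero] at hdet
  have h0 : (a : Matrix (Fin 2) (Fin 2) ℂ) 0 0 ≠ 0 := left_ne_zero_of_mul_eq_one hdet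
  have h1 : (a : Matrix (Fin 2) (Fin 2) ℂ) 1 1 = ((a : Matrix (Fin 2) (Fin 2) ℂ) 0 0)⁻¹ :=
    eq_inv_of_mul_eq_one_right hdet
  refine ⟨h0, ?_, h1⟩
  rw [Matrix.trace, Fin.sum_univ_two, Matrix.diag_apply, Matrix.diag_apply, h1]

/-- The relation between eigenvalues, for a pair of matrices satisfying the knot relation. -/
theorem rel_of {p : ℤ} {a b : SL} (ha : (a : Matrix (Fin 2) (Fin 2) ℂ) 1 0 = 0)
    (hl : ((longitude p a b : SL) : Matrix (Fin 2) (Fin 2) ℂ) 1 0 = 0)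
    (htrab : (a : Matrix (Fin 2) (Fin 2) ℂ).trace = (b : Matrix (Fin 2) (Fin 2) ℂ).trace)
    {s t : ℂ} (hs : s = ((a : Matrix (Fin 2) (Fin 2) ℂ) * (b : Matrix (Fin 2) (Fin 2) ℂ)).trace - 1)
    (ht : t = ((vword a b : SL) : Matrix (Fin 2) (Fin 2) ℂ).trace)
    (hst : s * eval t (f ℂ p) = eval t (f ℂ (p - 1))) :
    Rel (((longitude p a b : SL) : Matrix (Fin 2) (Fin 2) ℂ) 0 0)
      (((a : Matrix (Fin 2) (Fin 2) ℂ) 0 0) ^ 2) s t := by
  obtain ⟨hM0, htr, h11⟩ := trace_upper ha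
  set M : ℂ := (a : Matrix (Fin 2) (Fin 2) ℂ) 0 0 with hM
  have hH := pair_of a b htrab
  have htval : t = (2 - (s + 1)) * (M + M⁻¹) ^ 2 + (s + 1) ^ 2 - 2 := by
    rw [ht, vword_coe, hH.trV, htr, hs]
    ring
  have hvv := vv_coe p a b htrab hs ht htr.symm hst
  set F := eval t (f ℂ p) with hF
  have hF1 : F ^ 2 * (1 - t * s + s ^ 2) = 1 := by
    have := congrArg (eval t) (f_sq ℂ p)
    simp only [eval_sub, eval_add, eval_mul, eval_pow, eval_X, eval_one] at this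
    rw [← hst, ← hF] at this
    linear_combination this
  -- entries of the longitude
  set lam : SL := longitude p a b with hlam
  obtain ⟨hL0, -, hL11⟩ := trace_upper hl
  set L : ℂ := (lam : Matrix (Fin 2) (Fin 2) ℂ) 0 0 with hL
  have hg : ((vword a b ^ p * vrev a b ^ p : SL)) = lam⁻¹ := by
    rw [hlam]
    exact (inv_eq_of_mul_eq_one_right (longitude_mul p a b)).symm
  have hg00 : ((lam⁻¹ : SL) : Matrix (Fin 2) (Fin 2) ℂ) 0 0 = L⁻¹ := by
    rw [Matrix.SpecialLinearGroup.coe_inv, Matrix.adjugate_fin_two]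
    simpa using hL11
  rw [hg] at hvv
  have h00 := congrFun (congrFun hvv 0) 0
  rw [hg00] at h00
  simp only [Matrix.smul_apply, Matrix.add_apply, Matrix.one_apply_eq, smul_eq_mul, mul_one] at h00
  rw [← hM] at h00
  have hid := scalar_id (M := M) (s := s) hM0
  rw [← htval] at hid
  have hkey : M ^ 4 * (M ^ 2 - s) = L * (s * M ^ 2 - 1) := by
    have e1 : L * (F ^ 2 * (Pair.al (M + M⁻¹) (s + 1) + Pair.be (M + M⁻¹) (s + 1) * M)) = 1 := by
      rw [← h00, mul_inv_cancel₀ hL0]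
    calc M ^ 4 * (M ^ 2 - s) = L * (F ^ 2 * (Pair.al (M + M⁻¹) (s + 1) +
          Pair.be (M + M⁻¹) (s + 1) * M)) * (M ^ 4 * (M ^ 2 - s)) := by rw [e1, one_mul]
      _ = L * F ^ 2 * ((Pair.al (M + M⁻¹) (s + 1) +
          Pair.be (M + M⁻¹) (s + 1) * M) * (M ^ 4 * (M ^ 2 - s))) := by ring
      _ = L * (F ^ 2 * (1 - t * s + s ^ 2)) * (s * M ^ 2 - 1) := by rw [hid]; ring
      _ = L * (s * M ^ 2 - 1) := by rw [hF1, mul_one]
  constructor
  · linear_combination -hkey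
  · rw [htval]
    field_simp
    ring

theorem eigen_cases {p : ℤ} {L M : ℂ} (h : EigenPair p L M) :
    M ≠ 0 ∧ (L = 1 ∨ ∃ s t : ℂ, s * eval t (f ℂ p) = eval t (f ℂ (p - 1)) ∧
      Rel L (M ^ 2) s t) := by
  obtain ⟨a, b, hrel, ha, hl, rfl, rfl⟩ := h
  obtain ⟨hM0, htr, h11⟩ := trace_upper ha
  refine ⟨hM0, ?_⟩
  by_cases hab : a = b
  · left
    subst hab
    have h1 : vword a a = 1 := by simp [vword]
    have h2 : vrev a a = 1 := by simp [vrev]
    simp [longitude, h1, h2]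
  right
  -- equal traces
  have htrab : (a : Matrix (Fin 2) (Fin 2) ℂ).trace = (b : Matrix (Fin 2) (Fin 2) ℂ).trace := by
    have h1 : b = (vword a b ^ p)⁻¹ * (a * vword a b ^ p) := by rw [hrel]; group
    have h2 : (b : Matrix (Fin 2) (Fin 2) ℂ).trace =
        (((vword a b ^ p)⁻¹ * (a * vword a b ^ p) : SL) : Matrix (Fin 2) (Fin 2) ℂ).trace := by
      rw [← h1]
    rw [h2, Matrix.SpecialLinearGroup.coe_mul, Matrix.trace_mul_comm,
      ← Matrix.SpecialLinearGroup.coe_mul]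
    congr 2
    group
  set s : ℂ := ((a : Matrix (Fin 2) (Fin 2) ℂ) * (b : Matrix (Fin 2) (Fin 2) ℂ)).trace - 1 with hs
  set t : ℂ := ((vword a b : SL) : Matrix (Fin 2) (Fin 2) ℂ).trace with ht
  have hst : s * eval t (f ℂ p) = eval t (f ℂ (p - 1)) := by
    have h1 := relation_iff p a b htrab
    rw [hrel, sub_self, ← hs, ← ht, smul_smul, ← sub_smul] at h1
    have h2 : (a : Matrix (Fin 2) (Fin 2) ℂ) - (b : Matrix (Fin 2) (Fin 2) ℂ) ≠ 0 := by
      intro h3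
      apply hab
      exact Subtype.ext (sub_eq_zero.mp h3)
    have h3 := (smul_eq_zero.mp h1.symm).resolve_right h2
    linear_combination h3
  exact ⟨s, t, hst, rel_of ha hl htrab hs ht hst⟩

/-- Every eigenvalue pair is a zero of `(L - 1) A_p(L, M²)`. -/
theorem eigen_zero {p : ℤ} (hp : p ≠ 0) {L M : ℂ} (h : EigenPair p L M) :
    (L - 1) * Apg L (M ^ 2) p = 0 := by
  obtain ⟨hM, rfl | ⟨s, t, hst, hR⟩⟩ := eigen_cases h
  · simp
  · rw [Apg_eq_zero (pow_ne_zero 2 hM) hR hp hst, mul_zero]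

/-- Abelian representations. -/
theorem eigen_abelian (p : ℤ) {M : ℂ} (hM : M ≠ 0) : EigenPair p 1 M := by
  let a : SL := ⟨!![M, 0; 0, M⁻¹], by simp [Matrix.det_fin_two, hM]⟩
  have h1 : vword a a = 1 := by simp [vword]
  have h2 : vrev a a = 1 := by simp [vrev]
  refine ⟨a, a, ?_, ?_, ?_, ?_, ?_⟩
  · rw [h1]; simp
  · simp [a]
  · simp [longitude, h1, h2]
  · simp [longitude, h1, h2]
  · simp [a]

/-- Nonabelian representations over a generic point of the curve. -/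
theorem exists_eigen {p : ℤ} {M t : ℂ} (hM : M ≠ 0)
    (hD : (t - (M ^ 2 + (M ^ 2)⁻¹)) * eval t (DD ℂ p) = 1) :
    ∃ L, EigenPair p L M ∧ Rel L (M ^ 2) (eval t (f ℂ (p - 1)) / eval t (f ℂ p)) t ∧
      (L = 1 → M ^ 2 = -1 ∨ (2 - (M ^ 2 + (M ^ 2)⁻¹)) * p = 1) := by
  have hD0 : eval t (DD ℂ p) ≠ 0 := right_ne_zero_of_mul_eq_one hD
  have hDe : eval t (DD ℂ p) = eval t (f ℂ p) * (eval t (f ℂ p) - eval t (f ℂ (p - 1))) := by
    unfold DD; rw [eval_mul, eval_sub]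
  set F := eval t (f ℂ p) with hF
  set F' := eval t (f ℂ (p - 1)) with hF'
  have hF0 : F ≠ 0 := by
    intro h; apply hD0; rw [hDe, h, zero_mul]
  set s : ℂ := F' / F with hsdef
  have hsF : s * F = F' := by rw [hsdef]; field_simp
  have hF1 : F ^ 2 * (1 - t * s + s ^ 2) = 1 := by
    have := congrArg (eval t) (f_sq ℂ p)
    simp only [eval_sub, eval_add, eval_mul, eval_pow, eval_X, eval_one] at this
    rw [← hF, ← hF', ← hsF] at this
    linear_combination this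
  have hD1 : (t - (M ^ 2 + (M ^ 2)⁻¹)) * (F ^ 2 * (1 - s)) = 1 := by
    rw [hDe, ← hsF] at hD
    linear_combination hD
  have hs1 : (1 - s) * (M ^ 2 + (M ^ 2)⁻¹) = (1 - s) * t - (1 - t * s + s ^ 2) := by
    have h1 : F ^ 2 ≠ 0 := pow_ne_zero _ hF0
    apply mul_left_cancel₀ h1
    linear_combination hF1 - hD1
  set c : ℂ := s + 1 - M ^ 2 - (M ^ 2)⁻¹ with hc
  let a : SL := ⟨!![M, 1; 0, M⁻¹], by simp [Matrix.det_fin_two, hM]⟩
  let b : SL := ⟨!![M, 0; c, M⁻¹], by simp [Matrix.det_fin_two, hM]⟩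
  have haM : (a : Matrix (Fin 2) (Fin 2) ℂ) = !![M, 1; 0, M⁻¹] := rfl
  have hbM : (b : Matrix (Fin 2) (Fin 2) ℂ) = !![M, 0; c, M⁻¹] := rfl
  have htrab : (a : Matrix (Fin 2) (Fin 2) ℂ).trace = (b : Matrix (Fin 2) (Fin 2) ℂ).trace := by
    rw [haM, hbM]; simp [Matrix.trace, Fin.sum_univ_two]
  have htra : (a : Matrix (Fin 2) (Fin 2) ℂ).trace = M + M⁻¹ := by
    rw [haM]; simp [Matrix.trace, Fin.sum_univ_two]
  have hs : s = ((a : Matrix (Fin 2) (Fin 2) ℂ) * (b : Matrix (Fin 2) (Fin 2) ℂ)).trace - 1 := by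
    rw [haM, hbM, hc]
    simp [Matrix.trace, Fin.sum_univ_two]
    field_simp
    ring
  have hH := pair_of a b htrab
  have ht : t = ((vword a b : SL) : Matrix (Fin 2) (Fin 2) ℂ).trace := by
    rw [vword_coe, hH.trV, htra]
    have hz : ((a : Matrix (Fin 2) (Fin 2) ℂ) * (b : Matrix (Fin 2) (Fin 2) ℂ)).trace = s + 1 := by
      rw [hs]; ring
    rw [hz]
    have h2 : (M + M⁻¹) ^ 2 = M ^ 2 + (M ^ 2)⁻¹ + 2 := by field_simp; ring
    rw [h2]
    linear_combination -hs1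
  have hst : s * eval t (f ℂ p) = eval t (f ℂ (p - 1)) := hsF
  have ha10 : (a : Matrix (Fin 2) (Fin 2) ℂ) 1 0 = 0 := by rw [haM]; simp
  have hrel : a * vword a b ^ p = vword a b ^ p * b := by
    have h1 := relation_iff p a b htrab
    rw [← hs, ← ht, smul_smul, ← sub_smul, hst, sub_self, zero_smul] at h1
    exact Subtype.ext (sub_eq_zero.mp h1)
  have hvv := vv_coe p a b htrab hs ht htra.symm hst
  have hl : ((longitude p a b : SL) : Matrix (Fin 2) (Fin 2) ℂ) 1 0 = 0 := by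
    have hg : longitude p a b = (vword a b ^ p * vrev a b ^ p)⁻¹ :=
      eq_inv_of_mul_eq_one_left (longitude_mul p a b)
    rw [hg, Matrix.SpecialLinearGroup.coe_inv, hvv, Matrix.adjugate_fin_two]
    simp [haM]
  have hR := rel_of ha10 hl htrab hs ht hst
  have hM00 : (a : Matrix (Fin 2) (Fin 2) ℂ) 0 0 = M := by rw [haM]; simp
  rw [hM00] at hR
  refine ⟨_, ⟨a, b, hrel, ha10, hl, rfl, by rw [haM]; simp⟩, hR, ?_⟩
  intro hL1
  rw [hL1] at hR
  have e1 := hR.h1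
  have e2 := hR.h2
  by_cases hm : M ^ 2 + 1 = 0
  · left; linear_combination hm
  · right
    have e3 : s * M ^ 2 = (M ^ 2) ^ 2 - M ^ 2 + 1 := by
      apply mul_left_cancel₀ hm
      linear_combination e1
    have hm0 : M ^ 2 ≠ 0 := pow_ne_zero 2 hM
    have hs' : s = M ^ 2 - 1 + (M ^ 2)⁻¹ := by
      field_simp
      linear_combination e3
    have ht2 : t = 2 := by
      have h5 : M ^ 2 * t = M ^ 2 * 2 := by
        rw [e2, hs']
        field_simp
        ring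
      exact mul_left_cancel₀ hm0 h5
    rw [ht2, DD_eval_two] at hD
    exact hD

end Pool.Agent.H68
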