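import Mathlib
import Pool.Agent.H68.Rep3
import Pool.Agent.H68.Irr2

open Polynomial
open scoped Polynomial.Bivariate

namespace Pool.Agent.H68

theorem BB_evalEval (q : ℂ[X]) (p : ℤ) (x y : ℂ) :
    (BB q p).evalEval x y = Apg y (eval x q) p := by
  have h := map_Apg (evalEvalRingHom x y) (Y : ℂ[X][Y]) (C q) p
  simp only [coe_evalEvalRingHom, evalEval_X, evalEval_C] at h
  exact h

/-- Decomposition into even and odd parts. -/
theorem even_odd_one (h : ℂ[X]) : ∃ a b : ℂ[X], h = expand ℂ 2 a + X * expand ℂ 2 b := by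
  induction h using Polynomial.induction_on' with
  | add P Q hP hQ =>
    obtain ⟨a, b, hab⟩ := hP
    obtain ⟨a', b', hab'⟩ := hQ
    refine ⟨a + a', b + b', ?_⟩
    rw [map_add, map_add, hab, hab']; ring
  | monomial n c =>
    rcases Nat.even_or_odd' n with ⟨k, rfl | rfl⟩
    · refine ⟨monomial k c, 0, ?_⟩
      rw [expand_monomial, map_zero, mul_zero, add_zero, mul_comm]
    · refine ⟨0, monomial k c, ?_⟩
      rw [expand_monomial, map_zero, zero_add, X_mul_monomial, mul_comm k 2]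

theorem even_odd (F : ℂ[X][Y]) : ∃ A B : ℂ[X][Y],
    F = A.map (expand ℂ 2 : ℂ[X] →ₐ[ℂ] ℂ[X]).toRingHom +
      C X * B.map (expand ℂ 2 : ℂ[X] →ₐ[ℂ] ℂ[X]).toRingHom := by
  induction F using Polynomial.induction_on' with
  | add P Q hP hQ =>
    obtain ⟨a, b, hab⟩ := hP
    obtain ⟨a', b', hab'⟩ := hQ
    refine ⟨a + a', b + b', ?_⟩
    rw [Polynomial.map_add, Polynomial.map_add, hab, hab']; ring
  | monomial n c =>
    obtain ⟨a, b, hab⟩ := even_odd_one c
    refine ⟨monomial n a, monomial n b, ?_⟩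
    rw [map_monomial, map_monomial, C_mul_monomial, ← map_add, hab]
    rfl

theorem evalEval_expand (A : ℂ[X][Y]) (x y : ℂ) :
    (A.map (expand ℂ 2 : ℂ[X] →ₐ[ℂ] ℂ[X]).toRingHom).evalEval x y = A.evalEval (x ^ 2) y := by
  have h : (evalEvalRingHom x y).comp (mapRingHom (expand ℂ 2 : ℂ[X] →ₐ[ℂ] ℂ[X]).toRingHom) =
      evalEvalRingHom (x ^ 2) y := by
    apply Polynomial.ringHom_ext
    · intro a
      simp [expand_eval]
    · simp
  have := congrArg (fun φ : ℂ[X][Y] →+* ℂ => φ A) h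
  simpa using this

/-- For `m = M² ≠ 1` there is a longitude eigenvalue `L` common to `M` and `-M`. -/
theorem exists_pair {p : ℤ} (hp : p ≠ 0) {m : ℂ} (hm : m ≠ 0) (hm1 : m ≠ 1) {t : ℂ}
    (hD : (t - (m + m⁻¹)) * eval t (DD ℂ p) = 1) (M : ℂ) (hM : M ^ 2 = m) :
    EigenPair p (m ^ 2 * (m - eval t (f ℂ (p - 1)) / eval t (f ℂ p)) /
      (eval t (f ℂ (p - 1)) / eval t (f ℂ p) * m - 1)) M ∧
    Apg (m ^ 2 * (m - eval t (f ℂ (p - 1)) / eval t (f ℂ p)) /
      (eval t (f ℂ (p - 1)) / eval t (f ℂ p) * m - 1)) m p = 0 := by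
  have hM0 : M ≠ 0 := by rintro rfl; apply hm; rw [← hM]; simp
  obtain ⟨L, hE, hR, -⟩ := exists_eigen hM0 (p := p) (t := t) (by rw [hM]; exact hD)
  rw [hM] at hR
  have h1 := hR.h1
  set s := eval t (f ℂ (p - 1)) / eval t (f ℂ p) with hs
  have hsm : s * m - 1 ≠ 0 := by
    intro h
    have h3 : m * m - 1 = 0 := by
      apply mul_left_cancel₀ hm
      linear_combination (L + m) * h - h1
    have h4 : (m - 1) * (m + 1) = 0 := by linear_combination h3
    have h5 : m = -1 := by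
      rcases mul_eq_zero.mp h4 with h | h
      · exact absurd (by linear_combination h) hm1
      · linear_combination h
    have h2 := hR.h2
    have hs1 : s = -1 := by rw [h5] at h; linear_combination -h
    rw [h5, hs1] at h2
    have ht : t = -2 := by linear_combination -h2
    have : t - (m + m⁻¹) = 0 := by rw [ht, h5]; norm_num
    rw [this, zero_mul] at hD
    exact zero_ne_one hD
  have hL : L = m ^ 2 * (m - s) / (s * m - 1) := by
    rw [eq_div_iff hsm]
    linear_combination h1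
  rw [← hL]
  refine ⟨hE, Apg_eq_zero hm hR hp ?_⟩
  have hD0 : eval t (DD ℂ p) ≠ 0 := right_ne_zero_of_mul_eq_one hD
  have hf0 : eval t (f ℂ p) ≠ 0 := by
    intro h
    apply hD0
    unfold DD
    rw [eval_mul, h, zero_mul]
  rw [hs, div_mul_cancel₀ _ hf0]

theorem exists_t {p : ℤ} (hp : p ≠ 0) (m : ℂ) : ∃ t : ℂ, (t - (m + m⁻¹)) * eval t (DD ℂ p) = 1 := by
  have hdeg : ((X - C (m + m⁻¹)) * DD ℂ p - C 1).natDegree = degD p + 1 := by
    rw [natDegree_sub_C, natDegree_mul (X_sub_C_ne_zero _) (DD_ne_zero hp), natDegree_X_sub_C,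
      DD_natDegree hp, add_comm]
  obtain ⟨t, ht⟩ := IsAlgClosed.exists_root ((X - C (m + m⁻¹)) * DD ℂ p - C 1) (by
    intro h
    have h2 := natDegree_eq_zero_iff_degree_le_zero.mpr h.le
    rw [hdeg] at h2
    omega)
  refine ⟨t, ?_⟩
  simp only [IsRoot.def, eval_sub, eval_mul, eval_X, eval_C] at ht
  linear_combination ht

/-- A polynomial vanishing at one point of the curve over infinitely many `m` is divisible by
the A-polynomial. -/
theorem BC_dvd_of {p : ℤ} (hp : p ≠ 0) (G : ℂ[X][Y]) (S : Set ℂ) (hS : S.Infinite)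
    (h : ∀ m ∈ S, ∃ L, (BC p).evalEval m L = 0 ∧ G.evalEval m L = 0) : BC p ∣ G := by
  by_contra hnd
  have hirr := BC_irreducible_ratFunc hp
  have hnd' : ¬ (BC p).map (algebraMap ℂ[X] (RatFunc ℂ)) ∣ G.map (algebraMap ℂ[X] (RatFunc ℂ)) := by
    intro hd
    exact hnd ((BC_primitive hp).dvd_of_fraction_map_dvd_fraction_map hd)
  have hcop : IsCoprime ((BC p).map (algebraMap ℂ[X] (RatFunc ℂ)))
      (G.map (algebraMap ℂ[X] (RatFunc ℂ))) := (hirr.coprime_iff_not_dvd).mpr hnd'
  obtain ⟨a, b, hab⟩ := hcop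
  obtain ⟨α, hα, ha⟩ := IsLocalization.integerNormalization_spec (nonZeroDivisors ℂ[X]) a
  obtain ⟨β, hβ, hb⟩ := IsLocalization.integerNormalization_spec (nonZeroDivisors ℂ[X]) b
  set a' := IsLocalization.integerNormalization (nonZeroDivisors ℂ[X]) a with ha'
  set b' := IsLocalization.integerNormalization (nonZeroDivisors ℂ[X]) b with hb'
  have hα0 : α ≠ 0 := nonZeroDivisors.ne_zero hα
  have hβ0 : β ≠ 0 := nonZeroDivisors.ne_zero hβ
  have key : C β * a' * BC p + C α * b' * G = C (α * β) := by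
    apply Polynomial.map_injective _ (IsFractionRing.injective ℂ[X] (RatFunc ℂ))
    simp only [Polynomial.map_add, Polynomial.map_mul, map_C, ha, hb]
    have e1 : α • a = C (algebraMap ℂ[X] (RatFunc ℂ) α) * a := by
      rw [← algebraMap_smul (RatFunc ℂ) α a, smul_eq_C_mul]
    have e2 : β • b = C (algebraMap ℂ[X] (RatFunc ℂ) β) * b := by
      rw [← algebraMap_smul (RatFunc ℂ) β b, smul_eq_C_mul]
    rw [e1, e2, map_mul, C_mul]
    linear_combination C (algebraMap ℂ[X] (RatFunc ℂ) α) * C (algebraMap ℂ[X] (RatFunc ℂ) β) * hab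
  have hzero : ∀ m ∈ S, eval m (α * β) = 0 := by
    intro m hm
    obtain ⟨L, h1, h2⟩ := h m hm
    have h3 := congrArg (evalEvalRingHom m L) key
    simp only [map_add, map_mul, coe_evalEvalRingHom, h1, h2, mul_zero, add_zero, evalEval_C] at h3
    rw [eval_mul]
    simpa using h3.symm
  have h0 : α * β = 0 := eq_zero_of_infinite_isRoot _ (hS.mono fun m hm => hzero m hm)
  exact mul_ne_zero hα0 hβ0 h0

theorem Apg_one_one {K : Type*} [Field K] [CharZero K] (p : ℤ) : Apg (1 : K) 1 p ≠ 0 := by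
  have h40 : (4 : K) ≠ 0 := by norm_num
  have hG : ∀ k : ℕ, GG (8 : K) 4 (k + 1) = (k + 1) * 4 ^ k ∧ GG (8 : K) 4 k = k * 4 ^ k / 4 := by
    intro k
    induction k with
    | zero => simp [GG]
    | succ k ih =>
      obtain ⟨h1, h2⟩ := ih
      constructor
      · have : GG (8 : K) 4 (k + 1 + 1) = 8 * GG (8 : K) 4 (k + 1) - 4 ^ 2 * GG (8 : K) 4 k := rfl
        rw [this, h1, h2]
        push_cast
        ring
      · rw [h1]; push_cast; ring
  have hτ : tau (1 : K) 1 = 8 := by unfold tau; norm_num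
  have hδ : del (1 : K) 1 = 4 := by unfold del; norm_num
  match p with
  | Int.ofNat 0 => simp [Apg]
  | Int.ofNat (k + 1) =>
    rw [Apg_ofNat, hτ, hδ, (hG k).1, (hG k).2]
    have : ((1 : K) + 1 ^ 3) * ((k + 1) * 4 ^ k) - 1 ^ 2 * (1 + 1) ^ 3 * (k * 4 ^ k / 4) = 2 * 4 ^ k := by
      ring
    rw [this]
    exact mul_ne_zero two_ne_zero (pow_ne_zero _ h40)
  | Int.negSucc k =>
    rw [Apg_negSucc, hτ, hδ, (hG (k + 1)).1, (hG k).1]
    have : (((k + 1 : ℕ) : K) + 1) * 4 ^ (k + 1) - (1 + 1) * (1 + 1 ^ 3) * ((k + 1) * 4 ^ k) = 4 ^ (k + 1) := by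
      push_cast; ring
    rw [this]
    exact pow_ne_zero _ h40

/-- The ideal of the closure of the set of eigenvalue pairs. -/
theorem vanish_iff {p : ℤ} (hp : p ≠ 0) (F : ℂ[X][Y]) :
    (∀ L M : ℂ, EigenPair p L M → F.evalEval M L = 0) ↔ (Y - 1) * BB (X ^ 2 : ℂ[X]) p ∣ F := by
  constructor
  · intro h
    -- the factor `L - 1`
    have h1 : (Y - 1 : ℂ[X][Y]) ∣ F := by
      rw [← C_1, dvd_iff_isRoot, IsRoot.def]
      apply eq_zero_of_infinite_isRoot
      apply Set.Infinite.mono (s := {M : ℂ | M ≠ 0})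
      · intro M hM
        have h2 := h 1 M (eigen_abelian p hM)
        rw [evalEval, C_1] at h2
        exact h2
      · exact (Set.finite_singleton (0 : ℂ)).infinite_compl
    -- the factor `A`
    have h2 : BB (X ^ 2 : ℂ[X]) p ∣ F := by
      obtain ⟨A, B, hF⟩ := even_odd F
      have hS : (({0, 1} : Set ℂ)ᶜ).Infinite := (Set.toFinite _).infinite_compl
      have hval : ∀ m ∈ (({0, 1} : Set ℂ)ᶜ), ∃ L, (BC p).evalEval m L = 0 ∧ A.evalEval m L = 0 ∧
          B.evalEval m L = 0 := by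
        intro m hm
        simp only [Set.mem_compl_iff, Set.mem_insert_iff, Set.mem_singleton_iff, not_or] at hm
        obtain ⟨hm0, hm1⟩ := hm
        obtain ⟨t, ht⟩ := exists_t hp m
        obtain ⟨M, hM⟩ := IsAlgClosed.exists_pow_nat_eq m (n := 2) (by norm_num)
        have hM0 : M ≠ 0 := by rintro rfl; apply hm0; rw [← hM]; simp
        obtain ⟨e1, e0⟩ := exists_pair hp hm0 hm1 ht M hM
        obtain ⟨e2, -⟩ := exists_pair hp hm0 hm1 ht (-M) (by rw [neg_sq]; exact hM)
        set L := m ^ 2 * (m - eval t (f ℂ (p - 1)) / eval t (f ℂ p)) /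
          (eval t (f ℂ (p - 1)) / eval t (f ℂ p) * m - 1) with hL
        have f1 := h L M e1
        have f2 := h L (-M) e2
        rw [hF] at f1 f2
        simp only [evalEval_add, evalEval_mul, evalEval_C, eval_X, evalEval_expand, neg_sq, hM] at f1 f2
        have hB : B.evalEval m L = 0 := by
          apply mul_left_cancel₀ hM0
          linear_combination (1 / 2) * f1 - (1 / 2) * f2
        have hA : A.evalEval m L = 0 := by
          rw [hB] at f1
          linear_combination f1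
        refine ⟨L, ?_, hA, hB⟩
        unfold BC
        rw [BB_evalEval, eval_X]
        exact e0
      obtain ⟨A', hA'⟩ := BC_dvd_of hp A _ hS fun m hm => by
        obtain ⟨L, h1, h2, -⟩ := hval m hm; exact ⟨L, h1, h2⟩
      obtain ⟨B', hB'⟩ := BC_dvd_of hp B _ hS fun m hm => by
        obtain ⟨L, h1, -, h2⟩ := hval m hm; exact ⟨L, h1, h2⟩
      have hBC : (BC p).map (expand ℂ 2 : ℂ[X] →ₐ[ℂ] ℂ[X]).toRingHom = BB (X ^ 2 : ℂ[X]) p := by
        unfold BC
        rw [map_BB]
        congr 1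
        simp
      rw [hF, hA', hB', Polynomial.map_mul, Polynomial.map_mul, hBC]
      exact dvd_add (dvd_mul_right _ _) ((dvd_mul_right _ _).mul_left _)
    have hprime : Prime (Y - 1 : ℂ[X][Y]) := by
      rw [← C_1]; exact prime_X_sub_C 1
    obtain ⟨G, hG⟩ := h2
    have h3 : (Y - 1 : ℂ[X][Y]) ∣ BB (X ^ 2 : ℂ[X]) p * G := by rw [← hG]; exact h1
    rcases hprime.dvd_or_dvd h3 with h4 | ⟨G', hG'⟩
    · exfalso
      obtain ⟨H, hH⟩ := h4
      have h5 := BB_evalEval (X ^ 2 : ℂ[X]) p 1 1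
      rw [hH] at h5
      simp only [evalEval_mul, evalEval_sub, evalEval_X, evalEval_one, sub_self, zero_mul, eval_pow,
        eval_X, one_pow] at h5
      exact Apg_one_one (K := ℂ) p h5.symm
    · rw [hG, hG']
      exact ⟨G', by ring⟩
  · rintro ⟨G, rfl⟩ L M hE
    have h1 := eigen_zero hp hE
    simp only [evalEval_mul, evalEval_sub, evalEval_X, evalEval_one, BB_evalEval, eval_pow, eval_X]
    rw [h1, zero_mul]

end Pool.Agent.H68
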