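import Mathlib

open MeasureTheory Set
open scoped ENNReal RealInnerProductSpace

namespace Pool.Agent.H68.Cap

section refl

variable {V : Type*} [NormedAddCommGroup V] [InnerProductSpace ℝ V]

/-- The reflection in the hyperplane `⟪v, x⟫ = a`. -/
noncomputable def refl (v : V) (a : ℝ) (x : V) : V := x - (2 * (⟪v, x⟫ - a)) • v

theorem inner_refl {v : V} (hv : ‖v‖ = 1) (a : ℝ) (x : V) : ⟪v, refl v a x⟫ = 2 * a - ⟪v, x⟫ := by
  unfold refl
  rw [inner_sub_right, inner_smul_right, real_inner_self_eq_norm_sq, hv]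
  ring

theorem refl_refl {v : V} (hv : ‖v‖ = 1) (a : ℝ) (x : V) : refl v a (refl v a x) = x := by
  have h := inner_refl hv a x
  rw [refl, h, refl, sub_sub, ← add_smul]
  rw [show 2 * (⟪v, x⟫ - a) + 2 * (2 * a - ⟪v, x⟫ - a) = 0 by ring]
  simp

theorem norm_sub_refl {v : V} (hv : ‖v‖ = 1) (a : ℝ) (x y : V) :
    ‖x - refl v a y‖ ^ 2 = ‖x - y‖ ^ 2 + 4 * ((⟪v, x⟫ - a) * (⟪v, y⟫ - a)) := by
  have : x - refl v a y = (x - y) + (2 * (⟪v, y⟫ - a)) • v := by unfold refl; abel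
  rw [this, norm_add_sq_real, norm_smul, hv, inner_smul_right, real_inner_comm v (x - y),
    inner_sub_right, mul_one, Real.norm_eq_abs, sq_abs]
  ring

theorem refl_on {v : V} {a : ℝ} {x : V} (h : ⟪v, x⟫ = a) : refl v a x = x := by
  unfold refl; rw [h]; simp

theorem norm_refl_sub_refl {v : V} (hv : ‖v‖ = 1) (a : ℝ) (x y : V) :
    ‖refl v a x - refl v a y‖ = ‖x - y‖ := by
  have h := norm_sub_refl hv a (refl v a x) y
  have h2 := norm_sub_refl hv a y x
  rw [norm_sub_rev (refl v a x) y, h2, inner_refl hv] at h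
  have h3 : ‖refl v a x - refl v a y‖ ^ 2 = ‖x - y‖ ^ 2 := by
    rw [h, norm_sub_rev y x]; ring
  exact (sq_eq_sq₀ (norm_nonneg _) (norm_nonneg _)).mp h3

theorem norm_refl_sub {v : V} (hv : ‖v‖ = 1) (a : ℝ) (x y : V) :
    ‖refl v a x - y‖ = ‖x - refl v a y‖ := by
  have := norm_refl_sub_refl hv a x (refl v a y)
  rwa [refl_refl hv] at this

theorem norm_refl {v : V} (hv : ‖v‖ = 1) (a : ℝ) (x : V) :
    ‖refl v a x‖ ^ 2 = ‖x‖ ^ 2 + 4 * (a * (a - ⟪v, x⟫)) := by
  have h := norm_sub_refl hv a 0 x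
  rw [zero_sub, norm_neg, zero_sub, norm_neg, inner_zero_right] at h
  rw [h]; ring

theorem continuous_refl (v : V) (a : ℝ) : Continuous (refl v a) := by
  unfold refl; fun_prop

variable [FiniteDimensional ℝ V] [MeasurableSpace V] [BorelSpace V]

theorem measurePreserving_refl {v : V} (hv : ‖v‖ = 1) (a : ℝ) :
    MeasurePreserving (refl v a) volume volume := by
  have e : refl v a = (fun x => x + (2 * a) • v) ∘ (fun x => (ℝ ∙ v)ᗮ.reflection x) := by
    funext x
    simp only [Function.comp]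
    rw [Submodule.reflection_orthogonal_apply, Submodule.reflection_singleton_apply]
    unfold refl
    rw [hv]
    simp only [RCLike.ofReal_real_eq_id, id, one_pow, div_one]
    module
  rw [e]
  exact (measurePreserving_add_right volume _).comp (LinearIsometryEquiv.measurePreserving _)

end refl

section pol

variable {V : Type*} [NormedAddCommGroup V] [InnerProductSpace ℝ V]

/-- Polarization. -/
noncomputable def pol (v : V) (a : ℝ) (ψ : V → ℝ) (x : V) : ℝ :=
  if ⟪v, x⟫ ≤ a then max (ψ x) (ψ (refl v a x)) else min (ψ x) (ψ (refl v a x))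

variable {v : V} {a : ℝ} {ψ : V → ℝ}

theorem pol_le {x : V} (h : ⟪v, x⟫ ≤ a) : pol v a ψ x = max (ψ x) (ψ (refl v a x)) := if_pos h

theorem pol_ge {x : V} (h : a ≤ ⟪v, x⟫) : pol v a ψ x = min (ψ x) (ψ (refl v a x)) := by
  rcases h.lt_or_eq with h | h
  · exact if_neg (by linarith)
  · rw [pol_le h.symm.le, refl_on h.symm]; simp

theorem pol_refl_le (hv : ‖v‖ = 1) {x : V} (h : ⟪v, x⟫ ≤ a) :
    pol v a ψ (refl v a x) = min (ψ x) (ψ (refl v a x)) := by
  rw [pol_ge (by rw [inner_refl hv]; linarith), refl_refl hv, min_comm]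

theorem pol_refl_ge (hv : ‖v‖ = 1) {x : V} (h : a ≤ ⟪v, x⟫) :
    pol v a ψ (refl v a x) = max (ψ x) (ψ (refl v a x)) := by
  rw [pol_le (by rw [inner_refl hv]; linarith), refl_refl hv, max_comm]

theorem pol_add (hv : ‖v‖ = 1) (x : V) :
    pol v a ψ x + pol v a ψ (refl v a x) = ψ x + ψ (refl v a x) := by
  rcases le_total ⟪v, x⟫ a with h | h
  · rw [pol_le h, pol_refl_le hv h, max_add_min]
  · rw [pol_ge h, pol_refl_ge hv h, min_add_max]

theorem pol_add_F {M : Type*} [AddCommMonoid M] (F : ℝ → M) (hv : ‖v‖ = 1) (x : V) :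
    F (pol v a ψ x) + F (pol v a ψ (refl v a x)) = F (ψ x) + F (ψ (refl v a x)) := by
  have key : F (max (ψ x) (ψ (refl v a x))) + F (min (ψ x) (ψ (refl v a x))) =
      F (ψ x) + F (ψ (refl v a x)) := by
    rcases le_total (ψ x) (ψ (refl v a x)) with h | h
    · rw [max_eq_right h, min_eq_left h, add_comm]
    · rw [max_eq_left h, min_eq_right h]
  rcases le_total ⟪v, x⟫ a with h | h
  · rw [pol_le h, pol_refl_le hv h, key]
  · rw [pol_ge h, pol_refl_ge hv h, add_comm, key]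

/-- Admissible functions. -/
structure Adm (Λ r : ℝ) (ψ : V → ℝ) : Prop where
  lip : ∀ x y, ψ x ≤ ψ y + Λ * ‖x - y‖
  nonneg : ∀ x, 0 ≤ ψ x
  le_one : ∀ x, ψ x ≤ 1
  supp : ∀ x, r < ‖x‖ → ψ x = 0

theorem norm_le_refl (hv : ‖v‖ = 1) (ha : 0 ≤ a) {x : V} (h : ⟪v, x⟫ ≤ a) : ‖x‖ ≤ ‖refl v a x‖ := by
  rw [← sq_le_sq₀ (norm_nonneg _) (norm_nonneg _), norm_refl hv]
  nlinarith [mul_nonneg ha (sub_nonneg.mpr h)]

theorem refl_le_norm (hv : ‖v‖ = 1) (ha : 0 ≤ a) {x : V} (h : a ≤ ⟪v, x⟫) : ‖refl v a x‖ ≤ ‖x‖ := by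
  rw [← sq_le_sq₀ (norm_nonneg _) (norm_nonneg _), norm_refl hv]
  nlinarith [mul_nonneg ha (sub_nonneg.mpr h)]

theorem opp_le (hv : ‖v‖ = 1) {x y : V} (h : (⟪v, x⟫ - a) * (⟪v, y⟫ - a) ≤ 0) :
    ‖x - refl v a y‖ ≤ ‖x - y‖ := by
  rw [← sq_le_sq₀ (norm_nonneg _) (norm_nonneg _), norm_sub_refl hv]
  linarith

theorem same_le (hv : ‖v‖ = 1) {x y : V} (h : 0 ≤ (⟪v, x⟫ - a) * (⟪v, y⟫ - a)) :
    ‖x - y‖ ≤ ‖x - refl v a y‖ := by
  rw [← sq_le_sq₀ (norm_nonneg _) (norm_nonneg _), norm_sub_refl hv]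
  linarith

theorem Adm.pol {Λ r : ℝ} (hΛ : 0 ≤ Λ) (h : Adm Λ r ψ) (hv : ‖v‖ = 1) (ha : 0 ≤ a) :
    Adm Λ r (pol v a ψ) := by
  refine ⟨fun x y => ?_, fun x => ?_, fun x => ?_, fun x hx => ?_⟩
  · have l1 := h.lip x y
    have l2 := h.lip (refl v a x) (refl v a y)
    rw [norm_refl_sub_refl hv] at l2
    rcases le_total ⟪v, x⟫ a with hx | hx <;> rcases le_total ⟪v, y⟫ a with hy | hy
    · rw [pol_le hx, pol_le hy]
      exact max_le (l1.trans (by gcongr; exact le_max_left _ _))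
        (l2.trans (by gcongr; exact le_max_right _ _))
    · have h3 := h.lip x (refl v a y)
      have h4 := h.lip (refl v a x) y
      rw [norm_refl_sub hv] at h4
      have h5 : Λ * ‖x - refl v a y‖ ≤ Λ * ‖x - y‖ := by
        gcongr
        exact opp_le hv (mul_nonpos_of_nonpos_of_nonneg (by linarith) (by linarith))
      rw [pol_le hx, pol_ge hy, ← min_add_add_right]
      refine max_le (le_min l1 (by linarith)) (le_min (by linarith) l2)
    · rw [pol_ge hx, pol_le hy]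
      exact (min_le_left _ _).trans (l1.trans (by gcongr; exact le_max_left _ _))
    · rw [pol_ge hx, pol_ge hy, ← min_add_add_right]
      exact le_min ((min_le_left _ _).trans l1) ((min_le_right _ _).trans l2)
  · rcases le_total ⟪v, x⟫ a with hx | hx
    · rw [pol_le hx]; exact (h.nonneg x).trans (le_max_left _ _)
    · rw [pol_ge hx]; exact le_min (h.nonneg _) (h.nonneg _)
  · rcases le_total ⟪v, x⟫ a with hx | hx
    · rw [pol_le hx]; exact max_le (h.le_one _) (h.le_one _)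
    · rw [pol_ge hx]; exact (min_le_left _ _).trans (h.le_one _)
  · rcases le_total ⟪v, x⟫ a with hy | hy
    · rw [pol_le hy, h.supp x hx, h.supp _ (hx.trans_le (norm_le_refl hv ha hy))]; simp
    · rw [pol_ge hy, h.supp x hx]
      exact min_eq_left (h.nonneg _)

theorem Adm.continuous {Λ r : ℝ} (hΛ : 0 ≤ Λ) (h : Adm Λ r ψ) : Continuous ψ := by
  have : LipschitzWith ⟨Λ, hΛ⟩ ψ := by
    apply LipschitzWith.of_le_add_mul
    intro x y
    rw [dist_eq_norm]
    exact h.lip x y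
  exact this.continuous

theorem Adm.hasCompactSupport [ProperSpace V] {Λ r : ℝ} (h : Adm Λ r ψ) : HasCompactSupport ψ := by
  apply HasCompactSupport.of_support_subset_isCompact (isCompact_closedBall (0 : V) r)
  intro x hx
  simp only [mem_closedBall_zero_iff]
  by_contra h2
  exact hx (h.supp x (not_le.mp h2))

variable [FiniteDimensional ℝ V] [MeasurableSpace V] [BorelSpace V]

theorem lintegral_refl (hv : ‖v‖ = 1) (a : ℝ) {f : V → ℝ≥0∞} (hf : Measurable f) :
    ∫⁻ x, f (refl v a x) = ∫⁻ x, f x := (measurePreserving_refl hv a).lintegral_comp hf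

theorem measurable_pol (hψ : Measurable ψ) : Measurable (pol v a ψ) := by
  have m2 : Measurable (fun x => ψ (refl v a x)) := hψ.comp (continuous_refl v a).measurable
  unfold pol
  apply Measurable.ite
  · exact measurableSet_le (by fun_prop) (by fun_prop)
  · exact hψ.max m2
  · exact hψ.min m2

theorem lintegral_pol (hv : ‖v‖ = 1) {F : ℝ → ℝ≥0∞} (hF : Measurable F) (hψ : Measurable ψ) :
    ∫⁻ x, F (pol v a ψ x) = ∫⁻ x, F (ψ x) := by
  have m1 : Measurable (fun x => F (ψ x)) := hF.comp hψ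
  have m2 : Measurable (fun x => F (pol v a ψ x)) := hF.comp (measurable_pol hψ)
  have h1 : (∫⁻ x, F (pol v a ψ x)) + (∫⁻ x, F (pol v a ψ x)) = (∫⁻ x, F (ψ x)) + ∫⁻ x, F (ψ x) := by
    calc (∫⁻ x, F (pol v a ψ x)) + (∫⁻ x, F (pol v a ψ x))
        = (∫⁻ x, F (pol v a ψ x)) + ∫⁻ x, F (pol v a ψ (refl v a x)) := by
          rw [lintegral_refl hv a m2]
      _ = ∫⁻ x, (F (pol v a ψ x) + F (pol v a ψ (refl v a x))) := by
          rw [lintegral_add_left m2]
      _ = ∫⁻ x, (F (ψ x) + F (ψ (refl v a x))) := by simp only [pol_add_F F hv]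
      _ = (∫⁻ x, F (ψ x)) + ∫⁻ x, F (ψ (refl v a x)) := by rw [lintegral_add_left m1]
      _ = _ := by rw [lintegral_refl hv a m1]
  rw [← two_mul, ← two_mul] at h1
  exact (ENNReal.mul_right_inj (by simp) (by simp)).mp h1

end pol

end Pool.Agent.H68.Cap
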