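import Mathlib
import Pool.Agent.H68.C9Sym

open MeasureTheory Set
open scoped ENNReal RealInnerProductSpace

namespace Pool.Agent.H68.Cap

theorem rearr4 {k1 k2 : ℝ≥0∞} (h : k2 ≤ k1) (a a' b b' : ℝ≥0∞) :
    k1 * (a * b + a' * b') + k2 * (a' * b + a * b') ≤
      k1 * (max a a' * max b b' + min a a' * min b b') +
        k2 * (min a a' * max b b' + max a a' * min b b') := by
  have two : ∀ c e : ℝ≥0∞, ∀ p q p' q' : ℝ≥0∞, p ≤ p' → q' ≤ q →
      (c + e) * (p * q + p' * q') + c * (p' * q + p * q') ≤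
        (c + e) * (p' * q + p * q') + c * (p * q + p' * q') := by
    intro c e p q p' q' h1 h2
    obtain ⟨s, rfl⟩ := le_iff_exists_add.mp h1
    obtain ⟨t, rfl⟩ := le_iff_exists_add.mp h2
    have h3 : e * (p * (q' + t) + (p + s) * q') ≤ e * ((p + s) * (q' + t) + p * q') := by
      apply mul_le_mul' le_rfl
      calc p * (q' + t) + (p + s) * q' ≤ (p * (q' + t) + (p + s) * q') + s * t := le_self_add
        _ = (p + s) * (q' + t) + p * q' := by ring
    calc (c + e) * (p * (q' + t) + (p + s) * q') + c * ((p + s) * (q' + t) + p * q')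
        = e * (p * (q' + t) + (p + s) * q') + c * ((p * (q' + t) + (p + s) * q') +
          ((p + s) * (q' + t) + p * q')) := by ring
      _ ≤ e * ((p + s) * (q' + t) + p * q') + c * ((p * (q' + t) + (p + s) * q') +
          ((p + s) * (q' + t) + p * q')) := add_le_add_left h3 _
      _ = _ := by ring
  obtain ⟨e, rfl⟩ := le_iff_exists_add.mp h
  rcases le_total a a' with h1 | h1 <;> rcases le_total b b' with h2 | h2
  · rw [max_eq_right h1, max_eq_right h2, min_eq_left h1, min_eq_left h2]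
    apply le_of_eq; ring
  · rw [max_eq_right h1, max_eq_left h2, min_eq_left h1, min_eq_right h2]
    refine (two k2 e a b a' b' h1 h2).trans (le_of_eq ?_)
    ring
  · rw [max_eq_left h1, max_eq_right h2, min_eq_right h1, min_eq_left h2]
    refine le_trans (le_of_eq ?_) ((two k2 e a' b' a b h1 h2).trans (le_of_eq ?_))
    · ring
    · ring
  · rw [max_eq_left h1, max_eq_left h2, min_eq_right h1, min_eq_right h2]

section YY

variable {V : Type*} [NormedAddCommGroup V] [InnerProductSpace ℝ V]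
  [FiniteDimensional ℝ V] [MeasurableSpace V] [BorelSpace V]

/-- The interaction functional. -/
noncomputable def YY (k : ℝ → ℝ≥0∞) (f : V → ℝ≥0∞) : ℝ≥0∞ := ∫⁻ x, ∫⁻ y, k ‖x - y‖ * (f x * f y)

variable {v : V} {a : ℝ} {ψ : V → ℝ}

theorem four {P : V → V → ℝ≥0∞} (hP : Measurable (fun p : V × V => P p.1 p.2)) (hv : ‖v‖ = 1) :
    ∫⁻ x, ∫⁻ y, (P x y + P (refl v a x) y + P x (refl v a y) + P (refl v a x) (refl v a y)) =
      4 * ∫⁻ x, ∫⁻ y, P x y := by
  have mr := (continuous_refl v a).measurable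
  have m0 : ∀ x, Measurable (fun y => P x y) := fun x => hP.comp (measurable_const.prodMk measurable_id)
  have e1 : ∀ x, ∫⁻ y, (P x y + P (refl v a x) y + P x (refl v a y) + P (refl v a x) (refl v a y)) =
      2 * (∫⁻ y, P x y) + 2 * ∫⁻ y, P (refl v a x) y := by
    intro x
    rw [lintegral_add_left, lintegral_add_left, lintegral_add_left (m0 x),
      lintegral_refl hv a (m0 x), lintegral_refl hv a (m0 (refl v a x))]
    · ring
    · exact (m0 x).add (m0 _)
    · exact ((m0 x).add (m0 _)).add ((m0 x).comp mr)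
  have mG : Measurable (fun x => ∫⁻ y, P x y) := Measurable.lintegral_prod_right' hP
  have mG2 : Measurable (fun x => ∫⁻ y, P (refl v a x) y) := mG.comp mr
  simp only [e1]
  rw [lintegral_add_left (mG.const_mul 2), lintegral_const_mul _ mG, lintegral_const_mul _ mG2,
    lintegral_refl hv a mG]
  ring

theorem YY_pol (hv : ‖v‖ = 1) {k : ℝ → ℝ≥0∞} (hk : Measurable k)
    (hanti : ∀ s t, 0 ≤ s → s ≤ t → k t ≤ k s) (hψ : Measurable ψ) :
    YY k (fun x => ENNReal.ofReal (ψ x)) ≤ YY k (fun x => ENNReal.ofReal (pol v a ψ x)) := by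
  have hp := measurable_pol (v := v) (a := a) hψ
  have mP : ∀ {f : V → ℝ}, Measurable f → Measurable (fun p : V × V =>
      k ‖p.1 - p.2‖ * (ENNReal.ofReal (f p.1) * ENNReal.ofReal (f p.2))) := by
    intro f hf
    exact (hk.comp (by fun_prop)).mul ((hf.comp measurable_fst).ennreal_ofReal.mul
      (hf.comp measurable_snd).ennreal_ofReal)
  have f1 := four (a := a) (P := fun x y => k ‖x - y‖ * (ENNReal.ofReal (ψ x) * ENNReal.ofReal (ψ y)))
    (mP hψ) hv
  have f2 := four (a := a) (P := fun x y => k ‖x - y‖ * (ENNReal.ofReal (pol v a ψ x) *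
    ENNReal.ofReal (pol v a ψ y))) (mP hp) hv
  beta_reduce at f1 f2
  have key : 4 * YY k (fun x => ENNReal.ofReal (ψ x)) ≤
      4 * YY k (fun x => ENNReal.ofReal (pol v a ψ x)) := by
    unfold YY
    rw [← f1, ← f2]
    refine lintegral_mono fun x => lintegral_mono fun y => ?_
    beta_reduce
    rw [norm_refl_sub_refl hv, norm_refl_sub hv]
    have hmx : ∀ s t : ℝ, ENNReal.ofReal (max s t) = max (ENNReal.ofReal s) (ENNReal.ofReal t) :=
      fun s t => Monotone.map_max (fun _ _ h => ENNReal.ofReal_le_ofReal h)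
    have hmn : ∀ s t : ℝ, ENNReal.ofReal (min s t) = min (ENNReal.ofReal s) (ENNReal.ofReal t) :=
      fun s t => Monotone.map_min (fun _ _ h => ENNReal.ofReal_le_ofReal h)
    have hsame : 0 ≤ (⟪v, x⟫ - a) * (⟪v, y⟫ - a) → k ‖x - refl v a y‖ ≤ k ‖x - y‖ := fun h =>
      hanti _ _ (norm_nonneg _) (same_le hv h)
    have hopp : (⟪v, x⟫ - a) * (⟪v, y⟫ - a) ≤ 0 → k ‖x - y‖ ≤ k ‖x - refl v a y‖ := fun h =>
      hanti _ _ (norm_nonneg _) (opp_le hv h)
    generalize ‖x - refl v a y‖ = K2 at *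
    generalize ‖x - y‖ = K1 at *
    rcases le_total ⟪v, x⟫ a with hx | hx <;> rcases le_total ⟪v, y⟫ a with hy | hy
    · have h := rearr4 (hsame (mul_nonneg_of_nonpos_of_nonpos (by linarith) (by linarith)))
        (ENNReal.ofReal (ψ x)) (ENNReal.ofReal (ψ (refl v a x))) (ENNReal.ofReal (ψ y))
        (ENNReal.ofReal (ψ (refl v a y)))
      rw [pol_le hx, pol_le hy, pol_refl_le hv hx, pol_refl_le hv hy, hmx, hmx, hmn, hmn]
      refine le_trans (le_of_eq ?_) (h.trans (le_of_eq ?_)) <;> ring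
    · have h := rearr4 (hopp (mul_nonpos_of_nonpos_of_nonneg (by linarith) (by linarith)))
        (ENNReal.ofReal (ψ x)) (ENNReal.ofReal (ψ (refl v a x))) (ENNReal.ofReal (ψ (refl v a y)))
        (ENNReal.ofReal (ψ y))
      rw [pol_le hx, pol_ge hy, pol_refl_le hv hx, pol_refl_ge hv hy, hmx, hmx, hmn, hmn]
      rw [max_comm (ENNReal.ofReal (ψ (refl v a y))), min_comm (ENNReal.ofReal (ψ (refl v a y)))] at h
      refine le_trans (le_of_eq ?_) (h.trans (le_of_eq ?_)) <;> ring
    · have h := rearr4 (hopp (mul_nonpos_of_nonneg_of_nonpos (by linarith) (by linarith)))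
        (ENNReal.ofReal (ψ x)) (ENNReal.ofReal (ψ (refl v a x))) (ENNReal.ofReal (ψ (refl v a y)))
        (ENNReal.ofReal (ψ y))
      rw [pol_ge hx, pol_le hy, pol_refl_ge hv hx, pol_refl_le hv hy, hmx, hmx, hmn, hmn]
      rw [max_comm (ENNReal.ofReal (ψ (refl v a y))), min_comm (ENNReal.ofReal (ψ (refl v a y)))] at h
      refine le_trans (le_of_eq ?_) (h.trans (le_of_eq ?_)) <;> ring
    · have h := rearr4 (hsame (mul_nonneg (by linarith) (by linarith)))
        (ENNReal.ofReal (ψ x)) (ENNReal.ofReal (ψ (refl v a x))) (ENNReal.ofReal (ψ y))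
        (ENNReal.ofReal (ψ (refl v a y)))
      rw [pol_ge hx, pol_ge hy, pol_refl_ge hv hx, pol_refl_ge hv hy, hmx, hmx, hmn, hmn]
      refine le_trans (le_of_eq ?_) (h.trans (le_of_eq ?_)) <;> ring
  exact (ENNReal.mul_le_mul_iff_right (by simp) (by simp)).mp key

/-- The second moment. -/
noncomputable def II (ψ : V → ℝ) : ℝ := ∫ x, ψ x * ‖x‖ ^ 2

/-- The reflection as a homeomorphism. -/
noncomputable def reflH (v : V) (a : ℝ) (hv : ‖v‖ = 1) : V ≃ₜ V where
  toFun := refl v a
  invFun := refl v a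
  left_inv := refl_refl hv a
  right_inv := refl_refl hv a
  continuous_toFun := continuous_refl v a
  continuous_invFun := continuous_refl v a

theorem integral_refl (hv : ‖v‖ = 1) (a : ℝ) (f : V → ℝ) : ∫ x, f (refl v a x) = ∫ x, f x :=
  (measurePreserving_refl hv a).integral_comp (reflH v a hv).measurableEmbedding f

theorem II_pol_lt {Λ r : ℝ} (hΛ : 0 ≤ Λ) (h : Adm Λ r ψ) (hv : ‖v‖ = 1) (ha : 0 < a) {x0 : V}
    (hne : pol v a ψ x0 ≠ ψ x0) : II (pol v a ψ) < II ψ := by
  have hp := h.pol hΛ hv ha.le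
  have cψ := h.continuous hΛ
  have cp := hp.continuous hΛ
  have sψ := h.hasCompactSupport
  have sp := hp.hasCompactSupport
  have cr := continuous_refl v a
  set D : V → ℝ := fun x => pol v a ψ x - ψ x with hD
  have cD : Continuous D := cp.sub cψ
  have sD : HasCompactSupport D := sp.sub sψ
  have hDr : ∀ x, D (refl v a x) = - D x := by
    intro x
    have := pol_add (ψ := ψ) (a := a) hv x
    simp only [hD]
    linarith
  set F : V → ℝ := fun x => D x * (‖refl v a x‖ ^ 2 - ‖x‖ ^ 2) with hF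
  have cF : Continuous F := cD.mul (by fun_prop)
  have sF : HasCompactSupport F := sD.mul_right
  have hF0 : 0 ≤ F := by
    intro x
    simp only [hF, Pi.zero_apply]
    rcases le_total ⟪v, x⟫ a with hx | hx
    · apply mul_nonneg
      · simp only [hD]; rw [pol_le hx]; linarith [le_max_left (ψ x) (ψ (refl v a x))]
      · have := norm_le_refl hv ha.le hx
        have h0 := norm_nonneg x
        nlinarith
    · apply mul_nonneg_of_nonpos_of_nonpos
      · simp only [hD]; rw [pol_ge hx]; linarith [min_le_left (ψ x) (ψ (refl v a x))]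
      · have := refl_le_norm hv ha.le hx
        have h0 := norm_nonneg (refl v a x)
        nlinarith
  have hF1 : F x0 ≠ 0 := by
    simp only [hF]
    apply mul_ne_zero
    · simp only [hD]; exact sub_ne_zero.mpr hne
    · rw [norm_refl hv]
      intro h2
      have h3 : a * (a - ⟪v, x0⟫) = 0 := by linarith
      rcases mul_eq_zero.mp h3 with h4 | h4
      · exact ha.ne' h4
      · apply hne
        have h5 : ⟪v, x0⟫ = a := by linarith
        rw [pol_le h5.le, refl_on h5, max_self]
  have hpos : 0 < ∫ x, F x := cF.integral_pos_of_hasCompactSupport_nonneg_nonzero sF hF0 hF1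
  have i1 : Integrable (fun x => D x * ‖refl v a x‖ ^ 2) :=
    (cD.mul (by fun_prop)).integrable_of_hasCompactSupport sD.mul_right
  have i2 : Integrable (fun x => D x * ‖x‖ ^ 2) :=
    (cD.mul (by fun_prop)).integrable_of_hasCompactSupport sD.mul_right
  have i3 : Integrable (fun x => pol v a ψ x * ‖x‖ ^ 2) :=
    (cp.mul (by fun_prop)).integrable_of_hasCompactSupport sp.mul_right
  have i4 : Integrable (fun x => ψ x * ‖x‖ ^ 2) :=
    (cψ.mul (by fun_prop)).integrable_of_hasCompactSupport sψ.mul_right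
  have e1 : ∫ x, F x = (∫ x, D x * ‖refl v a x‖ ^ 2) - ∫ x, D x * ‖x‖ ^ 2 := by
    rw [← integral_sub i1 i2]
    congr 1
    ext x
    simp only [hF]; ring
  have e2 : ∫ x, D x * ‖refl v a x‖ ^ 2 = - ∫ x, D x * ‖x‖ ^ 2 := by
    rw [← integral_refl hv a (fun x => D x * ‖refl v a x‖ ^ 2), ← integral_neg]
    congr 1
    ext x
    rw [refl_refl hv, hDr]
    ring
  have e3 : ∫ x, D x * ‖x‖ ^ 2 = II (pol v a ψ) - II ψ := by
    unfold II
    rw [← integral_sub i3 i4]
    congr 1
    ext x
    simp only [hD]; ring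
  rw [e1, e2, e3] at hpos
  linarith

theorem Adm.subseq {Λ r : ℝ} (hΛ : 0 ≤ Λ) (f : ℕ → V → ℝ) (h : ∀ k, Adm Λ r (f k)) :
    ∃ ψ : V → ℝ, Adm Λ r ψ ∧ ∃ θ : ℕ → ℕ, StrictMono θ ∧
      ∀ x, Filter.Tendsto (fun k => f (θ k) x) Filter.atTop (nhds (ψ x)) := by
  set S : Set C(V, ℝ) := {u | Adm Λ r u} with hS
  have h1 : ContinuousMap.toFun '' S = {u : V → ℝ | Adm Λ r u} := by
    ext u
    constructor
    · rintro ⟨w, hw, rfl⟩; exact hw
    · intro hu
      exact ⟨⟨u, Adm.continuous hΛ hu⟩, hu, rfl⟩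
  have hclosed : IsClosed {u : V → ℝ | Adm Λ r u} := by
    have e : {u : V → ℝ | Adm Λ r u} = (⋂ x, ⋂ y, {u : V → ℝ | u x ≤ u y + Λ * ‖x - y‖}) ∩
        (⋂ x, {u : V → ℝ | 0 ≤ u x}) ∩ (⋂ x, {u : V → ℝ | u x ≤ 1}) ∩
        (⋂ x, {u : V → ℝ | r < ‖x‖ → u x = 0}) := by
      ext u
      simp only [mem_ofPred_eq, mem_inter_iff, mem_iInter]
      constructor
      · rintro ⟨a1, a2, a3, a4⟩; exact ⟨⟨⟨a1, a2⟩, a3⟩, a4⟩
      · rintro ⟨⟨⟨a1, a2⟩, a3⟩, a4⟩; exact ⟨a1, a2, a3, a4⟩
    rw [e]
    refine ((IsClosed.inter ?_ ?_).inter ?_).inter ?_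
    · exact isClosed_iInter fun x => isClosed_iInter fun y =>
        isClosed_le (continuous_apply x) ((continuous_apply y).add continuous_const)
    · exact isClosed_iInter fun x => isClosed_le continuous_const (continuous_apply x)
    · exact isClosed_iInter fun x => isClosed_le (continuous_apply x) continuous_const
    · refine isClosed_iInter fun x => ?_
      by_cases hx : r < ‖x‖
      · simp only [hx, true_implies]
        exact isClosed_eq (continuous_apply x) continuous_const
      · simp only [hx, false_implies]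
        exact isClosed_univ
  have hcompact : IsCompact {u : V → ℝ | Adm Λ r u} := by
    apply IsCompact.of_isClosed_subset (isCompact_univ_pi fun _ : V => isCompact_Icc (a := (0 : ℝ)) (b := 1))
      hclosed
    intro u hu
    simp only [mem_pi, mem_univ, true_implies]
    intro x
    exact ⟨hu.nonneg x, hu.le_one x⟩
  have heq : Equicontinuous ((↑) : S → V → ℝ) := by
    apply UniformEquicontinuous.equicontinuous
    apply LipschitzWith.uniformEquicontinuous _ ⟨Λ, hΛ⟩
    intro u
    apply LipschitzWith.of_le_add_mul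
    intro x y
    rw [dist_eq_norm]
    exact u.2.lip x y
  have hSc : IsCompact S := ArzelaAscoli.isCompact_of_equicontinuous S (by rw [h1]; exact hcompact) heq
  obtain ⟨u, hu, θ, hθ, ht⟩ := hSc.tendsto_subseq (x := fun k => (⟨f k, (h k).continuous hΛ⟩ : C(V, ℝ)))
    (fun k => h k)
  refine ⟨u, hu, θ, hθ, fun x => ?_⟩
  have hc : Continuous (fun w : C(V, ℝ) => w x) := continuous_eval_const x
  exact (hc.tendsto u).comp ht

end YY

end Pool.Agent.H68.Cap
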