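import Mathlib
import Pool.Agent.H68.C10Rearr

open MeasureTheory Set
open scoped ENNReal RealInnerProductSpace NNReal

namespace Pool.Agent.H68.Cap

section ex

variable {V : Type*} [NormedAddCommGroup V] [InnerProductSpace ℝ V]
  [FiniteDimensional ℝ V] [MeasurableSpace V] [BorelSpace V]

variable {Λ r : ℝ}

theorem tendsto_F (hΛ : 0 ≤ Λ) {f : ℕ → V → ℝ} (hf : ∀ k, Adm Λ r (f k)) {φ : V → ℝ}
    (hlim : ∀ x, Filter.Tendsto (fun k => f k x) Filter.atTop (nhds (φ x))) (F : C(ℝ, ℝ≥0))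
    (hF0 : F 0 = 0) :
    Filter.Tendsto (fun k => ∫⁻ x, (F (f k x) : ℝ≥0∞)) Filter.atTop (nhds (∫⁻ x, (F (φ x) : ℝ≥0∞))) := by
  obtain ⟨C, hC⟩ := (isCompact_Icc (a := (0 : ℝ)) (b := 1)).image F.continuous |>.bddAbove
  have hC2 : ∀ t, 0 ≤ t → t ≤ 1 → F t ≤ C := fun t h0 h1 => hC ⟨t, ⟨h0, h1⟩, rfl⟩
  apply tendsto_lintegral_of_dominated_convergence
    (fun x => indicator (Metric.closedBall (0 : V) r) (fun _ => (C : ℝ≥0∞)) x)
  · intro k
    exact (F.continuous.measurable.comp ((hf k).continuous hΛ).measurable).coe_nnreal_ennreal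
  · intro k
    refine Filter.Eventually.of_forall fun x => ?_
    beta_reduce
    by_cases hx : x ∈ Metric.closedBall (0 : V) r
    · rw [indicator_of_mem hx]
      exact ENNReal.coe_le_coe.mpr (hC2 _ ((hf k).nonneg x) ((hf k).le_one x))
    · rw [indicator_of_notMem hx, (hf k).supp x (by simpa using hx), hF0]
      simp
  · rw [lintegral_indicator_const Metric.isClosed_closedBall.measurableSet]
    exact ENNReal.mul_ne_top (by simp) measure_closedBall_lt_top.ne
  · refine Filter.Eventually.of_forall fun x => ?_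
    exact (ENNReal.continuous_coe.tendsto _).comp ((F.continuous.tendsto _).comp (hlim x))

theorem YY_prod {k : ℝ → ℝ≥0∞} (hk : Measurable k) {f : V → ℝ≥0∞} (hf : Measurable f) :
    YY k f = ∫⁻ p : V × V, k ‖p.1 - p.2‖ * (f p.1 * f p.2) := by
  have m : Measurable (fun p : V × V => k ‖p.1 - p.2‖ * (f p.1 * f p.2)) :=
    (hk.comp (by fun_prop)).mul ((hf.comp measurable_fst).mul (hf.comp measurable_snd))
  unfold YY
  rw [Measure.volume_eq_prod, lintegral_prod _ m.aemeasurable]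

theorem tendsto_YY (hΛ : 0 ≤ Λ) {f : ℕ → V → ℝ} (hf : ∀ k, Adm Λ r (f k)) {φ : V → ℝ}
    (hφ : Adm Λ r φ) (hlim : ∀ x, Filter.Tendsto (fun k => f k x) Filter.atTop (nhds (φ x)))
    {k : ℝ → ℝ≥0∞} (hk : Measurable k) (hkfin : ∫⁻ y : V, k ‖y‖ ≠ ∞) :
    Filter.Tendsto (fun j => YY k (fun x => ENNReal.ofReal (f j x))) Filter.atTop
      (nhds (YY k (fun x => ENNReal.ofReal (φ x)))) := by
  have mf : ∀ j, Measurable (fun x => ENNReal.ofReal (f j x)) := fun j =>
    ((hf j).continuous hΛ).measurable.ennreal_ofReal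
  have mφ : Measurable (fun x => ENNReal.ofReal (φ x)) := (hφ.continuous hΛ).measurable.ennreal_ofReal
  rw [YY_prod hk mφ]
  have e : ∀ j, YY k (fun x => ENNReal.ofReal (f j x)) =
      ∫⁻ p : V × V, k ‖p.1 - p.2‖ * (ENNReal.ofReal (f j p.1) * ENNReal.ofReal (f j p.2)) :=
    fun j => YY_prod hk (mf j)
  simp only [e]
  set B := Metric.closedBall (0 : V) r with hB
  have mB : MeasurableSet B := Metric.isClosed_closedBall.measurableSet
  set ind : V → ℝ≥0∞ := indicator B (fun _ => 1) with hind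
  have mind : Measurable ind := measurable_const.indicator mB
  have hbf : ∫⁻ p : V × V, k ‖p.1 - p.2‖ * (ind p.1 * ind p.2) ≠ ∞ := by
    rw [← YY_prod hk mind]
    unfold YY
    have h1 : ∀ x, ∫⁻ y, k ‖x - y‖ * (ind x * ind y) ≤ ind x * ∫⁻ y : V, k ‖y‖ := by
      intro x
      rw [← lintegral_sub_left_eq_self (fun y => k ‖y‖) x, ← lintegral_const_mul]
      · refine lintegral_mono fun y => ?_
        have : ind y ≤ 1 := by
          simp only [hind]
          exact indicator_le_self' (by simp) y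
        calc k ‖x - y‖ * (ind x * ind y) ≤ k ‖x - y‖ * (ind x * 1) := by gcongr
          _ = _ := by rw [mul_one, mul_comm]
      · exact hk.comp (by fun_prop)
    refine ne_top_of_le_ne_top ?_ (lintegral_mono h1)
    rw [lintegral_mul_const _ mind, hind, lintegral_indicator_const mB]
    exact ENNReal.mul_ne_top (ENNReal.mul_ne_top (by simp) measure_closedBall_lt_top.ne) hkfin
  have mb : Measurable (fun p : V × V => k ‖p.1 - p.2‖ * (ind p.1 * ind p.2)) :=
    (hk.comp (by fun_prop)).mul ((mind.comp measurable_fst).mul (mind.comp measurable_snd))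
  have hle : ∀ u : V → ℝ, Adm Λ r u → ∀ x, ENNReal.ofReal (u x) ≤ ind x := by
    intro u hu x
    by_cases hx : x ∈ B
    · simp only [hind, indicator_of_mem hx]
      rw [← ENNReal.ofReal_one]
      exact ENNReal.ofReal_le_ofReal (hu.le_one x)
    · rw [hu.supp x (by simpa [hB] using hx)]
      simp
  apply tendsto_lintegral_of_dominated_convergence
    (fun p : V × V => k ‖p.1 - p.2‖ * (ind p.1 * ind p.2))
  · intro j
    exact (hk.comp (by fun_prop)).mul (((mf j).comp measurable_fst).mul ((mf j).comp measurable_snd))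
  · intro j
    refine Filter.Eventually.of_forall fun p => ?_
    exact mul_le_mul' le_rfl (mul_le_mul' (hle _ (hf j) _) (hle _ (hf j) _))
  · exact hbf
  · filter_upwards [ae_lt_top mb hbf] with p hp
    by_cases h12 : p.1 ∈ B ∧ p.2 ∈ B
    · have hkp : k ‖p.1 - p.2‖ ≠ ∞ := by
        simp only [hind, indicator_of_mem h12.1, indicator_of_mem h12.2, mul_one] at hp
        exact hp.ne
      have t1 := ENNReal.tendsto_ofReal (hlim p.1)
      have t2 := ENNReal.tendsto_ofReal (hlim p.2)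
      exact ENNReal.Tendsto.const_mul (ENNReal.Tendsto.mul t1 (Or.inr (by simp)) t2 (Or.inr (by simp)))
        (Or.inr hkp)
    · have hz : ∀ u : V → ℝ, Adm Λ r u →
          k ‖p.1 - p.2‖ * (ENNReal.ofReal (u p.1) * ENNReal.ofReal (u p.2)) = 0 := by
        intro u hu
        rw [not_and_or] at h12
        rcases h12 with h | h
        · rw [hu.supp _ (by simpa [hB] using h)]; simp
        · rw [hu.supp p.2 (by simpa [hB] using h)]; simp
      simp only [hz _ (hf _), hz _ hφ]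
      exact tendsto_const_nhds

theorem tendsto_II (hΛ : 0 ≤ Λ) {f : ℕ → V → ℝ} (hf : ∀ k, Adm Λ r (f k)) {φ : V → ℝ}
    (hlim : ∀ x, Filter.Tendsto (fun k => f k x) Filter.atTop (nhds (φ x))) :
    Filter.Tendsto (fun j => II (f j)) Filter.atTop (nhds (II φ)) := by
  unfold II
  apply tendsto_integral_of_dominated_convergence
    (fun x => indicator (Metric.closedBall (0 : V) r) (fun _ => r ^ 2) x)
  · intro j
    exact (((hf j).continuous hΛ).mul (by fun_prop)).aestronglyMeasurable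
  · rw [integrable_indicator_iff Metric.isClosed_closedBall.measurableSet]
    exact integrableOn_const measure_closedBall_lt_top.ne
  · intro j
    refine Filter.Eventually.of_forall fun x => ?_
    by_cases hx : x ∈ Metric.closedBall (0 : V) r
    · rw [indicator_of_mem hx, Real.norm_eq_abs, abs_mul, abs_of_nonneg ((hf j).nonneg x), abs_sq]
      have h1 : ‖x‖ ≤ r := by simpa using hx
      have h2 := (hf j).le_one x
      have h3 := (hf j).nonneg x
      have h4 := norm_nonneg x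
      calc f j x * ‖x‖ ^ 2 ≤ 1 * ‖x‖ ^ 2 := by gcongr
        _ ≤ r ^ 2 := by nlinarith
    · rw [indicator_of_notMem hx, (hf j).supp x (by simpa using hx)]
      simp
  · refine Filter.Eventually.of_forall fun x => ?_
    exact (hlim x).mul_const _

theorem exists_rearr (hΛ : 0 ≤ Λ) {k : ℝ → ℝ≥0∞} (hk : Measurable k)
    (hanti : ∀ s t, 0 ≤ s → s ≤ t → k t ≤ k s) (hkfin : ∫⁻ y : V, k ‖y‖ ≠ ∞) {ψ : V → ℝ}
    (hψ : Adm Λ r ψ) :
    ∃ φ : V → ℝ, Adm Λ r φ ∧ (∀ F : C(ℝ, ℝ≥0), F 0 = 0 →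
      ∫⁻ x, (F (φ x) : ℝ≥0∞) = ∫⁻ x, (F (ψ x) : ℝ≥0∞)) ∧
      YY k (fun x => ENNReal.ofReal (ψ x)) ≤ YY k (fun x => ENNReal.ofReal (φ x)) ∧
      ∀ x y, ‖x‖ < ‖y‖ → φ y ≤ φ x := by
  set P : (V → ℝ) → Prop := fun φ => Adm Λ r φ ∧ (∀ F : C(ℝ, ℝ≥0), F 0 = 0 →
      ∫⁻ x, (F (φ x) : ℝ≥0∞) = ∫⁻ x, (F (ψ x) : ℝ≥0∞)) ∧
      YY k (fun x => ENNReal.ofReal (ψ x)) ≤ YY k (fun x => ENNReal.ofReal (φ x)) with hP
  have hne : (II '' {φ | P φ}).Nonempty := ⟨II ψ, ψ, ⟨hψ, fun _ _ => rfl, le_rfl⟩, rfl⟩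
  have hbdd : BddBelow (II '' {φ | P φ}) := by
    refine ⟨0, ?_⟩
    rintro _ ⟨φ, hφ, rfl⟩
    exact integral_nonneg fun x => mul_nonneg (hφ.1.nonneg x) (sq_nonneg _)
  obtain ⟨u, -, hu2, hu3⟩ := exists_seq_tendsto_sInf hne hbdd
  choose f hf hfu using hu3
  obtain ⟨φ, hφ, θ, hθ, hlim⟩ := Adm.subseq hΛ f (fun j => (hf j).1)
  have hPφ : P φ := by
    refine ⟨hφ, fun F hF => ?_, ?_⟩
    · have t1 := tendsto_F hΛ (fun j => (hf (θ j)).1) hlim F hF
      have e : ∀ j, ∫⁻ x, (F (f (θ j) x) : ℝ≥0∞) = ∫⁻ x, (F (ψ x) : ℝ≥0∞) := fun j =>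
        (hf (θ j)).2.1 F hF
      simp only [e] at t1
      exact (tendsto_nhds_unique t1 tendsto_const_nhds)
    · have t1 := tendsto_YY hΛ (fun j => (hf (θ j)).1) hφ hlim hk hkfin
      exact ge_of_tendsto' t1 fun j => (hf (θ j)).2.2
  have hIφ : II φ = sInf (II '' {φ | P φ}) := by
    have t1 := tendsto_II hΛ (fun j => (hf (θ j)).1) hlim
    simp only [hfu] at t1
    exact tendsto_nhds_unique t1 (hu2.comp hθ.tendsto_atTop)
  refine ⟨φ, hPφ.1, hPφ.2.1, hPφ.2.2, fun x y hxy => ?_⟩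
  by_contra hcon
  rw [not_le] at hcon
  have hxy0 : y - x ≠ 0 := by
    intro h
    rw [sub_eq_zero] at h
    rw [h] at hxy
    exact lt_irrefl _ hxy
  have hn : 0 < ‖y - x‖ := norm_pos_iff.mpr hxy0
  set v : V := ‖y - x‖⁻¹ • (y - x) with hv
  have hv1 : ‖v‖ = 1 := by rw [hv, norm_smul, norm_inv, norm_norm, inv_mul_cancel₀ hn.ne']
  set a : ℝ := ‖y - x‖⁻¹ * ((‖y‖ ^ 2 - ‖x‖ ^ 2) / 2) with ha
  have ha0 : 0 < a := by
    rw [ha]
    have : 0 < ‖y‖ ^ 2 - ‖x‖ ^ 2 := by nlinarith [norm_nonneg x, norm_nonneg y]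
    positivity
  have hvx : ⟪v, x⟫ - a = - (‖y - x‖ / 2) := by
    rw [hv, ha, inner_smul_left]
    simp only [conj_trivial]
    have h1 : ⟪y - x, x⟫ - (‖y‖ ^ 2 - ‖x‖ ^ 2) / 2 = - (‖y - x‖ ^ 2 / 2) := by
      rw [inner_sub_left, real_inner_self_eq_norm_sq, norm_sub_sq_real]
      ring
    rw [← mul_sub, h1]
    field_simp
  have hrx : refl v a x = y := by
    unfold refl
    rw [hvx, hv, smul_smul]
    rw [show 2 * -(‖y - x‖ / 2) * ‖y - x‖⁻¹ = -1 by field_simp]
    simp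
  have hvxa : ⟪v, x⟫ ≤ a := by linarith
  have hpx : pol v a φ x = φ y := by
    rw [pol_le hvxa, hrx]
    exact max_eq_right hcon.le
  have hlt := II_pol_lt hΛ hφ hv1 ha0 (x0 := x) (by rw [hpx]; exact hcon.ne')
  have hPp : P (pol v a φ) := by
    refine ⟨hφ.pol hΛ hv1 ha0.le, fun F hF => ?_, ?_⟩
    · rw [← hPφ.2.1 F hF]
      exact lintegral_pol hv1 (F := fun t => (F t : ℝ≥0∞))
        (F.continuous.measurable.coe_nnreal_ennreal) (hφ.continuous hΛ).measurable
    · exact hPφ.2.2.trans (YY_pol hv1 hk hanti (hφ.continuous hΛ).measurable)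
  have hge : sInf (II '' {φ | P φ}) ≤ II (pol v a φ) := csInf_le hbdd ⟨_, hPp, rfl⟩
  rw [← hIφ] at hge
  linarith

end ex

end Pool.Agent.H68.Cap
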