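import Mathlib

open MeasureTheory Real Set
open scoped ENNReal

namespace Pool.Agent.H68.Cap

section one

/-! ### One-dimensional densities -/

/-- `1 / √(π r)`. -/
noncomputable def hh (r : ℝ) : ℝ≥0∞ := ENNReal.ofReal (1 / (√π * √r))

/-- The density of the hitting time (stable subordinator of index `1/2`). -/
noncomputable def eta (t r : ℝ) : ℝ≥0∞ :=
  ENNReal.ofReal (t / (2 * √π * (r * √r)) * exp (-t ^ 2 / (4 * r)))

/-- The mixing density. -/
noncomputable def om (r : ℝ) : ℝ≥0∞ := ∫⁻ t in Ioi (0 : ℝ), ENNReal.ofReal (exp (-t)) * eta t r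

theorem measurable_hh : Measurable hh := by unfold hh; fun_prop

theorem measurable_eta : Measurable (fun p : ℝ × ℝ => eta p.1 p.2) := by unfold eta; fun_prop

theorem measurable_om : Measurable om := by
  unfold om
  apply Measurable.lintegral_prod_right' (f := fun p : ℝ × ℝ => ENNReal.ofReal (exp (-p.2)) * eta p.2 p.1)
  unfold eta
  fun_prop

theorem lintegral_gauss_Ioi {b : ℝ} (hb : 0 < b) :
    ∫⁻ v in Ioi (0 : ℝ), ENNReal.ofReal (exp (-b * v ^ 2)) = ENNReal.ofReal (√(π / b) / 2) := by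
  rw [← integral_gaussian_Ioi b, ofReal_integral_eq_lintegral_ofReal]
  · exact (integrable_exp_neg_mul_sq hb).integrableOn
  · exact Filter.Eventually.of_forall fun v => (exp_pos _).le

theorem lintegral_eta {t : ℝ} (ht : 0 < t) : ∫⁻ r in Ioi (0 : ℝ), eta t r = 1 := by
  have himg : (fun v : ℝ => t ^ 2 / (4 * v ^ 2)) '' Ioi 0 = Ioi 0 := by
    ext r
    simp only [mem_image, mem_Ioi]
    constructor
    · rintro ⟨v, hv, rfl⟩; positivity
    · intro hr
      refine ⟨t / (2 * √r), by positivity, ?_⟩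
      have : √r ^ 2 = r := sq_sqrt hr.le
      field_simp
      rw [this]
      norm_num
  have hinj : InjOn (fun v : ℝ => t ^ 2 / (4 * v ^ 2)) (Ioi 0) := by
    intro v hv v' hv' h
    simp only [mem_Ioi] at hv hv'
    simp only at h
    rw [div_eq_div_iff (by positivity) (by positivity)] at h
    have h2 : v ^ 2 = v' ^ 2 := by
      have : t ^ 2 ≠ 0 := by positivity
      have h3 : t ^ 2 * v' ^ 2 = t ^ 2 * v ^ 2 := by linarith
      exact (mul_left_cancel₀ this h3).symm
    exact (pow_left_inj₀ hv.le hv'.le two_ne_zero).mp h2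
  have hder : ∀ v ∈ Ioi (0 : ℝ), HasDerivWithinAt (fun v : ℝ => t ^ 2 / (4 * v ^ 2))
      (-(t ^ 2 / (2 * v ^ 3))) (Ioi 0) v := by
    intro v hv
    simp only [mem_Ioi] at hv
    have h1 : HasDerivAt (fun v : ℝ => 4 * v ^ 2) (4 * (2 * v)) v := by
      have := (hasDerivAt_pow 2 v).const_mul 4
      simpa using this
    have h2 := (hasDerivAt_const v (t ^ 2)).div h1 (by positivity)
    apply HasDerivAt.hasDerivWithinAt
    have h3 : -(t ^ 2 / (2 * v ^ 3)) = (0 * (4 * v ^ 2) - t ^ 2 * (4 * (2 * v))) / (4 * v ^ 2) ^ 2 := by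
      field_simp
      ring
    rw [h3]
    exact h2
  rw [← himg, lintegral_image_eq_lintegral_abs_deriv_mul measurableSet_Ioi hder hinj]
  have hcong : ∀ v ∈ Ioi (0 : ℝ), ENNReal.ofReal |-(t ^ 2 / (2 * v ^ 3))| * eta t (t ^ 2 / (4 * v ^ 2)) =
      ENNReal.ofReal (2 / √π) * ENNReal.ofReal (exp (-1 * v ^ 2)) := by
    intro v hv
    simp only [mem_Ioi] at hv
    unfold eta
    rw [← ENNReal.ofReal_mul (abs_nonneg _), ← ENNReal.ofReal_mul (by positivity)]
    congr 1
    have hs : √(t ^ 2 / (4 * v ^ 2)) = t / (2 * v) := by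
      rw [show t ^ 2 / (4 * v ^ 2) = (t / (2 * v)) ^ 2 by ring, sqrt_sq (by positivity)]
    rw [abs_neg, abs_of_pos (by positivity), hs]
    have he : -t ^ 2 / (4 * (t ^ 2 / (4 * v ^ 2))) = -1 * v ^ 2 := by field_simp
    rw [he]
    field_simp
    ring
  rw [setLIntegral_congr_fun measurableSet_Ioi hcong, lintegral_const_mul _ (by fun_prop),
    lintegral_gauss_Ioi one_pos, ← ENNReal.ofReal_mul (by positivity), div_one]
  have : 2 / √π * (√π / 2) = 1 := by field_simp
  rw [this, ENNReal.ofReal_one]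

theorem conv_eta {t q : ℝ} (ht : 0 < t) (hq : 0 < q) :
    ∫⁻ r in Ioo (0 : ℝ) q, eta t r * hh (q - r) = hh q * ENNReal.ofReal (exp (-t ^ 2 / (4 * q))) := by
  have himg : (fun v : ℝ => q / (1 + v ^ 2)) '' Ioi 0 = Ioo 0 q := by
    ext r
    simp only [mem_image, mem_Ioi, mem_Ioo]
    constructor
    · rintro ⟨v, hv, rfl⟩
      refine ⟨by positivity, ?_⟩
      rw [div_lt_iff₀ (by positivity)]
      nlinarith [mul_pos hq (pow_pos hv 2)]
    · rintro ⟨hr, hrq⟩
      refine ⟨√(q / r - 1), ?_, ?_⟩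
      · apply sqrt_pos.mpr
        rw [sub_pos, one_lt_div hr]; exact hrq
      · have h1 : 0 ≤ q / r - 1 := by rw [sub_nonneg, one_le_div hr]; exact hrq.le
        simp only [sq_sqrt h1]
        field_simp
        ring
  have hinj : InjOn (fun v : ℝ => q / (1 + v ^ 2)) (Ioi 0) := by
    intro v hv v' hv' h
    simp only [mem_Ioi] at hv hv'
    simp only at h
    rw [div_eq_div_iff (by positivity) (by positivity)] at h
    have h2 : v ^ 2 = v' ^ 2 := by
      have h3 : q * (v' ^ 2) = q * v ^ 2 := by linarith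
      exact (mul_left_cancel₀ hq.ne' h3).symm
    exact (pow_left_inj₀ hv.le hv'.le two_ne_zero).mp h2
  have hder : ∀ v ∈ Ioi (0 : ℝ), HasDerivWithinAt (fun v : ℝ => q / (1 + v ^ 2))
      (-(2 * q * v / (1 + v ^ 2) ^ 2)) (Ioi 0) v := by
    intro v hv
    simp only [mem_Ioi] at hv
    have h1 : HasDerivAt (fun v : ℝ => 1 + v ^ 2) (2 * v) v := by
      have := (hasDerivAt_pow 2 v).const_add 1
      simpa using this
    have h2 := (hasDerivAt_const v q).div h1 (by positivity)
    apply HasDerivAt.hasDerivWithinAt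
    have h3 : -(2 * q * v / (1 + v ^ 2) ^ 2) = (0 * (1 + v ^ 2) - q * (2 * v)) / (1 + v ^ 2) ^ 2 := by
      ring
    rw [h3]
    exact h2
  rw [← himg, lintegral_image_eq_lintegral_abs_deriv_mul measurableSet_Ioi hder hinj]
  have hcong : ∀ v ∈ Ioi (0 : ℝ), ENNReal.ofReal |-(2 * q * v / (1 + v ^ 2) ^ 2)| *
      (eta t (q / (1 + v ^ 2)) * hh (q - q / (1 + v ^ 2))) =
      ENNReal.ofReal (t / (π * q) * exp (-t ^ 2 / (4 * q))) *
        ENNReal.ofReal (exp (-(t ^ 2 / (4 * q)) * v ^ 2)) := by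
    intro v hv
    simp only [mem_Ioi] at hv
    unfold eta hh
    rw [← ENNReal.ofReal_mul (by positivity), ← ENNReal.ofReal_mul (abs_nonneg _),
      ← ENNReal.ofReal_mul (by positivity)]
    congr 1
    have hv1 : 0 < 1 + v ^ 2 := by positivity
    have e1 : q - q / (1 + v ^ 2) = q * v ^ 2 / (1 + v ^ 2) := by field_simp; ring
    have hs1 : √(q / (1 + v ^ 2)) = √q / √(1 + v ^ 2) := sqrt_div hq.le _
    have hs2 : √(q * v ^ 2 / (1 + v ^ 2)) = √q * v / √(1 + v ^ 2) := by
      rw [sqrt_div (by positivity), sqrt_mul hq.le, sqrt_sq hv.le]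
    have he : -t ^ 2 / (4 * (q / (1 + v ^ 2))) = -t ^ 2 / (4 * q) + -(t ^ 2 / (4 * q)) * v ^ 2 := by
      field_simp; ring
    have hq2 : √q ^ 2 = q := sq_sqrt hq.le
    have hπ2 : √π ^ 2 = π := sq_sqrt pi_pos.le
    have hw2 : √(1 + v ^ 2) ^ 2 = 1 + v ^ 2 := sq_sqrt hv1.le
    rw [abs_neg, abs_of_pos (by positivity), e1, hs1, hs2, he, exp_add]
    have hq0 : 0 < √q := sqrt_pos.mpr hq
    have hπ0 : 0 < √π := sqrt_pos.mpr pi_pos
    have hw0 : 0 < √(1 + v ^ 2) := sqrt_pos.mpr hv1
    generalize exp (-t ^ 2 / (4 * q)) = E1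
    generalize exp (-(t ^ 2 / (4 * q)) * v ^ 2) = E2
    field_simp
    rw [hw2, hq2, hπ2]
    ring
  rw [setLIntegral_congr_fun measurableSet_Ioi hcong, lintegral_const_mul _ (by fun_prop),
    lintegral_gauss_Ioi (by positivity), ← ENNReal.ofReal_mul (by positivity)]
  unfold hh
  rw [← ENNReal.ofReal_mul (by positivity)]
  congr 1
  have e2 : √(π / (t ^ 2 / (4 * q))) = 2 * (√π * √q) / t := by
    rw [show π / (t ^ 2 / (4 * q)) = π * q * (2 / t) ^ 2 by field_simp; ring, sqrt_mul (by positivity),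
      sqrt_sq (by positivity), sqrt_mul pi_pos.le]
    ring
  rw [e2]
  have hq2 : √q ^ 2 = q := sq_sqrt hq.le
  have hπ2 : √π ^ 2 = π := sq_sqrt pi_pos.le
  have hq0 : 0 < √q := sqrt_pos.mpr hq
  have hπ0 : 0 < √π := sqrt_pos.mpr pi_pos
  generalize exp (-t ^ 2 / (4 * q)) = E1
  field_simp
  rw [hπ2, hq2]
  ring

theorem ibp {q : ℝ} (hq : 0 < q) :
    (∫⁻ t in Ioi (0 : ℝ), ENNReal.ofReal (exp (-t)) * (hh q * ENNReal.ofReal (exp (-t ^ 2 / (4 * q)))))
      + om q = hh q := by
  unfold om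
  rw [← lintegral_add_left (by unfold hh; fun_prop)]
  have hq0 : 0 < √q := sqrt_pos.mpr hq
  have hπ0 : 0 < √π := sqrt_pos.mpr pi_pos
  have hq2 : √q ^ 2 = q := sq_sqrt hq.le
  set G : ℝ → ℝ := fun t => -(1 / (√π * √q) * exp (-t + -t ^ 2 / (4 * q))) with hG
  set G' : ℝ → ℝ := fun t => 1 / (√π * √q) * (exp (-t + -t ^ 2 / (4 * q)) * (1 + t / (2 * q))) with hG'
  have hcong : ∀ t ∈ Ioi (0 : ℝ), ENNReal.ofReal (exp (-t)) *
      (hh q * ENNReal.ofReal (exp (-t ^ 2 / (4 * q)))) + ENNReal.ofReal (exp (-t)) * eta t q =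
      ENNReal.ofReal (G' t) := by
    intro t ht
    simp only [mem_Ioi] at ht
    unfold hh eta
    rw [← ENNReal.ofReal_mul (by positivity), ← ENNReal.ofReal_mul (by positivity),
      ← ENNReal.ofReal_mul (by positivity), ← ENNReal.ofReal_add (by positivity) (by positivity)]
    congr 1
    rw [hG']
    simp only
    rw [exp_add]
    field_simp
  rw [setLIntegral_congr_fun measurableSet_Ioi hcong]
  have hder : ∀ t ∈ Ioi (0 : ℝ), HasDerivAt G (G' t) t := by
    intro t _
    have h1 : HasDerivAt (fun t : ℝ => -t + -t ^ 2 / (4 * q)) (-1 + -(2 * t) / (4 * q)) t := by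
      have a1 := (hasDerivAt_id t).neg
      have a2 : HasDerivAt (fun t : ℝ => -t ^ 2) (-(2 * t)) t := by
        have h0 : HasDerivAt (fun t : ℝ => t ^ 2) (2 * t) t := by
          have := hasDerivAt_pow 2 t
          simpa using this
        exact h0.neg
      exact a1.add (a2.div_const (4 * q))
    have h2 := (h1.exp.const_mul (1 / (√π * √q))).neg
    have h3 : G' t = -(1 / (√π * √q) * (exp (-t + -t ^ 2 / (4 * q)) * (-1 + -(2 * t) / (4 * q)))) := by
      rw [hG']
      simp only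
      field_simp
      ring
    rw [h3]
    exact h2
  have hcont : ContinuousWithinAt G (Ici 0) 0 := by
    apply Continuous.continuousWithinAt
    rw [hG]
    fun_prop
  have hpos : ∀ t ∈ Ioi (0 : ℝ), 0 ≤ G' t := by
    intro t ht
    simp only [mem_Ioi] at ht
    rw [hG']
    positivity
  have hlim : Filter.Tendsto G Filter.atTop (nhds 0) := by
    have h1 : Filter.Tendsto (fun t : ℝ => -t + -t ^ 2 / (4 * q)) Filter.atTop Filter.atBot := by
      apply Filter.tendsto_atBot_mono' Filter.atTop _ Filter.tendsto_neg_atTop_atBot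
      filter_upwards with t
      have : 0 ≤ t ^ 2 / (4 * q) := by positivity
      rw [neg_div]
      linarith
    have h2 := ((tendsto_exp_atBot.comp h1).const_mul (1 / (√π * √q))).neg
    rw [mul_zero, neg_zero] at h2
    exact h2
  have hint := integral_Ioi_of_hasDerivAt_of_nonneg hcont hder hpos hlim
  have hintble := integrableOn_Ioi_deriv_of_nonneg hcont hder hpos hlim
  rw [← ofReal_integral_eq_lintegral_ofReal hintble, hint]
  · rw [hG]
    unfold hh
    simp
  · rw [Filter.EventuallyLE, ae_restrict_iff' measurableSet_Ioi]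
    exact Filter.Eventually.of_forall hpos

theorem conv_om {q : ℝ} (hq : 0 < q) :
    (∫⁻ r in Ioo (0 : ℝ) q, om r * hh (q - r)) + om q = hh q := by
  have h1 : ∫⁻ r in Ioo (0 : ℝ) q, om r * hh (q - r) =
      ∫⁻ t in Ioi (0 : ℝ), ENNReal.ofReal (exp (-t)) * (hh q * ENNReal.ofReal (exp (-t ^ 2 / (4 * q)))) := by
    have e1 : ∀ r, om r * hh (q - r) =
        ∫⁻ t in Ioi (0 : ℝ), ENNReal.ofReal (exp (-t)) * (eta t r * hh (q - r)) := by
      intro r
      unfold om
      rw [← lintegral_mul_const _ (by unfold eta; fun_prop)]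
      simp only [mul_assoc]
    simp only [e1]
    rw [lintegral_lintegral_swap]
    · apply setLIntegral_congr_fun measurableSet_Ioi
      intro t ht
      simp only
      rw [lintegral_const_mul _ (by unfold eta hh; fun_prop), conv_eta ht hq]
    · apply Measurable.aemeasurable
      unfold eta hh Function.uncurry
      fun_prop
  rw [h1, ibp hq]

theorem lintegral_om : ∫⁻ r in Ioi (0 : ℝ), om r = 1 := by
  unfold om
  rw [lintegral_lintegral_swap]
  · have : ∀ t ∈ Ioi (0 : ℝ), ∫⁻ r in Ioi (0 : ℝ), ENNReal.ofReal (exp (-t)) * eta t r =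
        ENNReal.ofReal (exp (-t)) := by
      intro t ht
      rw [lintegral_const_mul _ (by unfold eta; fun_prop), lintegral_eta ht, mul_one]
    rw [setLIntegral_congr_fun measurableSet_Ioi this, ← ofReal_integral_eq_lintegral_ofReal]
    · rw [integral_exp_neg_Ioi_zero, ENNReal.ofReal_one]
    · exact exp_neg_integrableOn_Ioi 0 one_pos |>.congr_fun (fun t _ => by simp) measurableSet_Ioi
    · exact Filter.Eventually.of_forall fun t => (exp_pos _).le
  · apply Measurable.aemeasurable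
    unfold eta Function.uncurry
    fun_prop

end one

end Pool.Agent.H68.Cap
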