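import Mathlib
import Pool.Agent.H68.C1Gauss

open MeasureTheory Real Set
open scoped ENNReal

namespace Pool.Agent.H68.Cap

/-- Radial profile of the Gaussian heat kernel in dimension `d`. -/
noncomputable def gr (d : ℕ) (r ρ : ℝ) : ℝ := (4 * π * r) ^ (-(d : ℝ) / 2) * exp (-ρ ^ 2 / (4 * r))

theorem gr_nonneg (d : ℕ) {r : ℝ} (hr : 0 ≤ r) (ρ : ℝ) : 0 ≤ gr d r ρ := by
  unfold gr
  exact mul_nonneg (rpow_nonneg (by positivity) _) (exp_pos _).le

theorem gr_pos (d : ℕ) {r : ℝ} (hr : 0 < r) (ρ : ℝ) : 0 < gr d r ρ := by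
  unfold gr
  exact mul_pos (rpow_pos_of_pos (by positivity) _) (exp_pos _)

theorem measurable_gr (d : ℕ) : Measurable (fun p : ℝ × ℝ => gr d p.1 p.2) := by
  unfold gr; fun_prop

/-- Radial profile of the kernel `w`. -/
noncomputable def ww (d : ℕ) (ρ : ℝ) : ℝ≥0∞ := ∫⁻ r in Ioi (0 : ℝ), om r * ENNReal.ofReal (gr d r ρ)

/-- Radial profile of the kernel `u`. -/
noncomputable def uu (d : ℕ) (ρ : ℝ) : ℝ≥0∞ := ∫⁻ r in Ioi (0 : ℝ), hh r * ENNReal.ofReal (gr d r ρ)

theorem measurable_om_gr (d : ℕ) :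
    Measurable (fun p : ℝ × ℝ => om p.2 * ENNReal.ofReal (gr d p.2 p.1)) :=
  (measurable_om.comp measurable_snd).mul
    ((measurable_gr d).comp (measurable_snd.prodMk measurable_fst)).ennreal_ofReal

theorem measurable_hh_gr (d : ℕ) :
    Measurable (fun p : ℝ × ℝ => hh p.2 * ENNReal.ofReal (gr d p.2 p.1)) :=
  (measurable_hh.comp measurable_snd).mul
    ((measurable_gr d).comp (measurable_snd.prodMk measurable_fst)).ennreal_ofReal

theorem measurable_ww (d : ℕ) : Measurable (ww d) :=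
  Measurable.lintegral_prod_right' (measurable_om_gr d)

theorem measurable_uu (d : ℕ) : Measurable (uu d) :=
  Measurable.lintegral_prod_right' (measurable_hh_gr d)

theorem ww_anti (d : ℕ) {ρ ρ' : ℝ} (h0 : 0 ≤ ρ) (h : ρ ≤ ρ') : ww d ρ' ≤ ww d ρ := by
  unfold ww
  apply setLIntegral_mono' measurableSet_Ioi
  intro r hr
  simp only [mem_Ioi] at hr
  gcongr
  unfold gr
  gcongr

theorem uu_anti (d : ℕ) {ρ ρ' : ℝ} (h0 : 0 ≤ ρ) (h : ρ ≤ ρ') : uu d ρ' ≤ uu d ρ := by
  unfold uu
  apply setLIntegral_mono' measurableSet_Ioi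
  intro r hr
  simp only [mem_Ioi] at hr
  gcongr
  unfold gr
  gcongr

section gauss

variable {V : Type*} [NormedAddCommGroup V] [InnerProductSpace ℝ V] [FiniteDimensional ℝ V]
  [MeasurableSpace V] [BorelSpace V]

open Module

theorem lintegral_exp_sq {b : ℝ} (hb : 0 < b) (a : V) :
    ∫⁻ y : V, ENNReal.ofReal (exp (-b * ‖y - a‖ ^ 2)) =
      ENNReal.ofReal ((π / b) ^ (finrank ℝ V / 2 : ℝ)) := by
  rw [lintegral_sub_right_eq_self (fun y : V => ENNReal.ofReal (exp (-b * ‖y‖ ^ 2))) a]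
  have h := GaussianFourier.integral_rexp_neg_mul_sq_norm (V := V) hb
  rw [← h, ofReal_integral_eq_lintegral_ofReal]
  · by_contra hni
    rw [integral_undef hni] at h
    exact absurd h.symm (rpow_pos_of_pos (by positivity) _).ne'
  · exact Filter.Eventually.of_forall fun v => (exp_pos _).le

theorem lintegral_gr {r : ℝ} (hr : 0 < r) :
    ∫⁻ y : V, ENNReal.ofReal (gr (finrank ℝ V) r ‖y‖) = 1 := by
  have h := lintegral_exp_sq (V := V) (b := 1 / (4 * r)) (by positivity) 0
  have e : ∀ y : V, ENNReal.ofReal (gr (finrank ℝ V) r ‖y‖) =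
      ENNReal.ofReal ((4 * π * r) ^ (-(finrank ℝ V : ℝ) / 2)) *
        ENNReal.ofReal (exp (-(1 / (4 * r)) * ‖y - 0‖ ^ 2)) := by
    intro y
    unfold gr
    rw [← ENNReal.ofReal_mul (rpow_nonneg (by positivity) _), sub_zero]
    congr 3
    ring
  simp only [e]
  rw [lintegral_const_mul _ (by fun_prop), h, ← ENNReal.ofReal_mul (rpow_nonneg (by positivity) _),
    show π / (1 / (4 * r)) = 4 * π * r by field_simp, ← rpow_add (by positivity)]
  ring_nf
  simp

theorem gr_conv {r s : ℝ} (hr : 0 < r) (hs : 0 < s) (x : V) :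
    ∫⁻ y : V, ENNReal.ofReal (gr (finrank ℝ V) r ‖x - y‖) * ENNReal.ofReal (gr (finrank ℝ V) s ‖y‖) =
      ENNReal.ofReal (gr (finrank ℝ V) (r + s) ‖x‖) := by
  set d : ℝ := (finrank ℝ V : ℝ) with hd
  have hb : 0 < (r + s) / (4 * r * s) := by positivity
  have h := lintegral_exp_sq (V := V) hb ((s / (r + s)) • x)
  have e : ∀ y : V, ENNReal.ofReal (gr (finrank ℝ V) r ‖x - y‖) *
      ENNReal.ofReal (gr (finrank ℝ V) s ‖y‖) =
      ENNReal.ofReal ((4 * π * r) ^ (-d / 2) * (4 * π * s) ^ (-d / 2) * exp (-‖x‖ ^ 2 / (4 * (r + s)))) *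
        ENNReal.ofReal (exp (-((r + s) / (4 * r * s)) * ‖y - (s / (r + s)) • x‖ ^ 2)) := by
    intro y
    have p1 : 0 ≤ (4 * π * r) ^ (-d / 2) := rpow_nonneg (by positivity) _
    have p2 : 0 ≤ (4 * π * s) ^ (-d / 2) := rpow_nonneg (by positivity) _
    unfold gr
    rw [← ENNReal.ofReal_mul (by positivity), ← ENNReal.ofReal_mul (by positivity)]
    congr 1
    have hexp : -‖x - y‖ ^ 2 / (4 * r) + -‖y‖ ^ 2 / (4 * s) =
        -‖x‖ ^ 2 / (4 * (r + s)) + -((r + s) / (4 * r * s)) * ‖y - (s / (r + s)) • x‖ ^ 2 := by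
      rw [norm_sub_sq_real, norm_sub_sq_real, norm_smul, inner_smul_right, real_inner_comm,
        norm_eq_abs, mul_pow, sq_abs]
      field_simp
      ring
    calc (4 * π * r) ^ (-d / 2) * exp (-‖x - y‖ ^ 2 / (4 * r)) *
          ((4 * π * s) ^ (-d / 2) * exp (-‖y‖ ^ 2 / (4 * s)))
        = (4 * π * r) ^ (-d / 2) * (4 * π * s) ^ (-d / 2) *
          exp (-‖x - y‖ ^ 2 / (4 * r) + -‖y‖ ^ 2 / (4 * s)) := by rw [exp_add]; ring
      _ = _ := by rw [hexp, exp_add]; ring
  simp only [e]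
  rw [lintegral_const_mul _ (by fun_prop), h, ← ENNReal.ofReal_mul]
  · unfold gr
    congr 1
    have hX : 0 < 4 * π * r := by positivity
    have hY : 0 < 4 * π * s := by positivity
    have hZ : 0 < 4 * π * (r + s) := by positivity
    rw [← hd, show π / ((r + s) / (4 * r * s)) = (4 * π * r) * (4 * π * s) * (4 * π * (r + s))⁻¹ by
      field_simp]
    generalize exp (-‖x‖ ^ 2 / (4 * (r + s))) = E
    generalize 4 * π * r = X at *
    generalize 4 * π * s = Y at *
    generalize 4 * π * (r + s) = Z at *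
    have a1 : X ^ (-d / 2) * X ^ (d / 2) = 1 := by
      rw [← rpow_add hX]; ring_nf; simp
    have a2 : Y ^ (-d / 2) * Y ^ (d / 2) = 1 := by
      rw [← rpow_add hY]; ring_nf; simp
    have a3 : (X * Y * Z⁻¹) ^ (d / 2) = X ^ (d / 2) * Y ^ (d / 2) * Z ^ (-d / 2) := by
      rw [mul_rpow (by positivity) (by positivity), mul_rpow hX.le hY.le, inv_rpow hZ.le,
        ← rpow_neg hZ.le, show -(d / 2) = -d / 2 by ring]
    rw [a3]
    linear_combination (Y ^ (-d / 2) * Y ^ (d / 2) * Z ^ (-d / 2) * E) * a1 + (Z ^ (-d / 2) * E) * a2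
  · have p1 : 0 ≤ (4 * π * r) ^ (-d / 2) := rpow_nonneg (by positivity) _
    have p2 : 0 ≤ (4 * π * s) ^ (-d / 2) := rpow_nonneg (by positivity) _
    positivity

end gauss

theorem one_dim {F : ℝ → ℝ≥0∞} (hF : Measurable F) :
    (∫⁻ r in Ioi (0 : ℝ), ∫⁻ s in Ioi (0 : ℝ), om r * hh s * F (r + s)) +
      ∫⁻ q in Ioi (0 : ℝ), om q * F q = ∫⁻ q in Ioi (0 : ℝ), hh q * F q := by
  have h1 : ∀ r, ∫⁻ s in Ioi (0 : ℝ), om r * hh s * F (r + s) =
      ∫⁻ q in Ioi r, om r * hh (q - r) * F q := by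
    intro r
    rw [← lintegral_indicator measurableSet_Ioi, ← lintegral_indicator measurableSet_Ioi]
    rw [← lintegral_sub_right_eq_self _ r]
    congr 1
    ext q
    by_cases hq : r < q
    · rw [indicator_of_mem (by simpa using hq), indicator_of_mem (by simpa using hq)]
      congr 2
      ring
    · rw [indicator_of_notMem (by simpa using hq), indicator_of_notMem (by simpa using hq)]
  simp only [h1]
  have hmeas : Measurable (fun p : ℝ × ℝ => {p : ℝ × ℝ | 0 < p.1 ∧ p.1 < p.2}.indicator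
      (fun p : ℝ × ℝ => om p.1 * hh (p.2 - p.1) * F p.2) p) := by
    apply Measurable.indicator
    · exact ((measurable_om.comp measurable_fst).mul
        (measurable_hh.comp (measurable_snd.sub measurable_fst))).mul (hF.comp measurable_snd)
    · exact (measurableSet_lt measurable_const measurable_fst).inter
        (measurableSet_lt measurable_fst measurable_snd)
  have h2 : ∫⁻ r in Ioi (0 : ℝ), ∫⁻ q in Ioi r, om r * hh (q - r) * F q =
      ∫⁻ q in Ioi (0 : ℝ), (∫⁻ r in Ioo (0 : ℝ) q, om r * hh (q - r)) * F q := by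
    have a1 : ∫⁻ r in Ioi (0 : ℝ), ∫⁻ q in Ioi r, om r * hh (q - r) * F q =
        ∫⁻ r, ∫⁻ q, {p : ℝ × ℝ | 0 < p.1 ∧ p.1 < p.2}.indicator
          (fun p : ℝ × ℝ => om p.1 * hh (p.2 - p.1) * F p.2) (r, q) := by
      rw [← lintegral_indicator measurableSet_Ioi]
      congr 1
      ext r
      by_cases hr : 0 < r
      · rw [indicator_of_mem (by simpa using hr), ← lintegral_indicator measurableSet_Ioi]
        congr 1
        ext q
        by_cases hq : r < q
        · rw [indicator_of_mem (by simpa using hq), indicator_of_mem (by exact ⟨hr, hq⟩)]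
        · rw [indicator_of_notMem (by simpa using hq), indicator_of_notMem (by exact fun h => hq h.2)]
      · rw [indicator_of_notMem (by simpa using hr)]
        symm
        rw [lintegral_eq_zero_of_ae_eq_zero]
        filter_upwards with q
        rw [indicator_of_notMem (by exact fun h => hr h.1)]
        rfl
    have a2 : ∫⁻ q in Ioi (0 : ℝ), (∫⁻ r in Ioo (0 : ℝ) q, om r * hh (q - r)) * F q =
        ∫⁻ q, ∫⁻ r, {p : ℝ × ℝ | 0 < p.1 ∧ p.1 < p.2}.indicator
          (fun p : ℝ × ℝ => om p.1 * hh (p.2 - p.1) * F p.2) (r, q) := by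
      rw [← lintegral_indicator measurableSet_Ioi]
      congr 1
      ext q
      by_cases hq : 0 < q
      · rw [indicator_of_mem (by simpa using hq), ← lintegral_mul_const]
        · rw [← lintegral_indicator measurableSet_Ioo]
          congr 1
        · exact measurable_om.mul (measurable_hh.comp (measurable_const.sub measurable_id))
      · rw [indicator_of_notMem (by simpa using hq)]
        symm
        rw [lintegral_eq_zero_of_ae_eq_zero]
        filter_upwards with r
        rw [indicator_of_notMem (by exact fun h => hq (h.1.trans h.2))]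
        rfl
    rw [a1, a2]
    exact lintegral_lintegral_swap hmeas.aemeasurable
  rw [h2, ← lintegral_add_right (g := fun q => om q * F q) _ (measurable_om.mul hF)]
  apply setLIntegral_congr_fun measurableSet_Ioi
  intro q hq
  simp only
  rw [← add_mul, conv_om hq]

section kernel

variable {V : Type*} [NormedAddCommGroup V] [InnerProductSpace ℝ V] [FiniteDimensional ℝ V]
  [MeasurableSpace V] [BorelSpace V]

open Module

theorem lintegral_ww : ∫⁻ z : V, ww (finrank ℝ V) ‖z‖ = 1 := by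
  unfold ww
  rw [lintegral_lintegral_swap]
  · have : ∀ r ∈ Ioi (0 : ℝ), ∫⁻ z : V, om r * ENNReal.ofReal (gr (finrank ℝ V) r ‖z‖) = om r := by
      intro r hr
      rw [lintegral_const_mul _ (by unfold gr; fun_prop), lintegral_gr hr, mul_one]
    rw [setLIntegral_congr_fun measurableSet_Ioi this, lintegral_om]
  · apply Measurable.aemeasurable
    exact (measurable_om.comp measurable_snd).mul
      ((measurable_gr _).comp (measurable_snd.prodMk measurable_fst.norm)).ennreal_ofReal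

theorem kernel_identity (x : V) :
    (∫⁻ y : V, ww (finrank ℝ V) ‖x - y‖ * uu (finrank ℝ V) ‖y‖) + ww (finrank ℝ V) ‖x‖ =
      uu (finrank ℝ V) ‖x‖ := by
  set d := finrank ℝ V with hd
  have h1 : ∫⁻ y : V, ww d ‖x - y‖ * uu d ‖y‖ =
      ∫⁻ r in Ioi (0 : ℝ), ∫⁻ s in Ioi (0 : ℝ), om r * hh s * ENNReal.ofReal (gr d (r + s) ‖x‖) := by
    have e1 : ∀ y : V, ww d ‖x - y‖ * uu d ‖y‖ = ∫⁻ r in Ioi (0 : ℝ), ∫⁻ s in Ioi (0 : ℝ),
        (om r * hh s) * (ENNReal.ofReal (gr d r ‖x - y‖) * ENNReal.ofReal (gr d s ‖y‖)) := by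
      intro y
      have m1 : Measurable (fun r : ℝ => om r * ENNReal.ofReal (gr d r ‖x - y‖)) :=
        measurable_om.mul ((measurable_gr d).comp (measurable_id.prodMk measurable_const)).ennreal_ofReal
      have m2 : Measurable (fun s : ℝ => hh s * ENNReal.ofReal (gr d s ‖y‖)) :=
        measurable_hh.mul ((measurable_gr d).comp (measurable_id.prodMk measurable_const)).ennreal_ofReal
      unfold ww uu
      rw [← lintegral_mul_const _ m1]
      congr 1
      ext r
      rw [← lintegral_const_mul _ m2]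
      congr 1
      ext s
      ring
    simp only [e1]
    rw [lintegral_lintegral_swap]
    · apply setLIntegral_congr_fun measurableSet_Ioi
      intro r hr
      simp only
      rw [lintegral_lintegral_swap]
      · apply setLIntegral_congr_fun measurableSet_Ioi
        intro s hs
        simp only
        rw [lintegral_const_mul _ (by unfold gr; fun_prop), gr_conv hr hs]
      · apply Measurable.aemeasurable
        have m1 : Measurable (fun p : V × ℝ => ENNReal.ofReal (gr d r ‖x - p.1‖)) := by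
          unfold gr; fun_prop
        have m2 : Measurable (fun p : V × ℝ => ENNReal.ofReal (gr d p.2 ‖p.1‖)) :=
          ((measurable_gr d).comp (measurable_snd.prodMk measurable_fst.norm)).ennreal_ofReal
        exact (measurable_const.mul (measurable_hh.comp measurable_snd)).mul (m1.mul m2)
    · apply Measurable.aemeasurable
      have m1 : Measurable (fun p : (V × ℝ) × ℝ => ENNReal.ofReal (gr d p.1.2 ‖x - p.1.1‖)) :=
        ((measurable_gr d).comp (by fun_prop : Measurable (fun p : (V × ℝ) × ℝ =>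
          (p.1.2, ‖x - p.1.1‖)))).ennreal_ofReal
      have m2 : Measurable (fun p : (V × ℝ) × ℝ => ENNReal.ofReal (gr d p.2 ‖p.1.1‖)) :=
        ((measurable_gr d).comp (by fun_prop : Measurable (fun p : (V × ℝ) × ℝ =>
          (p.2, ‖p.1.1‖)))).ennreal_ofReal
      have m3 : Measurable (fun p : (V × ℝ) × ℝ => om p.1.2 * hh p.2) :=
        (measurable_om.comp (by fun_prop)).mul (measurable_hh.comp (by fun_prop))
      exact Measurable.lintegral_prod_right' (m3.mul (m1.mul m2))
  have h2 := one_dim (F := fun q => ENNReal.ofReal (gr d q ‖x‖))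
    ((measurable_gr d).comp (measurable_id.prodMk measurable_const)).ennreal_ofReal
  rw [h1]
  exact h2

end kernel

theorem uu_scale {d : ℕ} (hd : 1 ≤ d) {ρ : ℝ} (hρ : 0 < ρ) :
    ENNReal.ofReal (ρ ^ (d - 1)) * uu d ρ = uu d 1 := by
  have himg : (fun r : ℝ => ρ ^ 2 * r) '' Ioi 0 = Ioi 0 := by
    ext r
    simp only [mem_image, mem_Ioi]
    constructor
    · rintro ⟨v, hv, rfl⟩; positivity
    · intro hr
      exact ⟨r / ρ ^ 2, by positivity, by field_simp⟩
  have hinj : InjOn (fun r : ℝ => ρ ^ 2 * r) (Ioi 0) := by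
    intro v _ v' _ h
    exact mul_left_cancel₀ (by positivity) h
  have hder : ∀ r ∈ Ioi (0 : ℝ), HasDerivWithinAt (fun r : ℝ => ρ ^ 2 * r) (ρ ^ 2) (Ioi 0) r := by
    intro r _
    have := ((hasDerivAt_id r).const_mul (ρ ^ 2)).hasDerivWithinAt (s := Ioi 0)
    simpa using this
  unfold uu
  conv_lhs => rw [← himg]
  rw [lintegral_image_eq_lintegral_abs_deriv_mul measurableSet_Ioi hder hinj, ← lintegral_const_mul]
  · apply setLIntegral_congr_fun measurableSet_Ioi
    intro r hr
    simp only [mem_Ioi] at hr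
    simp only
    unfold hh gr
    rw [← ENNReal.ofReal_mul (by positivity), ← ENNReal.ofReal_mul (by positivity),
      ← ENNReal.ofReal_mul (by positivity), ← ENNReal.ofReal_mul (by positivity)]
    congr 1
    have e1 : √(ρ ^ 2 * r) = ρ * √r := by rw [sqrt_mul (by positivity), sqrt_sq hρ.le]
    have e2 : -ρ ^ 2 / (4 * (ρ ^ 2 * r)) = -1 ^ 2 / (4 * r) := by field_simp
    have e3 : (4 * π * (ρ ^ 2 * r)) ^ (-(d : ℝ) / 2) = (ρ ^ d)⁻¹ * (4 * π * r) ^ (-(d : ℝ) / 2) := by
      rw [show 4 * π * (ρ ^ 2 * r) = ρ ^ 2 * (4 * π * r) by ring, mul_rpow (by positivity) (by positivity)]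
      congr 1
      rw [← rpow_natCast ρ 2, ← rpow_mul hρ.le, ← rpow_natCast ρ d, ← rpow_neg hρ.le]
      congr 1
      push_cast
      ring
    rw [abs_of_pos (by positivity), e1, e2, e3]
    have hr0 : 0 < √r := sqrt_pos.mpr hr
    have hπ0 : 0 < √π := sqrt_pos.mpr pi_pos
    obtain ⟨k, rfl⟩ : ∃ k, d = k + 1 := ⟨d - 1, by omega⟩
    rw [Nat.add_sub_cancel]
    generalize (4 * π * r) ^ (-((k + 1 : ℕ) : ℝ) / 2) = A
    generalize exp (-1 ^ 2 / (4 * r)) = E
    field_simp
    ring
  · have m1 : Measurable (fun r : ℝ => hh (ρ ^ 2 * r)) := measurable_hh.comp (by fun_prop)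
    have m2 : Measurable (fun r : ℝ => ENNReal.ofReal (gr d (ρ ^ 2 * r) ρ)) :=
      ((measurable_gr d).comp ((by fun_prop : Measurable (fun r : ℝ => ρ ^ 2 * r)).prodMk
        measurable_const)).ennreal_ofReal
    exact measurable_const.mul (m1.mul m2)

theorem uu_one_ne_zero (d : ℕ) : uu d 1 ≠ 0 := by
  unfold uu
  rw [← pos_iff_ne_zero, setLIntegral_pos_iff]
  · have : Ioi (0 : ℝ) ⊆ (Function.support fun r => hh r * ENNReal.ofReal (gr d r 1)) ∩ Ioi 0 := by
      intro r hr
      refine ⟨?_, hr⟩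
      simp only [mem_Ioi] at hr
      have h1 : 0 < hh r := by unfold hh; apply ENNReal.ofReal_pos.mpr; positivity
      have h2 : 0 < ENNReal.ofReal (gr d r 1) := ENNReal.ofReal_pos.mpr (gr_pos d hr 1)
      exact (ENNReal.mul_pos h1.ne' h2.ne').ne'
    exact lt_of_lt_of_le (by simp) (measure_mono this)
  · exact measurable_hh.mul ((measurable_gr d).comp (measurable_id.prodMk measurable_const)).ennreal_ofReal

theorem uu_one_ne_top {d : ℕ} (hd : 2 ≤ d) : uu d 1 ≠ ∞ := by
  obtain ⟨k, rfl⟩ : ∃ k, d = k + 2 := ⟨d - 2, by omega⟩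
  have himg : (fun v : ℝ => 1 / (4 * v ^ 2)) '' Ioi 0 = Ioi 0 := by
    ext r
    simp only [mem_image, mem_Ioi]
    constructor
    · rintro ⟨v, hv, rfl⟩; positivity
    · intro hr
      refine ⟨1 / (2 * √r), by positivity, ?_⟩
      have : √r ^ 2 = r := sq_sqrt hr.le
      field_simp
      rw [this]
      norm_num
  have hinj : InjOn (fun v : ℝ => 1 / (4 * v ^ 2)) (Ioi 0) := by
    intro v hv v' hv' h
    simp only [mem_Ioi] at hv hv'
    simp only at h
    rw [div_eq_div_iff (by positivity) (by positivity)] at h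
    have h2 : v ^ 2 = v' ^ 2 := by linarith
    exact (pow_left_inj₀ hv.le hv'.le two_ne_zero).mp h2
  have hder : ∀ v ∈ Ioi (0 : ℝ), HasDerivWithinAt (fun v : ℝ => 1 / (4 * v ^ 2))
      (-(1 / (2 * v ^ 3))) (Ioi 0) v := by
    intro v hv
    simp only [mem_Ioi] at hv
    have h1 : HasDerivAt (fun v : ℝ => 4 * v ^ 2) (4 * (2 * v)) v := by
      have := (hasDerivAt_pow 2 v).const_mul 4
      simpa using this
    have h2 := (hasDerivAt_const v (1 : ℝ)).div h1 (by positivity)
    apply HasDerivAt.hasDerivWithinAt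
    have h3 : -(1 / (2 * v ^ 3)) = (0 * (4 * v ^ 2) - 1 * (4 * (2 * v))) / (4 * v ^ 2) ^ 2 := by
      field_simp
      ring
    rw [h3]
    exact h2
  unfold uu
  rw [← himg, lintegral_image_eq_lintegral_abs_deriv_mul measurableSet_Ioi hder hinj]
  have hcong : ∀ v ∈ Ioi (0 : ℝ), ENNReal.ofReal |-(1 / (2 * v ^ 3))| *
      (hh (1 / (4 * v ^ 2)) * ENNReal.ofReal (gr (k + 2) (1 / (4 * v ^ 2)) 1)) =
      ENNReal.ofReal ((√π)⁻¹ * π ^ (-((k : ℝ) + 2) / 2) * (v ^ (k : ℝ) * exp (-1 * v ^ 2))) := by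
    intro v hv
    simp only [mem_Ioi] at hv
    unfold hh gr
    rw [← ENNReal.ofReal_mul (by positivity), ← ENNReal.ofReal_mul (by positivity)]
    congr 1
    have hs : √(1 / (4 * v ^ 2)) = 1 / (2 * v) := by
      rw [show 1 / (4 * v ^ 2) = (1 / (2 * v)) ^ 2 by ring, sqrt_sq (by positivity)]
    have he : -1 ^ 2 / (4 * (1 / (4 * v ^ 2))) = -1 * v ^ 2 := by field_simp
    have hp : (4 * π * (1 / (4 * v ^ 2))) ^ (-((k + 2 : ℕ) : ℝ) / 2) =
        π ^ (-((k : ℝ) + 2) / 2) * v ^ (k + 2) := by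
      rw [show 4 * π * (1 / (4 * v ^ 2)) = π * (v ^ 2)⁻¹ by field_simp,
        mul_rpow pi_pos.le (by positivity)]
      push_cast
      congr 1
      rw [inv_rpow (by positivity), ← rpow_neg (by positivity), ← rpow_natCast v 2, ← rpow_mul hv.le,
        ← rpow_natCast v (k + 2)]
      congr 1
      push_cast
      ring
    rw [abs_neg, abs_of_pos (by positivity), hs, he, hp, rpow_natCast, pow_add]
    generalize π ^ (-((k : ℝ) + 2) / 2) = A
    generalize exp (-1 * v ^ 2) = E
    have hπ0 : 0 < √π := sqrt_pos.mpr pi_pos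
    field_simp
  rw [setLIntegral_congr_fun measurableSet_Ioi hcong]
  have hint : IntegrableOn (fun v : ℝ => v ^ (k : ℝ) * exp (-1 * v ^ 2)) (Ioi 0) :=
    integrableOn_rpow_mul_exp_neg_mul_sq one_pos (by have : (0 : ℝ) ≤ k := k.cast_nonneg; linarith)
  have h2 := (hint.const_mul ((√π)⁻¹ * π ^ (-((k : ℝ) + 2) / 2))).lintegral_lt_top
  exact h2.ne

end Pool.Agent.H68.Cap
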