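import Mathlib

open MeasureTheory Set
open scoped ENNReal

namespace Pool.Agent.H68.Cap

/-- The orthogonal group `O(n)`. -/
abbrev OG (n : ℕ) := Matrix.orthogonalGroup (Fin n) ℝ

/-- Euclidean space. -/
abbrev EE (n : ℕ) := EuclideanSpace ℝ (Fin n)

instance instMeasurableSpaceOG (n : ℕ) : MeasurableSpace (OG n) := borel _

instance instBorelSpaceOG (n : ℕ) : BorelSpace (OG n) := ⟨rfl⟩

instance instSCM (n : ℕ) : SecondCountableTopology (Matrix (Fin n) (Fin n) ℝ) :=
  inferInstanceAs (SecondCountableTopology (Fin n → Fin n → ℝ))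

instance instSCO (n : ℕ) : SecondCountableTopology (OG n) :=
  TopologicalSpace.Subtype.secondCountableTopology _

theorem isCompact_orthogonalGroup (n : ℕ) :
    IsCompact {A : Matrix (Fin n) (Fin n) ℝ | A ∈ Matrix.orthogonalGroup (Fin n) ℝ} := by
  have h1 : @IsCompact (Matrix (Fin n) (Fin n) ℝ) _
      {A : Matrix (Fin n) (Fin n) ℝ | ∀ i j, A i j ∈ Icc (-1 : ℝ) 1} := by
    have h : @IsCompact (Fin n → Fin n → ℝ) _
        (Set.univ.pi fun _ : Fin n => (Set.univ.pi fun _ : Fin n => Icc (-1 : ℝ) 1)) :=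
      isCompact_univ_pi fun _ => isCompact_univ_pi fun _ => isCompact_Icc
    have e : {A : Fin n → Fin n → ℝ | ∀ i j, A i j ∈ Icc (-1 : ℝ) 1} =
        (Set.univ.pi fun _ : Fin n => (Set.univ.pi fun _ : Fin n => Icc (-1 : ℝ) 1)) := by
      ext A
      simp only [mem_ofPred_eq, mem_pi, mem_univ, true_implies]
    rw [← e] at h
    exact h
  apply IsCompact.of_isClosed_subset h1
  · have : {A : Matrix (Fin n) (Fin n) ℝ | A ∈ Matrix.orthogonalGroup (Fin n) ℝ} =
        {A : Matrix (Fin n) (Fin n) ℝ | A * star A = 1} := by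
      ext A
      exact Matrix.mem_orthogonalGroup_iff _ _
    rw [this]
    exact isClosed_eq (by fun_prop) continuous_const
  · intro A hA
    have hA : A * star A = 1 := (Matrix.mem_orthogonalGroup_iff _ _).mp hA
    intro i j
    have h2 := congrFun (congrFun hA i) i
    rw [Matrix.mul_apply, Matrix.one_apply_eq] at h2
    simp only [Matrix.star_apply, star_trivial] at h2
    have h3 : A i j * A i j ≤ 1 := by
      rw [← h2]
      exact Finset.single_le_sum (f := fun j => A i j * A i j) (fun j _ => mul_self_nonneg _)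
        (Finset.mem_univ j)
    rw [mem_Icc]
    constructor <;> nlinarith

instance instCompactOG (n : ℕ) : CompactSpace (OG n) :=
  isCompact_iff_compactSpace.mp (isCompact_orthogonalGroup n)

/-- The invariant probability measure on `O(n)`. -/
noncomputable def muO (n : ℕ) : Measure (OG n) :=
  Measure.haarMeasure ⟨⟨univ, isCompact_univ⟩, by simp⟩

instance instProbO (n : ℕ) : IsProbabilityMeasure (muO n) :=
  ⟨Measure.haarMeasure_self (K₀ := (⟨⟨univ, isCompact_univ⟩, by simp⟩ :
    TopologicalSpace.PositiveCompacts (OG n)))⟩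

instance instHaarO (n : ℕ) : (muO n).IsHaarMeasure := by unfold muO; infer_instance

instance instRightO (n : ℕ) : (muO n).IsMulRightInvariant := by
  refine ⟨fun g => ?_⟩
  have h1 : (Measure.map (fun x => x * g) (muO n)).IsMulLeftInvariant :=
    isMulLeftInvariant_map_mul_right g
  have h2 : IsProbabilityMeasure (Measure.map (fun x => x * g) (muO n)) :=
    Measure.isProbabilityMeasure_map (measurable_mul_const g).aemeasurable
  have h3 := Measure.isMulInvariant_eq_smul_of_compactSpace (Measure.map (fun x => x * g) (muO n)) (muO n)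
  have h4 := congrArg (fun m : Measure (OG n) => m univ) h3
  simp only [measure_univ, Measure.smul_apply] at h4
  have h5 : (Measure.map (fun x => x * g) (muO n)).haarScalarFactor (muO n) = 1 := by
    have : ((((Measure.map (fun x => x * g) (muO n)).haarScalarFactor (muO n)) : NNReal) : ℝ≥0∞) = 1 := by
      rw [h4]
      simp [ENNReal.smul_def]
    exact_mod_cast this
  rw [h5, one_smul] at h3
  exact h3

/-- Auxiliary star-multiplicative equivalence. -/
noncomputable def starE (n : ℕ) : Matrix (Fin n) (Fin n) ℝ ≃⋆* (EE n →L[ℝ] EE n) :=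
  ⟨MulEquivClass.toMulEquiv (Matrix.toEuclideanCLM (n := Fin n) (𝕜 := ℝ)),
    fun a => map_star (Matrix.toEuclideanCLM (n := Fin n) (𝕜 := ℝ)) a⟩

/-- The action of `O(n)` on Euclidean space. -/
noncomputable def actE (n : ℕ) : OG n ≃* (EE n ≃ₗᵢ[ℝ] EE n) :=
  (Unitary.mapEquiv (starE n)).toMulEquiv.trans Unitary.linearIsometryEquiv

theorem actE_apply {n : ℕ} (g : OG n) (x : EE n) :
    actE n g x = WithLp.toLp 2 (g.1.mulVec (WithLp.ofLp x)) := rfl

theorem continuous_act (n : ℕ) : Continuous (fun p : OG n × EE n => actE n p.1 p.2) := by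
  simp only [actE_apply]
  fun_prop

theorem act_mul {n : ℕ} (g h : OG n) (x : EE n) : actE n (g * h) x = actE n g (actE n h x) := by
  rw [map_mul]; rfl

theorem act_inv {n : ℕ} (g : OG n) (x : EE n) : actE n g⁻¹ x = (actE n g).symm x := by
  rw [map_inv]; rfl

theorem act_trans {n : ℕ} {x y : EE n} (h : ‖x‖ = ‖y‖) : ∃ g : OG n, actE n g x = y := by
  obtain ⟨g, hg⟩ := (actE n).surjective ((ℝ ∙ (x - y))ᗮ.reflection)
  refine ⟨g, ?_⟩
  rw [hg]
  exact Submodule.reflection_sub h

theorem measurable_act (n : ℕ) : Measurable (fun p : OG n × EE n => actE n p.1 p.2) :=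
  (continuous_act n).measurable

attribute [irreducible] actE starE

theorem cont_act {X : Type*} [TopologicalSpace X] {n : ℕ} {a : X → OG n} {b : X → EE n}
    (ha : Continuous a) (hb : Continuous b) : Continuous (fun x => actE n (a x) (b x)) :=
  (continuous_act n).comp (ha.prodMk hb)

end Pool.Agent.H68.Cap
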