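import Mathlib
import Pool.Agent.H68.C2Kernel
import Pool.Agent.H68.C3Group

open MeasureTheory Set
open scoped ENNReal

namespace Pool.Agent.H68.Cap

variable {m : ℕ}

/-- The point with first coordinates `y` and last coordinate `t`. -/
noncomputable def join (y : EE m) (t : ℝ) : EE (m + 1) :=
  WithLp.toLp 2 (Fin.snoc (α := fun _ => ℝ) (WithLp.ofLp y) t)

/-- The projection forgetting the last coordinate. -/
noncomputable def proj (x : EE (m + 1)) : EE m := WithLp.toLp 2 (fun j => x (Fin.castSucc j))

/-- The last basis vector. -/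
noncomputable def e0 : EE (m + 1) := join 0 1

@[simp] theorem join_castSucc (y : EE m) (t : ℝ) (j : Fin m) : join y t (Fin.castSucc j) = y j := by
  simp [join]

@[simp] theorem join_last (y : EE m) (t : ℝ) : join y t (Fin.last m) = t := by simp [join]

@[simp] theorem proj_apply (x : EE (m + 1)) (j : Fin m) : proj x j = x (Fin.castSucc j) := rfl

@[simp] theorem proj_join (y : EE m) (t : ℝ) : proj (join y t) = y := by
  ext j; simp

theorem join_proj (x : EE (m + 1)) : join (proj x) (x (Fin.last m)) = x := by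
  ext j
  refine Fin.lastCases ?_ (fun j => ?_) j
  · simp
  · simp

theorem join_add (y : EE m) (t s : ℝ) : join y (t + s) = join y t + s • e0 := by
  ext j
  refine Fin.lastCases ?_ (fun j => ?_) j
  · simp [e0]
  · simp [e0]

theorem norm_join (y : EE m) (t : ℝ) : ‖join y t‖ ^ 2 = ‖y‖ ^ 2 + t ^ 2 := by
  rw [EuclideanSpace.norm_sq_eq, EuclideanSpace.norm_sq_eq, Fin.sum_univ_castSucc]
  simp

theorem norm_e0 : ‖(e0 : EE (m + 1))‖ = 1 := by
  have h : ‖(e0 : EE (m + 1))‖ ^ 2 = 1 := by rw [e0, norm_join]; simp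
  have h0 := norm_nonneg (e0 : EE (m + 1))
  nlinarith

theorem continuous_proj : Continuous (proj : EE (m + 1) → EE m) := by
  unfold proj; fun_prop

theorem continuous_join : Continuous (fun p : EE m × ℝ => join p.1 p.2) := by
  unfold join
  apply (PiLp.continuous_toLp 2 _).comp
  apply continuous_pi
  intro j
  refine Fin.lastCases ?_ (fun j => ?_) j
  · simp only [Fin.snoc_last]; fun_prop
  · simp only [Fin.snoc_castSucc]; fun_prop

theorem proj_add (x y : EE (m + 1)) : proj (x + y) = proj x + proj y := by ext j; simp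

theorem proj_sub (x y : EE (m + 1)) : proj (x - y) = proj x - proj y := by ext j; simp

theorem norm_proj_le (x : EE (m + 1)) : ‖proj x‖ ≤ ‖x‖ := by
  have h := norm_join (proj x) (x (Fin.last m))
  rw [join_proj] at h
  exact abs_le_of_sq_le_sq' (by nlinarith [sq_nonneg (x (Fin.last m))]) (norm_nonneg _) |>.2

theorem measurePreserving_split :
    MeasurePreserving (fun x : EE (m + 1) => (x (Fin.last m), proj x)) volume volume := by
  have h1 : MeasurePreserving (WithLp.ofLp : EE (m + 1) → (Fin (m + 1) → ℝ)) volume volume :=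
    PiLp.volume_preserving_ofLp _
  have h2 := volume_preserving_piFinSuccAbove (fun _ : Fin (m + 1) => ℝ) (Fin.last m)
  have h3 : MeasurePreserving (WithLp.toLp 2 : (Fin m → ℝ) → EE m) volume volume :=
    PiLp.volume_preserving_toLp _
  have h4 := ((MeasurePreserving.id (volume : Measure ℝ)).prod h3).comp (h2.comp h1)
  have e : (fun x : EE (m + 1) => (x (Fin.last m), proj x)) =
      (Prod.map id (WithLp.toLp 2) ∘ ⇑(MeasurableEquiv.piFinSuccAbove (fun _ : Fin (m + 1) => ℝ)
        (Fin.last m)) ∘ WithLp.ofLp) := by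
    funext x
    refine Prod.ext rfl ?_
    ext j
    change x (Fin.castSucc j) = x ((Fin.last m).succAbove j)
    rw [Fin.succAbove_last]
  rw [e]
  exact h4

theorem lintegral_join {f : EE (m + 1) → ℝ≥0∞} (hf : Measurable f) :
    ∫⁻ x, f x = ∫⁻ y : EE m, ∫⁻ t : ℝ, f (join y t) := by
  have h1 : ∀ x : EE (m + 1), f x = (fun p : ℝ × EE m => f (join p.2 p.1)) (x (Fin.last m), proj x) := by
    intro x; simp [join_proj]
  have hm : Measurable (fun p : ℝ × EE m => f (join p.2 p.1)) :=
    hf.comp (continuous_join.measurable.comp measurable_swap)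
  calc ∫⁻ x, f x = ∫⁻ x : EE (m + 1), (fun p : ℝ × EE m => f (join p.2 p.1)) (x (Fin.last m), proj x) := by
        simp only [← h1]
    _ = ∫⁻ p : ℝ × EE m, f (join p.2 p.1) := measurePreserving_split.lintegral_comp hm
    _ = ∫⁻ y : EE m, ∫⁻ t : ℝ, f (join y t) := by
        rw [Measure.volume_eq_prod, lintegral_prod_symm _ hm.aemeasurable]

/-- The X-ray transform. -/
noncomputable def Rad (f : EE (m + 1) → ℝ≥0∞) (g : OG (m + 1)) (y : EE m) : ℝ≥0∞ :=
  ∫⁻ t : ℝ, f (actE (m + 1) g (join y t))

/-- The operator `R^* R`: averages of integrals over lines through `x`. -/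
noncomputable def KK (f : EE (m + 1) → ℝ≥0∞) (x : EE (m + 1)) : ℝ≥0∞ :=
  ∫⁻ g, (∫⁻ s : ℝ, f (x + s • actE (m + 1) g e0)) ∂(muO (m + 1))

theorem act_join_add (g : OG (m + 1)) (y : EE m) (t s : ℝ) :
    actE (m + 1) g (join y (t + s)) = actE (m + 1) g (join y t) + s • actE (m + 1) g e0 := by
  rw [join_add, map_add, map_smul]

theorem continuous_act_join :
    Continuous (fun p : OG (m + 1) × EE m × ℝ => actE (m + 1) p.1 (join p.2.1 p.2.2)) :=
  cont_act continuous_fst (continuous_join.comp continuous_snd)

theorem continuous_line :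
    Continuous (fun p : (EE (m + 1) × OG (m + 1)) × ℝ => p.1.1 + p.2 • actE (m + 1) p.1.2 e0) := by
  have h : Continuous (fun p : (EE (m + 1) × OG (m + 1)) × ℝ => actE (m + 1) p.1.2 e0) :=
    cont_act (continuous_snd.comp continuous_fst) continuous_const
  exact (continuous_fst.comp continuous_fst).add (continuous_snd.smul h)

theorem measurable_inner {f : EE (m + 1) → ℝ≥0∞} (hf : Measurable f) :
    Measurable (fun p : EE (m + 1) × OG (m + 1) => ∫⁻ s : ℝ, f (p.1 + s • actE (m + 1) p.2 e0)) :=
  Measurable.lintegral_prod_right' (f := fun p : (EE (m + 1) × OG (m + 1)) × ℝ =>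
    f (p.1.1 + p.2 • actE (m + 1) p.1.2 e0)) (hf.comp continuous_line.measurable)

theorem measurable_KK {f : EE (m + 1) → ℝ≥0∞} (hf : Measurable f) : Measurable (KK f) :=
  Measurable.lintegral_prod_right' (measurable_inner hf)

theorem measurable_Rad {f : EE (m + 1) → ℝ≥0∞} (hf : Measurable f) :
    Measurable (fun p : OG (m + 1) × EE m => Rad f p.1 p.2) := by
  unfold Rad
  apply Measurable.lintegral_prod_right' (f := fun p : (OG (m + 1) × EE m) × ℝ =>
    f (actE (m + 1) p.1.1 (join p.1.2 p.2)))
  exact hf.comp (continuous_act_join.measurable.comp (by fun_prop : Measurable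
    (fun p : (OG (m + 1) × EE m) × ℝ => (p.1.1, p.1.2, p.2))))

theorem lintegral_act {f : EE (m + 1) → ℝ≥0∞} (hf : Measurable f) (g : OG (m + 1)) :
    ∫⁻ x, f (actE (m + 1) g x) = ∫⁻ x, f x :=
  (actE (m + 1) g).measurePreserving.lintegral_comp hf

theorem energy {f h : EE (m + 1) → ℝ≥0∞} (hf : Measurable f) (hh : Measurable h) :
    ∫⁻ g, (∫⁻ y : EE m, Rad f g y * Rad h g y) ∂(muO (m + 1)) = ∫⁻ x, f x * KK h x := by
  have hI := measurable_inner hh
  have h1 : ∀ g : OG (m + 1), ∫⁻ y : EE m, Rad f g y * Rad h g y =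
      ∫⁻ x, f x * ∫⁻ s : ℝ, h (x + s • actE (m + 1) g e0) := by
    intro g
    have mF : Measurable (fun x : EE (m + 1) => f x * ∫⁻ s : ℝ, h (x + s • actE (m + 1) g e0)) :=
      hf.mul (hI.comp (measurable_id.prodMk measurable_const))
    have mg : Measurable (fun x : EE (m + 1) => actE (m + 1) g x) :=
      (cont_act continuous_const continuous_id).measurable
    rw [← lintegral_act mF g, lintegral_join (f := fun x => f (actE (m + 1) g x) *
      ∫⁻ s : ℝ, h (actE (m + 1) g x + s • actE (m + 1) g e0)) (mF.comp mg)]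
    congr 1
    ext y
    unfold Rad
    have mt : Measurable (fun t : ℝ => actE (m + 1) g (join y t)) :=
      (cont_act continuous_const (continuous_join.comp
        (continuous_const.prodMk continuous_id))).measurable
    have mft : Measurable (fun t : ℝ => f (actE (m + 1) g (join y t))) := hf.comp mt
    rw [← lintegral_mul_const _ mft]
    congr 1
    ext t
    congr 1
    rw [← lintegral_add_left_eq_self _ t]
    simp only [act_join_add]
  simp only [h1]
  unfold KK
  rw [lintegral_lintegral_swap]
  · congr 1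
    ext x
    have mI : Measurable (fun g : OG (m + 1) => ∫⁻ s : ℝ, h (x + s • actE (m + 1) g e0)) :=
      hI.comp (measurable_const.prodMk measurable_id)
    rw [lintegral_const_mul _ mI]
  · apply Measurable.aemeasurable
    exact (hf.comp measurable_snd).mul (hI.comp measurable_swap)

theorem adjoint {γ : OG (m + 1) × EE m → ℝ≥0∞} (hγ : Measurable γ) {f : EE (m + 1) → ℝ≥0∞}
    (hf : Measurable f) :
    ∫⁻ g, (∫⁻ y : EE m, γ (g, y) * Rad f g y) ∂(muO (m + 1)) =
      ∫⁻ x, f x * ∫⁻ g, γ (g, proj (actE (m + 1) g⁻¹ x)) ∂(muO (m + 1)) := by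
  have hc : Continuous (fun p : OG (m + 1) × EE (m + 1) => (p.1, proj (actE (m + 1) p.1⁻¹ p.2))) :=
    continuous_fst.prodMk (continuous_proj.comp (cont_act (continuous_inv.comp continuous_fst)
      continuous_snd))
  have hm : Measurable (fun p : OG (m + 1) × EE (m + 1) => γ (p.1, proj (actE (m + 1) p.1⁻¹ p.2))) :=
    hγ.comp hc.measurable
  have h1 : ∀ g : OG (m + 1), ∫⁻ y : EE m, γ (g, y) * Rad f g y =
      ∫⁻ x, f x * γ (g, proj (actE (m + 1) g⁻¹ x)) := by
    intro g
    have mF : Measurable (fun x : EE (m + 1) => f x * γ (g, proj (actE (m + 1) g⁻¹ x))) :=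
      hf.mul (hm.comp (measurable_const.prodMk measurable_id))
    have mg : Measurable (fun x : EE (m + 1) => actE (m + 1) g x) :=
      (cont_act continuous_const continuous_id).measurable
    rw [← lintegral_act mF g, lintegral_join (f := fun x => f (actE (m + 1) g x) *
      γ (g, proj (actE (m + 1) g⁻¹ (actE (m + 1) g x)))) (mF.comp mg)]
    congr 1
    ext y
    unfold Rad
    have mt : Measurable (fun t : ℝ => actE (m + 1) g (join y t)) :=
      (cont_act continuous_const (continuous_join.comp
        (continuous_const.prodMk continuous_id))).measurable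
    have mft : Measurable (fun t : ℝ => f (actE (m + 1) g (join y t))) := hf.comp mt
    rw [← lintegral_const_mul _ mft]
    congr 1
    ext t
    rw [act_inv, LinearIsometryEquiv.symm_apply_apply, proj_join, mul_comm]
  simp only [h1]
  rw [lintegral_lintegral_swap]
  · congr 1
    ext x
    have mI : Measurable (fun g : OG (m + 1) => γ (g, proj (actE (m + 1) g⁻¹ x))) :=
      hm.comp (measurable_id.prodMk measurable_const)
    rw [lintegral_const_mul _ mI]
  · apply Measurable.aemeasurable
    exact (hf.comp measurable_snd).mul hm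

end Pool.Agent.H68.Cap
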