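import Mathlib
import Pool.Agent.H68.C4Radon

open MeasureTheory Set
open scoped ENNReal

namespace Pool.Agent.H68.Cap

section radial

variable {E : Type*} [NormedAddCommGroup E] [NormedSpace ℝ E] [FiniteDimensional ℝ E]
  [Nontrivial E] [MeasurableSpace E] [BorelSpace E]

theorem lintegral_fun_norm (μ : Measure E) [μ.IsAddHaarMeasure] {F : ℝ → ℝ≥0∞} (hF : Measurable F) :
    ∫⁻ x, F ‖x‖ ∂μ = μ.toSphere univ *
      ∫⁻ r in Ioi (0 : ℝ), ENNReal.ofReal (r ^ (Module.finrank ℝ E - 1)) * F r := by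
  calc ∫⁻ x, F ‖x‖ ∂μ = ∫⁻ x : ({(0)}ᶜ : Set E), F ‖x.1‖ ∂(μ.comap (↑)) := by
        rw [lintegral_subtype_comap (measurableSet_singleton _).compl (fun x : E ↦ F (‖x‖)),
          restrict_compl_singleton]
    _ = ∫⁻ x, F x.2 ∂μ.toSphere.prod (.volumeIoiPow (Module.finrank ℝ E - 1)) := by
        have h := μ.measurePreserving_homeomorphUnitSphereProd.lintegral_comp_emb
          (Homeomorph.measurableEmbedding _) (fun p => F (p.2 : ℝ))
        simpa using h
    _ = μ.toSphere univ * ∫⁻ x : Ioi (0 : ℝ), F x ∂(.volumeIoiPow (Module.finrank ℝ E - 1)) := by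
        have hm : Measurable (fun x : (Metric.sphere (0 : E) 1) × (Ioi (0 : ℝ)) => F x.2) :=
          hF.comp (by fun_prop)
        have hm2 : Measurable (fun x : (Ioi (0 : ℝ)) => F x) := hF.comp (by fun_prop)
        rw [lintegral_prod_symm _ hm.aemeasurable]
        simp only [lintegral_const]
        rw [lintegral_mul_const _ hm2, mul_comm]
    _ = _ := by
        congr 1
        rw [Measure.volumeIoiPow, lintegral_withDensity_eq_lintegral_mul]
        · rw [← lintegral_subtype_comap measurableSet_Ioi]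
          rfl
        · exact (measurable_subtype_coe.pow_const _).ennreal_ofReal
        · exact hF.comp measurable_subtype_coe

end radial

variable {m : ℕ}

/-- The constant in the polar formula. -/
noncomputable def C1 (m : ℕ) : ℝ≥0∞ := (volume : Measure (EE (m + 1))).toSphere univ * uu (m + 1) 1

theorem C1_ne_zero : C1 m ≠ 0 := by
  unfold C1
  refine mul_ne_zero ?_ (uu_one_ne_zero _)
  rw [Measure.toSphere_apply_univ]
  refine mul_ne_zero ?_ (Metric.measure_ball_pos _ _ one_pos).ne'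
  simp

theorem C1_ne_top (hm : 1 ≤ m) : C1 m ≠ ∞ := by
  unfold C1
  refine ENNReal.mul_ne_top ?_ (uu_one_ne_top (by omega))
  exact measure_ne_top _ _

theorem avg_act {f : EE (m + 1) → ℝ≥0∞} (z : EE (m + 1)) :
    ∫⁻ g, f (actE (m + 1) g z) ∂(muO (m + 1)) =
      ∫⁻ g, f (‖z‖ • actE (m + 1) g e0) ∂(muO (m + 1)) := by
  obtain ⟨k, hk⟩ := act_trans (x := ‖z‖ • (e0 : EE (m + 1))) (y := z)
    (by rw [norm_smul, norm_e0, mul_one, norm_norm])
  rw [← lintegral_mul_right_eq_self (fun g => f (‖z‖ • actE (m + 1) g e0)) k]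
  congr 1
  ext g
  have h1 : ‖z‖ • actE (m + 1) (g * k) e0 = actE (m + 1) (g * k) (‖z‖ • e0) := (map_smul _ _ _).symm
  rw [h1, act_mul, hk]

theorem measurable_avg {f : EE (m + 1) → ℝ≥0∞} (hf : Measurable f) :
    Measurable (fun p : ℝ × OG (m + 1) => f (p.1 • actE (m + 1) p.2 e0)) :=
  hf.comp (continuous_fst.smul (cont_act continuous_snd continuous_const)).measurable

theorem polar {f : EE (m + 1) → ℝ≥0∞} (hf : Measurable f) :
    ∫⁻ z, f z * uu (m + 1) ‖z‖ =
      C1 m * ∫⁻ g, (∫⁻ r in Ioi (0 : ℝ), f (r • actE (m + 1) g e0)) ∂(muO (m + 1)) := by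
  have mu := measurable_uu (m + 1)
  have mfu : Measurable (fun z : EE (m + 1) => f z * uu (m + 1) ‖z‖) := hf.mul (mu.comp measurable_norm)
  have hA : ∀ g : OG (m + 1), ∫⁻ z, f (actE (m + 1) g z) * uu (m + 1) ‖z‖ =
      ∫⁻ z, f z * uu (m + 1) ‖z‖ := by
    intro g
    rw [← lintegral_act mfu g]
    simp only [LinearIsometryEquiv.norm_map]
  have hB : ∫⁻ z, f z * uu (m + 1) ‖z‖ =
      ∫⁻ z : EE (m + 1), (∫⁻ g, f (‖z‖ • actE (m + 1) g e0) ∂(muO (m + 1))) * uu (m + 1) ‖z‖ := by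
    have h1 : ∫⁻ z, f z * uu (m + 1) ‖z‖ =
        ∫⁻ g, (∫⁻ z, f (actE (m + 1) g z) * uu (m + 1) ‖z‖) ∂(muO (m + 1)) := by
      simp only [hA]
      rw [lintegral_const, measure_univ, mul_one]
    rw [h1, lintegral_lintegral_swap]
    · congr 1
      ext z
      rw [lintegral_mul_const, avg_act]
      exact hf.comp (cont_act continuous_id continuous_const).measurable
    · apply Measurable.aemeasurable
      have m1 : Measurable (fun p : OG (m + 1) × EE (m + 1) => f (actE (m + 1) p.1 p.2)) :=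
        hf.comp (cont_act continuous_fst continuous_snd).measurable
      exact m1.mul (mu.comp measurable_snd.norm)
  have mG : Measurable (fun r : ℝ => ∫⁻ g, f (r • actE (m + 1) g e0) ∂(muO (m + 1))) :=
    Measurable.lintegral_prod_right' (measurable_avg hf)
  rw [hB, lintegral_fun_norm volume (F := fun r => (∫⁻ g, f (r • actE (m + 1) g e0) ∂(muO (m + 1))) *
    uu (m + 1) r) (mG.mul mu)]
  have hC : ∀ r ∈ Ioi (0 : ℝ), ENNReal.ofReal (r ^ (Module.finrank ℝ (EE (m + 1)) - 1)) *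
      ((∫⁻ g, f (r • actE (m + 1) g e0) ∂(muO (m + 1))) * uu (m + 1) r) =
      uu (m + 1) 1 * ∫⁻ g, f (r • actE (m + 1) g e0) ∂(muO (m + 1)) := by
    intro r hr
    have h2 := uu_scale (d := m + 1) (by omega) hr
    rw [finrank_euclideanSpace_fin, ← h2]
    ring
  rw [setLIntegral_congr_fun measurableSet_Ioi hC, lintegral_const_mul _ mG, ← mul_assoc]
  unfold C1
  congr 1
  rw [lintegral_lintegral_swap]
  exact (measurable_avg hf).aemeasurable

theorem split_real {F : ℝ → ℝ≥0∞} :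
    ∫⁻ s, F s = (∫⁻ s in Ioi (0 : ℝ), F s) + ∫⁻ s in Ioi (0 : ℝ), F (-s) := by
  rw [← lintegral_add_compl F (measurableSet_Ioi (a := (0 : ℝ)))]
  congr 1
  rw [compl_Ioi, ← setLIntegral_congr (Iio_ae_eq_Iic (a := (0 : ℝ))), ← lintegral_indicator measurableSet_Iio,
    ← lintegral_indicator measurableSet_Ioi, ← lintegral_neg_eq_self]
  congr 1
  ext s
  by_cases hs : 0 < s
  · rw [indicator_of_mem (by simpa using hs), indicator_of_mem (by simpa using hs)]
  · rw [indicator_of_notMem (by simpa using hs), indicator_of_notMem (by simpa using hs)]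

theorem KK_eq {f : EE (m + 1) → ℝ≥0∞} (hf : Measurable f) (x : EE (m + 1)) :
    C1 m * KK f x = 2 * ∫⁻ z, f (x + z) * uu (m + 1) ‖z‖ := by
  obtain ⟨k, hk⟩ := act_trans (x := (e0 : EE (m + 1))) (y := -e0) (by rw [norm_neg])
  have mf : Measurable (fun z : EE (m + 1) => f (x + z)) := hf.comp (by fun_prop)
  have hneg : ∫⁻ g, (∫⁻ s in Ioi (0 : ℝ), f (x + (-s) • actE (m + 1) g e0)) ∂(muO (m + 1)) =
      ∫⁻ g, (∫⁻ s in Ioi (0 : ℝ), f (x + s • actE (m + 1) g e0)) ∂(muO (m + 1)) := by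
    rw [← lintegral_mul_right_eq_self (fun g : OG (m + 1) =>
      ∫⁻ s in Ioi (0 : ℝ), f (x + s • actE (m + 1) g e0)) k]
    simp only [act_mul, hk, map_neg, smul_neg, neg_smul]
  have hI : Measurable (fun g : OG (m + 1) => ∫⁻ s in Ioi (0 : ℝ), f (x + s • actE (m + 1) g e0)) := by
    apply Measurable.lintegral_prod_right' (f := fun p : OG (m + 1) × ℝ =>
      f (x + p.2 • actE (m + 1) p.1 e0))
    exact hf.comp (continuous_const.add (continuous_snd.smul
      (cont_act continuous_fst continuous_const))).measurable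
  unfold KK
  simp only [split_real (F := fun s => f (x + s • actE (m + 1) _ e0))]
  rw [lintegral_add_left hI, hneg, polar mf]
  ring

/-- Convolution with the kernel `w`, rescaled by `lam`. -/
noncomputable def cv (lam : ℝ) (f : EE (m + 1) → ℝ≥0∞) (x : EE (m + 1)) : ℝ≥0∞ :=
  ∫⁻ z : EE (m + 1), ww (m + 1) ‖z‖ * f (x + lam⁻¹ • z)

theorem measurable_cv {lam : ℝ} {f : EE (m + 1) → ℝ≥0∞} (hf : Measurable f) : Measurable (cv lam f) := by
  apply Measurable.lintegral_prod_right' (f := fun p : EE (m + 1) × EE (m + 1) =>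
    ww (m + 1) ‖p.2‖ * f (p.1 + lam⁻¹ • p.2))
  exact ((measurable_ww _).comp measurable_snd.norm).mul (hf.comp (by fun_prop))

theorem KW_one {f : EE (m + 1) → ℝ≥0∞} (hf : Measurable f) (x : EE (m + 1)) :
    C1 m * KK f x = C1 m * cv 1 (KK f) x + 2 * cv 1 f x := by
  have mw := measurable_ww (m + 1)
  have mu := measurable_uu (m + 1)
  have hk : ∀ z : EE (m + 1), uu (m + 1) ‖z‖ =
      (∫⁻ y : EE (m + 1), ww (m + 1) ‖z - y‖ * uu (m + 1) ‖y‖) + ww (m + 1) ‖z‖ := by
    intro z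
    have := kernel_identity z
    rw [finrank_euclideanSpace_fin] at this
    exact this.symm
  have m1 : Measurable (fun z : EE (m + 1) => f (x + z) * ww (m + 1) ‖z‖) :=
    (hf.comp (by fun_prop)).mul (mw.comp measurable_norm)
  have m2 : Measurable (fun p : EE (m + 1) × EE (m + 1) =>
      f (x + p.1) * (ww (m + 1) ‖p.1 - p.2‖ * uu (m + 1) ‖p.2‖)) :=
    (hf.comp (by fun_prop)).mul ((mw.comp (by fun_prop)).mul (mu.comp (by fun_prop)))
  have h1 : ∫⁻ z, f (x + z) * uu (m + 1) ‖z‖ =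
      (∫⁻ z : EE (m + 1), ∫⁻ y : EE (m + 1), f (x + z) * (ww (m + 1) ‖z - y‖ * uu (m + 1) ‖y‖)) +
        ∫⁻ z : EE (m + 1), f (x + z) * ww (m + 1) ‖z‖ := by
    rw [← lintegral_add_right _ m1]
    congr 1
    ext z
    rw [hk z, mul_add, lintegral_const_mul]
    exact (mw.comp (by fun_prop)).mul (mu.comp (by fun_prop))
  have h2 : ∫⁻ z : EE (m + 1), ∫⁻ y : EE (m + 1), f (x + z) * (ww (m + 1) ‖z - y‖ * uu (m + 1) ‖y‖) =
      ∫⁻ z : EE (m + 1), ww (m + 1) ‖z‖ * ∫⁻ y : EE (m + 1), f (x + z + y) * uu (m + 1) ‖y‖ := by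
    rw [lintegral_lintegral_swap m2.aemeasurable]
    have e1 : ∀ y : EE (m + 1), ∫⁻ z : EE (m + 1), f (x + z) * (ww (m + 1) ‖z - y‖ * uu (m + 1) ‖y‖) =
        ∫⁻ z : EE (m + 1), f (x + (z + y)) * (ww (m + 1) ‖z‖ * uu (m + 1) ‖y‖) := by
      intro y
      rw [← lintegral_add_right_eq_self _ y]
      simp only [add_sub_cancel_right]
    simp only [e1]
    have m3 : Measurable (fun p : EE (m + 1) × EE (m + 1) =>
        f (x + (p.2 + p.1)) * (ww (m + 1) ‖p.2‖ * uu (m + 1) ‖p.1‖)) :=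
      (hf.comp (by fun_prop)).mul ((mw.comp (by fun_prop)).mul (mu.comp (by fun_prop)))
    rw [lintegral_lintegral_swap m3.aemeasurable]
    congr 1
    ext z
    rw [← lintegral_const_mul]
    · congr 1
      ext y
      rw [add_assoc]
      ring
    · exact (hf.comp (by fun_prop)).mul (mu.comp (by fun_prop))
  rw [KK_eq hf, h1, h2, mul_add]
  congr 1
  · unfold cv
    rw [← lintegral_const_mul, ← lintegral_const_mul]
    · congr 1
      ext z
      rw [inv_one, one_smul, mul_left_comm, ← KK_eq hf (x + z)]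
      ring
    · exact (mw.comp measurable_norm).mul ((measurable_KK hf).comp (by fun_prop))
    · apply Measurable.mul (mw.comp measurable_norm)
      apply Measurable.lintegral_prod_right' (f := fun p : EE (m + 1) × EE (m + 1) =>
        f (x + p.1 + p.2) * uu (m + 1) ‖p.2‖)
      exact (hf.comp (by fun_prop)).mul (mu.comp (by fun_prop))
  · unfold cv
    congr 2
    ext z
    rw [inv_one, one_smul, mul_comm]

theorem lintegral_scale {lam : ℝ} (hl : 0 < lam) {F : ℝ → ℝ≥0∞} (hF : Measurable F) :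
    ∫⁻ s, F (lam⁻¹ * s) = ENNReal.ofReal lam * ∫⁻ s, F s := by
  have h := Real.map_volume_mul_left (a := lam⁻¹) (by positivity)
  have h2 : ∫⁻ s, F s ∂(Measure.map (lam⁻¹ * ·) volume) = ∫⁻ s, F (lam⁻¹ * s) :=
    lintegral_map hF (by fun_prop)
  rw [← h2, h, lintegral_smul_measure, inv_inv, abs_of_pos hl, smul_eq_mul]

/-- The constant in the scaled kernel identity. -/
noncomputable def LL (m : ℕ) (lam : ℝ) : ℝ≥0∞ := C1 m * ENNReal.ofReal lam / 2

theorem LL_ne_zero {lam : ℝ} (hl : 0 < lam) : LL m lam ≠ 0 := by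
  unfold LL
  rw [ENNReal.div_eq_inv_mul]
  refine mul_ne_zero (by simp) (mul_ne_zero C1_ne_zero ?_)
  simpa using hl

theorem LL_ne_top (hm : 1 ≤ m) (lam : ℝ) : LL m lam ≠ ∞ := by
  unfold LL
  exact ENNReal.div_ne_top (ENNReal.mul_ne_top (C1_ne_top hm) ENNReal.ofReal_ne_top) (by simp)

theorem KK_scale {lam : ℝ} (hl : 0 < lam) {f : EE (m + 1) → ℝ≥0∞} (hf : Measurable f)
    (x : EE (m + 1)) :
    KK (fun y => f (lam⁻¹ • y)) (lam • x) = ENNReal.ofReal lam * KK f x := by
  unfold KK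
  have hI : Measurable (fun g : OG (m + 1) => ∫⁻ s : ℝ, f (x + s • actE (m + 1) g e0)) :=
    (measurable_inner hf).comp (measurable_const.prodMk measurable_id)
  rw [← lintegral_const_mul _ hI]
  congr 1
  ext g
  rw [← lintegral_scale hl (F := fun s => f (x + s • actE (m + 1) g e0))]
  · congr 1
    ext s
    beta_reduce
    congr 1
    rw [smul_add, smul_smul, inv_mul_cancel₀ hl.ne', one_smul, smul_smul]
  · exact hf.comp (by fun_prop)

theorem KW {lam : ℝ} (hl : 0 < lam) {f : EE (m + 1) → ℝ≥0∞} (hf : Measurable f) (x : EE (m + 1)) :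
    LL m lam * KK f x = LL m lam * cv lam (KK f) x + cv lam f x := by
  have mF : Measurable (fun y : EE (m + 1) => f (lam⁻¹ • y)) := hf.comp (by fun_prop)
  have h := KW_one mF (lam • x)
  rw [KK_scale hl hf] at h
  have e1 : cv 1 (fun y : EE (m + 1) => f (lam⁻¹ • y)) (lam • x) = cv lam f x := by
    unfold cv
    congr 1
    ext z
    beta_reduce
    congr 2
    rw [inv_one, one_smul, smul_add, smul_smul, inv_mul_cancel₀ hl.ne', one_smul]
  have e2 : cv 1 (KK (fun y : EE (m + 1) => f (lam⁻¹ • y))) (lam • x) =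
      ENNReal.ofReal lam * cv lam (KK f) x := by
    unfold cv
    rw [← lintegral_const_mul]
    · congr 1
      ext z
      have : lam • x + (1 : ℝ)⁻¹ • z = lam • (x + lam⁻¹ • z) := by
        rw [inv_one, one_smul, smul_add, smul_smul, mul_inv_cancel₀ hl.ne', one_smul]
      rw [this, KK_scale hl hf]
      ring
    · exact ((measurable_ww _).comp measurable_norm).mul ((measurable_KK hf).comp (by fun_prop))
  rw [e1, e2] at h
  unfold LL
  have h2 : (2 : ℝ≥0∞)⁻¹ * 2 = 1 := ENNReal.inv_mul_cancel (by simp) (by simp)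
  calc C1 m * ENNReal.ofReal lam / 2 * KK f x
      = 2⁻¹ * (C1 m * (ENNReal.ofReal lam * KK f x)) := by rw [ENNReal.div_eq_inv_mul]; ring
    _ = 2⁻¹ * (C1 m * (ENNReal.ofReal lam * cv lam (KK f) x) + 2 * cv lam f x) := by rw [h]
    _ = 2⁻¹ * (C1 m * (ENNReal.ofReal lam * cv lam (KK f) x)) + (2⁻¹ * 2) * cv lam f x := by ring
    _ = _ := by rw [h2, one_mul, ENNReal.div_eq_inv_mul]; ring

end Pool.Agent.H68.Cap
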