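import Mathlib
import Pool.Agent.H68.C5Polar

open MeasureTheory Set
open scoped ENNReal

namespace Pool.Agent.H68.Cap

variable {m : ℕ}

/-- The pairing of two nonnegative functions. -/
noncomputable def ip (f h : EE (m + 1) → ℝ≥0∞) : ℝ≥0∞ := ∫⁻ x, f x * h x

theorem ip_comm (f h : EE (m + 1) → ℝ≥0∞) : ip f h = ip h f := by
  unfold ip; simp only [mul_comm]

theorem ip_mono {f f' h h' : EE (m + 1) → ℝ≥0∞} (hf : ∀ x, f x ≤ f' x) (hh : ∀ x, h x ≤ h' x) :
    ip f h ≤ ip f' h' := lintegral_mono fun x => mul_le_mul' (hf x) (hh x)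

theorem cv_swap {lam : ℝ} {f h : EE (m + 1) → ℝ≥0∞} (hf : Measurable f) (hh : Measurable h) :
    ip f (cv lam h) = ∫⁻ z : EE (m + 1), ∫⁻ x, ww (m + 1) ‖z‖ * (f x * h (x + lam⁻¹ • z)) := by
  have mw := measurable_ww (m + 1)
  unfold ip cv
  have e : ∀ x, f x * ∫⁻ z : EE (m + 1), ww (m + 1) ‖z‖ * h (x + lam⁻¹ • z) =
      ∫⁻ z : EE (m + 1), ww (m + 1) ‖z‖ * (f x * h (x + lam⁻¹ • z)) := by
    intro x
    rw [← lintegral_const_mul]
    · congr 1; ext z; ring
    · exact (mw.comp measurable_norm).mul (hh.comp (by fun_prop))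
  simp only [e]
  rw [lintegral_lintegral_swap]
  apply Measurable.aemeasurable
  exact (mw.comp measurable_snd.norm).mul ((hf.comp measurable_fst).mul (hh.comp (by fun_prop)))

theorem cv_symm {lam : ℝ} {f h : EE (m + 1) → ℝ≥0∞} (hf : Measurable f) (hh : Measurable h) :
    ip f (cv lam h) = ip (cv lam f) h := by
  rw [ip_comm (cv lam f), cv_swap hf hh, cv_swap hh hf, ← lintegral_neg_eq_self]
  congr 1
  ext z
  rw [← lintegral_add_right_eq_self _ (lam⁻¹ • z)]
  congr 1
  ext x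
  rw [norm_neg, smul_neg, add_neg_cancel_right]
  ring

theorem measurable_tri {f : EE (m + 1) → ℝ≥0∞} (hf : Measurable f) (lam : ℝ) (x : EE (m + 1)) :
    Measurable (fun p : (OG (m + 1) × EE (m + 1)) × ℝ =>
      f (x + lam⁻¹ • p.1.2 + p.2 • actE (m + 1) p.1.1 e0)) := by
  have h : Continuous (fun p : (OG (m + 1) × EE (m + 1)) × ℝ => actE (m + 1) p.1.1 e0) :=
    cont_act (continuous_fst.comp continuous_fst) continuous_const
  exact hf.comp (((continuous_const.add ((continuous_snd.comp continuous_fst).const_smul lam⁻¹)).add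
    (continuous_snd.smul h))).measurable

theorem KK_cv {lam : ℝ} {f : EE (m + 1) → ℝ≥0∞} (hf : Measurable f) (x : EE (m + 1)) :
    KK (cv lam f) x = cv lam (KK f) x := by
  have mw := measurable_ww (m + 1)
  have mt := measurable_tri hf lam x
  have mi : Measurable (fun p : OG (m + 1) × EE (m + 1) =>
      ∫⁻ s : ℝ, f (x + lam⁻¹ • p.2 + s • actE (m + 1) p.1 e0)) :=
    Measurable.lintegral_prod_right' mt
  have e1 : ∀ g : OG (m + 1), ∫⁻ s : ℝ, cv lam f (x + s • actE (m + 1) g e0) =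
      ∫⁻ z : EE (m + 1), ww (m + 1) ‖z‖ * ∫⁻ s : ℝ, f (x + lam⁻¹ • z + s • actE (m + 1) g e0) := by
    intro g
    unfold cv
    rw [lintegral_lintegral_swap]
    · congr 1
      ext z
      rw [lintegral_const_mul]
      · congr 2
        ext s
        congr 1
        abel
      · exact hf.comp (by fun_prop)
    · apply Measurable.aemeasurable
      exact (mw.comp measurable_snd.norm).mul (hf.comp (by fun_prop))
  have mi2 : ∀ z : EE (m + 1), Measurable (fun g : OG (m + 1) =>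
      ∫⁻ s : ℝ, f (x + lam⁻¹ • z + s • actE (m + 1) g e0)) := fun z =>
    (measurable_inner hf).comp (measurable_const.prodMk measurable_id)
  unfold KK
  simp only [e1]
  rw [lintegral_lintegral_swap]
  · unfold cv
    congr 1
    ext z
    rw [lintegral_const_mul _ (mi2 z)]
  · apply Measurable.aemeasurable
    exact (mw.comp measurable_snd.norm).mul mi

theorem KK_symm {f h : EE (m + 1) → ℝ≥0∞} (hf : Measurable f) (hh : Measurable h) :
    ip f (KK h) = ip (KK f) h := by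
  rw [ip_comm (KK f)]
  unfold ip
  rw [← energy hf hh, ← energy hh hf]
  congr 1
  ext g
  congr 1
  ext y
  ring

/-- The adjoint of the X-ray transform. -/
noncomputable def adj (γ : OG (m + 1) → EE m → ℝ≥0∞) (x : EE (m + 1)) : ℝ≥0∞ :=
  ∫⁻ g, γ g (proj (actE (m + 1) g⁻¹ x)) ∂(muO (m + 1))

theorem measurable_adj_aux {γ : OG (m + 1) → EE m → ℝ≥0∞}
    (hγ : Measurable (fun p : OG (m + 1) × EE m => γ p.1 p.2)) :
    Measurable (fun p : EE (m + 1) × OG (m + 1) => γ p.2 (proj (actE (m + 1) p.2⁻¹ p.1))) := by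
  have hc : Continuous (fun p : EE (m + 1) × OG (m + 1) => (p.2, proj (actE (m + 1) p.2⁻¹ p.1))) :=
    continuous_snd.prodMk (continuous_proj.comp (cont_act (continuous_inv.comp continuous_snd)
      continuous_fst))
  exact hγ.comp hc.measurable

theorem measurable_adj {γ : OG (m + 1) → EE m → ℝ≥0∞}
    (hγ : Measurable (fun p : OG (m + 1) × EE m => γ p.1 p.2)) : Measurable (adj γ) :=
  Measurable.lintegral_prod_right' (measurable_adj_aux hγ)

/-- The double pairing. -/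
noncomputable def dp (γ δ : OG (m + 1) → EE m → ℝ≥0∞) : ℝ≥0∞ :=
  ∫⁻ g, (∫⁻ y : EE m, γ g y * δ g y) ∂(muO (m + 1))

theorem sq_ineq (c a b : ℝ≥0∞) : 2 * (c * a) + 2 * (a * b) ≤ c * c + a * a + b * b + 2 * (c * b) := by
  by_cases hc : c = ∞
  · rw [hc]; simp
  by_cases ha : a = ∞
  · rw [ha]; simp
  by_cases hb : b = ∞
  · rw [hb]; simp
  lift c to NNReal using hc
  lift a to NNReal using ha
  lift b to NNReal using hb
  norm_cast
  rw [← NNReal.coe_le_coe]
  push_cast
  nlinarith [sq_nonneg ((c : ℝ) - a + b)]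

theorem sq_ineq2 (a b : ℝ≥0∞) : 2 * (a * b) ≤ a * a + b * b := by
  have := sq_ineq 0 a b
  simpa using this

theorem dp_eq {a b : OG (m + 1) → EE m → ℝ≥0∞}
    (ha : Measurable (fun p : OG (m + 1) × EE m => a p.1 p.2))
    (hb : Measurable (fun p : OG (m + 1) × EE m => b p.1 p.2)) :
    dp a b = ∫⁻ p : OG (m + 1) × EE m, a p.1 p.2 * b p.1 p.2 ∂((muO (m + 1)).prod volume) := by
  have hab : Measurable (fun p : OG (m + 1) × EE m => a p.1 p.2 * b p.1 p.2) := ha.mul hb
  unfold dp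
  rw [lintegral_prod _ hab.aemeasurable]

theorem sq_ineq_int {X : Type*} [MeasurableSpace X] (M : Measure X) {c a b : X → ℝ≥0∞}
    (hc : Measurable c) (ha : Measurable a) (hb : Measurable b) :
    2 * ∫⁻ p, c p * a p ∂M + 2 * ∫⁻ p, a p * b p ∂M ≤
      ∫⁻ p, c p * c p ∂M + ∫⁻ p, a p * a p ∂M + ∫⁻ p, b p * b p ∂M + 2 * ∫⁻ p, c p * b p ∂M := by
  have hca : Measurable fun p => c p * a p := hc.mul ha
  have hab : Measurable fun p => a p * b p := ha.mul hb
  have hcc : Measurable fun p => c p * c p := hc.mul hc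
  have haa : Measurable fun p => a p * a p := ha.mul ha
  have hbb : Measurable fun p => b p * b p := hb.mul hb
  have hcb : Measurable fun p => c p * b p := hc.mul hb
  have s1 : Measurable fun p => 2 * (c p * a p) := hca.const_mul 2
  have s2 : Measurable fun p => c p * c p + a p * a p := hcc.add haa
  have s3 : Measurable fun p => c p * c p + a p * a p + b p * b p := s2.add hbb
  have h1 : 2 * ∫⁻ p, c p * a p ∂M + 2 * ∫⁻ p, a p * b p ∂M =
      ∫⁻ p, (2 * (c p * a p) + 2 * (a p * b p)) ∂M := by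
    rw [lintegral_add_left s1, lintegral_const_mul _ hca, lintegral_const_mul _ hab]
  have h2 : ∫⁻ p, c p * c p ∂M + ∫⁻ p, a p * a p ∂M + ∫⁻ p, b p * b p ∂M + 2 * ∫⁻ p, c p * b p ∂M =
      ∫⁻ p, (c p * c p + a p * a p + b p * b p + 2 * (c p * b p)) ∂M := by
    rw [lintegral_add_left s3, lintegral_add_left s2, lintegral_add_left hcc,
      lintegral_const_mul _ hcb]
  rw [h1, h2]
  exact lintegral_mono fun p => sq_ineq _ _ _

theorem sq_ineq2_int {X : Type*} [MeasurableSpace X] (M : Measure X) {a b : X → ℝ≥0∞}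
    (ha : Measurable a) (hb : Measurable b) :
    2 * ∫⁻ p, a p * b p ∂M ≤ ∫⁻ p, a p * a p ∂M + ∫⁻ p, b p * b p ∂M := by
  have h := sq_ineq_int M (c := fun _ => 0) measurable_const ha hb
  simpa using h

theorem dp_ineq {γ α β : OG (m + 1) → EE m → ℝ≥0∞}
    (hγ : Measurable (fun p : OG (m + 1) × EE m => γ p.1 p.2))
    (hα : Measurable (fun p : OG (m + 1) × EE m => α p.1 p.2))
    (hβ : Measurable (fun p : OG (m + 1) × EE m => β p.1 p.2)) :
    2 * dp γ α + 2 * dp α β ≤ dp γ γ + dp α α + dp β β + 2 * dp γ β := by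
  rw [dp_eq hγ hα, dp_eq hα hβ, dp_eq hγ hγ, dp_eq hα hα, dp_eq hβ hβ, dp_eq hγ hβ]
  exact sq_ineq_int _ hγ hα hβ

theorem dp_adj {γ : OG (m + 1) → EE m → ℝ≥0∞}
    (hγ : Measurable (fun p : OG (m + 1) × EE m => γ p.1 p.2)) {f : EE (m + 1) → ℝ≥0∞}
    (hf : Measurable f) (L : ℝ≥0∞) :
    dp γ (fun g y => L * Rad f g y) = L * ip (adj γ) f := by
  have mR := measurable_Rad hf
  have m1 : Measurable (fun p : OG (m + 1) × EE m => γ p.1 p.2 * Rad f p.1 p.2) := hγ.mul mR
  have h := adjoint hγ hf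
  rw [ip_comm]
  unfold ip adj dp
  rw [← h, ← lintegral_const_mul _ (Measurable.lintegral_prod_right' m1)]
  congr 1
  ext g
  rw [← lintegral_const_mul]
  · congr 1; ext y; ring
  · exact m1.comp (measurable_const.prodMk measurable_id)

theorem dp_Rad {f h : EE (m + 1) → ℝ≥0∞} (hf : Measurable f) (hh : Measurable h) (L : ℝ≥0∞) :
    dp (fun g y => L * Rad f g y) (fun g y => L * Rad h g y) = L * (L * ip f (KK h)) := by
  have mf := measurable_Rad hf
  have mh := measurable_Rad hh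
  have m1 : Measurable (fun p : OG (m + 1) × EE m => Rad f p.1 p.2 * Rad h p.1 p.2) := mf.mul mh
  have e := energy hf hh
  unfold ip dp
  rw [← e, ← mul_assoc, ← lintegral_const_mul _ (Measurable.lintegral_prod_right' m1)]
  congr 1
  ext g
  rw [← lintegral_const_mul]
  · congr 1; ext y; ring
  · exact m1.comp (measurable_const.prodMk measurable_id)

theorem ip_KW {lam : ℝ} (hl : 0 < lam) {f h : EE (m + 1) → ℝ≥0∞} (hf : Measurable f)
    (hh : Measurable h) :
    LL m lam * ip f (KK h) = LL m lam * ip f (KK (cv lam h)) + ip f (cv lam h) := by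
  have mk := measurable_KK hh
  have mc := measurable_cv (lam := lam) hh
  have mkc := measurable_KK mc
  unfold ip
  rw [← lintegral_const_mul (f := fun x => f x * KK h x) _ (hf.mul mk),
    ← lintegral_const_mul (f := fun x => f x * KK (cv lam h) x) _ (hf.mul mkc),
    ← lintegral_add_right (g := fun x => f x * cv lam h x) _ (hf.mul mc)]
  congr 1
  ext x
  have e := KW hl hh x
  rw [← KK_cv hh] at e
  rw [mul_left_comm, e]
  ring

theorem KK_cv_le {lam : ℝ} (hm : 1 ≤ m) (hl : 0 < lam) {f : EE (m + 1) → ℝ≥0∞} (hf : Measurable f)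
    (x : EE (m + 1)) : KK (cv lam f) x ≤ KK f x := by
  have e := KW hl hf x
  rw [← KK_cv hf] at e
  have h2 : LL m lam * KK (cv lam f) x ≤ LL m lam * KK f x := by rw [e]; exact le_self_add
  exact (ENNReal.mul_le_mul_iff_right (LL_ne_zero hl) (LL_ne_top hm lam)).mp h2

theorem star {lam : ℝ} (hm : 1 ≤ m) (hl : 0 < lam) {ψ : EE (m + 1) → ℝ≥0∞} (hψ : Measurable ψ)
    (hfin : ip ψ (KK ψ) ≠ ∞) {γ : OG (m + 1) → EE m → ℝ≥0∞}
    (hγ : Measurable (fun p : OG (m + 1) × EE m => γ p.1 p.2)) :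
    2 * (LL m lam * ip (adj γ) ψ) + LL m lam * ip (cv lam ψ) (cv lam ψ) ≤
      dp γ γ + LL m lam * ip ψ (cv lam ψ) + 2 * (LL m lam * ip (adj γ) (cv lam ψ)) := by
  set L := LL m lam with hL
  have L0 : L ≠ 0 := LL_ne_zero hl
  have Lt : L ≠ ∞ := LL_ne_top hm lam
  have mc := measurable_cv (lam := lam) hψ
  have mRψ := measurable_Rad hψ
  have mRc := measurable_Rad mc
  have h := dp_ineq (γ := γ) (α := fun g y => L * Rad ψ g y) (β := fun g y => L * Rad (cv lam ψ) g y)
    hγ (mRψ.const_mul L) (mRc.const_mul L)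
  rw [dp_adj hγ hψ, dp_adj hγ mc, dp_Rad hψ mc, dp_Rad hψ hψ, dp_Rad mc mc] at h
  have k1 := ip_KW hl hψ hψ
  have k2 := ip_KW hl hψ mc
  have k3 : ip ψ (KK (cv lam (cv lam ψ))) = ip (cv lam ψ) (KK (cv lam ψ)) := by
    have : KK (cv lam (cv lam ψ)) = cv lam (KK (cv lam ψ)) := by
      ext x; exact KK_cv mc x
    rw [this, cv_symm hψ (measurable_KK mc)]
  have k4 : ip ψ (cv lam (cv lam ψ)) = ip (cv lam ψ) (cv lam ψ) := cv_symm hψ mc
  rw [k3, k4] at k2
  rw [← hL] at k1 k2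
  have fT : ip ψ (KK (cv lam ψ)) ≠ ∞ :=
    ne_top_of_le_ne_top hfin (ip_mono (fun _ => le_rfl) (KK_cv_le hm hl hψ))
  have fB : L * (L * ip (cv lam ψ) (KK (cv lam ψ))) ≠ ∞ := by
    apply ENNReal.mul_ne_top Lt
    refine ne_top_of_le_ne_top (ENNReal.mul_ne_top Lt fT) ?_
    rw [k2]; exact le_self_add
  have fT2 : L * (L * ip ψ (KK (cv lam ψ))) ≠ ∞ :=
    ENNReal.mul_ne_top Lt (ENNReal.mul_ne_top Lt fT)
  set X := ip (adj γ) ψ
  set W := ip (adj γ) (cv lam ψ)
  set Y := ip ψ (cv lam ψ)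
  set Z := ip (cv lam ψ) (cv lam ψ)
  set T := ip ψ (KK (cv lam ψ))
  set B := ip (cv lam ψ) (KK (cv lam ψ))
  rw [k1] at h
  have e1 : 2 * (L * X) + 2 * (L * (L * T)) =
      (2 * (L * X) + L * Z) + (L * (L * T) + L * (L * B)) := by
    rw [two_mul (L * (L * T))]
    nth_rewrite 1 [k2]
    ring
  have e2 : dp γ γ + L * (L * T + Y) + L * (L * B) + 2 * (L * W) =
      (dp γ γ + L * Y + 2 * (L * W)) + (L * (L * T) + L * (L * B)) := by ring
  rw [e1, e2] at h
  exact (ENNReal.add_le_add_iff_right (ENNReal.add_ne_top.mpr ⟨fT2, fB⟩)).mp h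

end Pool.Agent.H68.Cap
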