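import Mathlib
import Pool.Agent.H68.C6Ops

open MeasureTheory Set
open scoped ENNReal

namespace Pool.Agent.H68.Cap

variable {m : ℕ}

theorem lintegral_wwE : ∫⁻ z : EE (m + 1), ww (m + 1) ‖z‖ = 1 := by
  have h := lintegral_ww (V := EE (m + 1))
  rwa [finrank_euclideanSpace_fin] at h

theorem measurable_wwn : Measurable (fun z : EE (m + 1) => ww (m + 1) ‖z‖) :=
  (measurable_ww _).comp measurable_norm

theorem cv_le {lam : ℝ} {f : EE (m + 1) → ℝ≥0∞} {c : ℝ≥0∞} (hf : ∀ x, f x ≤ c) (x : EE (m + 1)) :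
    cv lam f x ≤ c := by
  unfold cv
  calc ∫⁻ z : EE (m + 1), ww (m + 1) ‖z‖ * f (x + lam⁻¹ • z)
      ≤ ∫⁻ z : EE (m + 1), ww (m + 1) ‖z‖ * c := lintegral_mono fun z => mul_le_mul' le_rfl (hf _)
    _ = c := by
      rw [lintegral_mul_const _ measurable_wwn, lintegral_wwE, one_mul]

theorem lintegral_cv {lam : ℝ} {f : EE (m + 1) → ℝ≥0∞} (hf : Measurable f) :
    ∫⁻ x, cv lam f x = ∫⁻ x, f x := by
  have h := cv_swap (lam := lam) (f := fun _ => 1) (h := f) measurable_const hf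
  unfold ip at h
  simp only [one_mul] at h
  rw [h]
  have e : ∀ z : EE (m + 1), ∫⁻ x, ww (m + 1) ‖z‖ * f (x + lam⁻¹ • z) =
      ww (m + 1) ‖z‖ * ∫⁻ x, f x := by
    intro z
    rw [lintegral_const_mul]
    · rw [lintegral_add_right_eq_self]
    · exact hf.comp (by fun_prop)
  simp only [e]
  rw [lintegral_mul_const _ measurable_wwn, lintegral_wwE, one_mul]

/-- Test functions. -/
structure Nice (ψ : EE (m + 1) → ℝ≥0∞) : Prop where
  meas : Measurable ψ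
  le_one : ∀ x, ψ x ≤ 1
  fin : ∫⁻ x, ψ x ≠ ∞
  kfin : ip ψ (KK ψ) ≠ ∞

theorem Nice.S_fin {ψ : EE (m + 1) → ℝ≥0∞} (h : Nice ψ) : ip ψ ψ ≠ ∞ := by
  refine ne_top_of_le_ne_top h.fin ?_
  exact lintegral_mono fun x => by
    calc ψ x * ψ x ≤ ψ x * 1 := mul_le_mul' le_rfl (h.le_one x)
      _ = ψ x := mul_one _

theorem Nice.Y_fin {ψ : EE (m + 1) → ℝ≥0∞} (h : Nice ψ) (lam : ℝ) : ip ψ (cv lam ψ) ≠ ∞ := by
  refine ne_top_of_le_ne_top h.fin ?_
  exact lintegral_mono fun x => by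
    calc ψ x * cv lam ψ x ≤ ψ x * 1 := mul_le_mul' le_rfl (cv_le h.le_one x)
      _ = ψ x := mul_one _

theorem Nice.Z_fin {ψ : EE (m + 1) → ℝ≥0∞} (h : Nice ψ) (lam : ℝ) :
    ip (cv lam ψ) (cv lam ψ) ≠ ∞ := by
  have : ∫⁻ x, cv lam ψ x ≠ ∞ := by rw [lintegral_cv h.meas]; exact h.fin
  refine ne_top_of_le_ne_top this ?_
  exact lintegral_mono fun x => by
    calc cv lam ψ x * cv lam ψ x ≤ cv lam ψ x * 1 := mul_le_mul' le_rfl (cv_le h.le_one x)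
      _ = cv lam ψ x := mul_one _

theorem Nice.two_Y {ψ : EE (m + 1) → ℝ≥0∞} (h : Nice ψ) (lam : ℝ) :
    2 * ip ψ (cv lam ψ) ≤ ip ψ ψ + ip (cv lam ψ) (cv lam ψ) :=
  sq_ineq2_int volume h.meas (measurable_cv h.meas)

theorem S1 {lam : ℝ} (hm : 1 ≤ m) (hl : 0 < lam) {ψ θ : EE (m + 1) → ℝ≥0∞} (hψ : Nice ψ)
    {γ : OG (m + 1) → EE m → ℝ≥0∞}
    (hγ : Measurable (fun p : OG (m + 1) × EE m => γ p.1 p.2)) {δ : ℝ≥0∞} (hδ : δ ≠ ∞)
    (h1 : ∀ x, adj γ x = ψ x + θ x) (h2 : ∀ x, θ x ≤ δ) (h3 : ∀ x, ψ x ≠ 0 → θ x = δ) :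
    LL m lam * ip ψ ψ ≤ dp γ γ + LL m lam * ip ψ (cv lam ψ) := by
  have hs := star hm hl hψ.meas hψ.kfin hγ
  set L := LL m lam with hL
  have L0 : L ≠ 0 := LL_ne_zero hl
  have Lt : L ≠ ∞ := LL_ne_top hm lam
  set I := ∫⁻ x, ψ x with hI
  have mc := measurable_cv (lam := lam) hψ.meas
  have e1 : ip (adj γ) ψ = ip ψ ψ + δ * I := by
    unfold ip
    have : ∀ x, adj γ x * ψ x = ψ x * ψ x + δ * ψ x := by
      intro x
      rw [h1 x, add_mul]
      by_cases hx : ψ x = 0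
      · rw [hx]; simp
      · rw [h3 x hx]
    simp only [this]
    rw [lintegral_add_right _ (hψ.meas.const_mul δ), lintegral_const_mul _ hψ.meas]
  have e2 : ip (adj γ) (cv lam ψ) ≤ ip ψ (cv lam ψ) + δ * I := by
    have hI2 : I = ∫⁻ x, cv lam ψ x := (lintegral_cv hψ.meas).symm
    rw [hI2]
    unfold ip
    rw [← lintegral_const_mul _ mc, ← lintegral_add_right _ (mc.const_mul δ)]
    refine lintegral_mono fun x => ?_
    beta_reduce
    rw [h1 x, add_mul]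
    exact add_le_add_right (mul_le_mul' (h2 x) le_rfl) _
  have hdI : L * (δ * I) ≠ ∞ := ENNReal.mul_ne_top Lt (ENNReal.mul_ne_top hδ hψ.fin)
  have fS : L * ip ψ ψ ≠ ∞ := ENNReal.mul_ne_top Lt hψ.S_fin
  have fZ : L * ip (cv lam ψ) (cv lam ψ) ≠ ∞ := ENNReal.mul_ne_top Lt (hψ.Z_fin lam)
  have h2Y := hψ.two_Y lam
  rw [e1] at hs
  set S := ip ψ ψ
  set Y := ip ψ (cv lam ψ)
  set Z := ip (cv lam ψ) (cv lam ψ)
  have a1 : 2 * (L * (S + δ * I)) + L * Z ≤ dp γ γ + L * Y + 2 * (L * (Y + δ * I)) :=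
    hs.trans (by gcongr)
  have a2 : (L * S) + (L * S + L * Z + 2 * (L * (δ * I))) ≤
      (dp γ γ + L * Y) + (L * S + L * Z + 2 * (L * (δ * I))) := by
    calc (L * S) + (L * S + L * Z + 2 * (L * (δ * I))) = 2 * (L * (S + δ * I)) + L * Z := by ring
      _ ≤ dp γ γ + L * Y + 2 * (L * (Y + δ * I)) := a1
      _ = (dp γ γ + L * Y) + (L * (2 * Y) + 2 * (L * (δ * I))) := by ring
      _ ≤ (dp γ γ + L * Y) + (L * (S + Z) + 2 * (L * (δ * I))) := by gcongr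
      _ = _ := by ring
  refine (ENNReal.add_le_add_iff_right ?_).mp a2
  exact ENNReal.add_ne_top.mpr ⟨ENNReal.add_ne_top.mpr ⟨fS, fZ⟩, ENNReal.mul_ne_top (by simp) hdI⟩

theorem lintegral_Rad {f : EE (m + 1) → ℝ≥0∞} (hf : Measurable f) (g : OG (m + 1)) :
    ∫⁻ y : EE m, Rad f g y = ∫⁻ x, f x := by
  rw [← lintegral_act hf g, lintegral_join (f := fun x => f (actE (m + 1) g x))]
  · rfl
  · exact hf.comp (cont_act continuous_const continuous_id).measurable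

theorem S3 {lam : ℝ} (hm : 1 ≤ m) (hl : 0 < lam) {ψ ρ : EE (m + 1) → ℝ≥0∞} (hψ : Nice ψ)
    (hρ : Measurable ρ) (h1 : ∀ g y, Rad ρ g y ≤ 1) :
    2 * ip ρ (cv lam ψ) + LL m lam * ip ψ (cv lam ψ) ≤
      dp (Rad ρ) (Rad ρ) + LL m lam * ip ψ ψ := by
  have mR := measurable_Rad hρ
  have hs := star hm hl hψ.meas hψ.kfin mR
  set L := LL m lam with hL
  have L0 : L ≠ 0 := LL_ne_zero hl
  have Lt : L ≠ ∞ := LL_ne_top hm lam
  have mc := measurable_cv (lam := lam) hψ.meas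
  have hadj : ∀ f : EE (m + 1) → ℝ≥0∞, Measurable f → ip (adj (Rad ρ)) f = ip ρ (KK f) := by
    intro f hf
    have e1 := dp_adj mR hf 1
    have e2 := dp_Rad hρ hf 1
    simp only [one_mul] at e1 e2
    rw [← e1]
    exact e2
  rw [hadj _ hψ.meas, hadj _ mc] at hs
  have k1 := ip_KW hl hρ hψ.meas
  rw [← hL] at k1
  rw [k1] at hs
  have fin1 : ip ρ (KK ψ) ≠ ∞ := by
    have e2 := dp_Rad hρ hψ.meas 1
    simp only [one_mul] at e2
    rw [← e2]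
    refine ne_top_of_le_ne_top hψ.fin ?_
    calc dp (fun g y => Rad ρ g y) (fun g y => Rad ψ g y)
        ≤ ∫⁻ g, (∫⁻ y : EE m, Rad ψ g y) ∂(muO (m + 1)) := by
          unfold dp
          refine lintegral_mono fun g => lintegral_mono fun y => ?_
          calc Rad ρ g y * Rad ψ g y ≤ 1 * Rad ψ g y := mul_le_mul' (h1 g y) le_rfl
            _ = _ := one_mul _
      _ = ∫⁻ x, ψ x := by
          simp only [lintegral_Rad hψ.meas, lintegral_const, measure_univ, mul_one]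
  have fin2 : ip ρ (KK (cv lam ψ)) ≠ ∞ :=
    ne_top_of_le_ne_top fin1 (ip_mono (fun _ => le_rfl) (KK_cv_le hm hl hψ.meas))
  have fY : L * ip ψ (cv lam ψ) ≠ ∞ := ENNReal.mul_ne_top Lt (hψ.Y_fin lam)
  have fZ : L * ip (cv lam ψ) (cv lam ψ) ≠ ∞ := ENNReal.mul_ne_top Lt (hψ.Z_fin lam)
  have h2Y := hψ.two_Y lam
  set S := ip ψ ψ
  set Y := ip ψ (cv lam ψ)
  set Z := ip (cv lam ψ) (cv lam ψ)
  set Q := ip ρ (KK (cv lam ψ))
  set X := ip ρ (cv lam ψ)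
  set N := dp (Rad ρ) (Rad ρ)
  have a : (2 * X + L * Y) + (2 * (L * Q) + L * Y + L * Z) ≤ (N + L * S) + (2 * (L * Q) + L * Y + L * Z) := by
    calc (2 * X + L * Y) + (2 * (L * Q) + L * Y + L * Z)
        = (2 * (L * Q + X) + L * Z) + L * (2 * Y) := by ring
      _ ≤ (N + L * Y + 2 * (L * Q)) + L * (S + Z) := by gcongr
      _ = _ := by ring
  refine (ENNReal.add_le_add_iff_right ?_).mp a
  exact ENNReal.add_ne_top.mpr ⟨ENNReal.add_ne_top.mpr ⟨ENNReal.mul_ne_top (by simp)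
    (ENNReal.mul_ne_top Lt fin2), fY⟩, fZ⟩

theorem combine {lam : ℝ} (hm : 1 ≤ m) (hl : 0 < lam) {ψ ψs θ ρ : EE (m + 1) → ℝ≥0∞}
    (hψ : Nice ψ) (hψs : Nice ψs) {γ : OG (m + 1) → EE m → ℝ≥0∞}
    (hγ : Measurable (fun p : OG (m + 1) × EE m => γ p.1 p.2)) {δ : ℝ≥0∞} (hδ : δ ≠ ∞)
    (h1 : ∀ x, adj γ x = ψ x + θ x) (h2 : ∀ x, θ x ≤ δ) (h3 : ∀ x, ψ x ≠ 0 → θ x = δ)
    (hρ : Measurable ρ) (h4 : ∀ g y, Rad ρ g y ≤ 1)
    (hS : ip ψs ψs = ip ψ ψ) (hY : ip ψ (cv lam ψ) ≤ ip ψs (cv lam ψs)) :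
    2 * ip ρ (cv lam ψs) ≤ dp (Rad ρ) (Rad ρ) + dp γ γ := by
  have a1 := S1 hm hl hψ hγ hδ h1 h2 h3
  have a2 := S3 hm hl hψs hρ h4
  have fY : LL m lam * ip ψs (cv lam ψs) ≠ ∞ :=
    ENNReal.mul_ne_top (LL_ne_top hm lam) (hψs.Y_fin lam)
  rw [hS] at a2
  refine (ENNReal.add_le_add_iff_right fY).mp ?_
  calc 2 * ip ρ (cv lam ψs) + LL m lam * ip ψs (cv lam ψs)
      ≤ dp (Rad ρ) (Rad ρ) + LL m lam * ip ψ ψ := a2
    _ ≤ dp (Rad ρ) (Rad ρ) + (dp γ γ + LL m lam * ip ψ (cv lam ψ)) := by gcongr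
    _ ≤ dp (Rad ρ) (Rad ρ) + (dp γ γ + LL m lam * ip ψs (cv lam ψs)) := by gcongr
    _ = _ := by rw [add_assoc]

theorem chord (x θ : EE (m + 1)) (hθ : ‖θ‖ = 1) (r : ℝ) :
    volume {s : ℝ | ‖x + s • θ‖ ≤ r} ≤ ENNReal.ofReal (2 * r) := by
  refine (Real.volume_le_diam _).trans ?_
  refine Metric.ediam_le fun s hs t ht => ?_
  rw [edist_dist]
  apply ENNReal.ofReal_le_ofReal
  simp only [mem_ofPred_eq] at hs ht
  have h1 : ‖(s - t) • θ‖ = dist s t := by rw [norm_smul, hθ, mul_one, Real.dist_eq, Real.norm_eq_abs]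
  have h2 : (s - t) • θ = (x + s • θ) - (x + t • θ) := by rw [sub_smul]; abel
  rw [← h1, h2]
  linarith [norm_sub_le (x + s • θ) (x + t • θ)]

theorem KK_le {ψ : EE (m + 1) → ℝ≥0∞} {r : ℝ} (h1 : ∀ x, ψ x ≤ 1) (h2 : ∀ x, r < ‖x‖ → ψ x = 0)
    (x : EE (m + 1)) : KK ψ x ≤ ENNReal.ofReal (2 * r) := by
  unfold KK
  calc ∫⁻ g, (∫⁻ s : ℝ, ψ (x + s • actE (m + 1) g e0)) ∂(muO (m + 1))
      ≤ ∫⁻ _g, ENNReal.ofReal (2 * r) ∂(muO (m + 1)) := by
        refine lintegral_mono fun g => ?_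
        calc ∫⁻ s : ℝ, ψ (x + s • actE (m + 1) g e0)
            ≤ ∫⁻ s : ℝ, indicator {s : ℝ | ‖x + s • actE (m + 1) g e0‖ ≤ r} 1 s := by
              refine lintegral_mono fun s => ?_
              by_cases hs : ‖x + s • actE (m + 1) g e0‖ ≤ r
              · rw [indicator_of_mem (by exact hs)]
                exact h1 _
              · rw [h2 _ (by linarith)]
                exact zero_le
          _ = volume {s : ℝ | ‖x + s • actE (m + 1) g e0‖ ≤ r} := by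
              rw [lintegral_indicator_one]
              apply measurableSet_le
              · fun_prop
              · fun_prop
          _ ≤ _ := by
              apply chord
              rw [LinearIsometryEquiv.norm_map, norm_e0]
    _ = _ := by rw [lintegral_const, measure_univ, mul_one]

theorem nice_of {ψ : EE (m + 1) → ℝ≥0∞} {r : ℝ} (h0 : Measurable ψ) (h1 : ∀ x, ψ x ≤ 1)
    (h2 : ∀ x, r < ‖x‖ → ψ x = 0) : Nice ψ := by
  have hf : ∫⁻ x, ψ x ≠ ∞ := by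
    have : ∫⁻ x, ψ x ≤ volume (Metric.closedBall (0 : EE (m + 1)) r) := by
      rw [← lintegral_indicator_one Metric.isClosed_closedBall.measurableSet]
      refine lintegral_mono fun x => ?_
      by_cases hx : ‖x‖ ≤ r
      · rw [indicator_of_mem (by simpa using hx)]
        exact h1 _
      · rw [h2 _ (by linarith)]
        exact zero_le
    exact ne_top_of_le_ne_top measure_closedBall_lt_top.ne this
  refine ⟨h0, h1, hf, ?_⟩
  have : ip ψ (KK ψ) ≤ (∫⁻ x, ψ x) * ENNReal.ofReal (2 * r) := by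
    rw [← lintegral_mul_const _ h0]
    exact lintegral_mono fun x => mul_le_mul' le_rfl (KK_le h1 h2 x)
  exact ne_top_of_le_ne_top (ENNReal.mul_ne_top hf ENNReal.ofReal_ne_top) this

end Pool.Agent.H68.Cap
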