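import Mathlib
import Pool.Agent.H68.C7Ineq

open MeasureTheory Set
open scoped ENNReal

namespace Pool.Agent.H68.Cap

variable {m : ℕ}

theorem arcsine {a : ℝ} (ha : 0 < a) :
    ∫⁻ t in Ioo (-a) a, ENNReal.ofReal (1 / (Real.pi * √(a ^ 2 - t ^ 2))) = 1 := by
  have himg : (fun θ : ℝ => a * Real.sin θ) '' Ioo (-(Real.pi / 2)) (Real.pi / 2) = Ioo (-a) a := by
    ext t
    simp only [mem_image, mem_Ioo]
    constructor
    · rintro ⟨θ, ⟨h1, h2⟩, rfl⟩
      have hc := Real.cos_pos_of_mem_Ioo ⟨h1, h2⟩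
      have hs := Real.sin_sq_add_cos_sq θ
      have hb : Real.sin θ ^ 2 < 1 := by nlinarith
      have h3 : -1 < Real.sin θ ∧ Real.sin θ < 1 := by
        rw [← abs_lt]; exact (sq_lt_one_iff_abs_lt_one _).mp hb
      constructor <;> nlinarith [h3.1, h3.2]
    · rintro ⟨h1, h2⟩
      have h3 : -1 < t / a := by rw [lt_div_iff₀ ha]; linarith
      have h4 : t / a < 1 := by rw [div_lt_iff₀ ha]; linarith
      refine ⟨Real.arcsin (t / a), ⟨?_, ?_⟩, ?_⟩
      · exact Real.neg_pi_div_two_lt_arcsin.mpr h3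
      · exact Real.arcsin_lt_pi_div_two.mpr h4
      · rw [Real.sin_arcsin h3.le h4.le]
        field_simp
  rw [← himg, lintegral_image_eq_lintegral_abs_deriv_mul measurableSet_Ioo
    (f' := fun θ => a * Real.cos θ)]
  · have : ∀ θ ∈ Ioo (-(Real.pi / 2)) (Real.pi / 2), ENNReal.ofReal |a * Real.cos θ| *
        ENNReal.ofReal (1 / (Real.pi * √(a ^ 2 - (a * Real.sin θ) ^ 2))) =
          ENNReal.ofReal (1 / Real.pi) := by
      intro θ hθ
      have hc := Real.cos_pos_of_mem_Ioo hθ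
      have e1 : a ^ 2 - (a * Real.sin θ) ^ 2 = (a * Real.cos θ) ^ 2 := by
        have := Real.sin_sq_add_cos_sq θ
        linear_combination (-a ^ 2) * this
      rw [e1, Real.sqrt_sq (by positivity), abs_of_pos (by positivity), ← ENNReal.ofReal_mul (by positivity)]
      congr 1
      field_simp
    rw [setLIntegral_congr_fun measurableSet_Ioo this, setLIntegral_const, Real.volume_Ioo,
      ← ENNReal.ofReal_mul (by positivity)]
    rw [show 1 / Real.pi * (Real.pi / 2 - -(Real.pi / 2)) = 1 by field_simp; ring]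
    simp
  · intro θ _
    exact ((Real.hasDerivAt_sin θ).const_mul a).hasDerivWithinAt
  · intro x hx y hy hxy
    apply Real.strictMonoOn_sin.injOn (Ioo_subset_Icc_self hx) (Ioo_subset_Icc_self hy)
    exact mul_left_cancel₀ ha.ne' hxy

/-- The equilibrium density of the ball. -/
noncomputable def rho (R : ℝ) (x : EE (m + 1)) : ℝ≥0∞ :=
  if ‖x‖ < R then ENNReal.ofReal (1 / (Real.pi * √(R ^ 2 - ‖x‖ ^ 2))) else 0

theorem measurable_rho (R : ℝ) : Measurable (rho R : EE (m + 1) → ℝ≥0∞) := by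
  unfold rho
  apply Measurable.ite
  · exact measurableSet_lt (by fun_prop) (by fun_prop)
  · fun_prop
  · fun_prop

theorem Rad_rho {R : ℝ} (hR : 0 < R) (g : OG (m + 1)) (y : EE m) :
    Rad (rho R) g y = if ‖y‖ < R then 1 else 0 := by
  unfold Rad rho
  have hn : ∀ t : ℝ, ‖actE (m + 1) g (join y t)‖ ^ 2 = ‖y‖ ^ 2 + t ^ 2 := by
    intro t
    rw [LinearIsometryEquiv.norm_map, norm_join]
  split_ifs with hy
  · have hpos : 0 < R ^ 2 - ‖y‖ ^ 2 := by nlinarith [norm_nonneg y]
    set a := √(R ^ 2 - ‖y‖ ^ 2) with ha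
    have ha0 : 0 < a := Real.sqrt_pos.mpr hpos
    have ha2 : a ^ 2 = R ^ 2 - ‖y‖ ^ 2 := Real.sq_sqrt hpos.le
    rw [← arcsine ha0, ← lintegral_indicator measurableSet_Ioo]
    congr 1
    ext t
    have hiff : ‖actE (m + 1) g (join y t)‖ < R ↔ t ∈ Ioo (-a) a := by
      rw [mem_Ioo, ← abs_lt, ← sq_lt_sq₀ (norm_nonneg _) hR.le, hn, ← sq_lt_sq₀ (abs_nonneg _) ha0.le,
        sq_abs, ha2]
      constructor <;> intro h <;> linarith
    by_cases ht : t ∈ Ioo (-a) a
    · rw [if_pos (hiff.mpr ht), indicator_of_mem ht, hn]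
      congr 4
      rw [ha2]; ring
    · rw [if_neg (fun h => ht (hiff.mp h)), indicator_of_notMem ht]
  · have : ∀ t : ℝ, ¬ ‖actE (m + 1) g (join y t)‖ < R := by
      intro t h
      rw [← sq_lt_sq₀ (norm_nonneg _) hR.le, hn] at h
      have h2 : R ^ 2 ≤ ‖y‖ ^ 2 := by
        rw [sq_le_sq₀ hR.le (norm_nonneg _)]; linarith
      nlinarith [sq_nonneg t]
    simp only [if_neg (this _), lintegral_zero]

theorem dp_rho {R : ℝ} (hR : 0 < R) :
    dp (Rad (rho R : EE (m + 1) → ℝ≥0∞)) (Rad (rho R)) = volume (Metric.ball (0 : EE m) R) := by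
  unfold dp
  have : ∀ g : OG (m + 1), ∫⁻ y : EE m, Rad (rho R) g y * Rad (rho R) g y =
      volume (Metric.ball (0 : EE m) R) := by
    intro g
    rw [← lintegral_indicator_one Metric.isOpen_ball.measurableSet]
    congr 1
    ext y
    rw [Rad_rho hR]
    by_cases hy : ‖y‖ < R
    · rw [if_pos hy, indicator_of_mem (by simpa using hy)]; simp
    · rw [if_neg hy, indicator_of_notMem (by simpa using hy)]; simp
  simp only [this]
  rw [lintegral_const, measure_univ, mul_one]

theorem lintegral_rho {R : ℝ} (hR : 0 < R) :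
    ∫⁻ x, (rho R : EE (m + 1) → ℝ≥0∞) x = volume (Metric.ball (0 : EE m) R) := by
  rw [← lintegral_Rad (measurable_rho R) 1, ← lintegral_indicator_one Metric.isOpen_ball.measurableSet]
  congr 1
  ext y
  rw [Rad_rho hR]
  by_cases hy : ‖y‖ < R
  · rw [if_pos hy, indicator_of_mem (by simpa using hy)]; simp
  · rw [if_neg hy, indicator_of_notMem (by simpa using hy)]

/-- The error in the approximation by `cv`. -/
noncomputable def err (m : ℕ) (Λ lam : ℝ) : ℝ≥0∞ :=
  ∫⁻ z : EE (m + 1), ww (m + 1) ‖z‖ * min 1 (ENNReal.ofReal (Λ * lam⁻¹ * ‖z‖))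

theorem err_tendsto (m : ℕ) (Λ : ℝ) :
    Filter.Tendsto (fun lam : ℝ => err m Λ lam) Filter.atTop (nhds 0) := by
  have h0 : ∫⁻ z : EE (m + 1), (0 : ℝ≥0∞) = 0 := by simp
  rw [← h0]
  unfold err
  apply tendsto_lintegral_filter_of_dominated_convergence (fun z : EE (m + 1) => ww (m + 1) ‖z‖)
  · refine Filter.Eventually.of_forall fun lam => ?_
    exact measurable_wwn.mul (by fun_prop)
  · refine Filter.Eventually.of_forall fun lam => Filter.Eventually.of_forall fun z => ?_
    calc _ ≤ ww (m + 1) ‖z‖ * 1 := mul_le_mul' le_rfl (min_le_left _ _)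
      _ = _ := mul_one _
  · rw [lintegral_wwE]; simp
  · have hfin : ∀ᵐ z : EE (m + 1), ww (m + 1) ‖z‖ < ∞ :=
      ae_lt_top measurable_wwn (by rw [lintegral_wwE]; simp)
    filter_upwards [hfin] with z hz
    have h1 : Filter.Tendsto (fun lam : ℝ => Λ * lam⁻¹ * ‖z‖) Filter.atTop (nhds 0) := by
      have := ((tendsto_inv_atTop_zero (𝕜 := ℝ)).const_mul Λ).mul_const ‖z‖
      simpa using this
    have h2 : Filter.Tendsto (fun lam : ℝ => ENNReal.ofReal (Λ * lam⁻¹ * ‖z‖)) Filter.atTop (nhds 0) := by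
      have := ENNReal.tendsto_ofReal h1
      simpa using this
    have h3 : Filter.Tendsto (fun lam : ℝ => min 1 (ENNReal.ofReal (Λ * lam⁻¹ * ‖z‖)))
        Filter.atTop (nhds 0) := by
      have := (tendsto_const_nhds (x := (1 : ℝ≥0∞))).min h2
      simpa using this
    have := ENNReal.Tendsto.const_mul (a := ww (m + 1) ‖z‖) h3 (Or.inr hz.ne)
    simpa using this

theorem le_cv {lam : ℝ} (hl : 0 < lam) {Λ : ℝ} {ψ : EE (m + 1) → ℝ} (h1 : ∀ x, ψ x ≤ 1)
    (h2 : ∀ x y, ψ x ≤ ψ y + Λ * ‖y - x‖) (hm : Measurable ψ) (x : EE (m + 1)) :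
    ENNReal.ofReal (ψ x) ≤ cv lam (fun x => ENNReal.ofReal (ψ x)) x + err m Λ lam := by
  unfold cv err
  rw [← lintegral_add_left]
  · calc ENNReal.ofReal (ψ x) = ∫⁻ z : EE (m + 1), ww (m + 1) ‖z‖ * ENNReal.ofReal (ψ x) := by
          rw [lintegral_mul_const _ measurable_wwn, lintegral_wwE, one_mul]
      _ ≤ _ := by
        refine lintegral_mono fun z => ?_
        beta_reduce
        rw [← mul_add]
        refine mul_le_mul' le_rfl ?_
        have h3 : ENNReal.ofReal (ψ x) ≤ 1 := by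
          rw [← ENNReal.ofReal_one]; exact ENNReal.ofReal_le_ofReal (h1 x)
        rw [← min_add_add_left]
        apply le_min
        · exact h3.trans le_add_self
        · refine le_trans (ENNReal.ofReal_le_ofReal (h2 x (x + lam⁻¹ • z))) ?_
          refine ENNReal.ofReal_add_le.trans ?_
          rw [add_sub_cancel_left, norm_smul, Real.norm_eq_abs, abs_of_pos (by positivity), mul_assoc]
  · exact measurable_wwn.mul (by fun_prop)

end Pool.Agent.H68.Cap
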