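import Mathlib
import Pool.Agent.H68.C8Rho
import Pool.Agent.H68.C11Exist

open MeasureTheory Set
open scoped ENNReal NNReal

namespace Pool.Agent.H68.Cap

variable {m : ℕ}

theorem cv_change {lam : ℝ} (hl : 0 < lam) {f : EE (m + 1) → ℝ≥0∞} (hf : Measurable f)
    (x : EE (m + 1)) :
    ENNReal.ofReal ((lam ^ (m + 1))⁻¹) * cv lam f x = ∫⁻ y, ww (m + 1) (lam * ‖x - y‖) * f y := by
  have h := Measure.map_addHaar_smul (volume : Measure (EE (m + 1))) hl.ne'
  rw [finrank_euclideanSpace_fin, abs_of_pos (by positivity)] at h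
  have mF : Measurable (fun z : EE (m + 1) => ww (m + 1) ‖z‖ * f (x + lam⁻¹ • z)) :=
    measurable_wwn.mul (hf.comp (by fun_prop))
  have h2 : ∫⁻ z, (ww (m + 1) ‖z‖ * f (x + lam⁻¹ • z)) ∂(Measure.map (lam • ·) volume) =
      ∫⁻ y : EE (m + 1), (ww (m + 1) ‖lam • y‖ * f (x + lam⁻¹ • (lam • y))) :=
    lintegral_map mF (by fun_prop)
  rw [h, lintegral_smul_measure, smul_eq_mul] at h2
  unfold cv
  rw [h2, ← lintegral_sub_right_eq_self _ x]
  congr 1
  ext y
  rw [norm_smul, Real.norm_eq_abs, abs_of_pos hl, smul_smul, inv_mul_cancel₀ hl.ne', one_smul,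
    add_sub_cancel, norm_sub_rev]

/-- The kernel of the interaction functional. -/
noncomputable def kk (m : ℕ) (lam : ℝ) (s : ℝ) : ℝ≥0∞ := ww (m + 1) (lam * s)

theorem measurable_kk (lam : ℝ) : Measurable (kk m lam) := (measurable_ww _).comp (by fun_prop)

theorem kk_anti {lam : ℝ} (hl : 0 < lam) (s t : ℝ) (hs : 0 ≤ s) (hst : s ≤ t) :
    kk m lam t ≤ kk m lam s := ww_anti _ (by positivity) (by gcongr)

theorem kk_fin {lam : ℝ} (hl : 0 < lam) : ∫⁻ y : EE (m + 1), kk m lam ‖y‖ ≠ ∞ := by
  have h := cv_change hl (f := fun _ : EE (m + 1) => 1) measurable_const 0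
  have e : cv lam (fun _ : EE (m + 1) => 1) 0 = 1 := by
    unfold cv; simp only [mul_one]; exact lintegral_wwE
  rw [e, mul_one] at h
  simp only [mul_one, zero_sub, norm_neg] at h
  unfold kk
  rw [← h]
  simp

theorem Y_eq {lam : ℝ} (hl : 0 < lam) {f : EE (m + 1) → ℝ≥0∞} (hf : Measurable f) :
    ENNReal.ofReal ((lam ^ (m + 1))⁻¹) * ip f (cv lam f) = YY (kk m lam) f := by
  have mc := measurable_cv (lam := lam) hf
  unfold ip YY kk
  rw [← lintegral_const_mul (f := fun x => f x * cv lam f x) _ (hf.mul mc)]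
  congr 1
  ext x
  rw [mul_left_comm, cv_change hl hf, ← lintegral_const_mul]
  · congr 1; ext y; ring
  · exact ((measurable_ww _).comp (by fun_prop)).mul hf

theorem level {r c R : ℝ} {Λ : ℝ} (hc : 0 < c) (hR : 0 < R) {ψ φ : EE (m + 1) → ℝ}
    (hφ : Adm Λ r φ)
    (hF : ∀ F : C(ℝ, ℝ≥0), F 0 = 0 → ∫⁻ x, (F (φ x) : ℝ≥0∞) = ∫⁻ x, (F (ψ x) : ℝ≥0∞))
    (hrad : ∀ x y, ‖x‖ < ‖y‖ → φ y ≤ φ x) {K : Set (EE (m + 1))} (hK : MeasurableSet K)
    (hKψ : ∀ x ∈ K, c ≤ ψ x) (hKR : volume (Metric.ball (0 : EE (m + 1)) R) ≤ volume K)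
    (x : EE (m + 1)) (hx : ‖x‖ < R) : c ≤ φ x := by
  by_contra hcon
  rw [not_le] at hcon
  set c' := (φ x + c) / 2 with hc'
  have h0 : 0 ≤ φ x := hφ.nonneg x
  have h1 : 0 < c' := by rw [hc']; linarith
  have h2 : c' < c := by rw [hc']; linarith
  have h3 : φ x < c' := by rw [hc']; linarith
  let F : C(ℝ, ℝ≥0) := ⟨fun t => Real.toNNReal (min 1 ((t - c') / (c - c'))), by fun_prop⟩
  have hFdef : ∀ t, F t = Real.toNNReal (min 1 ((t - c') / (c - c'))) := fun t => rfl
  have hcc : 0 < c - c' := by linarith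
  have hF0 : F 0 = 0 := by
    rw [hFdef, Real.toNNReal_eq_zero]
    refine (min_le_right _ _).trans ?_
    exact (div_neg_of_neg_of_pos (by linarith) hcc).le
  have hFle : ∀ t, F t ≤ 1 := by
    intro t
    rw [hFdef, Real.toNNReal_le_one]
    exact min_le_left _ _
  have hFz : ∀ t, t ≤ c' → F t = 0 := by
    intro t ht
    rw [hFdef, Real.toNNReal_eq_zero]
    refine (min_le_right _ _).trans ?_
    exact div_nonpos_of_nonpos_of_nonneg (by linarith) hcc.le
  have hF1 : ∀ t, c ≤ t → F t = 1 := by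
    intro t ht
    rw [hFdef, min_eq_left, Real.toNNReal_one]
    rw [le_div_iff₀ hcc]; linarith
  have e := hF F hF0
  have a1 : volume K ≤ ∫⁻ x, (F (ψ x) : ℝ≥0∞) := by
    rw [← lintegral_indicator_one hK]
    refine lintegral_mono fun y => ?_
    by_cases hy : y ∈ K
    · rw [indicator_of_mem hy, hF1 _ (hKψ y hy)]; simp
    · rw [indicator_of_notMem hy]; exact zero_le
  have a2 : ∫⁻ x, (F (φ x) : ℝ≥0∞) ≤ volume (Metric.closedBall (0 : EE (m + 1)) ‖x‖) := by
    rw [← lintegral_indicator_one Metric.isClosed_closedBall.measurableSet]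
    refine lintegral_mono fun y => ?_
    by_cases hy : y ∈ Metric.closedBall (0 : EE (m + 1)) ‖x‖
    · rw [indicator_of_mem hy]
      exact ENNReal.coe_le_one_iff.mpr (hFle _)
    · rw [indicator_of_notMem hy, hFz]
      · simp
      · have : ‖x‖ < ‖y‖ := by simpa using hy
        exact (hrad x y this).trans h3.le
  have a3 : volume (Metric.closedBall (0 : EE (m + 1)) ‖x‖) <
      volume (Metric.ball (0 : EE (m + 1)) R) := by
    rw [Measure.addHaar_closedBall _ _ (norm_nonneg x), Measure.addHaar_ball _ _ hR.le,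
      finrank_euclideanSpace_fin]
    have hb : volume (Metric.ball (0 : EE (m + 1)) 1) ≠ 0 :=
      (Metric.measure_ball_pos _ _ one_pos).ne'
    have hb2 : volume (Metric.ball (0 : EE (m + 1)) 1) ≠ ∞ := measure_ball_lt_top.ne
    rw [ENNReal.mul_lt_mul_iff_left hb hb2]
    rw [ENNReal.ofReal_lt_ofReal_iff (by positivity)]
    exact pow_lt_pow_left₀ hx (norm_nonneg _) (by omega)
  rw [e] at a2
  exact absurd (hKR.trans (a1.trans a2)) (not_le.mpr a3)

theorem core (hm : 1 ≤ m) {Λ R : ℝ} (hΛ : 0 ≤ Λ) (hR : 0 < R) {γ : OG (m + 1) → EE m → ℝ≥0∞}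
    (hγ : Measurable (fun p : OG (m + 1) × EE m => γ p.1 p.2)) {φ : EE (m + 1) → ℝ}
    (hadj : ∀ x, adj γ x = ENNReal.ofReal (φ x)) (hφ0 : ∀ x, 0 ≤ φ x) (hφ1 : ∀ x, φ x ≤ 1)
    (hφlip : ∀ x y, φ x ≤ φ y + Λ * ‖x - y‖)
    (hφinf : ∀ δ : ℝ, 0 < δ → ∃ r : ℝ, ∀ x, r < ‖x‖ → φ x ≤ δ)
    {K : Set (EE (m + 1))} (hK : MeasurableSet K) (hKφ : ∀ x ∈ K, φ x = 1)
    (hKR : volume (Metric.ball (0 : EE (m + 1)) R) ≤ volume K) :
    volume (Metric.ball (0 : EE m) R) ≤ dp γ γ := by
  set M := volume (Metric.ball (0 : EE m) R) with hM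
  have hMfin : M ≠ ∞ := measure_ball_lt_top.ne
  have step : ∀ δ : ℝ, 0 < δ → δ < 1 → 2 * (ENNReal.ofReal (1 - δ) * M) ≤ M + dp γ γ := by
    intro δ hδ hδ1
    obtain ⟨r, hr⟩ := hφinf δ hδ
    set ψ : EE (m + 1) → ℝ := fun x => max (φ x - δ) 0 with hψdef
    have hψ : Adm Λ r ψ := by
      refine ⟨fun x y => ?_, fun x => le_max_right _ _, fun x => ?_, fun x hx => ?_⟩
      · have h1 := hφlip x y
        have h2 : 0 ≤ Λ * ‖x - y‖ := by positivity
        simp only [hψdef]
        apply max_le
        · linarith [le_max_left (φ y - δ) 0]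
        · linarith [le_max_right (φ y - δ) 0]
      · exact max_le (by linarith [hφ1 x]) (by norm_num)
      · exact max_eq_right (by linarith [hr x hx])
    have mψ : Measurable (fun x => ENNReal.ofReal (ψ x)) :=
      (hψ.continuous hΛ).measurable.ennreal_ofReal
    have nψ : Nice (fun x => ENNReal.ofReal (ψ x)) := by
      apply nice_of (r := r) mψ
      · intro x
        rw [← ENNReal.ofReal_one]; exact ENNReal.ofReal_le_ofReal (hψ.le_one x)
      · intro x hx
        rw [hψ.supp x hx, ENNReal.ofReal_zero]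
    have hlam : ∀ lam : ℝ, 0 < lam →
        2 * (ENNReal.ofReal (1 - δ) * M) ≤ (M + dp γ γ) + 2 * (err m Λ lam * M) := by
      intro lam hl
      obtain ⟨φs, hs1, hs2, hs3, hs4⟩ := exists_rearr hΛ (measurable_kk (m := m) lam) (kk_anti hl)
        (kk_fin hl) hψ
      have ms : Measurable (fun x => ENNReal.ofReal (φs x)) :=
        (hs1.continuous hΛ).measurable.ennreal_ofReal
      have ns : Nice (fun x => ENNReal.ofReal (φs x)) := by
        apply nice_of (r := r) ms
        · intro x
          rw [← ENNReal.ofReal_one]; exact ENNReal.ofReal_le_ofReal (hs1.le_one x)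
        · intro x hx
          rw [hs1.supp x hx, ENNReal.ofReal_zero]
      have hc := combine hm hl (θ := fun x => ENNReal.ofReal (min (φ x) δ)) nψ ns hγ
        (δ := ENNReal.ofReal δ) ENNReal.ofReal_ne_top (ρ := rho R) ?_ ?_ ?_ (measurable_rho R) ?_ ?_ ?_
      · rw [dp_rho hR, ← hM] at hc
        have hrho := lintegral_rho (m := m) hR
        rw [← hM] at hrho
        have b1 : ip (rho R) (fun x => ENNReal.ofReal (φs x)) ≤
            ip (rho R) (cv lam (fun x => ENNReal.ofReal (φs x))) + err m Λ lam * M := by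
          rw [← hrho]
          unfold ip
          rw [← lintegral_const_mul _ (measurable_rho R), ← lintegral_add_right]
          · refine lintegral_mono fun x => ?_
            have := le_cv hl (Λ := Λ) hs1.le_one (fun x y => by
              rw [norm_sub_rev]; exact hs1.lip x y) (hs1.continuous hΛ).measurable x
            calc rho R x * ENNReal.ofReal (φs x)
                ≤ rho R x * (cv lam (fun x => ENNReal.ofReal (φs x)) x + err m Λ lam) := by gcongr
              _ = _ := by ring
          · exact (measurable_rho R).const_mul _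
        have b2 : ENNReal.ofReal (1 - δ) * M ≤ ip (rho R) (fun x => ENNReal.ofReal (φs x)) := by
          rw [← hrho]
          unfold ip
          rw [← lintegral_const_mul _ (measurable_rho R)]
          refine lintegral_mono fun x => ?_
          by_cases hx : ‖x‖ < R
          · have := level (c := 1 - δ) (by linarith) hR hs1 hs2 hs4 hK (fun y hy => by
              simp only [hψdef]; rw [hKφ y hy]; exact le_max_left _ _) hKR x hx
            rw [mul_comm]
            exact mul_le_mul' le_rfl (ENNReal.ofReal_le_ofReal this)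
          · have : (rho R : EE (m + 1) → ℝ≥0∞) x = 0 := by unfold rho; rw [if_neg hx]
            beta_reduce
            rw [this]; simp
        calc 2 * (ENNReal.ofReal (1 - δ) * M)
            ≤ 2 * (ip (rho R) (cv lam (fun x => ENNReal.ofReal (φs x))) + err m Λ lam * M) := by
              gcongr; exact b2.trans b1
          _ = 2 * ip (rho R) (cv lam (fun x => ENNReal.ofReal (φs x))) + 2 * (err m Λ lam * M) := by
              ring
          _ ≤ _ := by gcongr
      · intro x
        rw [hadj, ← ENNReal.ofReal_add (le_max_right _ _) (le_min (hφ0 x) hδ.le)]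
        congr 1
        change φ x = max (φ x - δ) 0 + min (φ x) δ
        rcases le_total (φ x) δ with h | h
        · rw [max_eq_right (by linarith), min_eq_left h]; ring
        · rw [max_eq_left (by linarith), min_eq_right h]; ring
      · intro x
        exact ENNReal.ofReal_le_ofReal (min_le_right _ _)
      · intro x hx
        have : δ ≤ φ x := by
          by_contra h
          apply hx
          simp only [hψdef]
          rw [max_eq_right (by linarith), ENNReal.ofReal_zero]
        rw [min_eq_right this]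
      · intro g y
        rw [Rad_rho hR]
        split_ifs
        · exact le_rfl
        · exact zero_le
      · let F : C(ℝ, ℝ≥0) := ⟨fun t => Real.toNNReal t * Real.toNNReal t, by fun_prop⟩
        have := hs2 F (by simp [F])
        simpa [F, ip, ENNReal.ofReal] using this
      · have y1 := Y_eq hl mψ
        have y2 := Y_eq hl ms
        have hpos : (0 : ℝ) < (lam ^ (m + 1))⁻¹ := by positivity
        rw [← ENNReal.mul_le_mul_iff_right (a := ENNReal.ofReal ((lam ^ (m + 1))⁻¹)) (by simpa using hpos)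
          ENNReal.ofReal_ne_top, y1, y2]
        exact hs3
    have ht : Filter.Tendsto (fun lam : ℝ => (M + dp γ γ) + 2 * (err m Λ lam * M)) Filter.atTop
        (nhds ((M + dp γ γ) + 2 * (0 * M))) := by
      apply Filter.Tendsto.const_add
      apply ENNReal.Tendsto.const_mul _ (Or.inr (by simp))
      exact ENNReal.Tendsto.mul_const (err_tendsto m Λ) (Or.inr hMfin)
    simp only [zero_mul, mul_zero, add_zero] at ht
    refine ge_of_tendsto ht ?_
    filter_upwards [Filter.eventually_gt_atTop 0] with lam hl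
    exact hlam lam hl
  have ht : Filter.Tendsto (fun δ : ℝ => 2 * (ENNReal.ofReal (1 - δ) * M)) (nhdsWithin 0 (Ioi 0))
      (nhds (2 * (ENNReal.ofReal (1 - 0) * M))) := by
    apply ENNReal.Tendsto.const_mul _ (Or.inr (by simp))
    apply ENNReal.Tendsto.mul_const _ (Or.inr hMfin)
    apply ENNReal.tendsto_ofReal
    exact (Filter.Tendsto.const_sub 1 (Filter.tendsto_id.mono_left nhdsWithin_le_nhds))
  simp only [sub_zero, ENNReal.ofReal_one, one_mul] at ht
  have h2M : 2 * M ≤ M + dp γ γ := by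
    refine le_of_tendsto ht ?_
    filter_upwards [Ioo_mem_nhdsGT (show (0 : ℝ) < 1 by norm_num)] with δ hδ
    exact step δ hδ.1 hδ.2
  rw [two_mul] at h2M
  exact (ENNReal.add_le_add_iff_left hMfin).mp h2M

end Pool.Agent.H68.Cap
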