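import Mathlib
import Pool.Agent.H68.C12Core

open MeasureTheory Set
open scoped ENNReal NNReal

namespace Pool.Agent.H68.Cap

variable {m : ℕ}

/-- The projection along `g e`. -/
noncomputable def Pg (g : OG (m + 1)) (x : EE (m + 1)) : EE m := proj (actE (m + 1) g⁻¹ x)

theorem continuous_Pg : Continuous (fun p : OG (m + 1) × EE (m + 1) => Pg p.1 p.2) :=
  continuous_proj.comp (cont_act (continuous_inv.comp continuous_fst) continuous_snd)

theorem Pg_sub (g : OG (m + 1)) (x y : EE (m + 1)) : Pg g x - Pg g y = Pg g (x - y) := by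
  unfold Pg; rw [map_sub, proj_sub]

theorem norm_Pg_le (g : OG (m + 1)) (x : EE (m + 1)) : ‖Pg g x‖ ≤ ‖x‖ := by
  unfold Pg
  refine (norm_proj_le _).trans ?_
  rw [LinearIsometryEquiv.norm_map]

/-- The distance to the projection of `K`. -/
noncomputable def DD (K : Set (EE (m + 1))) (p : OG (m + 1) × EE m) : ℝ :=
  sInf ((fun x => ‖p.2 - Pg p.1 x‖) '' K)

variable {K : Set (EE (m + 1))}

theorem continuous_DD (hK : IsCompact K) : Continuous (DD K) := by
  apply hK.continuous_sInf (f := fun (p : OG (m + 1) × EE m) x => ‖p.2 - Pg p.1 x‖)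
  have h : Continuous (fun q : (OG (m + 1) × EE m) × EE (m + 1) => Pg q.1.1 q.2) :=
    continuous_Pg.comp ((continuous_fst.comp continuous_fst).prodMk continuous_snd)
  exact (((continuous_snd.comp continuous_fst).sub h)).norm

theorem DD_le (g : OG (m + 1)) (y : EE m) {x : EE (m + 1)} (hx : x ∈ K) :
    DD K (g, y) ≤ ‖y - Pg g x‖ := by
  apply csInf_le
  · refine ⟨0, ?_⟩
    rintro _ ⟨z, _, rfl⟩
    exact norm_nonneg _
  · exact ⟨x, hx, rfl⟩

theorem DD_attained (hK : IsCompact K) (hne : K.Nonempty) (g : OG (m + 1)) (y : EE m) :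
    ∃ x ∈ K, DD K (g, y) = ‖y - Pg g x‖ := by
  have hc : Continuous (fun x : EE (m + 1) => ‖y - Pg g x‖) :=
    (continuous_const.sub (continuous_Pg.comp (continuous_const.prodMk continuous_id))).norm
  have h := (hK.image hc).sInf_mem (hne.image _)
  obtain ⟨x, hx, e⟩ := h
  exact ⟨x, hx, e.symm⟩

theorem DD_nonneg (g : OG (m + 1)) (y : EE m) : 0 ≤ DD K (g, y) := by
  apply Real.sInf_nonneg
  rintro _ ⟨z, _, rfl⟩
  exact norm_nonneg _

theorem DD_lip (hK : IsCompact K) (hne : K.Nonempty) (g : OG (m + 1)) (y y' : EE m) :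
    DD K (g, y) ≤ DD K (g, y') + ‖y - y'‖ := by
  obtain ⟨x, hx, e⟩ := DD_attained hK hne g y'
  rw [e]
  refine (DD_le g y hx).trans ?_
  calc ‖y - Pg g x‖ = ‖(y' - Pg g x) + (y - y')‖ := by congr 1; abel
    _ ≤ _ := norm_add_le _ _

theorem DD_of_mem (g : OG (m + 1)) {x : EE (m + 1)} (hx : x ∈ K) : DD K (g, Pg g x) = 0 := by
  apply le_antisymm _ (DD_nonneg g _)
  have := DD_le g (Pg g x) hx
  simpa using this

/-- The volume of the neighbourhood of the projection. -/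
noncomputable def VV (K : Set (EE (m + 1))) (ε : ℝ) (g : OG (m + 1)) : ℝ≥0∞ :=
  volume {y : EE m | DD K (g, y) < ε}

theorem measurable_VV (hK : IsCompact K) (ε : ℝ) : Measurable (VV K ε) := by
  have : MeasurableSet {p : OG (m + 1) × EE m | DD K p < ε} :=
    measurableSet_lt (continuous_DD hK).measurable measurable_const
  exact measurable_measure_prodMk_left this

theorem measurable_VVinv (hK : IsCompact K) (ε : ℝ) : Measurable (fun g => (VV K ε g)⁻¹) :=
  (measurable_VV hK ε).inv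

theorem VV_lower (hne : K.Nonempty) (ε : ℝ) (g : OG (m + 1)) :
    volume (Metric.ball (0 : EE m) ε) ≤ VV K ε g := by
  obtain ⟨x, hx⟩ := hne
  rw [← Measure.addHaar_ball_center volume (Pg g x) ε]
  apply measure_mono
  intro y hy
  rw [mem_ofPred_eq]
  refine lt_of_le_of_lt (DD_le g y hx) ?_
  rwa [mem_ball_iff_norm] at hy

theorem DD_lt_norm (hK : IsCompact K) (hne : K.Nonempty) {ρ : ℝ} (hρ : ∀ x ∈ K, ‖x‖ ≤ ρ) {ε : ℝ}
    {g : OG (m + 1)} {y : EE m} (h : DD K (g, y) < ε) : ‖y‖ < ρ + ε := by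
  obtain ⟨x, hx, e⟩ := DD_attained hK hne g y
  rw [e] at h
  calc ‖y‖ = ‖Pg g x + (y - Pg g x)‖ := by congr 1; abel
    _ ≤ ‖Pg g x‖ + ‖y - Pg g x‖ := norm_add_le _ _
    _ < ρ + ε := by linarith [norm_Pg_le g x, hρ x hx]

theorem VV_upper (hK : IsCompact K) (hne : K.Nonempty) {ρ : ℝ} (hρ : ∀ x ∈ K, ‖x‖ ≤ ρ) (ε : ℝ)
    (g : OG (m + 1)) : VV K ε g ≤ volume (Metric.ball (0 : EE m) (ρ + ε)) := by
  apply measure_mono
  intro y hy
  rw [mem_ball_zero_iff]
  exact DD_lt_norm hK hne hρ hy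

/-- The average of the inverse volumes. -/
noncomputable def Phi (K : Set (EE (m + 1))) (ε : ℝ) : ℝ≥0∞ := ∫⁻ g, (VV K ε g)⁻¹ ∂(muO (m + 1))

theorem Phi_ne_top (hne : K.Nonempty) {ε : ℝ} (hε : 0 < ε) : Phi K ε ≠ ∞ := by
  have : Phi K ε ≤ ∫⁻ _g, (volume (Metric.ball (0 : EE m) ε))⁻¹ ∂(muO (m + 1)) :=
    lintegral_mono fun g => ENNReal.inv_le_inv.mpr (VV_lower hne ε g)
  rw [lintegral_const, measure_univ, mul_one] at this
  refine ne_top_of_le_ne_top ?_ this
  rw [ENNReal.inv_ne_top]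
  exact (Metric.measure_ball_pos _ _ hε).ne'

theorem Phi_ne_zero (hK : IsCompact K) (hne : K.Nonempty) {ρ : ℝ} (hρ : ∀ x ∈ K, ‖x‖ ≤ ρ) (ε : ℝ) :
    Phi K ε ≠ 0 := by
  have : ∫⁻ _g, (volume (Metric.ball (0 : EE m) (ρ + ε)))⁻¹ ∂(muO (m + 1)) ≤ Phi K ε :=
    lintegral_mono fun g => ENNReal.inv_le_inv.mpr (VV_upper hK hne hρ ε g)
  rw [lintegral_const, measure_univ, mul_one] at this
  intro h
  rw [h, nonpos_iff_eq_zero, ENNReal.inv_eq_zero] at this
  exact measure_ball_lt_top.ne this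

/-- The test function. -/
noncomputable def gam (K : Set (EE (m + 1))) (ε : ℝ) (g : OG (m + 1)) (y : EE m) : ℝ≥0∞ :=
  (Phi K ε)⁻¹ * ((VV K ε g)⁻¹ * ENNReal.ofReal (1 - DD K (g, y) / ε))

theorem measurable_gam (hK : IsCompact K) (ε : ℝ) :
    Measurable (fun p : OG (m + 1) × EE m => gam K ε p.1 p.2) := by
  unfold gam
  apply Measurable.const_mul
  apply Measurable.mul
  · exact ((measurable_VV hK ε).comp measurable_fst).inv
  · apply Measurable.ennreal_ofReal
    exact measurable_const.sub ((continuous_DD hK).measurable.div_const _)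

theorem dp_gam (hK : IsCompact K) (hne : K.Nonempty) {ρ : ℝ} (hρ : ∀ x ∈ K, ‖x‖ ≤ ρ) {ε : ℝ}
    (hε : 0 < ε) : dp (gam K ε) (gam K ε) ≤ (Phi K ε)⁻¹ := by
  have hP0 := Phi_ne_zero hK hne hρ ε
  have hPt := Phi_ne_top hne hε
  have mV := measurable_VVinv hK ε
  have h1 : ∀ g : OG (m + 1), ∫⁻ y : EE m, gam K ε g y * gam K ε g y ≤
      (Phi K ε)⁻¹ * ((Phi K ε)⁻¹ * (VV K ε g)⁻¹) := by
    intro g
    have hV0 : VV K ε g ≠ 0 := by
      have h := VV_lower hne ε g
      intro h0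
      rw [h0, nonpos_iff_eq_zero] at h
      exact (Metric.measure_ball_pos _ _ hε).ne' h
    have hVt : VV K ε g ≠ ∞ := ne_top_of_le_ne_top measure_ball_lt_top.ne (VV_upper hK hne hρ ε g)
    have mS : MeasurableSet {y : EE m | DD K (g, y) < ε} :=
      measurableSet_lt ((continuous_DD hK).comp (continuous_const.prodMk continuous_id)).measurable
        measurable_const
    calc ∫⁻ y : EE m, gam K ε g y * gam K ε g y
        ≤ ∫⁻ y : EE m, indicator {y : EE m | DD K (g, y) < ε}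
            (fun _ => (Phi K ε)⁻¹ * (VV K ε g)⁻¹ * ((Phi K ε)⁻¹ * (VV K ε g)⁻¹)) y := by
          refine lintegral_mono fun y => ?_
          beta_reduce
          by_cases hy : DD K (g, y) < ε
          · rw [indicator_of_mem (by exact hy)]
            have hle : gam K ε g y ≤ (Phi K ε)⁻¹ * (VV K ε g)⁻¹ := by
              unfold gam
              apply mul_le_mul' le_rfl
              calc (VV K ε g)⁻¹ * ENNReal.ofReal (1 - DD K (g, y) / ε) ≤ (VV K ε g)⁻¹ * 1 := by
                    apply mul_le_mul' le_rfl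
                    rw [← ENNReal.ofReal_one]
                    apply ENNReal.ofReal_le_ofReal
                    have := DD_nonneg (K := K) g y
                    have : 0 ≤ DD K (g, y) / ε := by positivity
                    linarith
                _ = _ := mul_one _
            exact mul_le_mul' hle hle
          · rw [indicator_of_notMem (by exact hy)]
            unfold gam
            have : 1 - DD K (g, y) / ε ≤ 0 := by
              rw [not_lt] at hy
              have : 1 ≤ DD K (g, y) / ε := by rw [le_div_iff₀ hε]; linarith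
              linarith
            rw [ENNReal.ofReal_of_nonpos this]
            simp
      _ = ((Phi K ε)⁻¹ * (VV K ε g)⁻¹ * ((Phi K ε)⁻¹ * (VV K ε g)⁻¹)) * VV K ε g := by
          rw [lintegral_indicator_const mS]
          rfl
      _ = (Phi K ε)⁻¹ * ((Phi K ε)⁻¹ * (VV K ε g)⁻¹) * ((VV K ε g)⁻¹ * VV K ε g) := by ring
      _ = _ := by rw [ENNReal.inv_mul_cancel hV0 hVt, mul_one]
  calc dp (gam K ε) (gam K ε) ≤ ∫⁻ g, (Phi K ε)⁻¹ * ((Phi K ε)⁻¹ * (VV K ε g)⁻¹) ∂(muO (m + 1)) :=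
        lintegral_mono h1
    _ = (Phi K ε)⁻¹ * ((Phi K ε)⁻¹ * Phi K ε) := by
        rw [lintegral_const_mul _ (mV.const_mul _), lintegral_const_mul _ mV]
        rfl
    _ = _ := by rw [ENNReal.inv_mul_cancel hP0 hPt, mul_one]

theorem adj_gam_le (hK : IsCompact K) (hne : K.Nonempty) {ρ : ℝ} (hρ : ∀ x ∈ K, ‖x‖ ≤ ρ) {ε : ℝ}
    (hε : 0 < ε) (x : EE (m + 1)) : adj (gam K ε) x ≤ 1 := by
  have hP0 := Phi_ne_zero hK hne hρ ε
  have hPt := Phi_ne_top hne hε
  have mV := measurable_VVinv hK ε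
  calc adj (gam K ε) x ≤ ∫⁻ g, (Phi K ε)⁻¹ * (VV K ε g)⁻¹ ∂(muO (m + 1)) := by
        refine lintegral_mono fun g => ?_
        unfold gam
        apply mul_le_mul' le_rfl
        calc _ ≤ (VV K ε g)⁻¹ * 1 := by
              apply mul_le_mul' le_rfl
              rw [← ENNReal.ofReal_one]
              apply ENNReal.ofReal_le_ofReal
              have := DD_nonneg (K := K) g (proj (actE (m + 1) g⁻¹ x))
              have : 0 ≤ DD K (g, proj (actE (m + 1) g⁻¹ x)) / ε := by positivity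
              linarith
          _ = _ := mul_one _
    _ = (Phi K ε)⁻¹ * Phi K ε := by rw [lintegral_const_mul _ mV]; rfl
    _ = 1 := ENNReal.inv_mul_cancel hP0 hPt

theorem adj_gam_mem (hK : IsCompact K) (hne : K.Nonempty) {ρ : ℝ} (hρ : ∀ x ∈ K, ‖x‖ ≤ ρ) {ε : ℝ}
    (hε : 0 < ε) {x : EE (m + 1)} (hx : x ∈ K) : adj (gam K ε) x = 1 := by
  have hP0 := Phi_ne_zero hK hne hρ ε
  have hPt := Phi_ne_top hne hε
  have mV := measurable_VVinv hK ε
  have e : ∀ g : OG (m + 1), gam K ε g (proj (actE (m + 1) g⁻¹ x)) = (Phi K ε)⁻¹ * (VV K ε g)⁻¹ := by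
    intro g
    unfold gam
    have : DD K (g, proj (actE (m + 1) g⁻¹ x)) = 0 := DD_of_mem g hx
    rw [this]
    simp
  unfold adj
  simp only [e]
  rw [lintegral_const_mul _ mV]
  exact ENNReal.inv_mul_cancel hP0 hPt

theorem adj_gam_lip (hK : IsCompact K) (hne : K.Nonempty) {ρ : ℝ} (hρ : ∀ x ∈ K, ‖x‖ ≤ ρ) {ε : ℝ}
    (hε : 0 < ε) (x x' : EE (m + 1)) :
    adj (gam K ε) x ≤ adj (gam K ε) x' + ENNReal.ofReal (ε⁻¹ * ‖x - x'‖) := by
  have hP0 := Phi_ne_zero hK hne hρ ε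
  have hPt := Phi_ne_top hne hε
  have mV := measurable_VVinv hK ε
  have h1 : ∫⁻ g, (Phi K ε)⁻¹ * ((VV K ε g)⁻¹ * ENNReal.ofReal (ε⁻¹ * ‖x - x'‖)) ∂(muO (m + 1)) =
      ENNReal.ofReal (ε⁻¹ * ‖x - x'‖) := by
    rw [lintegral_const_mul _ (mV.mul_const _), lintegral_mul_const _ mV, ← mul_assoc]
    change (Phi K ε)⁻¹ * Phi K ε * _ = _
    rw [ENNReal.inv_mul_cancel hP0 hPt, one_mul]
  rw [← h1]
  unfold adj
  rw [← lintegral_add_right _ ((mV.mul_const _).const_mul _)]
  refine lintegral_mono fun g => ?_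
  beta_reduce
  unfold gam
  rw [← mul_add, ← mul_add]
  apply mul_le_mul' le_rfl
  apply mul_le_mul' le_rfl
  rw [← sub_add_cancel (1 - DD K (g, proj (actE (m + 1) g⁻¹ x)) / ε)
    (1 - DD K (g, proj (actE (m + 1) g⁻¹ x')) / ε)]
  rw [add_comm]
  refine ENNReal.ofReal_add_le.trans ?_
  apply add_le_add le_rfl
  apply ENNReal.ofReal_le_ofReal
  have h2 := DD_lip hK hne g (proj (actE (m + 1) g⁻¹ x')) (proj (actE (m + 1) g⁻¹ x))
  have h3 : ‖proj (actE (m + 1) g⁻¹ x') - proj (actE (m + 1) g⁻¹ x)‖ ≤ ‖x - x'‖ := by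
    have := norm_Pg_le g (x' - x)
    rw [← Pg_sub] at this
    rw [norm_sub_rev x x']
    exact this
  have h4 : DD K (g, proj (actE (m + 1) g⁻¹ x')) / ε ≤
      (DD K (g, proj (actE (m + 1) g⁻¹ x)) + ‖x - x'‖) / ε := by
    gcongr
    linarith
  rw [add_div] at h4
  rw [inv_mul_eq_div]
  linarith

end Pool.Agent.H68.Cap
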