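import Mathlib
import Pool.Agent.H68.C13Hyper

open MeasureTheory Set
open scoped ENNReal NNReal

namespace Pool.Agent.H68.Cap

variable {m : ℕ}

/-- Indicator of a closed ball. -/
noncomputable def ind1 (R : ℝ) (x : EE (m + 1)) : ℝ≥0∞ := if ‖x‖ ≤ R then 1 else 0

theorem measurable_ind1 (R : ℝ) : Measurable (ind1 R : EE (m + 1) → ℝ≥0∞) := by
  unfold ind1
  exact Measurable.ite (measurableSet_le (by fun_prop) (by fun_prop)) measurable_const measurable_const

theorem two_mul_le_KK {ρ : ℝ} (hρ : 0 ≤ ρ) (x : EE (m + 1)) :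
    2 * muO (m + 1) {g | ‖Pg g x‖ ≤ ρ} ≤ KK (ind1 (ρ + 1)) x := by
  have mS : MeasurableSet {g : OG (m + 1) | ‖Pg g x‖ ≤ ρ} := by
    apply measurableSet_le _ measurable_const
    exact (continuous_Pg.comp (continuous_id.prodMk continuous_const)).norm.measurable
  rw [← lintegral_indicator_const mS]
  unfold KK
  refine lintegral_mono fun g => ?_
  by_cases hg : ‖Pg g x‖ ≤ ρ
  · rw [indicator_of_mem (by exact hg)]
    set y := Pg g x with hy
    set t0 : ℝ := (actE (m + 1) g⁻¹ x) (Fin.last m) with ht0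
    have hx : x = actE (m + 1) g (join y t0) := by
      rw [hy, ht0]
      unfold Pg
      rw [join_proj, act_inv, LinearIsometryEquiv.apply_symm_apply]
    have hin : ∀ s ∈ Icc (-t0 - 1) (-t0 + 1), ind1 (ρ + 1) (x + s • actE (m + 1) g e0) = 1 := by
      intro s hs
      unfold ind1
      rw [if_pos]
      rw [hx, ← act_join_add, LinearIsometryEquiv.norm_map, ← sq_le_sq₀ (norm_nonneg _) (by linarith),
        norm_join]
      have h1 : (t0 + s) ^ 2 ≤ 1 := by
        rw [sq_le_one_iff_abs_le_one, abs_le]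
        constructor <;> linarith [hs.1, hs.2]
      have h2 : ‖y‖ ^ 2 ≤ ρ ^ 2 := by
        apply pow_le_pow_left₀ (norm_nonneg _) hg
      nlinarith
    calc (2 : ℝ≥0∞) = volume (Icc (-t0 - 1) (-t0 + 1)) := by
          rw [Real.volume_Icc]
          rw [show -t0 + 1 - (-t0 - 1) = 2 by ring]
          simp
      _ = ∫⁻ s in Icc (-t0 - 1) (-t0 + 1), 1 := by rw [setLIntegral_one]
      _ = ∫⁻ s in Icc (-t0 - 1) (-t0 + 1), ind1 (ρ + 1) (x + s • actE (m + 1) g e0) := by
          rw [setLIntegral_congr_fun measurableSet_Icc]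
          intro s hs
          exact (hin s hs).symm
      _ ≤ _ := setLIntegral_le_lintegral _ _
  · rw [indicator_of_notMem (by exact hg)]
    exact zero_le

theorem KK_decay {R s : ℝ} (hs : 0 < s) (x : EE (m + 1)) (hx : R + s ≤ ‖x‖) :
    ENNReal.ofReal (s ^ m) * (C1 m * KK (ind1 R) x) ≤
      2 * (volume (Metric.closedBall (0 : EE (m + 1)) R) * uu (m + 1) 1) := by
  have hu := uu_scale (d := m + 1) (by omega) hs
  rw [Nat.add_sub_cancel] at hu
  rw [KK_eq (measurable_ind1 R)]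
  have h1 : ∫⁻ z : EE (m + 1), ind1 R (x + z) * uu (m + 1) ‖z‖ ≤
      ∫⁻ z : EE (m + 1), ind1 R (x + z) * uu (m + 1) s := by
    refine lintegral_mono fun z => ?_
    beta_reduce
    by_cases hz : ‖x + z‖ ≤ R
    · apply mul_le_mul' le_rfl
      apply uu_anti _ hs.le
      have : ‖x‖ ≤ ‖x + z‖ + ‖z‖ := by
        calc ‖x‖ = ‖(x + z) - z‖ := by congr 1; abel
          _ ≤ _ := norm_sub_le _ _
      linarith
    · unfold ind1
      rw [if_neg hz]; simp
  have h2 : ∫⁻ z : EE (m + 1), ind1 R (x + z) * uu (m + 1) s =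
      volume (Metric.closedBall (0 : EE (m + 1)) R) * uu (m + 1) s := by
    rw [lintegral_mul_const]
    · congr 1
      rw [lintegral_add_left_eq_self (fun z => ind1 R z) x,
        ← lintegral_indicator_one Metric.isClosed_closedBall.measurableSet]
      congr 1
      ext z
      unfold ind1
      by_cases hz : ‖z‖ ≤ R
      · rw [if_pos hz, indicator_of_mem (by simpa using hz)]; rfl
      · rw [if_neg hz, indicator_of_notMem (by simpa using hz)]
    · exact (measurable_ind1 R).comp (by fun_prop)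
  calc ENNReal.ofReal (s ^ m) * (2 * ∫⁻ z : EE (m + 1), ind1 R (x + z) * uu (m + 1) ‖z‖)
      ≤ ENNReal.ofReal (s ^ m) * (2 * (volume (Metric.closedBall (0 : EE (m + 1)) R) * uu (m + 1) s)) := by
        rw [← h2]
        gcongr
    _ = 2 * (volume (Metric.closedBall (0 : EE (m + 1)) R) * (ENNReal.ofReal (s ^ m) * uu (m + 1) s)) := by
        ring
    _ = _ := by rw [hu]

theorem mu_decay (hm : 1 ≤ m) {ρ : ℝ} (hρ : 0 ≤ ρ) {C : ℝ≥0∞} (hC : C ≠ ∞) {δ : ℝ} (hδ : 0 < δ) :
    ∃ r : ℝ, ∀ x : EE (m + 1), r < ‖x‖ → C * muO (m + 1) {g | ‖Pg g x‖ ≤ ρ} ≤ ENNReal.ofReal δ := by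
  set A : ℝ≥0∞ := 2 * (volume (Metric.closedBall (0 : EE (m + 1)) (ρ + 1)) * uu (m + 1) 1) with hA
  have hAt : A ≠ ∞ := ENNReal.mul_ne_top (by simp)
    (ENNReal.mul_ne_top measure_closedBall_lt_top.ne (uu_one_ne_top (by omega)))
  have hC1 := C1_ne_zero (m := m)
  have hC1t := C1_ne_top hm
  have ht : Filter.Tendsto (fun s : ℝ => C * (A / (C1 m * ENNReal.ofReal (s ^ m)))) Filter.atTop
      (nhds 0) := by
    have h1 : Filter.Tendsto (fun s : ℝ => ENNReal.ofReal (s ^ m)) Filter.atTop (nhds ∞) :=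
      ENNReal.tendsto_ofReal_atTop.comp (Filter.tendsto_pow_atTop (by omega))
    have h2 : Filter.Tendsto (fun s : ℝ => C1 m * ENNReal.ofReal (s ^ m)) Filter.atTop (nhds ∞) := by
      have := ENNReal.Tendsto.const_mul (a := C1 m) h1 (Or.inl (by simp))
      rwa [ENNReal.mul_top hC1] at this
    have h3 : Filter.Tendsto (fun s : ℝ => A / (C1 m * ENNReal.ofReal (s ^ m))) Filter.atTop (nhds 0) := by
      have := ENNReal.Tendsto.div (tendsto_const_nhds (x := A)) (Or.inr (by simp)) h2 (Or.inr hAt)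
      simpa using this
    have := ENNReal.Tendsto.const_mul (a := C) h3 (Or.inr hC)
    simpa using this
  have hpos : (0 : ℝ≥0∞) < ENNReal.ofReal δ := by simpa using hδ
  obtain ⟨s, hs1, hs0⟩ := ((ht.eventually (gt_mem_nhds hpos)).and (Filter.eventually_gt_atTop 0)).exists
  refine ⟨ρ + 1 + s, fun x hx => ?_⟩
  refine le_trans ?_ hs1.le
  apply mul_le_mul' le_rfl
  have hd := KK_decay (R := ρ + 1) hs0 x hx.le
  rw [← hA] at hd
  have h2 := two_mul_le_KK hρ x
  have hsm : ENNReal.ofReal (s ^ m) ≠ 0 := by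
    have : 0 < s ^ m := by positivity
    simpa using this
  rw [ENNReal.le_div_iff_mul_le (Or.inl (mul_ne_zero hC1 hsm))
    (Or.inl (ENNReal.mul_ne_top hC1t ENNReal.ofReal_ne_top))]
  calc muO (m + 1) {g | ‖Pg g x‖ ≤ ρ} * (C1 m * ENNReal.ofReal (s ^ m))
      ≤ (2 * muO (m + 1) {g | ‖Pg g x‖ ≤ ρ}) * (C1 m * ENNReal.ofReal (s ^ m)) := by
        gcongr
        rw [two_mul]; exact le_self_add
    _ ≤ KK (ind1 (ρ + 1)) x * (C1 m * ENNReal.ofReal (s ^ m)) := by gcongr
    _ = ENNReal.ofReal (s ^ m) * (C1 m * KK (ind1 (ρ + 1)) x) := by ring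
    _ ≤ A := hd

variable {K : Set (EE (m + 1))}

theorem adj_gam_decay (hm : 1 ≤ m) (hK : IsCompact K) (hne : K.Nonempty) {ρ : ℝ}
    (hρ : ∀ x ∈ K, ‖x‖ ≤ ρ) {ε : ℝ} (hε : 0 < ε) {δ : ℝ} (hδ : 0 < δ) :
    ∃ r : ℝ, ∀ x : EE (m + 1), r < ‖x‖ → adj (gam K ε) x ≤ ENNReal.ofReal δ := by
  have hP0 := Phi_ne_zero hK hne hρ ε
  have hρ0 : 0 ≤ ρ := by
    obtain ⟨x, hx⟩ := hne
    exact (norm_nonneg x).trans (hρ x hx)
  set v0 := volume (Metric.ball (0 : EE m) ε) with hv0
  have hv : v0 ≠ 0 := (Metric.measure_ball_pos _ _ hε).ne'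
  obtain ⟨r, hr⟩ := mu_decay hm (ρ := ρ + ε) (by linarith) (C := (Phi K ε)⁻¹ * v0⁻¹)
    (ENNReal.mul_ne_top (ENNReal.inv_ne_top.mpr hP0) (ENNReal.inv_ne_top.mpr hv)) hδ
  refine ⟨r, fun x hx => le_trans ?_ (hr x hx)⟩
  have mS : MeasurableSet {g : OG (m + 1) | ‖Pg g x‖ ≤ ρ + ε} := by
    apply measurableSet_le _ measurable_const
    exact (continuous_Pg.comp (continuous_id.prodMk continuous_const)).norm.measurable
  rw [← lintegral_indicator_const mS]
  refine lintegral_mono fun g => ?_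
  beta_reduce
  by_cases hg : ‖Pg g x‖ ≤ ρ + ε
  · rw [indicator_of_mem (by exact hg)]
    unfold gam
    apply mul_le_mul' le_rfl
    calc _ ≤ (VV K ε g)⁻¹ * 1 := by
          apply mul_le_mul' le_rfl
          rw [← ENNReal.ofReal_one]
          apply ENNReal.ofReal_le_ofReal
          have := DD_nonneg (K := K) g (proj (actE (m + 1) g⁻¹ x))
          have : 0 ≤ DD K (g, proj (actE (m + 1) g⁻¹ x)) / ε := by positivity
          linarith
      _ = (VV K ε g)⁻¹ := mul_one _
      _ ≤ v0⁻¹ := ENNReal.inv_le_inv.mpr (VV_lower hne ε g)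
  · rw [indicator_of_notMem (by exact hg)]
    have h1 : ¬ DD K (g, Pg g x) < ε := by
      intro h
      exact hg (DD_lt_norm hK hne hρ h).le
    rw [not_lt] at h1
    have h2 : 1 - DD K (g, proj (actE (m + 1) g⁻¹ x)) / ε ≤ 0 := by
      have : 1 ≤ DD K (g, proj (actE (m + 1) g⁻¹ x)) / ε := by rw [le_div_iff₀ hε, one_mul]; exact h1
      linarith
    unfold gam
    rw [ENNReal.ofReal_of_nonpos h2]
    simp

theorem Phi_le (hm : 1 ≤ m) (hK : IsCompact K) (hne : K.Nonempty) {R : ℝ} (hR : 0 < R)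
    (hKR : volume (Metric.ball (0 : EE (m + 1)) R) ≤ volume K) {ε : ℝ} (hε : 0 < ε) :
    Phi K ε ≤ (volume (Metric.ball (0 : EE m) R))⁻¹ := by
  obtain ⟨ρ, hρ⟩ := hK.isBounded.exists_norm_le
  have ha1 : ∀ x, adj (gam K ε) x ≤ 1 := adj_gam_le hK hne hρ hε
  have hat : ∀ x, adj (gam K ε) x ≠ ∞ := fun x => ne_top_of_le_ne_top (by simp) (ha1 x)
  have h := core hm (Λ := ε⁻¹) (by positivity) hR (measurable_gam hK ε)
    (φ := fun x => (adj (gam K ε) x).toReal) (fun x => (ENNReal.ofReal_toReal (hat x)).symm)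
    (fun x => ENNReal.toReal_nonneg) (fun x => ?_) (fun x y => ?_) (fun δ hδ => ?_)
    hK.measurableSet (fun x hx => ?_) hKR
  · have := h.trans (dp_gam hK hne hρ hε)
    exact ENNReal.le_inv_iff_le_inv.mp this
  · rw [← ENNReal.toReal_one]
    exact ENNReal.toReal_mono (by simp) (ha1 x)
  · have := adj_gam_lip hK hne hρ hε x y
    have h2 := ENNReal.toReal_mono (ENNReal.add_ne_top.mpr ⟨hat y, ENNReal.ofReal_ne_top⟩) this
    rwa [ENNReal.toReal_add (hat y) ENNReal.ofReal_ne_top, ENNReal.toReal_ofReal (by positivity)] at h2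
  · obtain ⟨r, hr⟩ := adj_gam_decay hm hK hne hρ hε hδ
    refine ⟨r, fun x hx => ?_⟩
    have := ENNReal.toReal_mono ENNReal.ofReal_ne_top (hr x hx)
    rwa [ENNReal.toReal_ofReal hδ.le] at this
  · rw [adj_gam_mem hK hne hρ hε hx]; simp

/-- The hyperplane projection inequality for compact sets. -/
theorem hyper (hm : 1 ≤ m) (hK : IsCompact K) (hne : K.Nonempty) {R : ℝ} (hR : 0 < R)
    (hKR : volume (Metric.ball (0 : EE (m + 1)) R) ≤ volume K) :
    ∫⁻ g, (volume (Pg g '' K))⁻¹ ∂(muO (m + 1)) ≤ (volume (Metric.ball (0 : EE m) R))⁻¹ := by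
  have hmono : ∀ g : OG (m + 1), ∀ i j : ℕ, i ≤ j →
      VV K ((1 : ℝ) / (j + 1)) g ≤ VV K ((1 : ℝ) / (i + 1)) g := by
    intro g i j hij
    apply measure_mono
    intro y hy
    simp only [mem_ofPred_eq] at hy ⊢
    refine lt_of_lt_of_le hy ?_
    exact Nat.one_div_le_one_div hij
  have hinf : ∀ g : OG (m + 1), (volume (Pg g '' K))⁻¹ = ⨆ j : ℕ, (VV K ((1 : ℝ) / (j + 1)) g)⁻¹ := by
    intro g
    rw [← ENNReal.inv_iInf]
    congr 1
    have hset : Pg g '' K = ⋂ j : ℕ, {y : EE m | DD K (g, y) < (1 : ℝ) / (j + 1)} := by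
      ext y
      simp only [mem_image, mem_iInter, mem_ofPred_eq]
      constructor
      · rintro ⟨x, hx, rfl⟩ j
        rw [DD_of_mem g hx]
        positivity
      · intro h
        obtain ⟨x, hx, e⟩ := DD_attained hK hne g y
        refine ⟨x, hx, ?_⟩
        have h0 : ‖y - Pg g x‖ ≤ 0 := by
          by_contra hcon
          rw [not_le] at hcon
          obtain ⟨j, hj⟩ := exists_nat_one_div_lt hcon
          have := h j
          rw [e] at this
          exact lt_asymm this hj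
        have h1 : y - Pg g x = 0 := norm_le_zero_iff.mp h0
        exact (sub_eq_zero.mp h1).symm
    rw [hset]
    obtain ⟨ρ, hρ⟩ := hK.isBounded.exists_norm_le
    rw [Antitone.measure_iInter]
    · rfl
    · intro i j hij y hy
      simp only [mem_ofPred_eq] at hy ⊢
      exact lt_of_lt_of_le hy (Nat.one_div_le_one_div hij)
    · intro j
      apply MeasurableSet.nullMeasurableSet
      exact measurableSet_lt ((continuous_DD hK).comp (continuous_const.prodMk continuous_id)).measurable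
        measurable_const
    · refine ⟨0, ?_⟩
      exact ne_top_of_le_ne_top measure_ball_lt_top.ne (VV_upper hK hne hρ _ g)
  simp only [hinf]
  rw [lintegral_iSup]
  · apply iSup_le
    intro j
    exact Phi_le hm hK hne hR hKR (by positivity)
  · intro j
    exact measurable_VVinv hK _
  · intro i j hij g
    exact ENNReal.inv_le_inv.mpr (hmono g i j hij)

end Pool.Agent.H68.Cap
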