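import Mathlib
import Pool.Agent.H68.C14Decay

open MeasureTheory Set
open scoped ENNReal NNReal

namespace Pool.Agent.H68.Cap

variable {m : ℕ}

/-- The block matrix `diag(h, 1)`. -/
noncomputable def embM (h : Matrix (Fin m) (Fin m) ℝ) : Matrix (Fin (m + 1)) (Fin (m + 1)) ℝ :=
  fun i j => Fin.lastCases (motive := fun _ => ℝ)
    (Fin.lastCases (motive := fun _ => ℝ) 1 (fun _ => 0) j)
    (fun i' => Fin.lastCases (motive := fun _ => ℝ) 0 (fun j' => h i' j') j) i

@[simp] theorem embM_ll (h : Matrix (Fin m) (Fin m) ℝ) : embM h (Fin.last m) (Fin.last m) = 1 := by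
  simp [embM]

@[simp] theorem embM_lc (h : Matrix (Fin m) (Fin m) ℝ) (j : Fin m) :
    embM h (Fin.last m) (Fin.castSucc j) = 0 := by simp [embM]

@[simp] theorem embM_cl (h : Matrix (Fin m) (Fin m) ℝ) (i : Fin m) :
    embM h (Fin.castSucc i) (Fin.last m) = 0 := by simp [embM]

@[simp] theorem embM_cc (h : Matrix (Fin m) (Fin m) ℝ) (i j : Fin m) :
    embM h (Fin.castSucc i) (Fin.castSucc j) = h i j := by simp [embM]

theorem embM_mul_star {h : Matrix (Fin m) (Fin m) ℝ} (hh : h * Star.star h = 1) :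
    embM h * Star.star (embM h) = 1 := by
  ext i j
  rw [Matrix.mul_apply, Fin.sum_univ_castSucc]
  simp only [Matrix.star_apply, star_trivial]
  refine Fin.lastCases ?_ (fun i => ?_) i <;> refine Fin.lastCases ?_ (fun j => ?_) j
  · simp
  · simp [ne_of_gt]
  · simp [ne_of_lt]
  · have := congrFun (congrFun hh i) j
    rw [Matrix.mul_apply] at this
    simp only [Matrix.star_apply, star_trivial] at this
    simp only [embM_cc, embM_cl, mul_zero, add_zero, this, Matrix.one_apply, Fin.castSucc_inj]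

/-- The embedding of `O(m)` in `O(m+1)`. -/
noncomputable def emb (h : OG m) : OG (m + 1) :=
  ⟨embM h.1, (Matrix.mem_orthogonalGroup_iff _ _).mpr
    (embM_mul_star ((Matrix.mem_orthogonalGroup_iff _ _).mp h.2))⟩

theorem continuous_emb : Continuous (emb : OG m → OG (m + 1)) := by
  apply Continuous.subtype_mk
  apply continuous_matrix
  intro i j
  refine Fin.lastCases ?_ (fun i => ?_) i <;> refine Fin.lastCases ?_ (fun j => ?_) j
  · simp only [embM_ll]; exact continuous_const
  · simp only [embM_lc]; exact continuous_const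
  · simp only [embM_cl]; exact continuous_const
  · simp only [embM_cc]
    exact (continuous_subtype_val : Continuous fun h : OG m => h.1).matrix_elem i j

theorem act_emb (h : OG m) (y : EE m) (t : ℝ) :
    actE (m + 1) (emb h) (join y t) = join (actE m h y) t := by
  rw [actE_apply, actE_apply]
  ext j
  refine Fin.lastCases ?_ (fun j => ?_) j
  · simp only [join_last, Matrix.mulVec, dotProduct, emb, Fin.sum_univ_castSucc, embM_lc, embM_ll]
    simp [join]
  · simp only [join_castSucc, Matrix.mulVec, dotProduct, emb, Fin.sum_univ_castSucc, embM_cc, embM_cl]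
    simp [join]

theorem proj_emb_inv (h : OG m) (x : EE (m + 1)) :
    proj (actE (m + 1) (emb h)⁻¹ x) = actE m h⁻¹ (proj x) := by
  have h1 : actE (m + 1) (emb h)⁻¹ x = join (actE m h⁻¹ (proj x)) (x (Fin.last m)) := by
    rw [act_inv, LinearIsometryEquiv.symm_apply_eq, act_emb, act_inv,
      LinearIsometryEquiv.apply_symm_apply, join_proj]
  rw [h1, proj_join]

/-- The projection on the first `i` coordinates. -/
noncomputable def pr {i n : ℕ} (h : i ≤ n) (x : EE n) : EE i :=
  WithLp.toLp 2 (fun j => x (Fin.castLE h j))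

theorem continuous_pr {i n : ℕ} (h : i ≤ n) : Continuous (pr h) := by
  unfold pr; fun_prop

theorem pr_proj {i : ℕ} (h : i ≤ m) (x : EE (m + 1)) :
    pr (h.trans (Nat.le_succ m)) x = pr h (proj x) := rfl

/-- The coordinates of the projection of `x` on the subspace `g S₀`. -/
noncomputable def QQ {i n : ℕ} (h : i ≤ n) (g : OG n) (x : EE n) : EE i := pr h (actE n g⁻¹ x)

theorem continuous_QQ {i n : ℕ} (h : i ≤ n) : Continuous (fun p : OG n × EE n => QQ h p.1 p.2) :=
  (continuous_pr h).comp (cont_act (continuous_inv.comp continuous_fst) continuous_snd)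

theorem QQ_emb {i : ℕ} (h : i ≤ m) (g : OG (m + 1)) (k : OG m) (x : EE (m + 1)) :
    QQ (h.trans (Nat.le_succ m)) (g * emb k) x = QQ h k (Pg g x) := by
  unfold QQ Pg
  rw [mul_inv_rev, act_mul, pr_proj, proj_emb_inv]

theorem measurable_vol {n i : ℕ} {q : OG n → EE n → EE i}
    (hq : Continuous (fun p : OG n × EE n => q p.1 p.2)) {K : Set (EE n)} (hK : IsCompact K) :
    Measurable (fun g => volume (q g '' K)) := by
  have hc : IsCompact ((fun p : OG n × EE n => (p.1, q p.1 p.2)) '' (univ ×ˢ K)) :=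
    (isCompact_univ.prod hK).image (continuous_fst.prodMk hq)
  have h1 := measurable_measure_prodMk_left (ν := (volume : Measure (EE i)))
    hc.isClosed.measurableSet
  have e : (fun g => volume (q g '' K)) = fun g => volume (Prod.mk g ⁻¹'
      ((fun p : OG n × EE n => (p.1, q p.1 p.2)) '' (univ ×ˢ K))) := by
    funext g
    congr 1
    ext y
    simp only [mem_image, mem_preimage, mem_prod, mem_univ, true_and, Prod.exists, Prod.mk.injEq]
    constructor
    · rintro ⟨x, hx, rfl⟩; exact ⟨g, x, hx, rfl, rfl⟩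
    · rintro ⟨g', x, hx, rfl, rfl⟩; exact ⟨x, hx, rfl⟩
  rw [e]
  exact h1

theorem average {F : OG (m + 1) → ℝ≥0∞} (hF : Measurable F) :
    ∫⁻ g, F g ∂(muO (m + 1)) = ∫⁻ g, (∫⁻ k, F (g * emb k) ∂(muO m)) ∂(muO (m + 1)) := by
  have hc : Continuous (fun p : OG (m + 1) × OG m => p.1 * emb p.2) :=
    continuous_fst.mul (continuous_emb.comp continuous_snd)
  rw [lintegral_lintegral_swap]
  · have : ∀ k : OG m, ∫⁻ g, F (g * emb k) ∂(muO (m + 1)) = ∫⁻ g, F g ∂(muO (m + 1)) := fun k =>
      lintegral_mul_right_eq_self F (emb k)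
    simp only [this]
    rw [lintegral_const, measure_univ, mul_one]
  · exact (hF.comp hc.measurable).aemeasurable

theorem jensen {X : Type*} [MeasurableSpace X] (μ : Measure X) [IsProbabilityMeasure μ]
    {f : X → ℝ≥0∞} (hf : Measurable f) {p : ℝ} (hp : 0 < p) (hp1 : p ≤ 1) :
    ∫⁻ x, f x ^ p ∂μ ≤ (∫⁻ x, f x ∂μ) ^ p := by
  have h := eLpNorm'_le_eLpNorm'_of_exponent_le (f := f) hp hp1 μ hf.aestronglyMeasurable
  unfold eLpNorm' at h
  simp only [enorm_eq_self, ENNReal.rpow_one, div_one] at h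
  have h2 := ENNReal.rpow_le_rpow h hp.le
  rwa [← ENNReal.rpow_mul, one_div, inv_mul_cancel₀ hp.ne', ENNReal.rpow_one] at h2

/-- The volume of the unit ball. -/
noncomputable def kap (k : ℕ) : ℝ≥0∞ := volume (Metric.ball (0 : EE k) 1)

theorem kap_ne_zero (k : ℕ) : kap k ≠ 0 := (Metric.measure_ball_pos _ _ one_pos).ne'

theorem kap_ne_top (k : ℕ) : kap k ≠ ∞ := measure_ball_lt_top.ne

theorem ball_vol {k : ℕ} {R : ℝ} (hR : 0 < R) :
    volume (Metric.ball (0 : EE k) R) = ENNReal.ofReal R ^ k * kap k := by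
  rw [Measure.addHaar_ball_of_pos _ _ hR, finrank_euclideanSpace_fin, ENNReal.ofReal_pow hR.le]
  rfl

theorem radial_rel {i k : ℕ} (hk : 1 ≤ k) {R : ℝ} (hR : 0 < R) :
    volume (Metric.ball (0 : EE i) R) =
      kap i * (volume (Metric.ball (0 : EE k) R) / kap k) ^ ((i : ℝ) / k) := by
  rw [ball_vol hR, ball_vol hR, ENNReal.mul_div_cancel_right (kap_ne_zero k) (kap_ne_top k),
    ← ENNReal.rpow_natCast, ← ENNReal.rpow_natCast, ← ENNReal.rpow_mul, mul_comm]
  congr 2
  have : (k : ℝ) ≠ 0 := by positivity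
  field_simp

theorem exists_radius {k : ℕ} (hk : 1 ≤ k) {v : ℝ≥0∞} (hv : v ≠ 0) (hv2 : v ≠ ∞) :
    ∃ R : ℝ, 0 < R ∧ volume (Metric.ball (0 : EE k) R) = v := by
  have hk0 : (0 : ℝ) < k := by positivity
  have h1 : (v / kap k) ^ (1 / (k : ℝ)) ≠ ∞ := by
    apply ENNReal.rpow_ne_top_of_nonneg (by positivity)
    exact ENNReal.div_ne_top hv2 (kap_ne_zero k)
  have h2 : (v / kap k) ^ (1 / (k : ℝ)) ≠ 0 := by
    intro h
    rw [ENNReal.rpow_eq_zero_iff_of_pos (by positivity)] at h
    rcases ENNReal.div_eq_zero_iff.mp h with h | h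
    · exact hv h
    · exact kap_ne_top k h
  refine ⟨((v / kap k) ^ (1 / (k : ℝ))).toReal, ENNReal.toReal_pos h2 h1, ?_⟩
  rw [ball_vol (ENNReal.toReal_pos h2 h1), ENNReal.ofReal_toReal h1, ← ENNReal.rpow_natCast,
    ← ENNReal.rpow_mul, one_div_mul_cancel hk0.ne', ENNReal.rpow_one]
  exact ENNReal.div_mul_cancel (kap_ne_zero k) (kap_ne_top k)

theorem G_eq (i k : ℕ) {p : ℝ} (hp : 0 ≤ p) (v : ℝ≥0∞) :
    (kap i * (v / kap k) ^ p)⁻¹ = (kap i)⁻¹ * (kap k ^ p * (v⁻¹) ^ p) := by
  rw [ENNReal.mul_inv (Or.inl (kap_ne_zero i)) (Or.inl (kap_ne_top i)), ← ENNReal.inv_rpow,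
    ENNReal.inv_div (Or.inl (kap_ne_top k)) (Or.inl (kap_ne_zero k)), ENNReal.div_eq_inv_mul,
    ENNReal.mul_rpow_of_nonneg _ _ hp, mul_comm (kap k ^ p)]

theorem flag {i : ℕ} (hi : 1 ≤ i) : ∀ n (h : i ≤ n) (K : Set (EE n)), IsCompact K → K.Nonempty →
    ∀ R : ℝ, 0 < R → volume (Metric.ball (0 : EE n) R) ≤ volume K →
      ∫⁻ g, (volume (QQ h g '' K))⁻¹ ∂(muO n) ≤ (volume (Metric.ball (0 : EE i) R))⁻¹ := by
  intro n h
  induction n, h using Nat.le_induction with
  | base =>
    intro K hK _ R _ hKR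
    have e : ∀ g : OG i, volume (QQ le_rfl g '' K) = volume K := by
      intro g
      have : QQ (le_refl i) g = ⇑(actE i g⁻¹) := by
        funext x; rfl
      rw [this, LinearIsometryEquiv.image_eq_preimage_symm]
      exact (actE i g⁻¹).symm.measurePreserving.measure_preimage hK.measurableSet.nullMeasurableSet
    simp only [e]
    rw [lintegral_const, measure_univ, mul_one]
    exact ENNReal.inv_le_inv.mpr hKR
  | succ m hm ih =>
    intro K hK hne R hR hKR
    have hm1 : 1 ≤ m := hi.trans hm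
    have hm0 : (0 : ℝ) < m := by positivity
    have hi0 : (0 : ℝ) < i := by positivity
    set p : ℝ := (i : ℝ) / m with hp
    have hp0 : 0 < p := by positivity
    have hp1 : p ≤ 1 := by
      rw [hp, div_le_one hm0]
      exact_mod_cast hm
    have hcomp : ∀ g : OG (m + 1), IsCompact (Pg g '' K) := fun g =>
      hK.image (continuous_Pg.comp (continuous_const.prodMk continuous_id))
    have hav := average (m := m) (F := fun g => (volume (QQ (hm.trans (Nat.le_succ m)) g '' K))⁻¹)
      (measurable_vol (continuous_QQ _) hK).inv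
    have hset : ∀ (g : OG (m + 1)) (k : OG m), QQ (hm.trans (Nat.le_succ m)) (g * emb k) '' K =
        QQ hm k '' (Pg g '' K) := by
      intro g k
      rw [image_image]
      congr 1
      funext x
      exact QQ_emb hm g k x
    simp only [hset] at hav
    refine hav.trans_le ?_
    have h1 : ∀ g : OG (m + 1), ∫⁻ k, (volume (QQ hm k '' (Pg g '' K)))⁻¹ ∂(muO m) ≤
        (kap i)⁻¹ * (kap m ^ p * ((volume (Pg g '' K))⁻¹) ^ p) := by
      intro g
      by_cases hv : volume (Pg g '' K) = 0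
      · rw [hv, ENNReal.inv_zero, ENNReal.top_rpow_of_pos hp0, ENNReal.mul_top, ENNReal.mul_top]
        · exact le_top
        · exact ENNReal.inv_ne_zero.mpr (kap_ne_top i)
        · intro h0
          rw [ENNReal.rpow_eq_zero_iff_of_pos hp0] at h0
          exact kap_ne_zero m h0
      · obtain ⟨Rg, hRg, hRv⟩ := exists_radius hm1 hv (hcomp g).measure_lt_top.ne
        have := ih (Pg g '' K) (hcomp g) (hne.image _) Rg hRg hRv.le
        rw [radial_rel hm1 hRg, hRv, G_eq i m hp0.le] at this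
        exact this
    have mv : Measurable (fun g : OG (m + 1) => (volume (Pg g '' K))⁻¹) :=
      (measurable_vol (q := Pg) continuous_Pg hK).inv
    calc ∫⁻ g, (∫⁻ k, (volume (QQ hm k '' (Pg g '' K)))⁻¹ ∂(muO m)) ∂(muO (m + 1))
        ≤ ∫⁻ g, (kap i)⁻¹ * (kap m ^ p * ((volume (Pg g '' K))⁻¹) ^ p) ∂(muO (m + 1)) :=
          lintegral_mono h1
      _ = (kap i)⁻¹ * (kap m ^ p * ∫⁻ g, ((volume (Pg g '' K))⁻¹) ^ p ∂(muO (m + 1))) := by
          rw [lintegral_const_mul _ ((mv.pow_const p).const_mul _),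
            lintegral_const_mul _ (mv.pow_const p)]
      _ ≤ (kap i)⁻¹ * (kap m ^ p * (∫⁻ g, (volume (Pg g '' K))⁻¹ ∂(muO (m + 1))) ^ p) := by
          gcongr
          exact jensen _ mv hp0 hp1
      _ ≤ (kap i)⁻¹ * (kap m ^ p * ((volume (Metric.ball (0 : EE m) R))⁻¹) ^ p) := by
          gcongr
          exact hyper hm1 hK hne hR hKR
      _ = _ := by
          rw [← G_eq i m hp0.le, radial_rel (i := i) hm1 hR]

end Pool.Agent.H68.Cap
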